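import Pool.Agent.Lib.MP_6e2ba5_an.Ex.SymN

/-! # The symbol on the negative axis in `L²`

`int_dec`: `∫ (‖ζ‖+t)^(-p) dζ = t^(3-p) ∫ (‖ζ‖+1)^(-p) dζ` by the scaling `ζ = t ζ'`, and the last integral is
finite for `p > 3` (`integrable_one_add_norm` / `finite_integral_one_add_norm`).
`mN_L2`: `mN_bound` squared, `p = 4s > 3`.
`mN_shift`: `|1/(b'-z) - 1/(b-z)| = |b-b'| |mN(ζ-h)| |mN(ζ)|`, `b = (2π‖ζ‖)^(2s)`, `b' = (2π‖ζ-h‖)^(2s)`. For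
`x, y ≥ 0`, `|x^(2s) - y^(2s)| ≤ 2s max(x,y)^(2s-1) |x-y|` (mean value), so
`|b-b'| ≤ C (‖ζ‖+H)^(2s-1) H`. With `t ≥ 1`: `‖ζ‖ + H ≤ (1+H)(‖ζ‖+t)` and
`‖ζ-h‖ + t ≥ (‖ζ‖+t)/(1+H)`. Hence the difference is `≤ C (‖ζ‖+t)^(2s-1-4s) = C (‖ζ‖+t)^(-2s-1)`; square and
`int_dec` with `p = 4s+2`: `t^(3-4s-2) = t^(1-4s)`.
`mN_diff`: `|mN s t ζ - mN s t' ζ| = |z-z'| |mN s t ζ| |mN s t' ζ|`, `z = t^(2s) e^(2πis)`,
`|z-z'| = |t^(2s) - t'^(2s)| ≤ C t^(2s-1)` for `|t-t'| ≤ 7`, `t, t' ≥ 1`, and `t' ≥ t/8`; again `≤ C(‖ζ‖+t)^(-2s-1)`. -/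

set_option autoImplicit false

open MeasureTheory Filter Topology Set
open scoped FourierTransform SchwartzMap InnerProductSpace ENNReal BoundedContinuousFunction

noncomputable section

namespace FracScatC

open FracScat

theorem int_dec {p : ℝ} (hp : 3 < p) : ∃ C : ℝ, 0 ≤ C ∧ ∀ t : ℝ, 0 < t →
    ∫⁻ ζ : E3, ENNReal.ofReal ((‖ζ‖ + t) ^ (-p)) ≤ ENNReal.ofReal (C * t ^ (3 - p)) := by
  have hfr : (Module.finrank ℝ E3 : ℝ) < p := by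
    rw [finrank_euclideanSpace_fin]
    exact_mod_cast hp
  have hfin : ∫⁻ ζ : E3, ENNReal.ofReal ((1 + ‖ζ‖) ^ (-p)) < ⊤ :=
    finite_integral_one_add_norm hfr
  refine ⟨(∫⁻ ζ : E3, ENNReal.ofReal ((1 + ‖ζ‖) ^ (-p))).toReal, ENNReal.toReal_nonneg,
    fun t ht => ?_⟩
  have hme : Measurable fun ζ : E3 => ENNReal.ofReal ((‖ζ‖ + t) ^ (-p)) := by
    fun_prop
  have h3 : Measure.map (fun ζ : E3 => t⁻¹ • ζ) volume =
      ENNReal.ofReal (t ^ 3) • (volume : Measure E3) := by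
    rw [Measure.map_addHaar_smul volume (inv_ne_zero ht.ne'), finrank_euclideanSpace_fin,
      inv_pow, inv_inv, abs_of_pos (pow_pos ht 3)]
  have hme2 : Measurable fun ζ : E3 => ENNReal.ofReal ((‖t • ζ‖ + t) ^ (-p)) := by
    fun_prop
  have h4 : ∫⁻ ζ : E3, ENNReal.ofReal ((‖ζ‖ + t) ^ (-p)) =
      ENNReal.ofReal (t ^ 3) * ∫⁻ ζ : E3, ENNReal.ofReal ((‖t • ζ‖ + t) ^ (-p)) := by
    rw [← smul_eq_mul, ← lintegral_smul_measure, ← h3,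
      lintegral_map hme2 (measurable_const_smul t⁻¹)]
    refine lintegral_congr fun ζ => ?_
    rw [smul_smul, mul_inv_cancel₀ ht.ne', one_smul]
  have h5 : ∀ ζ : E3, ENNReal.ofReal ((‖t • ζ‖ + t) ^ (-p)) =
      ENNReal.ofReal (t ^ (-p)) * ENNReal.ofReal ((1 + ‖ζ‖) ^ (-p)) := by
    intro ζ
    rw [← ENNReal.ofReal_mul (Real.rpow_nonneg ht.le _), ← Real.mul_rpow ht.le (by positivity),
      norm_smul, Real.norm_of_nonneg ht.le]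
    congr 2
    ring
  rw [h4, lintegral_congr h5, lintegral_const_mul _ (by fun_prop), ← mul_assoc,
    ← ENNReal.ofReal_mul (by positivity)]
  conv_lhs => rw [← ENNReal.ofReal_toReal hfin.ne]
  rw [← ENNReal.ofReal_mul (by positivity)]
  apply ENNReal.ofReal_le_ofReal
  have h6 : t ^ 3 * t ^ (-p) = t ^ (3 - p) := by
    rw [← Real.rpow_natCast t 3, ← Real.rpow_add ht]
    congr 1
  rw [h6, mul_comm]

/-- square bound from a pointwise bound -/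
private theorem sq_bound {F : E3 → ℂ} {K C t p : ℝ}
    (hC : ∫⁻ ζ : E3, ENNReal.ofReal ((‖ζ‖ + t) ^ (-(2 * p))) ≤ ENNReal.ofReal (C * t ^ (3 - 2 * p)))
    (ht : 0 < t) (hF : ∀ ζ : E3, ‖F ζ‖ ≤ K * (‖ζ‖ + t) ^ (-p)) :
    ∫⁻ ζ, ‖F ζ‖ₑ ^ 2 ≤ ENNReal.ofReal (K ^ 2 * C * t ^ (3 - 2 * p)) := by
  have h1 : ∀ ζ : E3, ‖F ζ‖ₑ ^ 2 ≤
      ENNReal.ofReal (K ^ 2) * ENNReal.ofReal ((‖ζ‖ + t) ^ (-(2 * p))) := by
    intro ζ
    have hpos : 0 < ‖ζ‖ + t := by positivity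
    rw [← ENNReal.ofReal_mul (by positivity), ← ofReal_norm,
      ← ENNReal.ofReal_pow (norm_nonneg _)]
    apply ENNReal.ofReal_le_ofReal
    have h2 := pow_le_pow_left₀ (norm_nonneg _) (hF ζ) 2
    refine h2.trans (le_of_eq ?_)
    rw [mul_pow, ← Real.rpow_natCast ((‖ζ‖ + t) ^ (-p)) 2, ← Real.rpow_mul hpos.le]
    congr 2
    push_cast
    ring
  calc ∫⁻ ζ, ‖F ζ‖ₑ ^ 2
      ≤ ∫⁻ ζ : E3, ENNReal.ofReal (K ^ 2) * ENNReal.ofReal ((‖ζ‖ + t) ^ (-(2 * p))) :=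
        lintegral_mono h1
    _ = ENNReal.ofReal (K ^ 2) * ∫⁻ ζ : E3, ENNReal.ofReal ((‖ζ‖ + t) ^ (-(2 * p))) := by
        rw [lintegral_const_mul _ (by fun_prop)]
    _ ≤ ENNReal.ofReal (K ^ 2) * ENNReal.ofReal (C * t ^ (3 - 2 * p)) := by gcongr
    _ = ENNReal.ofReal (K ^ 2 * C * t ^ (3 - 2 * p)) := by
        rw [← ENNReal.ofReal_mul (by positivity), mul_assoc]

private theorem mN_L2_aux {s : ℝ} (h0 : 3 / 4 < s) (h1 : s < 1) : ∃ C : ℝ, 0 ≤ C ∧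
    ∀ t : ℝ, 0 < t → ∫⁻ ζ, ‖mN s t ζ‖ₑ ^ 2 ≤ ENNReal.ofReal (C * t ^ (3 - 4 * s)) := by
  obtain ⟨K, hK, hb⟩ := mN_bound (s := s) (by linarith) h1
  obtain ⟨C, hC, hi⟩ := int_dec (p := 2 * (2 * s)) (by linarith)
  refine ⟨K ^ 2 * C, by positivity, fun t ht => ?_⟩
  have h2 := sq_bound (F := mN s t) (p := 2 * s) (hi t ht) ht (hb t ht)
  have e : 3 - 2 * (2 * s) = 3 - 4 * s := by ring
  rw [e] at h2
  exact h2

theorem mN_memLp {s : ℝ} (h0 : 3 / 4 < s) (h1 : s < 1) {t : ℝ} (ht : 0 < t) :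
    MemLp (mN s t) 2 (volume : Measure E3) := by
  obtain ⟨C, hC, h⟩ := mN_L2_aux h0 h1
  refine ⟨(mN_measurable s t).aestronglyMeasurable, ?_⟩
  rw [eLpNorm_lt_top_iff_lintegral_rpow_enorm_lt_top (by norm_num) (by norm_num)]
  have h2 := h t ht
  refine lt_of_le_of_lt ?_ (lt_of_le_of_lt h2 ENNReal.ofReal_lt_top)
  refine le_of_eq (lintegral_congr fun ζ => ?_)
  norm_num

theorem mN_L2 {s : ℝ} (h0 : 3 / 4 < s) (h1 : s < 1) : ∃ C : ℝ, 0 ≤ C ∧ ∀ t : ℝ, 0 < t →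
    ∫⁻ ζ, ‖mN s t ζ‖ₑ ^ 2 ≤ ENNReal.ofReal (C * t ^ (3 - 4 * s)) := by
  exact mN_L2_aux h0 h1

theorem norm_mNH_le {s : ℝ} (h0 : 3 / 4 < s) (h1 : s < 1) : ∃ C : ℝ, 0 ≤ C ∧ ∀ t : ℝ, 0 < t →
    ‖mNH s t‖ ≤ C * t ^ (3 / 2 - 2 * s) := by
  obtain ⟨C, hC, h⟩ := mN_L2_aux h0 h1
  refine ⟨Real.sqrt C, Real.sqrt_nonneg _, fun t ht => ?_⟩
  have hm := mN_memLp h0 h1 ht
  have h2 : ‖mNH s t‖ = (eLpNorm (mN s t) 2 (volume : Measure E3)).toReal := by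
    rw [mNH, dif_pos hm, Lp.norm_toLp]
  have h3 : eLpNorm (mN s t) 2 (volume : Measure E3) =
      (∫⁻ ζ, ‖mN s t ζ‖ₑ ^ 2) ^ (1 / 2 : ℝ) := by
    rw [eLpNorm_eq_lintegral_rpow_enorm_toReal (by norm_num) (by norm_num)]
    norm_num
  have h4 : eLpNorm (mN s t) 2 (volume : Measure E3) ≤
      ENNReal.ofReal (Real.sqrt C * t ^ (3 / 2 - 2 * s)) := by
    rw [h3]
    refine (ENNReal.rpow_le_rpow (h t ht) (by norm_num)).trans (le_of_eq ?_)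
    rw [ENNReal.ofReal_rpow_of_nonneg (by positivity) (by norm_num),
      Real.mul_rpow hC (by positivity), ← Real.sqrt_eq_rpow, ← Real.rpow_mul ht.le]
    congr 3
    ring
  rw [h2]
  exact ENNReal.toReal_le_of_le_ofReal (by positivity) h4

/-- mean value bound for powers -/
private theorem pw_rpow {x y m σ : ℝ} (h1 : 1 ≤ σ) (hx : 0 ≤ x) (hy : 0 ≤ y) (hxm : x ≤ m)
    (hym : y ≤ m) : |x ^ σ - y ^ σ| ≤ σ * m ^ (σ - 1) * |x - y| := by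
  have h := Convex.norm_image_sub_le_of_norm_hasDerivWithin_le (f := fun z : ℝ => z ^ σ)
    (f' := fun z : ℝ => σ * z ^ (σ - 1)) (C := σ * m ^ (σ - 1)) (s := Set.Icc 0 m)
    (fun z _ => (Real.hasDerivAt_rpow_const (Or.inr h1)).hasDerivWithinAt) (fun z hz => by
      have hz0 : 0 ≤ z := hz.1
      rw [Real.norm_of_nonneg (by positivity)]
      gcongr
      exact hz.2) (convex_Icc 0 m) (x := y) (y := x) ⟨hy, hym⟩ ⟨hx, hxm⟩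
  simpa [Real.norm_eq_abs] using h

private theorem den_ne {s : ℝ} (h0 : 1 / 2 < s) (h1 : s < 1) {t : ℝ} (ht : 0 < t) {a : ℝ}
    (ha : 0 ≤ a) : ((a ^ (2 * s) : ℝ) : ℂ) - ((-t : ℝ) : ℂ) ^ ((2 * s : ℝ) : ℂ) ≠ 0 := by
  obtain ⟨c, hc, hb⟩ := symN h0 h1
  have hmem : ((-t : ℝ) : ℂ) ∈ Sec2 := by
    refine ⟨?_, ?_, ?_⟩
    · simp [ht.le]
    · simp
    · rw [Ne, Complex.ofReal_eq_zero]
      linarith
  have h2 := hb _ hmem a ha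
  rw [Complex.norm_real, Real.norm_eq_abs, abs_neg, abs_of_pos ht] at h2
  have h3 : 0 < c * (a ^ (2 * s) + t ^ (2 * s)) := by positivity
  intro h4
  rw [h4, norm_zero] at h2
  linarith

private theorem mN_sub_aux {s : ℝ} (h0 : 1 / 2 < s) (h1 : s < 1) {t t' : ℝ} (ht : 0 < t)
    (ht' : 0 < t') {ζ ζ' : E3} : mN s t ζ' - mN s t' ζ =
      ((((2 * Real.pi * ‖ζ‖) ^ (2 * s) : ℝ) : ℂ) - ((-t' : ℝ) : ℂ) ^ ((2 * s : ℝ) : ℂ) -
        ((((2 * Real.pi * ‖ζ'‖) ^ (2 * s) : ℝ) : ℂ) - ((-t : ℝ) : ℂ) ^ ((2 * s : ℝ) : ℂ))) *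
        mN s t ζ' * mN s t' ζ := by
  have hpi := Real.pi_pos
  have n1 := den_ne h0 h1 ht (a := 2 * Real.pi * ‖ζ'‖) (by positivity)
  have n2 := den_ne h0 h1 ht' (a := 2 * Real.pi * ‖ζ‖) (by positivity)
  have hgen : ∀ A B : ℂ, A ≠ 0 → B ≠ 0 → 1 / A - 1 / B = (B - A) * (1 / A) * (1 / B) := by
    intro A B hA hB
    field_simp
  exact hgen _ _ n1 n2

theorem mN_shift {s : ℝ} (h0 : 3 / 4 < s) (h1 : s < 1) {H : ℝ} (hH : 0 ≤ H) :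
    ∃ C : ℝ, 0 ≤ C ∧ ∀ t : ℝ, 1 ≤ t → ∀ h : E3, ‖h‖ ≤ H →
      ∫⁻ ζ, ‖mN s t (ζ - h) - mN s t ζ‖ₑ ^ 2 ≤ ENNReal.ofReal (C * t ^ (1 - 4 * s)) := by
  obtain ⟨K, hK, hb⟩ := mN_bound (s := s) (by linarith) h1
  obtain ⟨C, hC, hi⟩ := int_dec (p := 2 * (2 * s + 1)) (by linarith)
  have hpi := Real.pi_pos
  refine ⟨(2 * s * (2 * Real.pi * (1 + H)) ^ (2 * s - 1) * (2 * Real.pi * H) * (K * (1 + H) ^ (2 * s)) *
    K) ^ 2 * C, by positivity, fun t ht h hh => ?_⟩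
  have ht0 : 0 < t := by linarith
  have key : ∀ ζ : E3, ‖mN s t (ζ - h) - mN s t ζ‖ ≤
      (2 * s * (2 * Real.pi * (1 + H)) ^ (2 * s - 1) * (2 * Real.pi * H) *
        (K * (1 + H) ^ (2 * s)) * K) * (‖ζ‖ + t) ^ (-(2 * s + 1)) := by
    intro ζ
    have hpos : 0 < ‖ζ‖ + t := by positivity
    have hn1 : ‖ζ - h‖ ≤ ‖ζ‖ + H := (norm_sub_le _ _).trans (by linarith)
    have hn2 : ‖ζ‖ ≤ ‖ζ - h‖ + H := by
      have h3 := norm_add_le (ζ - h) h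
      rw [sub_add_cancel] at h3
      linarith
    rw [mN_sub_aux (by linarith) h1 ht0 ht0, norm_mul, norm_mul]
    have hz : (((2 * Real.pi * ‖ζ‖) ^ (2 * s) : ℝ) : ℂ) - ((-t : ℝ) : ℂ) ^ ((2 * s : ℝ) : ℂ) -
        ((((2 * Real.pi * ‖ζ - h‖) ^ (2 * s) : ℝ) : ℂ) - ((-t : ℝ) : ℂ) ^ ((2 * s : ℝ) : ℂ)) =
        (((2 * Real.pi * ‖ζ‖) ^ (2 * s) - (2 * Real.pi * ‖ζ - h‖) ^ (2 * s) : ℝ) : ℂ) := by
      push_cast
      ring
    rw [hz, Complex.norm_real, Real.norm_eq_abs]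
    have hmv := pw_rpow (σ := 2 * s) (m := 2 * Real.pi * (‖ζ‖ + H)) (by linarith)
      (show 0 ≤ 2 * Real.pi * ‖ζ‖ by positivity) (show 0 ≤ 2 * Real.pi * ‖ζ - h‖ by positivity)
      (by nlinarith [norm_nonneg ζ]) (by nlinarith [norm_nonneg ζ])
    have hd : |2 * Real.pi * ‖ζ‖ - 2 * Real.pi * ‖ζ - h‖| ≤ 2 * Real.pi * H := by
      rw [← mul_sub, abs_mul, abs_of_pos (by positivity)]
      have h3 : |‖ζ‖ - ‖ζ - h‖| ≤ H := abs_le.2 ⟨by linarith, by linarith⟩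
      gcongr
    have hm1 : (2 * Real.pi * (‖ζ‖ + H)) ^ (2 * s - 1) ≤
        (2 * Real.pi * (1 + H)) ^ (2 * s - 1) * (‖ζ‖ + t) ^ (2 * s - 1) := by
      rw [← Real.mul_rpow (by positivity) hpos.le]
      apply Real.rpow_le_rpow (by positivity) _ (by linarith)
      have h3 : ‖ζ‖ + H ≤ (1 + H) * (‖ζ‖ + t) := by nlinarith [norm_nonneg ζ, mul_nonneg hH (norm_nonneg ζ)]
      calc 2 * Real.pi * (‖ζ‖ + H) ≤ 2 * Real.pi * ((1 + H) * (‖ζ‖ + t)) := by gcongr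
        _ = 2 * Real.pi * (1 + H) * (‖ζ‖ + t) := by ring
    have hb1 : ‖mN s t (ζ - h)‖ ≤ K * (1 + H) ^ (2 * s) * (‖ζ‖ + t) ^ (-(2 * s)) := by
      refine (hb t ht0 (ζ - h)).trans ?_
      rw [mul_assoc]
      refine mul_le_mul_of_nonneg_left ?_ hK
      have h3 : ‖ζ‖ + t ≤ (1 + H) * (‖ζ - h‖ + t) := by
        nlinarith [norm_nonneg (ζ - h), mul_nonneg hH (norm_nonneg (ζ - h))]
      have hpos2 : 0 < ‖ζ - h‖ + t := by positivity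
      rw [Real.rpow_neg hpos2.le, Real.rpow_neg hpos.le, ← div_eq_mul_inv, inv_eq_one_div,
        div_le_div_iff₀ (by positivity) (by positivity), one_mul,
        ← Real.mul_rpow (by positivity) hpos2.le]
      exact Real.rpow_le_rpow hpos.le h3 (by linarith)
    have hb2 := hb t ht0 ζ
    have hexp : (‖ζ‖ + t) ^ (-(2 * s + 1)) =
        (‖ζ‖ + t) ^ (2 * s - 1) * (‖ζ‖ + t) ^ (-(2 * s)) * (‖ζ‖ + t) ^ (-(2 * s)) := by
      rw [← Real.rpow_add hpos, ← Real.rpow_add hpos]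
      congr 1
      ring
    calc |(2 * Real.pi * ‖ζ‖) ^ (2 * s) - (2 * Real.pi * ‖ζ - h‖) ^ (2 * s)| * ‖mN s t (ζ - h)‖ *
          ‖mN s t ζ‖
        ≤ (2 * s * ((2 * Real.pi * (1 + H)) ^ (2 * s - 1) * (‖ζ‖ + t) ^ (2 * s - 1)) *
          (2 * Real.pi * H)) * (K * (1 + H) ^ (2 * s) * (‖ζ‖ + t) ^ (-(2 * s))) *
          (K * (‖ζ‖ + t) ^ (-(2 * s))) := by
          have hA : |(2 * Real.pi * ‖ζ‖) ^ (2 * s) - (2 * Real.pi * ‖ζ - h‖) ^ (2 * s)| ≤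
              2 * s * ((2 * Real.pi * (1 + H)) ^ (2 * s - 1) * (‖ζ‖ + t) ^ (2 * s - 1)) *
              (2 * Real.pi * H) := by
            refine hmv.trans ?_
            gcongr
          gcongr
      _ = _ := by
          rw [hexp]
          ring
  have h2 := sq_bound (F := fun ζ => mN s t (ζ - h) - mN s t ζ) (p := 2 * s + 1)
    (hi t ht0) ht0 key
  have e : 3 - 2 * (2 * s + 1) = 1 - 4 * s := by ring
  rw [e] at h2
  exact h2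

private theorem neg_cpow_aux {t s : ℝ} (ht : 0 < t) :
    ((-t : ℝ) : ℂ) ^ ((2 * s : ℝ) : ℂ) =
      ((t ^ (2 * s) : ℝ) : ℂ) * Complex.exp (((2 * s * Real.pi : ℝ) : ℂ) * Complex.I) := by
  have hne : ((-t : ℝ) : ℂ) ≠ 0 := by
    rw [Ne, Complex.ofReal_eq_zero]
    linarith
  rw [Complex.cpow_def_of_ne_zero hne, Complex.ofReal_cpow ht.le,
    Complex.cpow_def_of_ne_zero (Complex.ofReal_ne_zero.2 ht.ne'), ← Complex.exp_add]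
  congr 1
  have h3 : Complex.log ((-t : ℝ) : ℂ) = Complex.log (t : ℂ) + Real.pi * Complex.I := by
    rw [Complex.ofReal_neg]
    have h4 := Complex.log_ofReal_mul (r := t) ht (x := -1) (by norm_num)
    rw [mul_neg_one] at h4
    rw [h4, Complex.log_neg_one, Complex.ofReal_log ht.le]
  rw [h3]
  push_cast
  ring

theorem mN_diff {s : ℝ} (h0 : 3 / 4 < s) (h1 : s < 1) :
    ∃ C : ℝ, 0 ≤ C ∧ ∀ t t' : ℝ, 1 ≤ t → 1 ≤ t' → |t - t'| ≤ 7 →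
      ∫⁻ ζ, ‖mN s t ζ - mN s t' ζ‖ₑ ^ 2 ≤ ENNReal.ofReal (C * t ^ (1 - 4 * s)) := by
  obtain ⟨K, hK, hb⟩ := mN_bound (s := s) (by linarith) h1
  obtain ⟨C, hC, hi⟩ := int_dec (p := 2 * (2 * s + 1)) (by linarith)
  refine ⟨(2 * s * 8 ^ (2 * s - 1) * 7 * K * (K * 8 ^ (2 * s))) ^ 2 * C, by positivity,
    fun t t' ht ht' htt => ?_⟩
  have ht0 : 0 < t := by linarith
  have ht0' : 0 < t' := by linarith
  rw [abs_le] at htt
  have key : ∀ ζ : E3, ‖mN s t ζ - mN s t' ζ‖ ≤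
      (2 * s * 8 ^ (2 * s - 1) * 7 * K * (K * 8 ^ (2 * s))) * (‖ζ‖ + t) ^ (-(2 * s + 1)) := by
    intro ζ
    have hpos : 0 < ‖ζ‖ + t := by positivity
    rw [mN_sub_aux (by linarith) h1 ht0 ht0', norm_mul, norm_mul]
    have hz : (((2 * Real.pi * ‖ζ‖) ^ (2 * s) : ℝ) : ℂ) - ((-t' : ℝ) : ℂ) ^ ((2 * s : ℝ) : ℂ) -
        ((((2 * Real.pi * ‖ζ‖) ^ (2 * s) : ℝ) : ℂ) - ((-t : ℝ) : ℂ) ^ ((2 * s : ℝ) : ℂ)) =
        ((t ^ (2 * s) - t' ^ (2 * s) : ℝ) : ℂ) *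
          Complex.exp (((2 * s * Real.pi : ℝ) : ℂ) * Complex.I) := by
      rw [neg_cpow_aux ht0, neg_cpow_aux ht0']
      push_cast
      ring
    rw [hz, norm_mul, Complex.norm_exp_ofReal_mul_I, mul_one, Complex.norm_real,
      Real.norm_eq_abs]
    have hmv := pw_rpow (σ := 2 * s) (m := 8 * t) (x := t) (y := t') (by linarith) ht0.le ht0'.le
      (by linarith) (by linarith)
    have hm1 : (8 * t) ^ (2 * s - 1) ≤ 8 ^ (2 * s - 1) * (‖ζ‖ + t) ^ (2 * s - 1) := by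
      rw [← Real.mul_rpow (by norm_num) hpos.le]
      apply Real.rpow_le_rpow (by positivity) _ (by linarith)
      linarith [norm_nonneg ζ]
    have hb1 := hb t ht0 ζ
    have hb2 : ‖mN s t' ζ‖ ≤ K * 8 ^ (2 * s) * (‖ζ‖ + t) ^ (-(2 * s)) := by
      refine (hb t' ht0' ζ).trans ?_
      rw [mul_assoc]
      refine mul_le_mul_of_nonneg_left ?_ hK
      have h3 : ‖ζ‖ + t ≤ 8 * (‖ζ‖ + t') := by linarith [norm_nonneg ζ, htt.2]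
      have hpos2 : 0 < ‖ζ‖ + t' := by positivity
      rw [Real.rpow_neg hpos2.le, Real.rpow_neg hpos.le, ← div_eq_mul_inv, inv_eq_one_div,
        div_le_div_iff₀ (by positivity) (by positivity), one_mul,
        ← Real.mul_rpow (by positivity) hpos2.le]
      exact Real.rpow_le_rpow hpos.le h3 (by linarith)
    have hexp : (‖ζ‖ + t) ^ (-(2 * s + 1)) =
        (‖ζ‖ + t) ^ (2 * s - 1) * (‖ζ‖ + t) ^ (-(2 * s)) * (‖ζ‖ + t) ^ (-(2 * s)) := by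
      rw [← Real.rpow_add hpos, ← Real.rpow_add hpos]
      congr 1
      ring
    have hA : |t ^ (2 * s) - t' ^ (2 * s)| ≤
        2 * s * (8 ^ (2 * s - 1) * (‖ζ‖ + t) ^ (2 * s - 1)) * 7 := by
      refine hmv.trans ?_
      have h3 : |t - t'| ≤ 7 := abs_le.2 htt
      gcongr
    calc |t ^ (2 * s) - t' ^ (2 * s)| * ‖mN s t ζ‖ * ‖mN s t' ζ‖
        ≤ (2 * s * (8 ^ (2 * s - 1) * (‖ζ‖ + t) ^ (2 * s - 1)) * 7) *
          (K * (‖ζ‖ + t) ^ (-(2 * s))) * (K * 8 ^ (2 * s) * (‖ζ‖ + t) ^ (-(2 * s))) := by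
          gcongr
      _ = _ := by
          rw [hexp]
          ring
  have h2 := sq_bound (F := fun ζ => mN s t ζ - mN s t' ζ) (p := 2 * s + 1)
    (hi t ht0) ht0 key
  have e : 3 - 2 * (2 * s + 1) = 1 - 4 * s := by ring
  rw [e] at h2
  exact h2

end FracScatC

end
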