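import Pool.Agent.Lib.MP_6e2ba5_an.Ex.IdentN
import Pool.Agent.Lib.MP_6e2ba5_an.Ex.SymNB
import Pool.Agent.Lib.MP_6e2ba5_an.Cx.UCont
import Pool.Agent.Lib.MP_6e2ba5_an.Cx.MulB

/-! # The analytic family of densities on the negative axis

`mNH_cont`: `mNH s` is continuous on `(0,∞)`: `‖mNH s t - mNH s t'‖² = ∫⁻ ‖mN s t - mN s t'‖² `, dominated
convergence with `mN_bound` (`mN s t ζ → mN s t' ζ` for every `ζ`, and `‖mN s t ζ‖ ≤ C (‖ζ‖+t'/2)^(-2s)` for `t`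
near `t'`), or the explicit estimate in the docstring of `SymNB`. `PLN_cont`: `prodL` is continuous.
`MopK_cont`: `Mop_cont` and the continuity of `km`.
`HfN_family`: copy the proof of `Hf_family` (`Cx/HfFam.lean`): the family
`h z ξ = PLN s ξ (mulL (zV) (UN s r (zV) ξ))`, `UN = (1 - z T_ξ)⁻¹ e_ξ`, `T_ξ = Tm s r V (km ξ)`, is the sum of a
power series in `z`, uniformly in `ξ`, on `‖z‖ < ρ`, as `‖z‖‖T_ξ‖ ≤ 1/2`; boundedness of `ξ ↦ PLN s ξ` on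
`‖ξ‖ ≥ N ≥ 1`: `norm_PLN_le`, `norm_mNH_le` (`3/2 - 2s < 0`). The Sobolev bound used in `Hf_family` is not
needed here. -/

set_option autoImplicit false

open MeasureTheory Filter Topology Set
open scoped FourierTransform SchwartzMap InnerProductSpace ENNReal BoundedContinuousFunction

noncomputable section

namespace FracScatC

open FracScat

private theorem hn_z_cont (s : ℝ) :
    ContinuousOn (fun t : ℝ => ((-t : ℝ) : ℂ) ^ ((2 * s : ℝ) : ℂ)) (Ioi 0) := by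
  have h : ContinuousOn (fun t : ℝ => ((t ^ (2 * s) : ℝ) : ℂ) *
      Complex.exp (Real.pi * Complex.I * ((2 * s : ℝ) : ℂ))) (Ioi 0) := by
    refine ContinuousOn.mul ?_ continuousOn_const
    refine Complex.continuous_ofReal.comp_continuousOn ?_
    intro t ht
    exact (Real.continuousAt_rpow_const _ _ (Or.inl (ne_of_gt ht))).continuousWithinAt
  refine h.congr fun t ht => ?_
  have ht' : (0 : ℝ) < t := ht
  have h1 := Complex.ofReal_cpow_of_nonpos (x := -t) (by linarith) ((2 * s : ℝ) : ℂ)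
  have h2 : (-((-t : ℝ) : ℂ)) = (t : ℂ) := by
    push_cast
    ring
  beta_reduce
  rw [h1, h2, Complex.ofReal_cpow ht'.le]

private theorem hn_diff (s t t' : ℝ) (ζ : E3) (hb : mN s t ζ ≠ 0) (hb' : mN s t' ζ ≠ 0) :
    mN s t' ζ - mN s t ζ = (((-t' : ℝ) : ℂ) ^ ((2 * s : ℝ) : ℂ) -
      ((-t : ℝ) : ℂ) ^ ((2 * s : ℝ) : ℂ)) * mN s t' ζ * mN s t ζ := by
  unfold mN rsE rs at *
  have e1 : ((((2 * Real.pi * ‖ζ‖) ^ (2 * s) : ℝ) : ℂ) -
      ((-t : ℝ) : ℂ) ^ ((2 * s : ℝ) : ℂ)) ≠ 0 := by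
    intro h
    rw [h] at hb
    simp at hb
  have e2 : ((((2 * Real.pi * ‖ζ‖) ^ (2 * s) : ℝ) : ℂ) -
      ((-t' : ℝ) : ℂ) ^ ((2 * s : ℝ) : ℂ)) ≠ 0 := by
    intro h
    rw [h] at hb'
    simp at hb'
  field_simp
  ring

private theorem hn_ne {s : ℝ} (h0 : 1 / 2 < s) (h1 : s < 1) {t : ℝ} (ht : 0 < t) (ζ : E3) :
    mN s t ζ ≠ 0 := by
  obtain ⟨c, hc, H⟩ := symN h0 h1
  have hk : ((-t : ℝ) : ℂ) ∈ Sec2 := by
    refine ⟨?_, ?_, ?_⟩
    · rw [Complex.ofReal_re]; linarith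
    · rw [Complex.ofReal_im]
    · rw [Ne, Complex.ofReal_eq_zero]; linarith
  have h2 := H _ hk (2 * Real.pi * ‖ζ‖) (by positivity)
  have hnt : ‖((-t : ℝ) : ℂ)‖ = t := by
    rw [Complex.norm_real, norm_neg, Real.norm_of_nonneg ht.le]
  rw [hnt] at h2
  have h3 : 0 ≤ (2 * Real.pi * ‖ζ‖) ^ (2 * s) := by positivity
  have h4 : 0 < t ^ (2 * s) := Real.rpow_pos_of_pos ht _
  have h5 : 0 < c * ((2 * Real.pi * ‖ζ‖) ^ (2 * s) + t ^ (2 * s)) := by positivity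
  have h6 := norm_pos_iff.1 (h5.trans_le h2)
  unfold mN rsE rs
  exact one_div_ne_zero h6

theorem mNH_cont {s : ℝ} (h0 : 3 / 4 < s) (h1 : s < 1) : ContinuousOn (mNH s) (Ioi 0) := by
  intro t ht
  have ht0 : (0 : ℝ) < t := ht
  obtain ⟨C, hC, hB⟩ := mN_bound (s := s) (by linarith) h1
  have hev : ∀ᶠ t' in 𝓝[Ioi 0] t, t / 2 < t' ∧ 0 < t' := by
    have h3 : ∀ᶠ t' in 𝓝[Ioi 0] t, t' ∈ Ioi (t / 2) :=
      nhdsWithin_le_nhds (Ioi_mem_nhds (by linarith))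
    filter_upwards [h3, self_mem_nhdsWithin] with t' a b using ⟨a, b⟩
  have hz : Tendsto (fun t' : ℝ => ‖((-t' : ℝ) : ℂ) ^ ((2 * s : ℝ) : ℂ) -
      ((-t : ℝ) : ℂ) ^ ((2 * s : ℝ) : ℂ)‖ * (C * (t / 2) ^ (-(2 * s))) * ‖mNH s t‖)
      (𝓝[Ioi 0] t) (𝓝 0) := by
    have h3 := (hn_z_cont s t ht)
    have h4 : Tendsto (fun t' : ℝ => ‖((-t' : ℝ) : ℂ) ^ ((2 * s : ℝ) : ℂ) -
        ((-t : ℝ) : ℂ) ^ ((2 * s : ℝ) : ℂ)‖) (𝓝[Ioi 0] t) (𝓝 0) :=
      tendsto_iff_norm_sub_tendsto_zero.1 h3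
    have h5 := (h4.mul_const (C * (t / 2) ^ (-(2 * s)))).mul_const ‖mNH s t‖
    rwa [zero_mul, zero_mul] at h5
  refine tendsto_iff_norm_sub_tendsto_zero.2 ?_
  refine squeeze_zero' (Eventually.of_forall fun _ => norm_nonneg _) ?_ hz
  filter_upwards [hev] with t' ht'
  refine Lp.norm_le_mul_norm_of_ae_le_mul ?_
  filter_upwards [Lp.coeFn_sub (mNH s t') (mNH s t), mNH_coe (mN_memLp h0 h1 ht0),
    mNH_coe (mN_memLp h0 h1 ht'.2)] with ζ a b c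
  rw [a, Pi.sub_apply, b, c, hn_diff s t t' ζ (hn_ne (by linarith) h1 ht0 ζ)
    (hn_ne (by linarith) h1 ht'.2 ζ), norm_mul, norm_mul]
  refine mul_le_mul_of_nonneg_right ?_ (norm_nonneg _)
  refine mul_le_mul_of_nonneg_left ?_ (norm_nonneg _)
  refine (hB t' ht'.2 ζ).trans ?_
  refine mul_le_mul_of_nonneg_left ?_ hC
  refine Real.rpow_le_rpow_of_nonpos (by linarith) ?_ (by linarith)
  have := norm_nonneg ζ
  linarith [ht'.1]

theorem PLN_cont {s : ℝ} (h0 : 3 / 4 < s) (h1 : s < 1) : ContinuousOn (PLN s) {ξ | ξ ≠ 0} := by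
  have h3 : ContinuousOn (fun ξ : E3 => mNH s (2 * Real.pi * ‖ξ‖)) {ξ | ξ ≠ 0} := by
    refine (mNH_cont h0 h1).comp (by fun_prop) fun ξ hξ => ?_
    have hξ' : 0 < ‖ξ‖ := norm_pos_iff.2 hξ
    show 0 < 2 * Real.pi * ‖ξ‖
    positivity
  exact (prodL.continuous.comp_continuousOn h3).clm_comp continuousOn_const

private theorem hn_km : Continuous km := by
  unfold km
  fun_prop

theorem MopK_cont {s : ℝ} (h0 : 3 / 4 < s) (h1 : s < 1) (r : ℝ) :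
    ContinuousOn (fun ξ : E3 => Mop s r (km ξ)) {ξ | ξ ≠ 0} := by
  exact (Mop_cont (s := s) (by linarith) h1 r).comp hn_km.continuousOn
    fun ξ hξ => km_mem_Sec2 hξ

private theorem hn_Tm_smul {s r M : ℝ} {V : E3 → ℂ} (hV : IsPot r M V) (z k : ℂ) :
    Tm s r (fun x => z * V x) k = z • Tm s r V k := by
  unfold Tm
  rw [mulL_const_mul z hV.BM, ContinuousLinearMap.comp_smul]

private theorem hn_bound {ρ : ℝ} (hρ : 0 < ρ) {t : ℝ} (ht0 : 0 ≤ t)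
    (h : ∀ z : ℂ, ‖z‖ < ρ → ‖z‖ * t ≤ 1 / 2) : t ≤ 1 / (2 * ρ) := by
  by_contra hlt
  push Not at hlt
  have h1 : 1 < t * (2 * ρ) := by
    rwa [div_lt_iff₀ (by positivity)] at hlt
  have ht : 0 < t := by
    rcases ht0.lt_or_eq with h' | h'
    · exact h'
    · rw [← h'] at h1
      norm_num at h1
  set a : ℝ := (ρ + 1 / (2 * t)) / 2 with ha
  have ha0 : 0 ≤ a := by positivity
  have h3 : 1 / (2 * t) < ρ := by
    rw [div_lt_iff₀ (by positivity)]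
    linarith
  have h2 : ‖(a : ℂ)‖ = a := by
    rw [Complex.norm_real, Real.norm_of_nonneg ha0]
  have h4 := h (a : ℂ) (by rw [h2, ha]; linarith)
  rw [h2, ha] at h4
  have h5 : (ρ + 1 / (2 * t)) / 2 * t = (ρ * t + 1 / 2) / 2 := by
    field_simp
  rw [h5] at h4
  nlinarith

private theorem hn_ne0 {N : ℝ} (hN : 1 ≤ N) (ξ : Om N) : (ξ : E3) ≠ 0 := by
  intro h
  have h1 := ξ.2
  rw [h, norm_zero] at h1
  linarith

private theorem hn_pi {N : ℝ} (hN : 1 ≤ N) (ξ : Om N) : 1 ≤ 2 * Real.pi * ‖(ξ : E3)‖ := by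
  have h1 : 1 ≤ ‖(ξ : E3)‖ := hN.trans ξ.2
  have h2 : (3 : ℝ) < Real.pi := Real.pi_gt_three
  nlinarith

private theorem hn_TC {s : ℝ} (h0 : 3 / 4 < s) (h1 : s < 1) {r : ℝ} {V : E3 → ℂ}
    {N : ℝ} (hN : 1 ≤ N) : Continuous fun ξ : Om N => Tm s r V (km (ξ : E3)) := by
  have h1 : Continuous fun ξ : Om N => Mop s r (km (ξ : E3)) :=
    (MopK_cont h0 h1 r).comp_continuous continuous_subtype_val fun ξ => hn_ne0 hN ξ
  exact h1.clm_comp continuous_const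

private theorem hn_PC {s : ℝ} (h0 : 3 / 4 < s) (h1 : s < 1)
    {N : ℝ} (hN : 1 ≤ N) : Continuous fun ξ : Om N => PLN s (ξ : E3) :=
  (PLN_cont h0 h1).comp_continuous continuous_subtype_val fun ξ => hn_ne0 hN ξ

theorem HfN_family {s : ℝ} (h0 : 3 / 4 < s) (h1 : s < 1) {r : ℝ} (hr : 0 < r) {M : ℝ}
    {V : E3 → ℂ} (hV : IsPot r M V) {ρ : ℝ} (hρ : 0 < ρ) {N : ℝ} (hN : 1 ≤ N)
    (hT : ∀ z : ℂ, ‖z‖ < ρ → ∀ ξ : E3, N ≤ ‖ξ‖ → ‖Tm s r (fun x => z * V x) (km ξ)‖ ≤ 1 / 2) :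
    ∃ h : ℂ → (Om N →ᵇ L1), (∀ z : ℂ, ‖z‖ < ρ → ∀ ξ : Om N,
      h z ξ = HfN s r (fun x => z * V x) (ξ : E3)) ∧ DifferentiableOn ℂ h (Metric.ball 0 ρ) := by
  have hM : 0 ≤ M := hV.nonneg
  have hTb : ∀ ξ : Om N, ‖Tm s r V (km (ξ : E3))‖ ≤ 1 / (2 * ρ) := by
    intro ξ
    refine hn_bound hρ (norm_nonneg _) fun z hz => ?_
    have h1 := hT z hz (ξ : E3) ξ.2
    rwa [hn_Tm_smul hV, norm_smul] at h1
  obtain ⟨𝓣, h𝓣, h𝓣a⟩ := exists_mulB (fun ξ : Om N => Tm s r V (km (ξ : E3)))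
    (hn_TC h0 h1 hN) (by positivity) hTb
  have heC : Continuous fun ξ : Om N => eH r (ξ : E3) :=
    (eH_cont r).comp continuous_subtype_val
  set e : Om N →ᵇ HS := BoundedContinuousFunction.ofNormedAddCommGroup
    (fun ξ : Om N => eH r (ξ : E3)) heC ‖oneB r‖ (fun ξ => norm_eH_le r _) with he
  have hea : ∀ ξ : Om N, e ξ = eH r (ξ : E3) := fun ξ => rfl
  have hunit : ∀ z : ℂ, ‖z‖ < ρ → IsUnit (1 - z • 𝓣) := by
    intro z hz
    refine isUnit_one_sub_of_norm_lt_one ?_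
    rw [norm_smul]
    calc ‖z‖ * ‖𝓣‖ ≤ ‖z‖ * (1 / (2 * ρ)) := mul_le_mul_of_nonneg_left h𝓣 (norm_nonneg _)
      _ ≤ ρ * (1 / (2 * ρ)) := mul_le_mul_of_nonneg_right hz.le (by positivity)
      _ = 1 / 2 := by field_simp
      _ < 1 := by norm_num
  set u : ℂ → (Om N →ᵇ HS) := fun z => (Ring.inverse (1 - z • 𝓣)) e with hu
  have hueq : ∀ z : ℂ, ‖z‖ < ρ → ∀ ξ : Om N,
      u z ξ - z • Tm s r V (km (ξ : E3)) (u z ξ) = eH r (ξ : E3) := by
    intro z hz ξ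
    have h1 := Ring.mul_inverse_cancel _ (hunit z hz)
    have h3 : (1 - z • 𝓣) (u z) = e :=
      congrArg (fun A : (Om N →ᵇ HS) →L[ℂ] (Om N →ᵇ HS) => A e) h1
    have h4 : u z - z • 𝓣 (u z) = e := h3
    have h5 := congrArg (fun f : Om N →ᵇ HS => f ξ) h4
    have h6 : u z ξ - z • (𝓣 (u z) ξ) = eH r (ξ : E3) := h5
    rwa [h𝓣a] at h6
  have huU : ∀ z : ℂ, ‖z‖ < ρ → ∀ ξ : Om N, u z ξ = UN s r (fun x => z * V x) (ξ : E3) := by
    intro z hz ξ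
    have hun : IsUnit (1 - Tm s r (fun x => z * V x) (km (ξ : E3))) :=
      isUnit_one_sub_of_norm_lt_one (lt_of_le_of_lt (hT z hz (ξ : E3) ξ.2) (by norm_num))
    have h1 := Ring.inverse_mul_cancel _ hun
    have h3 : (1 - Tm s r (fun x => z * V x) (km (ξ : E3))) (u z ξ) = eH r (ξ : E3) := by
      rw [← hueq z hz ξ, hn_Tm_smul hV]
      rfl
    rw [UN, ← h3]
    have h4 := congrArg (fun A : HS →L[ℂ] HS => A (u z ξ)) h1
    exact h4.symm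
  have hudiff : DifferentiableOn ℂ u (Metric.ball 0 ρ) := by
    intro z hz
    have hz' : ‖z‖ < ρ := by rwa [mem_ball_zero_iff] at hz
    have h1 : DifferentiableWithinAt ℂ
        (fun z : ℂ => (1 : (Om N →ᵇ HS) →L[ℂ] (Om N →ᵇ HS)) - z • 𝓣) (Metric.ball 0 ρ) z :=
      (differentiableWithinAt_const _).sub (differentiableWithinAt_id.smul_const 𝓣)
    have h3 := h1.inverse (hunit z hz')
    exact h3.clm_apply (differentiableWithinAt_const _)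
  obtain ⟨C1, hC1, hP⟩ := norm_mNH_le h0 h1
  have hPC := hn_PC (N := N) h0 h1 hN
  have hQb : ∀ ξ : Om N, ‖PLN s (ξ : E3) ∘L mulL V‖ ≤ C1 * M := by
    intro ξ
    have hξ1 : 1 ≤ 2 * Real.pi * ‖(ξ : E3)‖ := hn_pi hN ξ
    have a1 : ‖PLN s (ξ : E3)‖ ≤ C1 := by
      refine ContinuousLinearMap.opNorm_le_bound _ hC1 fun f => ?_
      refine (norm_PLN_le s _ f).trans (mul_le_mul_of_nonneg_right ?_ (norm_nonneg _))
      refine (hP _ (by linarith)).trans ?_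
      have a2 := Real.rpow_le_one_of_one_le_of_nonpos hξ1 (show 3 / 2 - 2 * s ≤ 0 by linarith)
      calc C1 * (2 * Real.pi * ‖(ξ : E3)‖) ^ (3 / 2 - 2 * s) ≤ C1 * 1 :=
            mul_le_mul_of_nonneg_left a2 hC1
        _ = C1 := mul_one _
    exact (ContinuousLinearMap.opNorm_comp_le _ _).trans
      (mul_le_mul a1 (hV.norm_mulL hM) (norm_nonneg _) hC1)
  obtain ⟨Q, -, hQa⟩ := exists_mulB (fun ξ : Om N => PLN s (ξ : E3) ∘L mulL V)
    (hPC.clm_comp continuous_const) (by positivity) hQb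
  refine ⟨fun z => z • Q (u z), ?_, ?_⟩
  · intro z hz ξ
    have h4 : Q (u z) ξ = PLN s (ξ : E3) (mulL V (u z ξ)) := by
      rw [hQa]
      rfl
    change z • (Q (u z) ξ) = _
    rw [h4, HfN, ← huU z hz ξ, mulL_const_mul z hV.BM]
    have h5 : (z • mulL V) (u z ξ) = z • mulL V (u z ξ) := rfl
    rw [h5, map_smul]
  · exact differentiableOn_id.smul (Q.differentiable.comp_differentiableOn hudiff)

end FracScatC

end
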