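import Pool.Agent.Lib.MP_6e2ba5_an.Ex.IdentN
import Pool.Agent.Lib.MP_6e2ba5_an.Ex.SymNB

/-! # Bounds of the densities on the negative axis

`‖HfN s r V ξ‖ ≤ ‖mNH s (2π‖ξ‖)‖ ‖mulL V (UN ..)‖ ≤ C ‖ξ‖^(3/2-2s) M 2‖oneB r‖` (`norm_PLN_le`, `norm_mNH_le`,
`norm_UN_le`, `IsPot.norm_mulL`). Lipschitz: `U = UN s r V ξ`, `U' = UN s r V' ξ`,
`U - U' = Mop (V U - V' U') = Mop ((V-V') U) + Mop (V' (U-U'))`, `‖Mop V'‖ ≤ 1/2`, so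
`‖U-U'‖ ≤ 2 ‖Mop‖ δ 2‖oneB r‖` and `‖Mop s r (km ξ)‖ ≤ C` for `‖ξ‖ ≥ 1` (`Mop_norm`); then
`HfN V - HfN V' = PLN ((V-V') U) + PLN (V' (U-U'))`. Compare `Cx/UBnd.lean` (`Hf_bound`, `Hf_lip`). -/

set_option autoImplicit false

open MeasureTheory Filter Topology Set
open scoped FourierTransform SchwartzMap InnerProductSpace ENNReal BoundedContinuousFunction

noncomputable section

namespace FracScatC

open FracScat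

private lemma un_le (ξ : E3) : ‖ξ‖ ≤ 2 * Real.pi * ‖ξ‖ := by
  have := Real.pi_gt_three
  nlinarith [norm_nonneg ξ]

private lemma un_mNH {s : ℝ} (h0 : 3 / 4 < s) {C : ℝ} (hC : 0 ≤ C)
    (h : ∀ t : ℝ, 0 < t → ‖mNH s t‖ ≤ C * t ^ (3 / 2 - 2 * s)) {ξ : E3} (hξ : 1 ≤ ‖ξ‖) :
    ‖mNH s (2 * Real.pi * ‖ξ‖)‖ ≤ C * ‖ξ‖ ^ (-(2 * s - 3 / 2)) := by
  have hp := Real.pi_pos
  refine (h _ (by positivity)).trans (mul_le_mul_of_nonneg_left ?_ hC)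
  have e : -(2 * s - 3 / 2) = 3 / 2 - 2 * s := by ring
  rw [e]
  exact Real.rpow_le_rpow_of_nonpos (by linarith) (un_le ξ) (by linarith)

private lemma un_diff {s : ℝ} {r M δ : ℝ} {V V' : E3 → ℂ} {ξ : E3} (hV : IsPot r M V)
    (hV' : IsPot r M V') (hD : IsPot r δ (fun x => V x - V' x))
    (hT : ‖Tm s r V (km ξ)‖ ≤ 1 / 2) (hT' : ‖Tm s r V' (km ξ)‖ ≤ 1 / 2) :
    ‖UN s r V ξ - UN s r V' ξ‖ ≤ ‖Mop s r (km ξ)‖ * (δ * (4 * ‖oneB r‖)) := by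
  have h1 := UN_fix hT
  have h1' := UN_fix hT'
  have h2 : UN s r V ξ - UN s r V' ξ = Mop s r (km ξ) (mulL (fun x => V x - V' x) (UN s r V ξ)) +
      Tm s r V' (km ξ) (UN s r V ξ - UN s r V' ξ) := by
    have e1 : Tm s r V' (km ξ) (UN s r V ξ - UN s r V' ξ) =
        Mop s r (km ξ) (mulL V' (UN s r V ξ)) - Mop s r (km ξ) (mulL V' (UN s r V' ξ)) := by
      rw [map_sub]
      rfl
    have e2 : mulL (fun x => V x - V' x) (UN s r V ξ) =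
        mulL V (UN s r V ξ) - mulL V' (UN s r V ξ) := by
      rw [mulL_sub hV.BM hV'.BM]
      rfl
    rw [e1, e2, map_sub]
    have e3 : UN s r V ξ - UN s r V' ξ = Mop s r (km ξ) (mulL V (UN s r V ξ)) -
        Mop s r (km ξ) (mulL V' (UN s r V' ξ)) := by
      conv_lhs => rw [h1, h1']
      abel
    rw [e3]
    abel
  have h3 : ‖UN s r V ξ - UN s r V' ξ‖ ≤
      ‖Mop s r (km ξ) (mulL (fun x => V x - V' x) (UN s r V ξ))‖ +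
      ‖Tm s r V' (km ξ) (UN s r V ξ - UN s r V' ξ)‖ := by
    have := norm_add_le (Mop s r (km ξ) (mulL (fun x => V x - V' x) (UN s r V ξ)))
      (Tm s r V' (km ξ) (UN s r V ξ - UN s r V' ξ))
    rwa [← h2] at this
  have h4 : ‖Tm s r V' (km ξ) (UN s r V ξ - UN s r V' ξ)‖ ≤
      1 / 2 * ‖UN s r V ξ - UN s r V' ξ‖ :=
    ((Tm s r V' (km ξ)).le_opNorm _).trans (mul_le_mul_of_nonneg_right hT' (norm_nonneg _))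
  have h5 : ‖Mop s r (km ξ) (mulL (fun x => V x - V' x) (UN s r V ξ))‖ ≤
      ‖Mop s r (km ξ)‖ * (δ * (2 * ‖oneB r‖)) := by
    refine ((Mop s r (km ξ)).le_opNorm _).trans (mul_le_mul_of_nonneg_left ?_ (norm_nonneg _))
    refine ((mulL _).le_opNorm _).trans ?_
    exact mul_le_mul (hD.norm_mulL hD.nonneg) (norm_UN_le hT) (norm_nonneg _) hD.nonneg
  have h6 : ‖Mop s r (km ξ)‖ * (δ * (4 * ‖oneB r‖)) =
      2 * (‖Mop s r (km ξ)‖ * (δ * (2 * ‖oneB r‖))) := by ring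
  rw [h6]
  linarith

theorem HfN_bound {s : ℝ} (h0 : 3 / 4 < s) (h1 : s < 1) {r : ℝ} (hr : 0 < r) (M : ℝ) {N₀ : ℝ}
    (hN₀ : 1 ≤ N₀)
    (hT : ∀ V : E3 → ℂ, IsPot r M V → ∀ ξ : E3, N₀ ≤ ‖ξ‖ → ‖Tm s r V (km ξ)‖ ≤ 1 / 2) :
    ∃ C : ℝ, 0 ≤ C ∧ ∀ V : E3 → ℂ, IsPot r M V → ∀ ξ : E3, N₀ ≤ ‖ξ‖ →
      ‖HfN s r V ξ‖ ≤ C * ‖ξ‖ ^ (-(2 * s - 3 / 2)) := by
  obtain ⟨C₁, hC₁, H1⟩ := norm_mNH_le h0 h1
  refine ⟨C₁ * (|M| * (2 * ‖oneB r‖)), by positivity, ?_⟩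
  intro V hV ξ hξ
  have hM := hV.nonneg
  rw [abs_of_nonneg hM]
  have hξ1 : 1 ≤ ‖ξ‖ := hN₀.trans hξ
  have hTξ := hT V hV ξ hξ
  have h2 := norm_PLN_le s ξ (mulL V (UN s r V ξ))
  have h3 := un_mNH h0 hC₁ H1 hξ1
  have h4 : ‖mulL V (UN s r V ξ)‖ ≤ M * (2 * ‖oneB r‖) := by
    refine ((mulL V).le_opNorm _).trans ?_
    exact mul_le_mul (hV.norm_mulL hM) (norm_UN_le hTξ) (norm_nonneg _) hM
  have h5 : 0 ≤ C₁ * ‖ξ‖ ^ (-(2 * s - 3 / 2)) :=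
    mul_nonneg hC₁ (Real.rpow_nonneg (norm_nonneg _) _)
  calc ‖HfN s r V ξ‖ ≤ ‖mNH s (2 * Real.pi * ‖ξ‖)‖ * ‖mulL V (UN s r V ξ)‖ := h2
    _ ≤ (C₁ * ‖ξ‖ ^ (-(2 * s - 3 / 2))) * (M * (2 * ‖oneB r‖)) :=
        mul_le_mul h3 h4 (norm_nonneg _) h5
    _ = C₁ * (M * (2 * ‖oneB r‖)) * ‖ξ‖ ^ (-(2 * s - 3 / 2)) := by ring

theorem HfN_lip {s : ℝ} (h0 : 3 / 4 < s) (h1 : s < 1) {r : ℝ} (hr : 0 < r) (M : ℝ) {N₀ : ℝ}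
    (hN₀ : 1 ≤ N₀)
    (hT : ∀ V : E3 → ℂ, IsPot r M V → ∀ ξ : E3, N₀ ≤ ‖ξ‖ → ‖Tm s r V (km ξ)‖ ≤ 1 / 2) :
    ∃ C : ℝ, 0 ≤ C ∧ ∀ (V V' : E3 → ℂ) (δ : ℝ), IsPot r M V → IsPot r M V' →
      IsPot r δ (fun x => V x - V' x) →
      ∀ ξ : E3, N₀ ≤ ‖ξ‖ → ‖HfN s r V ξ - HfN s r V' ξ‖ ≤ C * δ := by
  obtain ⟨C₁, hC₁, H1⟩ := norm_mNH_le h0 h1
  obtain ⟨C₃, hC₃, H3⟩ := Mop_norm (s := s) (by linarith) h1 r
  refine ⟨C₁ * (2 * ‖oneB r‖) + C₁ * (|M| * (C₃ * (4 * ‖oneB r‖))), by positivity, ?_⟩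
  intro V V' δ hV hV' hD ξ hξ
  have hM := hV.nonneg
  have hδ := hD.nonneg
  rw [abs_of_nonneg hM]
  have hξ1 : 1 ≤ ‖ξ‖ := hN₀.trans hξ
  have hξ0 : ξ ≠ 0 := by
    intro h
    rw [h, norm_zero] at hξ1
    linarith
  have hTξ := hT V hV ξ hξ
  have hTξ' := hT V' hV' ξ hξ
  have hm : ‖mNH s (2 * Real.pi * ‖ξ‖)‖ ≤ C₁ := by
    refine (un_mNH h0 hC₁ H1 hξ1).trans ?_
    have : ‖ξ‖ ^ (-(2 * s - 3 / 2)) ≤ 1 :=
      Real.rpow_le_one_of_one_le_of_nonpos hξ1 (by linarith)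
    calc C₁ * ‖ξ‖ ^ (-(2 * s - 3 / 2)) ≤ C₁ * 1 := mul_le_mul_of_nonneg_left this hC₁
      _ = C₁ := mul_one _
  have hK : ‖Mop s r (km ξ)‖ ≤ C₃ := by
    refine (H3 _ (km_mem_Sec2 hξ0)).trans ?_
    have h2 : 1 ≤ ‖km ξ‖ := by
      rw [norm_km]
      exact hξ1.trans (un_le ξ)
    have : ‖km ξ‖ ^ (-(2 * s)) ≤ 1 :=
      Real.rpow_le_one_of_one_le_of_nonpos h2 (by linarith)
    calc C₃ * ‖km ξ‖ ^ (-(2 * s)) ≤ C₃ * 1 := mul_le_mul_of_nonneg_left this hC₃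
      _ = C₃ := mul_one _
  have e2 : ∀ f : HS, mulL (fun x => V x - V' x) f = mulL V f - mulL V' f := by
    intro f
    rw [mulL_sub hV.BM hV'.BM]
    rfl
  have e1 : HfN s r V ξ - HfN s r V' ξ = PLN s ξ (mulL (fun x => V x - V' x) (UN s r V ξ)) +
      PLN s ξ (mulL V' (UN s r V ξ - UN s r V' ξ)) := by
    rw [HfN, HfN, ← map_sub, ← map_add]
    congr 1
    rw [e2, map_sub]
    abel
  have h5 : ‖PLN s ξ (mulL (fun x => V x - V' x) (UN s r V ξ))‖ ≤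
      C₁ * (δ * (2 * ‖oneB r‖)) := by
    refine (norm_PLN_le s ξ _).trans ?_
    refine mul_le_mul hm ?_ (norm_nonneg _) hC₁
    refine ((mulL _).le_opNorm _).trans ?_
    exact mul_le_mul (hD.norm_mulL hδ) (norm_UN_le hTξ) (norm_nonneg _) hδ
  have h6 : ‖PLN s ξ (mulL V' (UN s r V ξ - UN s r V' ξ))‖ ≤
      C₁ * (M * (C₃ * (δ * (4 * ‖oneB r‖)))) := by
    refine (norm_PLN_le s ξ _).trans ?_
    refine mul_le_mul hm ?_ (norm_nonneg _) hC₁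
    refine ((mulL _).le_opNorm _).trans ?_
    refine mul_le_mul (hV'.norm_mulL hM) ?_ (norm_nonneg _) hM
    refine (un_diff hV hV' hD hTξ hTξ').trans ?_
    exact mul_le_mul_of_nonneg_right hK (by positivity)
  rw [e1]
  refine (norm_add_le _ _).trans ?_
  have e5 : (C₁ * (2 * ‖oneB r‖) + C₁ * (M * (C₃ * (4 * ‖oneB r‖)))) * δ =
      C₁ * (δ * (2 * ‖oneB r‖)) + C₁ * (M * (C₃ * (δ * (4 * ‖oneB r‖)))) := by ring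
  rw [e5]
  exact add_le_add h5 h6

end FracScatC

end
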