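import Pool.Agent.Lib.MP_6e2ba5_an.Ex.Defs

/-! # Adding bounds on shells

On `Sh N`, with the majorants `G₁, G₂` of `F₁, F₂`:
`‖F₀ ξ‖ₑ² ≤ 3 G₁² + 3 G₂² + 3 (C₃ N^(-b))²` (`‖ξ‖^(-b) ≤ N^(-b)` as `‖ξ‖ > N`, `b ≥ 0`). `∫⁻` of the sum
is the sum (measurability of `G₁, G₂`); the volume of `Sh N` is at most the volume of the ball of radius
`2N`, `= C N³` (`Measure.addHaar_closedBall`, `EuclideanSpace.volume_ball`). Powers:
`N^(-2b) N³ ≤ N^(-β)` as `3 - 2b ≤ -β`, `N ≥ 1`. -/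

set_option autoImplicit false

open MeasureTheory Filter Topology Set
open scoped FourierTransform SchwartzMap InnerProductSpace ENNReal BoundedContinuousFunction

noncomputable section

namespace FracScatC

open FracScat

private theorem sq3 (a b c : ℝ≥0∞) : (a + b + c) ^ 2 ≤ 9 * (a ^ 2 + b ^ 2 + c ^ 2) := by
  have key : ∀ m : ℝ≥0∞, a ≤ m → b ≤ m → c ≤ m → m ^ 2 ≤ a ^ 2 + b ^ 2 + c ^ 2 →
      (a + b + c) ^ 2 ≤ 9 * (a ^ 2 + b ^ 2 + c ^ 2) := by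
    intro m ha hb hc hm
    calc (a + b + c) ^ 2 ≤ (m + m + m) ^ 2 :=
          pow_le_pow_left₀ zero_le (add_le_add (add_le_add ha hb) hc) 2
      _ = 9 * m ^ 2 := by ring
      _ ≤ 9 * (a ^ 2 + b ^ 2 + c ^ 2) := mul_le_mul_right hm _
  have sa : a ^ 2 ≤ a ^ 2 + b ^ 2 + c ^ 2 := le_self_add.trans le_self_add
  have sb : b ^ 2 ≤ a ^ 2 + b ^ 2 + c ^ 2 := le_add_self.trans le_self_add
  have sc : c ^ 2 ≤ a ^ 2 + b ^ 2 + c ^ 2 := le_add_self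
  rcases le_total a b with hab | hab
  · rcases le_total b c with hbc | hbc
    · exact key c (hab.trans hbc) hbc le_rfl sc
    · exact key b hab le_rfl hbc sb
  · rcases le_total a c with hac | hac
    · exact key c hac (hab.trans hac) le_rfl sc
    · exact key a le_rfl hab hac sa

private theorem volSh {N : ℝ} (hN : 0 ≤ N) :
    volume (Sh N) ≤ ENNReal.ofReal ((2 * N) ^ 3 * (volume (Metric.ball (0 : E3) 1)).toReal) := by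
  have h1 : Sh N ⊆ Metric.closedBall (0 : E3) (2 * N) := fun ξ hξ => by
    rw [mem_closedBall_zero_iff]; exact hξ.2
  refine (measure_mono h1).trans ?_
  rw [Measure.addHaar_closedBall volume (0 : E3) (by linarith)]
  rw [ENNReal.ofReal_mul (by positivity), ENNReal.ofReal_toReal measure_ball_lt_top.ne]
  simp

private theorem powSh {β b N : ℝ} (hβ : β ≤ 2 * b - 3) (hN : 1 ≤ N) :
    (N ^ (-b)) ^ 2 * N ^ 3 ≤ N ^ (-β) := by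
  have h0 : 0 < N := by linarith
  have h1 : (N ^ (-b)) ^ 2 * N ^ 3 = N ^ (-b * 2 + 3) := by
    rw [Real.rpow_add h0, Real.rpow_mul h0.le]
    norm_num
  rw [h1]
  exact Real.rpow_le_rpow_of_exponent_le hN (by linarith)

theorem shComb {β b C₁ C₃ N₀ : ℝ} (hb : 0 ≤ b) (hβ : β ≤ 2 * b - 3) (hC₁ : 0 ≤ C₁)
    (hC₃ : 0 ≤ C₃) (hN₀ : 1 ≤ N₀) {F₀ F₁ F₂ : E3 → ℂ}
    (h₁ : ∀ N : ℝ, N₀ ≤ N → ShB N (C₁ * N ^ (-β)) F₁)
    (h₂ : ∀ N : ℝ, N₀ ≤ N → ShB N (C₁ * N ^ (-β)) F₂)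
    (h : ∀ ξ : E3, N₀ ≤ ‖ξ‖ → ‖F₀ ξ‖ ≤ ‖F₁ ξ‖ + ‖F₂ ξ‖ + C₃ * ‖ξ‖ ^ (-b)) :
    ∃ C : ℝ, 0 ≤ C ∧ ∀ N : ℝ, N₀ ≤ N →
      ∫⁻ ξ in Sh N, ‖F₀ ξ‖ₑ ^ 2 ≤ ENNReal.ofReal (C * N ^ (-β)) := by
  set V : ℝ := (volume (Metric.ball (0 : E3) 1)).toReal with hV
  have hV0 : 0 ≤ V := ENNReal.toReal_nonneg
  refine ⟨18 * C₁ + 72 * (C₃ ^ 2 * V), by positivity, fun N hN => ?_⟩
  have hN1 : 1 ≤ N := hN₀.trans hN
  have hN0 : 0 < N := by linarith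
  obtain ⟨G₁, m₁, b₁, i₁⟩ := h₁ N hN
  obtain ⟨G₂, m₂, b₂, i₂⟩ := h₂ N hN
  set c : ℝ := C₃ * N ^ (-b) with hc
  have hc0 : 0 ≤ c := mul_nonneg hC₃ (Real.rpow_nonneg hN0.le _)
  have hp : ∀ ξ ∈ Sh N, ‖F₀ ξ‖ₑ ^ 2 ≤ 9 * (G₁ ξ ^ 2 + G₂ ξ ^ 2 + ENNReal.ofReal c ^ 2) := by
    intro ξ hξ
    refine le_trans (pow_le_pow_left₀ zero_le ?_ 2) (sq3 _ _ _)
    have h3 : ‖F₀ ξ‖ ≤ ‖F₁ ξ‖ + ‖F₂ ξ‖ + c := by
      refine (h ξ (hN.trans hξ.1.le)).trans ?_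
      refine add_le_add le_rfl ?_
      rw [hc]
      refine mul_le_mul_of_nonneg_left ?_ hC₃
      exact Real.rpow_le_rpow_of_nonpos hN0 hξ.1.le (by linarith)
    calc ‖F₀ ξ‖ₑ = ENNReal.ofReal ‖F₀ ξ‖ := (ofReal_norm _).symm
      _ ≤ ENNReal.ofReal (‖F₁ ξ‖ + ‖F₂ ξ‖ + c) := ENNReal.ofReal_le_ofReal h3
      _ = ‖F₁ ξ‖ₑ + ‖F₂ ξ‖ₑ + ENNReal.ofReal c := by
          rw [ENNReal.ofReal_add (by positivity) hc0, ENNReal.ofReal_add (norm_nonneg _)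
            (norm_nonneg _), ofReal_norm, ofReal_norm]
      _ ≤ G₁ ξ + G₂ ξ + ENNReal.ofReal c := by
          gcongr
          · exact b₁ ξ hξ
          · exact b₂ ξ hξ
  calc ∫⁻ ξ in Sh N, ‖F₀ ξ‖ₑ ^ 2
      ≤ ∫⁻ ξ in Sh N, 9 * (G₁ ξ ^ 2 + G₂ ξ ^ 2 + ENNReal.ofReal c ^ 2) :=
        setLIntegral_mono' (Sh_meas N) hp
    _ = 9 * ((∫⁻ ξ in Sh N, G₁ ξ ^ 2) + (∫⁻ ξ in Sh N, G₂ ξ ^ 2) +
          ENNReal.ofReal c ^ 2 * volume (Sh N)) := by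
        rw [lintegral_const_mul _ (by fun_prop), lintegral_add_left (by fun_prop),
          lintegral_add_left (by fun_prop), setLIntegral_const]
    _ ≤ 9 * (ENNReal.ofReal (C₁ * N ^ (-β)) + ENNReal.ofReal (C₁ * N ^ (-β)) +
          ENNReal.ofReal c ^ 2 * ENNReal.ofReal ((2 * N) ^ 3 * V)) := by
        gcongr
        exact volSh hN0.le
    _ = ENNReal.ofReal (9 * (C₁ * N ^ (-β) + C₁ * N ^ (-β) + c ^ 2 * ((2 * N) ^ 3 * V))) := by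
        have e1 : 0 ≤ C₁ * N ^ (-β) := mul_nonneg hC₁ (Real.rpow_nonneg hN0.le _)
        have e2 : 0 ≤ (2 * N) ^ 3 * V := by positivity
        rw [ENNReal.ofReal_mul (p := 9) (by norm_num), ENNReal.ofReal_add (add_nonneg e1 e1)
          (mul_nonneg (sq_nonneg _) e2), ENNReal.ofReal_add e1 e1,
          ENNReal.ofReal_mul (p := c ^ 2) (sq_nonneg _), ENNReal.ofReal_pow hc0]
        norm_num
    _ ≤ ENNReal.ofReal ((18 * C₁ + 72 * (C₃ ^ 2 * V)) * N ^ (-β)) := by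
        refine ENNReal.ofReal_le_ofReal ?_
        have h4 := powSh hβ hN1
        have h5 : C₃ ^ 2 * V * ((N ^ (-b)) ^ 2 * N ^ 3) ≤ C₃ ^ 2 * V * N ^ (-β) :=
          mul_le_mul_of_nonneg_left h4 (by positivity)
        have h6 : c ^ 2 * ((2 * N) ^ 3 * V) = 8 * (C₃ ^ 2 * V * ((N ^ (-b)) ^ 2 * N ^ 3)) := by
          rw [hc]; ring
        rw [h6]
        linarith

end FracScatC

end
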