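import Pool.Agent.Lib.MP_6e2ba5_an.Ex.Defs

/-! # Change of variables `p = -ζ-ξ`, `q = ζ-ξ`

For fixed `ξ` the map `ζ ↦ -ζ-ξ` preserves the Lebesgue measure (`measurePreserving_neg`/translation,
e.g. `MeasureTheory.lintegral_sub_left_eq_self` or `lintegral_neg_eq_self`,
`lintegral_add_right_eq_self`), so
`∫⁻ ζ, Φ (-ζ-ξ) (ζ-ξ) = ∫⁻ p, Φ p (-p-2ξ)`. Tonelli (`lintegral_lintegral_swap`), and for fixed `p`
the substitution `q = -p - 2ξ`: translation invariance and the scaling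
`∫⁻ ξ, g (-(2:ℝ) • ξ) = (1/8) ∫⁻ g` in dimension 3 (`Measure.addHaar_smul`,
`MeasureTheory.Measure.map_addHaar_smul` or `lintegral_comp_smul`-type lemmas; `finrank ℝ E3 = 3`).
`BP_measurable`: `Measurable.lintegral_prod_right'`. `BP_swap`: substitute `ζ → -ζ`. -/

set_option autoImplicit false

open MeasureTheory Filter Topology Set
open scoped FourierTransform SchwartzMap InnerProductSpace ENNReal BoundedContinuousFunction

noncomputable section

namespace FracScatC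

open FracScat

theorem J1E {g : E3 → ℝ≥0∞} (hg : Measurable g) :
    ∫⁻ η : E3, g η = 8 * ∫⁻ ξ : E3, g (-(2 : ℝ) • ξ) := by
  have hm : Measurable (fun ξ : E3 => (-(2 : ℝ)) • ξ) := measurable_const_smul _
  have h1 : ∫⁻ ξ : E3, g (-(2 : ℝ) • ξ) =
      ∫⁻ η, g η ∂(Measure.map (fun ξ : E3 => (-(2 : ℝ)) • ξ) volume) :=
    (lintegral_map hg hm).symm
  have h2 : Measure.map (fun ξ : E3 => (-(2 : ℝ)) • ξ) volume =
      ENNReal.ofReal |((-(2 : ℝ)) ^ (Module.finrank ℝ E3))⁻¹| • (volume : Measure E3) :=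
    Measure.map_addHaar_smul volume (by norm_num)
  have h3 : Module.finrank ℝ E3 = 3 := by simp
  have h4 : |((-(2 : ℝ)) ^ 3)⁻¹| = 1 / 8 := by
    rw [abs_inv, abs_pow, abs_neg]; norm_num
  rw [h1, h2, h3, h4, lintegral_smul_measure, smul_eq_mul, ← mul_assoc]
  have h5 : (8 : ℝ≥0∞) * ENNReal.ofReal (1 / 8) = 1 := by
    rw [show (8 : ℝ≥0∞) = ENNReal.ofReal 8 by simp, ← ENNReal.ofReal_mul (by norm_num)]
    norm_num
  rw [h5, one_mul]

theorem J2E {Φ : E3 → E3 → ℝ≥0∞} (hΦ : Measurable (Function.uncurry Φ)) :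
    8 * ∫⁻ ξ : E3, ∫⁻ ζ : E3, Φ (-ζ - ξ) (ζ - ξ) = ∫⁻ p : E3, ∫⁻ q : E3, Φ p q := by
  have hin : ∀ ξ : E3, ∫⁻ ζ : E3, Φ (-ζ - ξ) (ζ - ξ) =
      ∫⁻ p : E3, Φ p (-p + -(2 : ℝ) • ξ) := by
    intro ξ
    have h1 := lintegral_sub_left_eq_self (μ := (volume : Measure E3))
      (fun p : E3 => Φ p (-p + -(2 : ℝ) • ξ)) (-ξ)
    rw [← h1]
    refine lintegral_congr fun ζ => ?_
    have e1 : -ζ - ξ = -ξ - ζ := by abel
    have e2 : ζ - ξ = -(-ξ - ζ) + -(2 : ℝ) • ξ := by
      rw [neg_smul, two_smul]; abel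
    rw [e1, ← e2]
  have hmeas : Measurable (Function.uncurry fun (ξ p : E3) => Φ p (-p + -(2 : ℝ) • ξ)) := by
    have : Measurable (fun z : E3 × E3 => (z.2, -z.2 + -(2 : ℝ) • z.1)) := by fun_prop
    exact hΦ.comp this
  simp_rw [hin]
  rw [lintegral_lintegral_swap hmeas.aemeasurable]
  rw [← lintegral_const_mul]
  · refine lintegral_congr fun p => ?_
    have hp : Measurable (fun q => Φ p q) := hΦ.comp (measurable_const.prodMk measurable_id)
    have h2 := J1E (g := fun η : E3 => Φ p (-p + η)) (hp.comp (measurable_const_add _))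
    rw [← h2]
    exact lintegral_add_left_eq_self (μ := (volume : Measure E3)) (fun q => Φ p q) (-p)
  · have hm2 : Measurable (Function.uncurry fun (p ξ : E3) => Φ p (-p + -(2 : ℝ) • ξ)) := by
      have : Measurable (fun z : E3 × E3 => (z.1, -z.1 + -(2 : ℝ) • z.2)) := by fun_prop
      exact hΦ.comp this
    exact hm2.lintegral_prod_right'

private theorem meas_aux {k : E3 → E3 → ℝ≥0∞} (hk : Measurable (Function.uncurry k))
    {f h : E3 → ℝ≥0∞} (hf : Measurable f) (hh : Measurable h) :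
    Measurable (Function.uncurry fun (ξ ζ : E3) =>
      k (-ζ - ξ) (ζ - ξ) * (f (-ζ - ξ) * h (ζ - ξ))) := by
  have m1 : Measurable (fun z : E3 × E3 => -z.2 - z.1) := by fun_prop
  have m2 : Measurable (fun z : E3 × E3 => z.2 - z.1) := by fun_prop
  exact (hk.comp (m1.prodMk m2)).mul ((hf.comp m1).mul (hh.comp m2))

theorem BP_measurable {k : E3 → E3 → ℝ≥0∞} (hk : Measurable (Function.uncurry k))
    {f h : E3 → ℝ≥0∞} (hf : Measurable f) (hh : Measurable h) : Measurable (BP k f h) := by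
  have h1 : Measurable (Function.uncurry fun (ξ ζ : E3) =>
      k (-ζ - ξ) (ζ - ξ) * (f (-ζ - ξ) * h (ζ - ξ))) := meas_aux hk hf hh
  exact h1.lintegral_prod_right'

theorem BP_mono {k k' : E3 → E3 → ℝ≥0∞} (h : ∀ p q, k p q ≤ k' p q) (f g : E3 → ℝ≥0∞) (ξ : E3) :
    BP k f g ξ ≤ BP k' f g ξ := by
  unfold BP
  refine lintegral_mono fun ζ => ?_
  exact mul_le_mul_left (h _ _) _

theorem BP_add {k k' : E3 → E3 → ℝ≥0∞} (hk : Measurable (Function.uncurry k))
    {f h : E3 → ℝ≥0∞} (hf : Measurable f) (hh : Measurable h) (ξ : E3) :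
    BP (fun p q => k p q + k' p q) f h ξ = BP k f h ξ + BP k' f h ξ := by
  unfold BP
  have h1 : Measurable (fun ζ : E3 => k (-ζ - ξ) (ζ - ξ) * (f (-ζ - ξ) * h (ζ - ξ))) :=
    (meas_aux hk hf hh).comp (measurable_const.prodMk measurable_id)
  rw [← lintegral_add_left h1]
  refine lintegral_congr fun ζ => ?_
  rw [add_mul]

theorem BP_swap (k : E3 → E3 → ℝ≥0∞) (f h : E3 → ℝ≥0∞) (ξ : E3) :
    BP (fun p q => k q p) f h ξ = BP k h f ξ := by
  unfold BP
  have h1 := lintegral_neg_eq_self (μ := (volume : Measure E3))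
    (fun ζ : E3 => k (-ζ - ξ) (ζ - ξ) * (h (-ζ - ξ) * f (ζ - ξ)))
  rw [← h1]
  refine lintegral_congr fun ζ => ?_
  rw [neg_neg, mul_comm (f _) (h _)]

theorem k1_measurable (N : ℝ) : Measurable (Function.uncurry (k1 N)) := by
  have h1 : MeasurableSet {z : E3 × E3 | ‖z.1‖ ≤ 6 * N} :=
    measurableSet_le (by fun_prop) measurable_const
  have h2 : Measurable (fun z : E3 × E3 => ENNReal.ofReal (2 / (N * (1 + ‖z.1‖)))) := by
    fun_prop
  exact Measurable.ite h1 h2 measurable_const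

private theorem inn_meas : Measurable (fun z : E3 × E3 => ⟪z.1, z.2⟫_ℝ) :=
  continuous_inner.measurable

theorem k2_measurable (N : ℝ) : Measurable (Function.uncurry (k2 N)) := by
  have hi := inn_meas
  have n1 : Measurable (fun z : E3 × E3 => ‖z.1‖) := by fun_prop
  have n2 : Measurable (fun z : E3 × E3 => ‖z.2‖) := by fun_prop
  have ha : Measurable (fun z : E3 × E3 => |⟪z.1, z.2⟫_ℝ|) := hi.abs
  have h1 : MeasurableSet {z : E3 × E3 | (N ≤ ‖z.2‖ ∧ ‖z.2‖ ≤ 6 * N ∧ ‖z.1‖ ≤ 6 * N) ∧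
      |⟪z.1, z.2⟫_ℝ| ≤ 1 / 2 * (‖z.1‖ * ‖z.2‖)} :=
    ((measurableSet_le measurable_const n2).inter
      ((measurableSet_le n2 measurable_const).inter
        (measurableSet_le n1 measurable_const))).inter
      (measurableSet_le ha ((n1.mul n2).const_mul _))
  have h2 : Measurable (fun z : E3 × E3 => ENNReal.ofReal (1 / (N + |⟪z.1, z.2⟫_ℝ|))) :=
    ((measurable_const (a := (1 : ℝ))).div (ha.const_add N)).ennreal_ofReal
  exact Measurable.ite h1 h2 measurable_const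

theorem kG_measurable (N P : ℝ) (e : E3) : Measurable (Function.uncurry (kG N P e)) := by
  have hi := inn_meas
  have n1 : Measurable (fun z : E3 × E3 => ‖z.1‖) := by fun_prop
  have n2 : Measurable (fun z : E3 × E3 => ‖z.2‖) := by fun_prop
  have ha : Measurable (fun z : E3 × E3 => |⟪z.1, z.2⟫_ℝ|) := hi.abs
  have n3 : Measurable (fun z : E3 × E3 => ‖‖z.2‖⁻¹ • z.2 - e‖) := by fun_prop
  have h1 : MeasurableSet {z : E3 × E3 | ((P ≤ 1 + ‖z.1‖ ∧ 1 + ‖z.1‖ ≤ 2 * P) ∧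
      (N ≤ ‖z.2‖ ∧ ‖z.2‖ ≤ 6 * N)) ∧
      |⟪z.1, z.2⟫_ℝ| ≤ 1 / 2 * (‖z.1‖ * ‖z.2‖) ∧ ‖‖z.2‖⁻¹ • z.2 - e‖ ≤ 1 / 8} :=
    (((measurableSet_le measurable_const (n1.const_add 1)).inter
      (measurableSet_le (n1.const_add 1) measurable_const)).inter
      ((measurableSet_le measurable_const n2).inter
        (measurableSet_le n2 measurable_const))).inter
      ((measurableSet_le ha ((n1.mul n2).const_mul _)).inter
        (measurableSet_le n3 measurable_const))
  have h2 : Measurable (fun z : E3 × E3 => ENNReal.ofReal (1 / (N + |⟪z.1, z.2⟫_ℝ|))) :=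
    ((measurable_const (a := (1 : ℝ))).div (ha.const_add N)).ennreal_ofReal
  exact Measurable.ite h1 h2 measurable_const

end FracScatC

end
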