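import Pool.Agent.Lib.MP_6e2ba5_an.Ex.J2E

/-! # The estimate for the kernel `k1`

Cauchy-Schwarz in `ζ`:
`(∫⁻ k1(p) f(p) h(q) dζ)² ≤ (∫⁻ k1 N (-ζ-ξ)² dζ) (∫⁻ f(-ζ-ξ)² h(ζ-ξ)² dζ)`
(`ENNReal.lintegral_mul_le_Lp_mul_Lq` with exponents 2, 2, or `ENNReal.inner_le_...`; square it).
`∫⁻ ζ, k1 N (-ζ-ξ) 0 ^ 2 = ∫⁻ p, k1 N p 0 ^ 2 = ∫_{‖p‖ ≤ 6N} 4/(N²(1+‖p‖)²) dp = 4π ∫_0^{6N} 4r²/(N²(1+r)²) dr
≤ 96π/N`: radial integration (`MeasureTheory.Measure` polar coordinates as in `../Cx/Bip.lean`,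
or `../Radial.lean`, or `integral_fun_norm_addHaar`/`lintegral_fun_norm_addHaar`). It can also be
bounded without polar coordinates: split the ball into the dyadic shells `2^j ≤ 1+‖p‖ < 2^(j+1)`,
of volume `≤ C 8^(j+1)`, on which the integrand is `≤ 4/(N² 4^j)`; the sum over `2^j ≤ 1+6N` is
`≤ C N/N²`. Then integrate in `ξ` and use `J2E` for `Φ p q = f(p)² h(q)²` (`lintegral_const_mul`,
`lintegral_mul_const`): `8 ∫⁻∫⁻ f² h² = (∫⁻f²)(∫⁻h²)`. -/

set_option autoImplicit false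

open MeasureTheory Filter Topology Set
open scoped FourierTransform SchwartzMap InnerProductSpace ENNReal BoundedContinuousFunction

noncomputable section

namespace FracScatC

open FracScat

theorem cs_lintegral {a b : E3 → ℝ≥0∞} (ha : Measurable a) (hb : Measurable b) :
    (∫⁻ ζ, a ζ * b ζ) ^ 2 ≤ (∫⁻ ζ, a ζ ^ 2) * ∫⁻ ζ, b ζ ^ 2 := by
  have h := ENNReal.lintegral_mul_le_Lp_mul_Lq (volume : Measure E3)
    (Real.HolderConjugate.two_two) ha.aemeasurable hb.aemeasurable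
  have h2 : (∫⁻ ζ, a ζ * b ζ) ≤
      (∫⁻ ζ, a ζ ^ 2) ^ (1 / 2 : ℝ) * (∫⁻ ζ, b ζ ^ 2) ^ (1 / 2 : ℝ) := by
    have e1 : ∀ x : ℝ≥0∞, x ^ (2 : ℝ) = x ^ 2 := fun x => by
      rw [← ENNReal.rpow_natCast]
      norm_num
    simp only [e1] at h
    exact h
  have e2 : ∀ x : ℝ≥0∞, (x ^ (1 / 2 : ℝ)) ^ 2 = x := fun x => by
    rw [← ENNReal.rpow_natCast, ← ENNReal.rpow_mul]
    norm_num
  calc (∫⁻ ζ, a ζ * b ζ) ^ 2 ≤
      ((∫⁻ ζ, a ζ ^ 2) ^ (1 / 2 : ℝ) * (∫⁻ ζ, b ζ ^ 2) ^ (1 / 2 : ℝ)) ^ 2 := by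
        exact pow_le_pow_left₀ (by positivity) h2 2
    _ = (∫⁻ ζ, a ζ ^ 2) * ∫⁻ ζ, b ζ ^ 2 := by
        rw [mul_pow, e2, e2]

theorem fh_lintegral {f h : E3 → ℝ≥0∞} (hf : Measurable f) (hh : Measurable h) :
    8 * ∫⁻ ξ : E3, ∫⁻ ζ : E3, (f (-ζ - ξ) * h (ζ - ξ)) ^ 2 =
      (∫⁻ p, f p ^ 2) * ∫⁻ q, h q ^ 2 := by
  have hm : Measurable (Function.uncurry fun p q : E3 => (f p * h q) ^ 2) := by
    change Measurable fun z : E3 × E3 => (f z.1 * h z.2) ^ 2
    fun_prop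
  have h1 := J2E hm
  rw [h1]
  have e1 : ∀ p : E3, ∫⁻ q : E3, (f p * h q) ^ 2 = f p ^ 2 * ∫⁻ q : E3, h q ^ 2 := fun p => by
    simp only [mul_pow]
    rw [lintegral_const_mul _ (by fun_prop)]
  simp only [e1]
  rw [lintegral_mul_const _ (by fun_prop)]

private lemma caseA_k1 : ∃ C : ℝ, 0 ≤ C ∧ ∀ N : ℝ, 1 ≤ N →
    ∫⁻ p : E3, k1 N p 0 ^ 2 ≤ ENNReal.ofReal (C / N) := by
  refine ⟨3 * (volume : Measure E3).real (Metric.ball 0 1) * 24, by positivity, fun N hN => ?_⟩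
  have hN0 : 0 < N := by linarith
  set F : ℝ → ℝ := fun y => if y ≤ 6 * N then (2 / (N * (1 + y))) ^ 2 else 0 with hF
  have hF0 : ∀ y, 0 ≤ F y := fun y => by
    rw [hF]
    beta_reduce
    split_ifs
    · positivity
    · exact le_rfl
  have hFm : Measurable F := by
    refine Measurable.ite (measurableSet_le measurable_id measurable_const) ?_ measurable_const
    fun_prop
  have e1 : ∀ p : E3, k1 N p 0 ^ 2 = ENNReal.ofReal (F ‖p‖) := fun p => by
    rw [k1, hF]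
    beta_reduce
    split_ifs with h
    · rw [ENNReal.ofReal_pow (by positivity)]
    · simp
  have hF4 : ∀ p : E3, F ‖p‖ ≤ 4 := fun p => by
    rw [hF]
    beta_reduce
    split_ifs with h
    · have h1 : 2 / (N * (1 + ‖p‖)) ≤ 2 := by
        rw [div_le_iff₀ (by positivity)]
        have : 0 ≤ ‖p‖ := norm_nonneg _
        nlinarith
      have h2 : 0 ≤ 2 / (N * (1 + ‖p‖)) := by positivity
      nlinarith
    · norm_num
  have hint : Integrable (fun p : E3 => F ‖p‖) := by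
    have h1 : IntegrableOn (fun p : E3 => F ‖p‖) (Metric.closedBall 0 (6 * N)) := by
      refine Measure.integrableOn_of_bounded (M := 4) measure_closedBall_lt_top.ne
        (hFm.comp measurable_norm).aestronglyMeasurable ?_
      refine Eventually.of_forall fun p => ?_
      rw [Real.norm_of_nonneg (hF0 _)]
      exact hF4 p
    rw [← integrableOn_iff_integrable_of_support_subset (s := Metric.closedBall 0 (6 * N))]
    · exact h1
    · intro p hp
      rw [Function.mem_support] at hp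
      rw [mem_closedBall_zero_iff]
      by_contra h
      exact hp (by rw [hF]; beta_reduce; rw [if_neg h])
  simp only [e1]
  rw [← ofReal_integral_eq_lintegral_ofReal hint (Eventually.of_forall fun p => hF0 _)]
  apply ENNReal.ofReal_le_ofReal
  rw [integral_fun_norm_addHaar (volume : Measure E3) F]
  have hd : Module.finrank ℝ E3 = 3 := by simp [E3]
  rw [hd]
  have h3 : ∫ y in Ioi (0 : ℝ), y ^ (3 - 1) • F y ≤ 24 / N := by
    have h4 : ∫ y in Ioi (0 : ℝ), y ^ (3 - 1) • F y ≤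
        ∫ y in Ioi (0 : ℝ), (Iic (6 * N)).indicator (fun _ => 4 / N ^ 2) y := by
      refine integral_mono_of_nonneg (Eventually.of_forall fun y => ?_) ?_ ?_
      · exact smul_nonneg ((even_two : Even (3 - 1 : ℕ)).pow_nonneg y) (hF0 y)
      · refine (integrable_indicator_iff measurableSet_Iic).2 ?_
        refine integrableOn_const ?_
        rw [Measure.restrict_apply measurableSet_Iic, Iic_inter_Ioi]
        exact measure_Ioc_lt_top.ne
      · refine (ae_restrict_iff' measurableSet_Ioi).2 (Eventually.of_forall fun y hy => ?_)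
        have hy0 : 0 < y := hy
        beta_reduce
        rw [hF]
        beta_reduce
        by_cases h : y ≤ 6 * N
        · rw [if_pos h, indicator_of_mem (show y ∈ Iic (6 * N) from h), smul_eq_mul, div_pow, mul_pow,
            ← mul_div_assoc, div_le_div_iff₀ (by positivity) (by positivity)]
          have h5 : y ^ 2 ≤ (1 + y) ^ 2 := by nlinarith
          have h6 : 0 ≤ N ^ 2 := by positivity
          calc y ^ (3 - 1) * 2 ^ 2 * N ^ 2 = 4 * N ^ 2 * y ^ 2 := by norm_num; ring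
            _ ≤ 4 * N ^ 2 * (1 + y) ^ 2 := mul_le_mul_of_nonneg_left h5 (by positivity)
            _ = 4 * (N ^ 2 * (1 + y) ^ 2) := by ring
        · rw [if_neg h, smul_zero]
          exact indicator_nonneg (fun _ _ => by positivity) _
    refine h4.trans (le_of_eq ?_)
    rw [integral_indicator measurableSet_Iic, Measure.restrict_restrict measurableSet_Iic,
      Iic_inter_Ioi, setIntegral_const, Measure.real, Real.volume_Ioc, smul_eq_mul]
    rw [ENNReal.toReal_ofReal (by linarith)]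
    field_simp
    ring
  have hV : 0 ≤ (volume : Measure E3).real (Metric.ball 0 1) := measureReal_nonneg
  rw [nsmul_eq_mul, smul_eq_mul]
  calc ((3 : ℕ) : ℝ) * ((volume : Measure E3).real (Metric.ball 0 1) *
        ∫ y in Ioi (0 : ℝ), y ^ (3 - 1) • F y) ≤
      ((3 : ℕ) : ℝ) * ((volume : Measure E3).real (Metric.ball 0 1) * (24 / N)) := by gcongr
    _ = 3 * (volume : Measure E3).real (Metric.ball 0 1) * 24 / N := by
      push_cast
      ring

private lemma caseA_shift {g : E3 → ℝ≥0∞} (hg : Measurable g) (ξ : E3) :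
    ∫⁻ ζ : E3, g (-ζ - ξ) = ∫⁻ p : E3, g p := by
  have h1 : ∫⁻ ζ : E3, g (-ζ - ξ) = ∫⁻ ζ : E3, g (ζ - ξ) :=
    (Measure.measurePreserving_neg (volume : Measure E3)).lintegral_comp
      (f := fun ζ : E3 => g (ζ - ξ)) (by fun_prop)
  rw [h1]
  exact (measurePreserving_sub_right (volume : Measure E3) ξ).lintegral_comp hg

private lemma caseA_pt {C N : ℝ} (hk : ∫⁻ p : E3, k1 N p 0 ^ 2 ≤ ENNReal.ofReal (C / N))
    {f h : E3 → ℝ≥0∞} (hf : Measurable f) (hh : Measurable h) (ξ : E3) :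
    BP (k1 N) f h ξ ^ 2 ≤
      ENNReal.ofReal (C / N) * ∫⁻ ζ : E3, (f (-ζ - ξ) * h (ζ - ξ)) ^ 2 := by
  have hk0 : Measurable fun p : E3 => k1 N p 0 := by
    unfold k1
    exact Measurable.ite (measurableSet_le measurable_norm measurable_const)
      (by fun_prop) measurable_const
  have e3 : BP (k1 N) f h ξ =
      ∫⁻ ζ : E3, (fun ζ : E3 => k1 N (-ζ - ξ) 0) ζ *
        (fun ζ : E3 => f (-ζ - ξ) * h (ζ - ξ)) ζ := rfl
  have ha : Measurable fun ζ : E3 => k1 N (-ζ - ξ) 0 := by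
    have : Measurable fun ζ : E3 => -ζ - ξ := by fun_prop
    exact hk0.comp this
  have hb : Measurable fun ζ : E3 => f (-ζ - ξ) * h (ζ - ξ) := by fun_prop
  rw [e3]
  refine (cs_lintegral ha hb).trans ?_
  have e4 : ∫⁻ ζ : E3, (fun ζ : E3 => k1 N (-ζ - ξ) 0) ζ ^ 2 = ∫⁻ p : E3, k1 N p 0 ^ 2 :=
    caseA_shift (hk0.pow_const 2) ξ
  rw [e4]
  gcongr

theorem caseA : ∃ C : ℝ, 0 ≤ C ∧ ∀ N : ℝ, 1 ≤ N → ∀ f h : E3 → ℝ≥0∞, Measurable f → Measurable h →
    ∫⁻ ξ, BP (k1 N) f h ξ ^ 2 ≤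
      ENNReal.ofReal (C / N) * ((∫⁻ p, f p ^ 2) * ∫⁻ q, h q ^ 2) := by
  obtain ⟨C, hC, hk⟩ := caseA_k1
  refine ⟨C, hC, fun N hN f h hf hh => ?_⟩
  have h1 : ∫⁻ ξ, BP (k1 N) f h ξ ^ 2 ≤
      ∫⁻ ξ, ENNReal.ofReal (C / N) * ∫⁻ ζ : E3, (f (-ζ - ξ) * h (ζ - ξ)) ^ 2 :=
    lintegral_mono (caseA_pt (hk N hN) hf hh)
  rw [lintegral_const_mul' _ _ ENNReal.ofReal_ne_top] at h1
  refine h1.trans ?_
  rw [← fh_lintegral hf hh]
  generalize (∫⁻ ξ : E3, ∫⁻ ζ : E3, (f (-ζ - ξ) * h (ζ - ξ)) ^ 2) = A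
  have h8 : A ≤ 8 * A := by
    calc A = 1 * A := (one_mul A).symm
      _ ≤ 8 * A := by
        gcongr
        norm_num
  exact mul_le_mul' le_rfl h8

end FracScatC

end
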