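import Pool.Agent.Lib.MP_6e2ba5_an.Ex.CaseB1

/-! # The estimate for the kernel `k2`

`sectors`: the unit sphere of `E3` is compact, so it is covered by finitely many balls of radius `1/8`.
`k2_le`: if `k2 N p q ≠ 0`, take `j = ⌊log₂(1+‖p‖)⌋` (`Nat.log`/`exists_nat_pow_near`):
`2^j ≤ 1+‖p‖ < 2^(j+1)`, and `e` in the finite set near `q/‖q‖`; one term of the sum is then equal to
`k2 N p q`. All terms are nonnegative.
`caseB`: the number `J` of values of `j` with `2^j ≤ 1+6N` is `≤ 1 + log₂(7N) ≤ C(1+log N)`, and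
`2^j ≤ 7N ≤ 12N`. `BP` of a finite sum of kernels is the sum (`BP_add`, induction), and
`(∑_{i∈I} a_i)² ≤ |I| ∑ a_i²` in `ℝ≥0∞` (`inner_mul_le...`, `ENNReal.inner_le_Lp_mul_Lq`, or by
`a_i a_j ≤ (a_i²+a_j²)/2`). So `∫⁻ BP(k2)² ≤ |I|² C(1+log N)²/N · ‖f‖²‖h‖²`, `|I| ≤ C(1+log N)`, and
`(1+log N)^4 ≤ C_ε N^ε` (`Real.log_le_rpow_div` or `isLittleO_log_rpow`; for `N ≥ 1`:
`log N ≤ N^δ/δ`, `δ = ε/4`). -/

set_option autoImplicit false

open MeasureTheory Filter Topology Set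
open scoped FourierTransform SchwartzMap InnerProductSpace ENNReal BoundedContinuousFunction

noncomputable section

namespace FracScatC

open FracScat

theorem sectors : ∃ Z : Finset E3, ∀ v : E3, ‖v‖ = 1 → ∃ e ∈ Z, ‖v - e‖ ≤ 1 / 8 := by
  obtain ⟨t, _, ht⟩ := (isCompact_sphere (0 : E3) 1).elim_nhds_subcover
    (fun x => Metric.ball x (1 / 8)) (fun x _ => Metric.ball_mem_nhds x (by norm_num))
  refine ⟨t, fun v hv => ?_⟩
  have hv' : v ∈ Metric.sphere (0 : E3) 1 := by simpa using hv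
  have h1 := ht hv'
  simp only [Set.mem_iUnion] at h1
  obtain ⟨e, he, hve⟩ := h1
  refine ⟨e, he, ?_⟩
  rw [Metric.mem_ball, dist_eq_norm] at hve
  exact hve.le

theorem k2_le {Z : Finset E3} (hZ : ∀ v : E3, ‖v‖ = 1 → ∃ e ∈ Z, ‖v - e‖ ≤ 1 / 8) {N : ℝ}
    (hN : 1 ≤ N) {J : ℕ} (hJ : 1 + 6 * N < 2 ^ J) (p q : E3) :
    k2 N p q ≤ ∑ j ∈ Finset.range J, ∑ e ∈ Z, kG N (2 ^ j) e p q := by
  unfold k2
  split_ifs with hc
  · obtain ⟨⟨h1, h2, h3⟩, h4⟩ := hc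
    have hq : 0 < ‖q‖ := by linarith
    have hv : ‖‖q‖⁻¹ • q‖ = 1 := by
      rw [norm_smul, norm_inv, norm_norm, inv_mul_cancel₀ hq.ne']
    obtain ⟨e, he, hve⟩ := hZ _ hv
    have hp1 : 1 ≤ 1 + ‖p‖ := by linarith [norm_nonneg p]
    obtain ⟨j, hj1, hj2⟩ := exists_nat_pow_near hp1 (one_lt_two : (1 : ℝ) < 2)
    have hjJ : j < J := by
      have h5 : (2 : ℝ) ^ j < 2 ^ J := by
        calc (2 : ℝ) ^ j ≤ 1 + ‖p‖ := hj1
          _ ≤ 1 + 6 * N := by linarith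
          _ < 2 ^ J := hJ
      exact (pow_lt_pow_iff_right₀ (one_lt_two : (1 : ℝ) < 2)).mp h5
    have h6 : kG N (2 ^ j) e p q = ENNReal.ofReal (1 / (N + |⟪p, q⟫_ℝ|)) := by
      unfold kG
      rw [if_pos]
      refine ⟨⟨⟨hj1, ?_⟩, h1, h2⟩, h4, hve⟩
      rw [pow_succ] at hj2
      linarith
    rw [← h6]
    refine le_trans ?_ (Finset.single_le_sum
      (f := fun j => ∑ e ∈ Z, kG N (2 ^ j) e p q) (fun _ _ => bot_le)
      (Finset.mem_range.mpr hjJ))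
    exact Finset.single_le_sum (f := fun e => kG N (2 ^ j) e p q) (fun _ _ => bot_le) he
  · exact bot_le

private theorem BP_zero' (f h : E3 → ℝ≥0∞) (ξ : E3) :
    BP (fun _ _ => 0) f h ξ = 0 := by
  unfold BP
  simp

private theorem BP_sum' {ι : Type*} (s : Finset ι) (k : ι → E3 → E3 → ℝ≥0∞)
    (hk : ∀ i, Measurable (Function.uncurry (k i)))
    {f h : E3 → ℝ≥0∞} (hf : Measurable f) (hh : Measurable h) (ξ : E3) :
    BP (fun p q => ∑ i ∈ s, k i p q) f h ξ = ∑ i ∈ s, BP (k i) f h ξ := by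
  classical
  induction s using Finset.induction_on with
  | empty =>
    simp only [Finset.sum_empty]
    exact BP_zero' f h ξ
  | insert a s ha ih =>
    simp only [Finset.sum_insert ha]
    rw [BP_add (hk a) hf hh ξ, ih]

private theorem mul_le_sq_add (a b : ℝ≥0∞) : a * b ≤ a ^ 2 + b ^ 2 := by
  rcases le_total a b with h | h
  · calc a * b ≤ b * b := by gcongr
      _ = b ^ 2 := (sq b).symm
      _ ≤ a ^ 2 + b ^ 2 := le_add_self
  · calc a * b ≤ a * a := by gcongr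
      _ = a ^ 2 := (sq a).symm
      _ ≤ a ^ 2 + b ^ 2 := le_self_add

private theorem sum_sq_le {ι : Type*} (s : Finset ι) (a : ι → ℝ≥0∞) :
    (∑ i ∈ s, a i) ^ 2 ≤ (2 * s.card : ℕ) * ∑ i ∈ s, a i ^ 2 := by
  calc (∑ i ∈ s, a i) ^ 2 = ∑ i ∈ s, ∑ j ∈ s, a i * a j := by
        rw [sq, Finset.sum_mul_sum]
    _ ≤ ∑ i ∈ s, ∑ j ∈ s, (a i ^ 2 + a j ^ 2) :=
        Finset.sum_le_sum fun i _ => Finset.sum_le_sum fun j _ => mul_le_sq_add _ _
    _ = (2 * s.card : ℕ) * ∑ i ∈ s, a i ^ 2 := by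
        simp only [Finset.sum_add_distrib, Finset.sum_const, nsmul_eq_mul]
        rw [← Finset.mul_sum]
        push_cast
        ring

private theorem lint_sum_sq {ι : Type*} (s : Finset ι) (k : ι → E3 → E3 → ℝ≥0∞)
    (hk : ∀ i, Measurable (Function.uncurry (k i)))
    {f h : E3 → ℝ≥0∞} (hf : Measurable f) (hh : Measurable h) {B : ℝ≥0∞}
    (hB : ∀ i ∈ s, ∫⁻ ξ, BP (k i) f h ξ ^ 2 ≤ B) :
    ∫⁻ ξ, BP (fun p q => ∑ i ∈ s, k i p q) f h ξ ^ 2 ≤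
      (2 * s.card : ℕ) * ((s.card : ℕ) * B) := by
  calc ∫⁻ ξ, BP (fun p q => ∑ i ∈ s, k i p q) f h ξ ^ 2
      = ∫⁻ ξ, (∑ i ∈ s, BP (k i) f h ξ) ^ 2 := by
        refine lintegral_congr fun ξ => ?_
        rw [BP_sum' s k hk hf hh ξ]
    _ ≤ ∫⁻ ξ, (2 * s.card : ℕ) * ∑ i ∈ s, BP (k i) f h ξ ^ 2 :=
        lintegral_mono fun ξ => sum_sq_le s _
    _ = (2 * s.card : ℕ) * ∫⁻ ξ, ∑ i ∈ s, BP (k i) f h ξ ^ 2 := by
        rw [lintegral_const_mul' _ _ (ENNReal.natCast_ne_top _)]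
    _ = (2 * s.card : ℕ) * ∑ i ∈ s, ∫⁻ ξ, BP (k i) f h ξ ^ 2 := by
        rw [lintegral_finsetSum s fun i _ => (BP_measurable (hk i) hf hh).pow_const 2]
    _ ≤ (2 * s.card : ℕ) * ((s.card : ℕ) * B) := by
        refine mul_le_mul_right ?_ _
        calc ∑ i ∈ s, ∫⁻ ξ, BP (k i) f h ξ ^ 2 ≤ ∑ _i ∈ s, B := Finset.sum_le_sum hB
          _ = (s.card : ℕ) * B := by rw [Finset.sum_const, nsmul_eq_mul]

private theorem one_add_log_pow {ε : ℝ} (hε : 0 < ε) {N : ℝ} (hN : 1 ≤ N) :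
    (1 + Real.log N) ^ 4 ≤ (1 + 4 / ε) ^ 4 * N ^ ε := by
  have hδ : 0 < ε / 4 := by positivity
  have hN0 : 0 < N := by linarith
  have h1 : Real.log N ≤ N ^ (ε / 4) / (ε / 4) := Real.log_le_rpow_div hN0.le hδ
  have h2 : 1 ≤ N ^ (ε / 4) := Real.one_le_rpow hN hδ.le
  have h3 : 0 ≤ Real.log N := Real.log_nonneg hN
  have h4 : 1 + Real.log N ≤ (1 + 4 / ε) * N ^ (ε / 4) := by
    have h5 : N ^ (ε / 4) / (ε / 4) = 4 / ε * N ^ (ε / 4) := by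
      field_simp
    rw [h5] at h1
    linarith
  have h6 : N ^ ε = (N ^ (ε / 4)) ^ 4 := by
    rw [← Real.rpow_natCast, ← Real.rpow_mul hN0.le]
    congr 1
    push_cast
    ring
  rw [h6, ← mul_pow]
  exact pow_le_pow_left₀ (by linarith) h4 4

private theorem exists_J {N : ℝ} (hN : 1 ≤ N) : ∃ J : ℕ, 1 + 6 * N < 2 ^ J ∧
    (∀ j < J, (2 : ℝ) ^ j ≤ 12 * N) ∧ (J : ℝ) ≤ 5 * (1 + Real.log N) := by
  obtain ⟨n, hn1, hn2⟩ := exists_nat_pow_near (show (1 : ℝ) ≤ 7 * N by linarith)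
    (one_lt_two : (1 : ℝ) < 2)
  refine ⟨n + 1, by linarith, fun j hj => ?_, ?_⟩
  · calc (2 : ℝ) ^ j ≤ 2 ^ n := pow_le_pow_right₀ one_le_two (by omega)
      _ ≤ 7 * N := hn1
      _ ≤ 12 * N := by linarith
  · have h1 : Real.log (2 ^ n) ≤ Real.log (7 * N) := Real.log_le_log (by positivity) hn1
    rw [Real.log_pow, Real.log_mul (by norm_num) (by linarith)] at h1
    have h2 : Real.log 7 ≤ 2 := by
      rw [Real.log_le_iff_le_exp (by norm_num)]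
      have h3 := Real.exp_one_gt_d9
      have h4 : Real.exp 2 = Real.exp 1 ^ 2 := by
        rw [← Real.exp_nat_mul]
        norm_num
      rw [h4]
      nlinarith
    have h3 := Real.log_two_gt_d9
    have h4 : (n : ℝ) * (1 / 2) ≤ n * Real.log 2 := by
      refine mul_le_mul_of_nonneg_left ?_ (Nat.cast_nonneg n)
      linarith
    have h5 : 0 ≤ Real.log N := Real.log_nonneg hN
    push_cast
    linarith

theorem caseB {ε : ℝ} (hε : 0 < ε) : ∃ C : ℝ, 0 ≤ C ∧ ∀ N : ℝ, 1 ≤ N →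
    ∀ f h : E3 → ℝ≥0∞, Measurable f → Measurable h →
    ∫⁻ ξ, BP (k2 N) f h ξ ^ 2 ≤
      ENNReal.ofReal (C * N ^ (ε - 1)) * ((∫⁻ p, f p ^ 2) * ∫⁻ q, h q ^ 2) := by
  obtain ⟨C1, hC1, hB1⟩ := caseB1
  obtain ⟨Z, hZ⟩ := sectors
  refine ⟨50 * (Z.card : ℝ) ^ 2 * C1 * (1 + 4 / ε) ^ 4, by positivity, ?_⟩
  intro N hN f h hf hh
  obtain ⟨J, hJ1, hJ2, hJ3⟩ := exists_J hN
  have hN0 : 0 < N := by linarith
  have hlog : 0 ≤ Real.log N := Real.log_nonneg hN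
  set F : ℝ≥0∞ := (∫⁻ p, f p ^ 2) * ∫⁻ q, h q ^ 2 with hF
  have hstep : ∫⁻ ξ, BP (k2 N) f h ξ ^ 2 ≤
      (2 * (Finset.range J ×ˢ Z).card : ℕ) * (((Finset.range J ×ˢ Z).card : ℕ) *
        (ENNReal.ofReal (C1 * (1 + Real.log N) ^ 2 / N) * F)) := by
    refine le_trans (lintegral_mono fun ξ => ?_)
      (lint_sum_sq (Finset.range J ×ˢ Z) (fun i => kG N (2 ^ i.1) i.2)
        (fun i => kG_measurable _ _ _) hf hh (fun i hi => ?_))
    · refine pow_le_pow_left₀ bot_le (BP_mono (fun p q => ?_) f h ξ) 2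
      refine (k2_le hZ hN hJ1 p q).trans (le_of_eq ?_)
      rw [Finset.sum_product]
    · have hi' := Finset.mem_product.mp hi
      exact hB1 N (2 ^ i.1) hN (one_le_pow₀ one_le_two)
        (hJ2 _ (Finset.mem_range.mp hi'.1)) i.2 f h hf hh
  refine hstep.trans ?_
  rw [← mul_assoc, ← mul_assoc]
  refine mul_le_mul_left ?_ F
  rw [← ENNReal.ofReal_natCast, ← ENNReal.ofReal_natCast, ← ENNReal.ofReal_mul (by positivity),
    ← ENNReal.ofReal_mul (by positivity)]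
  refine ENNReal.ofReal_le_ofReal ?_
  rw [Finset.card_product, Finset.card_range]
  push_cast
  have h1 := one_add_log_pow hε hN
  have h2 : (J : ℝ) ^ 2 ≤ 25 * (1 + Real.log N) ^ 2 := by
    have : (J : ℝ) ^ 2 ≤ (5 * (1 + Real.log N)) ^ 2 :=
      pow_le_pow_left₀ (Nat.cast_nonneg J) hJ3 2
    linarith
  have h3 : N ^ (ε - 1) = N ^ ε / N := by
    rw [Real.rpow_sub hN0, Real.rpow_one]
  rw [h3]
  have h4 : 2 * ((J : ℝ) * Z.card) * ((J : ℝ) * Z.card) * (C1 * (1 + Real.log N) ^ 2 / N) =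
      (2 * (Z.card : ℝ) ^ 2 * C1 / N) * ((J : ℝ) ^ 2 * (1 + Real.log N) ^ 2) := by ring
  have h5 : 50 * (Z.card : ℝ) ^ 2 * C1 * (1 + 4 / ε) ^ 4 * (N ^ ε / N) =
      (2 * (Z.card : ℝ) ^ 2 * C1 / N) * (25 * ((1 + 4 / ε) ^ 4 * N ^ ε)) := by ring
  rw [h4, h5]
  refine mul_le_mul_of_nonneg_left ?_ (by positivity)
  calc (J : ℝ) ^ 2 * (1 + Real.log N) ^ 2
      ≤ (25 * (1 + Real.log N) ^ 2) * (1 + Real.log N) ^ 2 :=
        mul_le_mul_of_nonneg_right h2 (by positivity)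
    _ = 25 * (1 + Real.log N) ^ 4 := by ring
    _ ≤ 25 * ((1 + 4 / ε) ^ 4 * N ^ ε) := by linarith

end FracScatC

end
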