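import Pool.Agent.Lib.MP_6e2ba5_an.Ex.Defs

/-! # The integral over `x` in Case B

`logInt`: `∫_{|x| ≤ L} dx/(N + |bx+c|) = (1/|b|) ∫_I du/(N+|u|)`, `I` an interval of length
`2A`, `A = |b| L`. On `I ∩ {|u| ≤ A}` the integral is at most `∫_{-A}^{A} du/(N+|u|) = 2 log(1+A/N)`, and on
`I ∩ {|u| > A}` the integrand is `≤ 1/A` and the length is `≤ 2A`, so this part is `≤ 2`.

`Mest`. If `P ≤ 2` the integrand is `≤ 1/N²` on the ball of radius `8`: total `≤ C/N² ≤ C/N`. If
`P ≥ 2`: `‖p‖ ≥ P - 1 ≥ P/2 > 0`, `‖q‖ ≥ N > 0`. Choose an orthonormal basis `e₁ = q/‖q‖`, `e₂`, `e₃` with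
`p = p₁ e₁ + p₂ e₂`; `|p₁| ≤ (3/4)‖p‖`, so `|p₂| ≥ ‖p‖/2 ≥ P/4`. In the coordinates
`x = x₁e₁+x₂e₂+x₃e₃` (measure preserving: an orthonormal basis gives a linear isometry of `E3`,
`LinearIsometryEquiv.measurePreserving`, and `E3` with its volume is the product measure,
`EuclideanSpace.volume_preserving_symm_measurableEquiv_toLp` / `MeasurableEquiv.toLp`; compare
`../Cx/Bip.lean`), the ball is contained in the cube `|x_i| ≤ 4P`, `⟪x,q⟫ = ‖q‖ x₁`,
`⟪p,x⟫ = p₁x₁ + p₂x₂`. Integrate in `x₂` first (`logInt` with `b = p₂`, `|b| ≤ 2P`, `P ≤ 12N`):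
`≤ (1/|p₂|)(2 log(1+4P|p₂|/N) + 2) ≤ (C/P)(1 + log N)` since `4P|p₂|/N ≤ 8P²/N ≤ 1152 N`; then in `x₁`
(`b = ‖q‖`, `N ≤ b ≤ 6N`): `≤ (1/N)(2 log(1+24P)+2) ≤ (C/N)(1+log N)`; in `x₃`: the length `8P`.
An alternative to the orthonormal basis: apply the linear map `x ↦ (⟪x,q⟫/‖q‖, ⟪x,e₂⟫, ⟪x,e₃⟫)`. -/

set_option autoImplicit false

open MeasureTheory Filter Topology Set
open scoped FourierTransform SchwartzMap InnerProductSpace ENNReal BoundedContinuousFunction

noncomputable section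

namespace FracScatC

open FracScat

/-- affine substitution -/
private theorem mint_sub (g : ℝ → ℝ≥0∞) (hg : Measurable g) {b : ℝ} (hb : b ≠ 0) (c : ℝ) :
    ∫⁻ x, g (b * x + c) = ENNReal.ofReal (1 / |b|) * ∫⁻ u, g u := by
  have h1 : ∫⁻ u, g u = ∫⁻ u, g (u + c) := (lintegral_add_right_eq_self g c).symm
  have hm : Measurable (fun u => g (u + c)) := hg.comp (measurable_id.add_const c)
  have h2 := Real.map_volume_mul_left hb
  have h3 : ∫⁻ x, g (b * x + c) = ∫⁻ u, g (u + c) ∂(Measure.map (fun x => b * x) volume) :=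
    (lintegral_map hm (measurable_const_mul b)).symm
  have h4 : ∫⁻ u, g (u + c) ∂(Measure.map (fun x => b * x) volume) =
      ENNReal.ofReal |b⁻¹| * ∫⁻ u, g (u + c) := by
    rw [show (fun x => b * x) = (b * ·) from rfl, h2, lintegral_smul_measure, smul_eq_mul]
  rw [h3, h4, h1, abs_inv, one_div]

/-- the integral over a symmetric interval -/
private theorem mint_half {N A : ℝ} (hN : 0 < N) (hA : 0 < A) :
    ∫⁻ u in Icc 0 A, ENNReal.ofReal (1 / (N + |u|)) = ENNReal.ofReal (Real.log (1 + A / N)) := by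
  have h0 : ∫⁻ u in Icc 0 A, ENNReal.ofReal (1 / (N + |u|)) =
      ∫⁻ u in Icc 0 A, ENNReal.ofReal ((N + u)⁻¹) := by
    refine setLIntegral_congr_fun measurableSet_Icc fun u hu => ?_
    simp only [abs_of_nonneg hu.1, one_div]
  have hc : ContinuousOn (fun u : ℝ => (N + u)⁻¹) (Icc 0 A) := by
    refine ContinuousOn.inv₀ (by fun_prop) fun u hu => ?_
    have := hu.1
    positivity
  have h1 : IntegrableOn (fun u : ℝ => (N + u)⁻¹) (Icc 0 A) := hc.integrableOn_Icc
  rw [h0, ← ofReal_integral_eq_lintegral_ofReal h1]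
  · congr 1
    rw [integral_Icc_eq_integral_Ioc, ← intervalIntegral.integral_of_le hA.le,
      intervalIntegral.integral_comp_add_left (fun x => x⁻¹) N, add_zero,
      integral_inv_of_pos hN (by positivity)]
    congr 1
    field_simp
  · refine (ae_restrict_iff' measurableSet_Icc).2 (Eventually.of_forall fun u hu => ?_)
    have := hu.1
    change 0 ≤ (N + u)⁻¹
    positivity

private theorem mint_sym {N A : ℝ} (hN : 0 < N) (hA : 0 < A) :
    ∫⁻ u in Icc (-A) A, ENNReal.ofReal (1 / (N + |u|)) ≤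
      ENNReal.ofReal (2 * Real.log (1 + A / N)) := by
  have hl : 0 ≤ Real.log (1 + A / N) := Real.log_nonneg (by
    have : 0 < A / N := by positivity
    linarith)
  have h1 : Icc (-A) A ⊆ Icc (-A) 0 ∪ Icc 0 A := by
    intro u hu
    rcases le_total u 0 with h | h
    · exact Or.inl ⟨hu.1, h⟩
    · exact Or.inr ⟨h, hu.2⟩
  have h2 : ∫⁻ u in Icc (-A) 0, ENNReal.ofReal (1 / (N + |u|)) =
      ∫⁻ u in Icc 0 A, ENNReal.ofReal (1 / (N + |u|)) := by
    have mp := (Measure.measurePreserving_neg (volume : Measure ℝ)).setLIntegral_comp_preimage_emb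
      (MeasurableEquiv.neg ℝ).measurableEmbedding (fun u => ENNReal.ofReal (1 / (N + |u|)))
      (Icc 0 A)
    simp only [abs_neg] at mp
    rw [← mp]
    congr 2
    ext u
    simp only [mem_preimage, mem_Icc]
    constructor
    · rintro ⟨h, h'⟩
      exact ⟨by linarith, by linarith⟩
    · rintro ⟨h, h'⟩
      exact ⟨by linarith, by linarith⟩
  calc ∫⁻ u in Icc (-A) A, ENNReal.ofReal (1 / (N + |u|))
      ≤ ∫⁻ u in Icc (-A) 0 ∪ Icc 0 A, ENNReal.ofReal (1 / (N + |u|)) :=
        lintegral_mono_set h1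
    _ ≤ (∫⁻ u in Icc (-A) 0, ENNReal.ofReal (1 / (N + |u|))) +
        ∫⁻ u in Icc 0 A, ENNReal.ofReal (1 / (N + |u|)) := lintegral_union_le _ _ _
    _ = ENNReal.ofReal (2 * Real.log (1 + A / N)) := by
      rw [h2, mint_half hN hA, ← ENNReal.ofReal_add hl hl]
      congr 1
      ring

theorem logInt {N L : ℝ} (hN : 0 < N) (hL : 0 < L) {b : ℝ} (hb : b ≠ 0) (c : ℝ) :
    ∫⁻ x in Icc (-L) L, ENNReal.ofReal (1 / (N + |b * x + c|)) ≤
      ENNReal.ofReal (1 / |b| * (2 * Real.log (1 + |b| * L / N) + 2)) := by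
  have hb0 : 0 < |b| := abs_pos.2 hb
  set A : ℝ := |b| * L with hAdef
  have hA : 0 < A := by positivity
  have hl : 0 ≤ Real.log (1 + A / N) := Real.log_nonneg (by
    have : 0 < A / N := by positivity
    linarith)
  set f : ℝ → ℝ≥0∞ := fun u => ENNReal.ofReal (1 / (N + |u|)) with hf
  have hfm : Measurable f := by
    refine ENNReal.measurable_ofReal.comp ?_
    exact measurable_const.div (measurable_const.add measurable_norm)
  set I : Set ℝ := Icc (c - A) (c + A) with hI
  have hIm : MeasurableSet I := measurableSet_Icc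
  set g : ℝ → ℝ≥0∞ := I.indicator f with hg
  have hgm : Measurable g := hfm.indicator hIm
  have h1 : ∫⁻ x in Icc (-L) L, ENNReal.ofReal (1 / (N + |b * x + c|)) ≤ ∫⁻ x, g (b * x + c) := by
    rw [← lintegral_indicator measurableSet_Icc]
    refine lintegral_mono fun x => ?_
    by_cases hx : x ∈ Icc (-L) L
    · have hx' : b * x + c ∈ I := by
        have h : |b * x| ≤ A := by
          rw [abs_mul]
          exact mul_le_mul_of_nonneg_left (abs_le.2 ⟨hx.1, hx.2⟩) hb0.le
        rw [abs_le] at h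
        exact ⟨by linarith [h.1], by linarith [h.2]⟩
      rw [indicator_of_mem hx, hg, indicator_of_mem hx']
    · rw [indicator_of_notMem hx]
      exact zero_le
  have h2 : ∫⁻ u, g u ≤ ENNReal.ofReal (2 * Real.log (1 + A / N) + 2) := by
    rw [hg, lintegral_indicator hIm]
    have h3 : I ⊆ Icc (-A) A ∪ (I \ Icc (-A) A) := by
      intro u hu
      by_cases h : u ∈ Icc (-A) A
      · exact Or.inl h
      · exact Or.inr ⟨hu, h⟩
    have h4 : ∫⁻ u in I \ Icc (-A) A, f u ≤ ENNReal.ofReal 2 := by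
      calc ∫⁻ u in I \ Icc (-A) A, f u ≤ ∫⁻ _ in I \ Icc (-A) A, ENNReal.ofReal (1 / A) := by
            refine setLIntegral_mono measurable_const fun u hu => ?_
            refine ENNReal.ofReal_le_ofReal ?_
            have h : A < |u| := by
              by_contra hcon
              rw [not_lt, abs_le] at hcon
              exact hu.2 hcon
            refine one_div_le_one_div_of_le hA ?_
            linarith
        _ = ENNReal.ofReal (1 / A) * volume (I \ Icc (-A) A) := by
            rw [setLIntegral_const]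
        _ ≤ ENNReal.ofReal (1 / A) * volume I := by
            gcongr
            exact sdiff_subset
        _ = ENNReal.ofReal 2 := by
            rw [hI, Real.volume_Icc, ← ENNReal.ofReal_mul (by positivity)]
            congr 1
            field_simp
            ring
    calc ∫⁻ u in I, f u ≤ ∫⁻ u in Icc (-A) A ∪ (I \ Icc (-A) A), f u := lintegral_mono_set h3
      _ ≤ (∫⁻ u in Icc (-A) A, f u) + ∫⁻ u in I \ Icc (-A) A, f u := lintegral_union_le _ _ _
      _ ≤ ENNReal.ofReal (2 * Real.log (1 + A / N)) + ENNReal.ofReal 2 :=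
        add_le_add (mint_sym hN hA) h4
      _ = ENNReal.ofReal (2 * Real.log (1 + A / N) + 2) :=
        (ENNReal.ofReal_add (by linarith) (by norm_num)).symm
  calc ∫⁻ x in Icc (-L) L, ENNReal.ofReal (1 / (N + |b * x + c|)) ≤ ∫⁻ x, g (b * x + c) := h1
    _ = ENNReal.ofReal (1 / |b|) * ∫⁻ u, g u := mint_sub g hgm hb c
    _ ≤ ENNReal.ofReal (1 / |b|) * ENNReal.ofReal (2 * Real.log (1 + A / N) + 2) := by gcongr
    _ = ENNReal.ofReal (1 / |b| * (2 * Real.log (1 + A / N) + 2)) :=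
      (ENNReal.ofReal_mul (by positivity)).symm

/-- the ball is contained in a cube; product measure -/
private theorem mint_slice (L : ℝ) (F : ℝ → ℝ → ℝ≥0∞)
    (hF : Measurable (Function.uncurry F)) :
    ∫⁻ y in Metric.closedBall (0 : E3) L, F (y 0) (y 1) ≤
      ENNReal.ofReal (2 * L) * ∫⁻ a in Icc (-L) L, ∫⁻ b in Icc (-L) L, F a b := by
  set J : Set ℝ := Icc (-L) L with hJ
  have hJm : MeasurableSet J := measurableSet_Icc
  set H : ℝ → ℝ → ℝ → ℝ≥0∞ := fun a b d =>
    J.indicator (fun a => J.indicator (fun b => J.indicator (fun _ => F a b) d) b) a with hH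
  have hHm : Measurable (fun z : ℝ × ℝ × ℝ => H z.1 z.2.1 z.2.2) := by
    have e : (fun z : ℝ × ℝ × ℝ => H z.1 z.2.1 z.2.2) =
        (J ×ˢ (J ×ˢ J)).indicator (fun z : ℝ × ℝ × ℝ => F z.1 z.2.1) := by
      funext z
      obtain ⟨a, b, d⟩ := z
      simp only [hH, indicator, mem_prod]
      by_cases ha : a ∈ J <;> by_cases hb : b ∈ J <;> by_cases hd : d ∈ J <;> simp [ha, hb, hd]
    rw [e]
    refine Measurable.indicator ?_ (hJm.prod (hJm.prod hJm))
    exact hF.comp (measurable_fst.prodMk measurable_snd.fst)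
  have h1 : ∫⁻ y in Metric.closedBall (0 : E3) L, F (y 0) (y 1) ≤
      ∫⁻ y : E3, H (y 0) (y 1) (y 2) := by
    rw [← lintegral_indicator Metric.isClosed_closedBall.measurableSet]
    refine lintegral_mono fun y => ?_
    by_cases hy : y ∈ Metric.closedBall (0 : E3) L
    · rw [indicator_of_mem hy]
      have hy' : ‖y‖ ≤ L := by simpa using hy
      have hi : ∀ i, y i ∈ J := by
        intro i
        have h2 : ‖y i‖ ≤ ‖y‖ := PiLp.norm_apply_le y i
        rw [Real.norm_eq_abs] at h2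
        exact abs_le.1 (h2.trans hy')
      simp only [hH, indicator_of_mem (hi 0), indicator_of_mem (hi 1), indicator_of_mem (hi 2)]
      exact le_rfl
    · rw [indicator_of_notMem hy]
      exact zero_le
  refine h1.trans (le_of_eq ?_)
  have mp1 := PiLp.volume_preserving_toLp (Fin 3)
  have mp2 := (volume_preserving_piFinSuccAbove (fun _ : Fin 3 => ℝ) 0).symm
  have mp3 := (volume_preserving_finTwoArrow ℝ).symm
  have hg : Measurable (fun x : E3 => H (x 0) (x 1) (x 2)) :=
    hHm.comp ((by fun_prop : Measurable fun x : E3 => (x 0, x 1, x 2)))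
  have e1 := mp1.lintegral_comp hg
  have hg1 : Measurable (fun y : Fin 3 → ℝ => H (y 0) (y 1) (y 2)) :=
    hHm.comp ((by fun_prop : Measurable fun x : Fin 3 → ℝ => (x 0, x 1, x 2)))
  have e2 := mp2.lintegral_comp hg1
  rw [← e1]
  refine e2.symm.trans ?_
  rw [Measure.volume_eq_prod]
  have hg2 := hg1.comp mp2.measurable
  refine (lintegral_prod _ hg2.aemeasurable).trans ?_
  have e3 : ∀ t : ℝ, ∫⁻ w : Fin 2 → ℝ, H t (w 0) (w 1) =
      ∫⁻ b : ℝ, ∫⁻ d : ℝ, H t b d := by
    intro t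
    have hg3 : Measurable (fun w : Fin 2 → ℝ => H t (w 0) (w 1)) :=
      hHm.comp ((by fun_prop : Measurable fun w : Fin 2 → ℝ => (t, w 0, w 1)))
    have e4 := mp3.lintegral_comp hg3
    refine e4.symm.trans ?_
    rw [Measure.volume_eq_prod]
    have hg4 : Measurable (fun z : ℝ × ℝ => H t z.1 z.2) :=
      hHm.comp (measurable_const.prodMk measurable_id)
    exact lintegral_prod _ hg4.aemeasurable
  have e5 : ∀ t : ℝ, ∫⁻ w : Fin 2 → ℝ, ((fun y : Fin 3 → ℝ => H (y 0) (y 1) (y 2)) ∘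
      ⇑(MeasurableEquiv.piFinSuccAbove (fun _ : Fin 3 => ℝ) 0).symm) (t, w) =
      ∫⁻ b : ℝ, ∫⁻ d : ℝ, H t b d := fun t => e3 t
  refine (lintegral_congr e5).trans ?_
  have e6 : ∀ a : ℝ, ∫⁻ b : ℝ, ∫⁻ d : ℝ, H a b d =
      J.indicator (fun a => ∫⁻ b in J, F a b * ENNReal.ofReal (2 * L)) a := by
    intro a
    by_cases ha : a ∈ J
    · rw [indicator_of_mem ha, ← lintegral_indicator hJm]
      refine lintegral_congr fun b => ?_
      by_cases hb : b ∈ J
      · rw [indicator_of_mem hb]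
        simp only [hH, indicator_of_mem ha, indicator_of_mem hb]
        rw [lintegral_indicator hJm, setLIntegral_const, hJ, Real.volume_Icc]
        congr 2
        ring
      · rw [indicator_of_notMem hb]
        simp only [hH, indicator_of_mem ha, indicator_of_notMem hb, lintegral_zero]
    · rw [indicator_of_notMem ha]
      simp only [hH, indicator_of_notMem ha, lintegral_zero]
  refine (lintegral_congr e6).trans ?_
  rw [lintegral_indicator hJm]
  have e7 : ∀ a : ℝ, ∫⁻ b in J, F a b * ENNReal.ofReal (2 * L) =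
      (∫⁻ b in J, F a b) * ENNReal.ofReal (2 * L) := fun a =>
    lintegral_mul_const' _ _ ENNReal.ofReal_ne_top
  rw [lintegral_congr e7, lintegral_mul_const' _ _ ENNReal.ofReal_ne_top, mul_comm]

private theorem mint_log {N t : ℝ} (hN : 1 ≤ N) (ht : 0 ≤ t) (h : t ≤ 2047 * N) :
    2 * Real.log (1 + t) + 2 ≤ 18 * (1 + Real.log N) := by
  have hl : 0 ≤ Real.log N := Real.log_nonneg hN
  have h1 : 1 + t ≤ 2 ^ 11 * N := by
    norm_num
    linarith
  have h2 : Real.log (1 + t) ≤ 11 * Real.log 2 + Real.log N := by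
    have h3 := Real.log_le_log (by linarith) h1
    rw [Real.log_mul (by norm_num) (by linarith), Real.log_pow] at h3
    exact_mod_cast h3
  have h4 := Real.log_two_lt_d9
  linarith

/-- coordinates adapted to `p`, `q` -/
private theorem mint_coord {p q : E3} (hq : 0 < ‖q‖) (hp : 0 < ‖p‖)
    (h : |⟪p, q⟫_ℝ| ≤ 3 / 4 * (‖p‖ * ‖q‖)) :
    ∃ (b : OrthonormalBasis (Fin 3) ℝ E3) (p1 p2 : ℝ), ‖p‖ / 2 ≤ p2 ∧ p2 ≤ ‖p‖ ∧
      (∀ x, ⟪x, q⟫_ℝ = ‖q‖ * b.repr x 0) ∧ ∀ x, ⟪p, x⟫_ℝ = p1 * b.repr x 0 + p2 * b.repr x 1 := by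
  set e1 : E3 := (1 / ‖q‖) • q with he1
  have hq0 : ‖q‖ ≠ 0 := hq.ne'
  have n1 : ‖e1‖ = 1 := by
    rw [he1, norm_smul, Real.norm_of_nonneg (by positivity)]
    field_simp
  have hqe : q = ‖q‖ • e1 := by
    rw [he1, smul_smul]
    rw [mul_one_div_cancel hq0, one_smul]
  set p1 : ℝ := ⟪e1, p⟫_ℝ with hp1
  have hp1b : |p1| ≤ 3 / 4 * ‖p‖ := by
    have e : p1 = ⟪p, q⟫_ℝ / ‖q‖ := by
      rw [hp1, he1, real_inner_smul_left, real_inner_comm]
      ring
    rw [e, abs_div, abs_of_pos hq, div_le_iff₀ hq]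
    linarith
  set w : E3 := p - p1 • e1 with hw
  have hw1 : ⟪e1, w⟫_ℝ = 0 := by
    rw [hw, inner_sub_right, real_inner_smul_right, real_inner_self_eq_norm_sq, n1, ← hp1]
    ring
  have hpw : ‖p‖ ^ 2 = p1 ^ 2 + ‖w‖ ^ 2 := by
    have e : p = p1 • e1 + w := by rw [hw]; abel
    have h2 : ⟪p1 • e1, w⟫_ℝ = 0 := by rw [real_inner_smul_left, hw1, mul_zero]
    have h3 := norm_add_sq_real (p1 • e1) w
    rw [← e, h2, norm_smul, n1] at h3
    rw [h3, Real.norm_eq_abs, mul_one, sq_abs]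
    ring
  have hp1sq : p1 ^ 2 ≤ 9 / 16 * ‖p‖ ^ 2 := by
    rw [← sq_abs p1]
    have h0 := abs_nonneg p1
    nlinarith
  have hwsq : (‖p‖ / 2) ^ 2 ≤ ‖w‖ ^ 2 := by
    have := sq_nonneg ‖p‖
    nlinarith
  have hwlo : ‖p‖ / 2 ≤ ‖w‖ := (sq_le_sq₀ (by positivity) (norm_nonneg w)).1 hwsq
  have hwhi : ‖w‖ ≤ ‖p‖ := (sq_le_sq₀ (norm_nonneg w) (norm_nonneg p)).1 (by
    have := sq_nonneg p1
    linarith)
  have hw0 : 0 < ‖w‖ := by linarith
  set e2 : E3 := (1 / ‖w‖) • w with he2
  have n2 : ‖e2‖ = 1 := by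
    rw [he2, norm_smul, Real.norm_of_nonneg (by positivity)]
    field_simp
  have hwe : w = ‖w‖ • e2 := by
    rw [he2, smul_smul]
    rw [mul_one_div_cancel hw0.ne', one_smul]
  have h12 : ⟪e1, e2⟫_ℝ = 0 := by rw [he2, real_inner_smul_right, hw1, mul_zero]
  obtain ⟨b, hb⟩ : ∃ b : OrthonormalBasis (Fin 3) ℝ E3, b 0 = e1 ∧ b 1 = e2 := by
    have ho : Orthonormal ℝ (({0, 1} : Set (Fin 3)).domRestrict ![e1, e2, 0]) := by
      constructor
      · rintro ⟨i, hi⟩
        rcases hi with rfl | rfl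
        · exact n1
        · exact n2
      · rintro ⟨i, hi⟩ ⟨j, hj⟩ hij
        rcases hi with rfl | rfl <;> rcases hj with rfl | rfl
        · exact absurd rfl hij
        · exact h12
        · change ⟪e2, e1⟫_ℝ = 0
          rw [real_inner_comm]
          exact h12
        · exact absurd rfl hij
    obtain ⟨b, hb⟩ := ho.exists_orthonormalBasis_extension_of_card_eq (by simp)
    exact ⟨b, hb 0 (by simp), hb 1 (by simp)⟩
  refine ⟨b, p1, ‖w‖, hwlo, hwhi, fun x => ?_, fun x => ?_⟩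
  · rw [b.repr_apply_apply, hb.1]
    nth_rewrite 1 [hqe]
    rw [real_inner_smul_right, real_inner_comm]
  · rw [b.repr_apply_apply, b.repr_apply_apply, hb.1, hb.2]
    have e : p = p1 • e1 + ‖w‖ • e2 := by rw [← hwe, hw]; abel
    nth_rewrite 1 [e]
    rw [inner_add_left, real_inner_smul_left e1 x p1, real_inner_smul_left e2 x ‖w‖]

theorem Mest : ∃ C : ℝ, 0 ≤ C ∧ ∀ N P : ℝ, 1 ≤ N → 1 ≤ P → P ≤ 12 * N → ∀ p q : E3,
    P ≤ 1 + ‖p‖ → 1 + ‖p‖ ≤ 2 * P → N ≤ ‖q‖ → ‖q‖ ≤ 6 * N →
    |⟪p, q⟫_ℝ| ≤ 3 / 4 * (‖p‖ * ‖q‖) → ∀ c c' : ℝ,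
    ∫⁻ x in Metric.closedBall (0 : E3) (4 * P),
      ENNReal.ofReal (1 / ((N + |⟪p, x⟫_ℝ + c|) * (N + |⟪x, q⟫_ℝ + c'|))) ≤
      ENNReal.ofReal (C * (1 + Real.log N) ^ 2 / N) := by
  set V : ℝ := (volume (Metric.closedBall (0 : E3) 8)).toReal with hV
  have hVfin : volume (Metric.closedBall (0 : E3) 8) ≠ ⊤ := measure_closedBall_lt_top.ne
  have hV0 : 0 ≤ V := ENNReal.toReal_nonneg
  refine ⟨10368 + V, by positivity, ?_⟩
  intro N P hN hP hPN p q hp1 hp2 hq1 hq2 hpq c c'
  have hN0 : 0 < N := by linarith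
  have hl : 0 ≤ Real.log N := Real.log_nonneg hN
  rcases le_or_gt P 2 with hP2 | hP2
  · calc ∫⁻ x in Metric.closedBall (0 : E3) (4 * P),
        ENNReal.ofReal (1 / ((N + |⟪p, x⟫_ℝ + c|) * (N + |⟪x, q⟫_ℝ + c'|)))
        ≤ ∫⁻ _ in Metric.closedBall (0 : E3) (4 * P), ENNReal.ofReal (1 / N) := by
          refine lintegral_mono fun x => ENNReal.ofReal_le_ofReal ?_
          refine one_div_le_one_div_of_le hN0 ?_
          have h1 := abs_nonneg (⟪p, x⟫_ℝ + c)
          have h2 := abs_nonneg (⟪x, q⟫_ℝ + c')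
          nlinarith [mul_nonneg h1 h2]
      _ = ENNReal.ofReal (1 / N) * volume (Metric.closedBall (0 : E3) (4 * P)) := by
          rw [setLIntegral_const]
      _ ≤ ENNReal.ofReal (1 / N) * volume (Metric.closedBall (0 : E3) 8) := by
          gcongr
          linarith
      _ = ENNReal.ofReal (1 / N * V) := by
          rw [ENNReal.ofReal_mul (by positivity), hV, ENNReal.ofReal_toReal hVfin]
      _ ≤ ENNReal.ofReal ((10368 + V) * (1 + Real.log N) ^ 2 / N) := by
          refine ENNReal.ofReal_le_ofReal ?_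
          rw [one_div_mul_eq_div]
          refine div_le_div_of_nonneg_right ?_ hN0.le
          have h1 : 1 ≤ (1 + Real.log N) ^ 2 := by nlinarith
          nlinarith
  · have hpn : P / 2 ≤ ‖p‖ := by linarith
    have hpn' : ‖p‖ ≤ 2 * P := by linarith
    have hp0 : 0 < ‖p‖ := by linarith
    have hq0 : 0 < ‖q‖ := by linarith
    obtain ⟨b, p1, p2, hlo, hhi, hx1, hx2⟩ := mint_coord hq0 hp0 hpq
    have hp20 : 0 < p2 := by linarith
    have hL : 0 < 4 * P := by linarith
    set F : ℝ → ℝ → ℝ≥0∞ := fun s t =>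
      ENNReal.ofReal (1 / (N + |p2 * t + (p1 * s + c)|)) *
        ENNReal.ofReal (1 / (N + |‖q‖ * s + c'|)) with hF
    have hFm : Measurable (Function.uncurry F) := by
      have m1 : Measurable (fun z : ℝ × ℝ => ENNReal.ofReal (1 / (N + |p2 * z.2 + (p1 * z.1 + c)|))) := by
        refine ENNReal.measurable_ofReal.comp (measurable_const.div (measurable_const.add ?_))
        exact (by fun_prop : Measurable fun z : ℝ × ℝ => p2 * z.2 + (p1 * z.1 + c)).norm
      have m2 : Measurable (fun z : ℝ × ℝ => ENNReal.ofReal (1 / (N + |‖q‖ * z.1 + c'|))) := by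
        refine ENNReal.measurable_ofReal.comp (measurable_const.div (measurable_const.add ?_))
        exact (by fun_prop : Measurable fun z : ℝ × ℝ => ‖q‖ * z.1 + c').norm
      exact m1.mul m2
    have h1 : ∫⁻ x in Metric.closedBall (0 : E3) (4 * P),
        ENNReal.ofReal (1 / ((N + |⟪p, x⟫_ℝ + c|) * (N + |⟪x, q⟫_ℝ + c'|))) =
        ∫⁻ y in Metric.closedBall (0 : E3) (4 * P), F (y 0) (y 1) := by
      have mp := b.measurePreserving_repr.setLIntegral_comp_preimage_emb
        b.repr.toHomeomorph.measurableEmbedding (fun y => F (y 0) (y 1))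
        (Metric.closedBall (0 : E3) (4 * P))
      rw [← mp]
      have hpre : (b.repr ⁻¹' Metric.closedBall (0 : E3) (4 * P)) =
          Metric.closedBall (0 : E3) (4 * P) := by
        ext x
        simp
      rw [hpre]
      refine lintegral_congr fun x => ?_
      simp only [hF]
      rw [← ENNReal.ofReal_mul (by positivity), hx1, hx2]
      congr 1
      rw [one_div_mul_one_div]
      congr 3
      ring_nf
    rw [h1]
    refine (mint_slice (4 * P) F hFm).trans ?_
    set K1 : ℝ := 1 / |p2| * (2 * Real.log (1 + |p2| * (4 * P) / N) + 2) with hK1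
    set K2 : ℝ := 1 / |‖q‖| * (2 * Real.log (1 + |‖q‖| * (4 * P) / N) + 2) with hK2
    have hin : ∀ s : ℝ, ∫⁻ t in Icc (-(4 * P)) (4 * P), F s t ≤
        ENNReal.ofReal K1 * ENNReal.ofReal (1 / (N + |‖q‖ * s + c'|)) := by
      intro s
      simp only [hF]
      rw [lintegral_mul_const' _ _ ENNReal.ofReal_ne_top]
      gcongr
      exact logInt hN0 hL hp20.ne' _
    have hout : ∫⁻ s in Icc (-(4 * P)) (4 * P), ∫⁻ t in Icc (-(4 * P)) (4 * P), F s t ≤
        ENNReal.ofReal K1 * ENNReal.ofReal K2 := by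
      refine (lintegral_mono hin).trans ?_
      rw [lintegral_const_mul' _ _ ENNReal.ofReal_ne_top]
      gcongr
      exact logInt hN0 hL hq0.ne' _
    have hK1b : K1 ≤ 4 / P * (18 * (1 + Real.log N)) := by
      rw [hK1, abs_of_pos hp20]
      have hb1 : 1 / p2 ≤ 4 / P := by
        rw [div_le_div_iff₀ hp20 (by linarith)]
        linarith
      have hb2 : 2 * Real.log (1 + p2 * (4 * P) / N) + 2 ≤ 18 * (1 + Real.log N) := by
        refine mint_log hN (by positivity) ?_
        rw [div_le_iff₀ hN0]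
        have : p2 * (4 * P) ≤ 2 * P * (4 * P) := by
          have : p2 ≤ 2 * P := by linarith
          gcongr
        nlinarith
      have hb3 : 0 ≤ 2 * Real.log (1 + p2 * (4 * P) / N) + 2 := by
        have : 0 ≤ Real.log (1 + p2 * (4 * P) / N) := Real.log_nonneg (by
          have : 0 ≤ p2 * (4 * P) / N := by positivity
          linarith)
        linarith
      exact mul_le_mul hb1 hb2 hb3 (by positivity)
    have hK2b : K2 ≤ 1 / N * (18 * (1 + Real.log N)) := by
      rw [hK2, abs_of_pos hq0]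
      have hb1 : 1 / ‖q‖ ≤ 1 / N := one_div_le_one_div_of_le hN0 hq1
      have hb2 : 2 * Real.log (1 + ‖q‖ * (4 * P) / N) + 2 ≤ 18 * (1 + Real.log N) := by
        refine mint_log hN (by positivity) ?_
        rw [div_le_iff₀ hN0]
        have : ‖q‖ * (4 * P) ≤ 6 * N * (4 * P) := by gcongr
        nlinarith
      have hb3 : 0 ≤ 2 * Real.log (1 + ‖q‖ * (4 * P) / N) + 2 := by
        have : 0 ≤ Real.log (1 + ‖q‖ * (4 * P) / N) := Real.log_nonneg (by
          have : 0 ≤ ‖q‖ * (4 * P) / N := by positivity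
          linarith)
        linarith
      exact mul_le_mul hb1 hb2 hb3 (by positivity)
    have hP0 : 0 < P := by linarith
    calc ENNReal.ofReal (2 * (4 * P)) * ∫⁻ s in Icc (-(4 * P)) (4 * P),
          ∫⁻ t in Icc (-(4 * P)) (4 * P), F s t
        ≤ ENNReal.ofReal (2 * (4 * P)) * (ENNReal.ofReal (4 / P * (18 * (1 + Real.log N))) *
          ENNReal.ofReal (1 / N * (18 * (1 + Real.log N)))) := by
          gcongr
          refine hout.trans ?_
          gcongr
      _ = ENNReal.ofReal (2 * (4 * P) * ((4 / P * (18 * (1 + Real.log N))) *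
          (1 / N * (18 * (1 + Real.log N))))) := by
          rw [← ENNReal.ofReal_mul (by positivity), ← ENNReal.ofReal_mul (by positivity)]
      _ ≤ ENNReal.ofReal ((10368 + V) * (1 + Real.log N) ^ 2 / N) := by
          refine ENNReal.ofReal_le_ofReal ?_
          have e : 2 * (4 * P) * ((4 / P * (18 * (1 + Real.log N))) *
            (1 / N * (18 * (1 + Real.log N)))) = 10368 * (1 + Real.log N) ^ 2 / N := by
            field_simp
            ring
          rw [e]
          refine div_le_div_of_nonneg_right ?_ hN0.le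
          have := sq_nonneg (1 + Real.log N)
          nlinarith

end FracScatC

end
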