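import Pool.Agent.Lib.MP_6e2ba5_an.Ex.J2E
import Pool.Agent.Lib.MP_6e2ba5_an.Ex.MInt

/-! # The estimate for the kernel `kG N P e`

Write `k = kG N P e`. By the translation `p = -ζ-ξ`, `BP k f h ξ = ∫⁻ p, k(p, -2ξ-p) f(p) h(-2ξ-p)`.
The square is the double integral over `p`, `p' = p + x`:
`∫⁻ p ∫⁻ x, k(p,q) k(p+x,q-x) f(p) h(q) f(p+x) h(q-x)`, `q = -2ξ-p`. Integrate in `ξ`, Tonelli and the
substitution `q = -2ξ - p` (factor `8`, as in `J2E`):
`8 ∫⁻ ξ, BP² = ∫⁻ p ∫⁻ q ∫⁻ x, k(p,q) k(p+x,q-x) f(p) h(q) f(p+x) h(q-x)`.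
`2ab ≤ a² + b²` with `a = f(p) h(q-x)`, `b = f(p+x) h(q)`. In the first term substitute `q → q + x` (for
fixed `p, x`): `∫⁻∫⁻∫⁻ k(p,q+x) k(p+x,q) f(p)² h(q)²`. In the second one substitute `p → p - x` and then
`x → -x`: the same expression. So
`8 ∫⁻ ξ, BP² ≤ ∫⁻ p ∫⁻ q, f(p)² h(q)² M(p,q)`, `M(p,q) = ∫⁻ x, k(p,q+x) k(p+x,q)`.
If `M(p,q) ≠ 0`, there is `x₀` with `k(p,q+x₀) ≠ 0` and `k(p+x₀,q) ≠ 0`, hence `P ≤ 1+‖p‖ ≤ 2P`, `N ≤ ‖q‖ ≤ 6N`,
and with `q' = q+x₀`: `|⟪p,q'⟫| ≤ ‖p‖‖q'‖/2`, `‖q'/‖q'‖ - e‖ ≤ 1/8`, `‖q/‖q‖ - e‖ ≤ 1/8`, so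
`|⟪p, q/‖q‖⟫| ≤ |⟪p, q'/‖q'‖⟫| + ‖p‖/4 ≤ (3/4)‖p‖`. For each `x` in the support `‖x‖ ≤ ‖p‖ + ‖p+x‖ ≤ 4P`.
There `k(p,q+x) k(p+x,q) ≤ 1/((N+|⟪p,x⟫+c|)(N+|⟪x,q⟫+c|))` with `c = ⟪p,q⟫`: `Mest` gives
`M(p,q) ≤ C(1+log N)²/N`. -/

set_option autoImplicit false

open MeasureTheory Filter Topology Set
open scoped FourierTransform SchwartzMap InnerProductSpace ENNReal BoundedContinuousFunction

noncomputable section

namespace FracScatC

open FracScat

private theorem kG_ne {N P : ℝ} {e p q : E3} (h : kG N P e p q ≠ 0) :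
    ((P ≤ 1 + ‖p‖ ∧ 1 + ‖p‖ ≤ 2 * P) ∧ (N ≤ ‖q‖ ∧ ‖q‖ ≤ 6 * N)) ∧
      |⟪p, q⟫_ℝ| ≤ 1 / 2 * (‖p‖ * ‖q‖) ∧ ‖‖q‖⁻¹ • q - e‖ ≤ 1 / 8 := by
  by_contra hc
  exact h (if_neg hc)

private theorem kG_le (N P : ℝ) (e p q : E3) :
    kG N P e p q ≤ ENNReal.ofReal (1 / (N + |⟪p, q⟫_ℝ|)) := by
  unfold kG
  split_ifs
  · exact le_rfl
  · exact bot_le

private theorem angle {N : ℝ} (hN : 1 ≤ N) {e p q q' : E3}
    (hq : N ≤ ‖q‖) (hq' : N ≤ ‖q'‖) (h1 : |⟪p, q'⟫_ℝ| ≤ 1 / 2 * (‖p‖ * ‖q'‖))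
    (h2 : ‖‖q'‖⁻¹ • q' - e‖ ≤ 1 / 8) (h3 : ‖‖q‖⁻¹ • q - e‖ ≤ 1 / 8) :
    |⟪p, q⟫_ℝ| ≤ 3 / 4 * (‖p‖ * ‖q‖) := by
  have hq0 : 0 < ‖q‖ := by linarith
  have hq0' : 0 < ‖q'‖ := by linarith
  set u : E3 := ‖q‖⁻¹ • q with hu
  set u' : E3 := ‖q'‖⁻¹ • q' with hu'
  have hqu : q = ‖q‖ • u := by
    rw [hu, smul_smul, mul_inv_cancel₀ hq0.ne', one_smul]
  have hqu' : q' = ‖q'‖ • u' := by
    rw [hu', smul_smul, mul_inv_cancel₀ hq0'.ne', one_smul]
  have e1 : ⟪p, q⟫_ℝ = ‖q‖ * ⟪p, u⟫_ℝ := by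
    conv_lhs => rw [hqu]
    rw [inner_smul_right]
  have e2 : ⟪p, q'⟫_ℝ = ‖q'‖ * ⟪p, u'⟫_ℝ := by
    conv_lhs => rw [hqu']
    rw [inner_smul_right]
  have h4 : |⟪p, u'⟫_ℝ| ≤ 1 / 2 * ‖p‖ := by
    rw [e2, abs_mul, abs_of_pos hq0'] at h1
    have : ‖q'‖ * |⟪p, u'⟫_ℝ| ≤ ‖q'‖ * (1 / 2 * ‖p‖) := by linarith
    exact le_of_mul_le_mul_left this hq0'
  have h5 : ‖u - u'‖ ≤ 1 / 4 := by
    have : u - u' = (u - e) - (u' - e) := by abel
    rw [this]
    have := norm_sub_le (u - e) (u' - e)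
    linarith
  have h6 : |⟪p, u - u'⟫_ℝ| ≤ ‖p‖ * ‖u - u'‖ := abs_real_inner_le_norm _ _
  have h7 : |⟪p, u⟫_ℝ| ≤ 3 / 4 * ‖p‖ := by
    have e3 : ⟪p, u⟫_ℝ = ⟪p, u'⟫_ℝ + ⟪p, u - u'⟫_ℝ := by
      rw [← inner_add_right]; congr 1; abel
    rw [e3]
    have := abs_add_le ⟪p, u'⟫_ℝ ⟪p, u - u'⟫_ℝ
    have h8 : ‖p‖ * ‖u - u'‖ ≤ ‖p‖ * (1 / 4) := mul_le_mul_of_nonneg_left h5 (norm_nonneg _)
    linarith
  rw [e1, abs_mul, abs_of_pos hq0]
  have := mul_le_mul_of_nonneg_left h7 hq0.le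
  linarith

private theorem mM_bound {C0 : ℝ} (hM : ∀ N P : ℝ, 1 ≤ N → 1 ≤ P → P ≤ 12 * N → ∀ p q : E3,
    P ≤ 1 + ‖p‖ → 1 + ‖p‖ ≤ 2 * P → N ≤ ‖q‖ → ‖q‖ ≤ 6 * N →
    |⟪p, q⟫_ℝ| ≤ 3 / 4 * (‖p‖ * ‖q‖) → ∀ c c' : ℝ,
    ∫⁻ x in Metric.closedBall (0 : E3) (4 * P),
      ENNReal.ofReal (1 / ((N + |⟪p, x⟫_ℝ + c|) * (N + |⟪x, q⟫_ℝ + c'|))) ≤
      ENNReal.ofReal (C0 * (1 + Real.log N) ^ 2 / N))
    {N P : ℝ} (hN : 1 ≤ N) (hP : 1 ≤ P) (hPN : P ≤ 12 * N) (e p q : E3) :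
    ∫⁻ x : E3, kG N P e p (q + x) * kG N P e (p + x) q ≤
      ENNReal.ofReal (C0 * (1 + Real.log N) ^ 2 / N) := by
  by_cases h : ∀ x, kG N P e p (q + x) * kG N P e (p + x) q = 0
  · simp [h]
  push Not at h
  obtain ⟨x₀, hx₀⟩ := h
  rw [mul_ne_zero_iff] at hx₀
  obtain ⟨⟨⟨hp1, hp2⟩, hq1', hq2'⟩, hi', hd'⟩ := kG_ne hx₀.1
  obtain ⟨⟨⟨hp1', hp2'⟩, hq1, hq2⟩, hi, hd⟩ := kG_ne hx₀.2
  have hang := angle hN hq1 hq1' hi' hd' hd
  refine le_trans ?_ (hM N P hN hP hPN p q hp1 hp2 hq1 hq2 hang ⟪p, q⟫_ℝ ⟪p, q⟫_ℝ)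
  rw [← lintegral_indicator measurableSet_closedBall]
  refine lintegral_mono fun x => ?_
  by_cases hx : kG N P e p (q + x) * kG N P e (p + x) q = 0
  · rw [hx]; exact bot_le
  rw [mul_eq_zero, not_or] at hx
  have hb := kG_ne hx.2
  have hxb : x ∈ Metric.closedBall (0 : E3) (4 * P) := by
    rw [mem_closedBall_zero_iff]
    have h1 : x = (p + x) - p := by abel
    have h2 : ‖(p + x) - p‖ ≤ ‖p + x‖ + ‖p‖ := norm_sub_le _ _
    rw [← h1] at h2
    have := hb.1.1.2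
    linarith
  rw [indicator_of_mem hxb]
  have hpos : ∀ a : ℝ, 0 < N + |a| := fun a => by positivity
  refine le_trans (mul_le_mul' (kG_le N P e p (q + x)) (kG_le N P e (p + x) q)) ?_
  rw [← ENNReal.ofReal_mul (by have := hpos ⟪p, q + x⟫_ℝ; positivity)]
  refine ENNReal.ofReal_le_ofReal (le_of_eq ?_)
  rw [inner_add_right, inner_add_left, add_comm ⟪p, q⟫_ℝ ⟪p, x⟫_ℝ, add_comm ⟪p, q⟫_ℝ ⟪x, q⟫_ℝ,
    one_div_mul_one_div]

private theorem two_mul_le_sq (a b : ℝ≥0∞) : 2 * (a * b) ≤ a ^ 2 + b ^ 2 := by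
  rcases eq_or_ne a ⊤ with rfl | ha
  · simp
  rcases eq_or_ne b ⊤ with rfl | hb
  · simp
  lift a to NNReal using ha
  lift b to NNReal using hb
  have : 2 * (a * b) ≤ a ^ 2 + b ^ 2 := by
    rw [← NNReal.coe_le_coe]
    push_cast
    nlinarith [sq_nonneg ((a : ℝ) - b)]
  exact_mod_cast this

/-- The triple integral after the first substitution. -/
private theorem sub1 {k : E3 → E3 → ℝ≥0∞} (hk : Measurable (Function.uncurry k))
    {f h : E3 → ℝ≥0∞} (hf : Measurable f) (hh : Measurable h) :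
    ∫⁻ p : E3, ∫⁻ q : E3, ∫⁻ x : E3, k p q * k (p + x) (q - x) * (f p * h (q - x)) =
      ∫⁻ p : E3, ∫⁻ q : E3, ∫⁻ x : E3, k p (q + x) * k (p + x) q * (f p * h q) := by
  have hk2 : ∀ {α : Type} [MeasurableSpace α] {a b : α → E3}, Measurable a → Measurable b →
      Measurable fun t => k (a t) (b t) := fun ha hb => hk.comp (ha.prodMk hb)
  refine lintegral_congr fun p => ?_
  rw [lintegral_lintegral_swap, lintegral_lintegral_swap (f := fun q x =>
    k p (q + x) * k (p + x) q * (f p * h q))]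
  · refine lintegral_congr fun x => ?_
    rw [← lintegral_add_right_eq_self (μ := (volume : Measure E3))
      (fun q => k p q * k (p + x) (q - x) * (f p * h (q - x))) x]
    simp only [add_sub_cancel_right]
  · apply Measurable.aemeasurable
    have h1 := hk2 (measurable_const (a := p)) ((measurable_fst (α := E3) (β := E3)).add measurable_snd)
    have h2 := hk2 ((measurable_const (a := p)).add (measurable_snd (α := E3) (β := E3))) measurable_fst
    exact (h1.mul h2).mul (measurable_const.mul (hh.comp measurable_fst))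
  · apply Measurable.aemeasurable
    have h1 := hk2 (measurable_const (a := p)) (measurable_fst (α := E3) (β := E3))
    have h2 := hk2 ((measurable_const (a := p)).add (measurable_snd (α := E3) (β := E3)))
      (measurable_fst.sub measurable_snd)
    exact (h1.mul h2).mul (measurable_const.mul (hh.comp (measurable_fst.sub measurable_snd)))

/-- The triple integral after the second substitution. -/
private theorem sub2 {k : E3 → E3 → ℝ≥0∞} (hk : Measurable (Function.uncurry k))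
    {f h : E3 → ℝ≥0∞} (hf : Measurable f) (hh : Measurable h) :
    ∫⁻ p : E3, ∫⁻ q : E3, ∫⁻ x : E3, k p q * k (p + x) (q - x) * (f (p + x) * h q) =
      ∫⁻ p : E3, ∫⁻ q : E3, ∫⁻ x : E3, k p (q + x) * k (p + x) q * (f p * h q) := by
  have hk2 : ∀ {α : Type} [MeasurableSpace α] {a b : α → E3}, Measurable a → Measurable b →
      Measurable fun t => k (a t) (b t) := fun ha hb => hk.comp (ha.prodMk hb)
  -- order `q, x, p`
  have m1 : Measurable fun t : (E3 × E3) × E3 =>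
      k t.1.1 t.1.2 * k (t.1.1 + t.2) (t.1.2 - t.2) * (f (t.1.1 + t.2) * h t.1.2) := by
    have h1 := hk2 (measurable_fst.comp (measurable_fst (α := E3 × E3) (β := E3)))
      (measurable_snd.comp (measurable_fst (α := E3 × E3) (β := E3)))
    have h2 := hk2 ((measurable_fst.comp (measurable_fst (α := E3 × E3) (β := E3))).add measurable_snd)
      ((measurable_snd.comp (measurable_fst (α := E3 × E3) (β := E3))).sub measurable_snd)
    exact (h1.mul h2).mul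
      ((hf.comp ((measurable_fst.comp (measurable_fst (α := E3 × E3) (β := E3))).add measurable_snd)).mul
        (hh.comp (measurable_snd.comp measurable_fst)))
  have m2 : Measurable fun t : (E3 × E3) × E3 =>
      k t.1.1 (t.1.2 + t.2) * k (t.1.1 + t.2) t.1.2 * (f t.1.1 * h t.1.2) := by
    have h1 := hk2 (measurable_fst.comp (measurable_fst (α := E3 × E3) (β := E3)))
      ((measurable_snd.comp (measurable_fst (α := E3 × E3) (β := E3))).add measurable_snd)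
    have h2 := hk2 ((measurable_fst.comp (measurable_fst (α := E3 × E3) (β := E3))).add measurable_snd)
      (measurable_snd.comp (measurable_fst (α := E3 × E3) (β := E3)))
    exact (h1.mul h2).mul
      ((hf.comp (measurable_fst.comp (measurable_fst (α := E3 × E3) (β := E3)))).mul
        (hh.comp (measurable_snd.comp measurable_fst)))
  rw [lintegral_lintegral_swap, lintegral_lintegral_swap (f := fun p q => ∫⁻ x : E3,
    k p (q + x) * k (p + x) q * (f p * h q))]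
  rotate_left
  · exact (m2.lintegral_prod_right').aemeasurable
  · exact (m1.lintegral_prod_right').aemeasurable
  refine lintegral_congr fun q => ?_
  rw [lintegral_lintegral_swap, lintegral_lintegral_swap (f := fun p x =>
    k p (q + x) * k (p + x) q * (f p * h q))]
  rotate_left
  · exact (m2.comp ((measurable_fst.prodMk measurable_const).prodMk measurable_snd)).aemeasurable
  · exact (m1.comp ((measurable_fst.prodMk measurable_const).prodMk measurable_snd)).aemeasurable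
  rw [← lintegral_neg_eq_self (μ := (volume : Measure E3)) (fun x => ∫⁻ p : E3,
    k p (q + x) * k (p + x) q * (f p * h q))]
  refine lintegral_congr fun x => ?_
  rw [← lintegral_sub_right_eq_self (μ := (volume : Measure E3))
    (fun p => k p q * k (p + x) (q - x) * (f (p + x) * h q)) x]
  refine lintegral_congr fun p => ?_
  simp only [sub_add_cancel, ← sub_eq_add_neg]
  rw [mul_comm (k (p - x) q)]

private theorem tripleM {k : E3 → E3 → ℝ≥0∞} (hk : Measurable (Function.uncurry k))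
    {f h : E3 → ℝ≥0∞} (hf : Measurable f) (hh : Measurable h) {D : ℝ≥0∞}
    (hD : ∀ p q, ∫⁻ x : E3, k p (q + x) * k (p + x) q ≤ D) :
    ∫⁻ p : E3, ∫⁻ q : E3, ∫⁻ x : E3, k p (q + x) * k (p + x) q * (f p * h q) ≤
      D * ((∫⁻ p, f p) * ∫⁻ q, h q) := by
  have hk2 : ∀ {α : Type} [MeasurableSpace α] {a b : α → E3}, Measurable a → Measurable b →
      Measurable fun t => k (a t) (b t) := fun ha hb => hk.comp (ha.prodMk hb)
  calc ∫⁻ p : E3, ∫⁻ q : E3, ∫⁻ x : E3, k p (q + x) * k (p + x) q * (f p * h q)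
      ≤ ∫⁻ p : E3, ∫⁻ q : E3, D * (f p * h q) := by
        refine lintegral_mono fun p => lintegral_mono fun q => ?_
        have hm : Measurable fun x : E3 => k p (q + x) * k (p + x) q :=
          (hk2 measurable_const (measurable_const.add measurable_id)).mul
            (hk2 (measurable_const.add measurable_id) measurable_const)
        change ∫⁻ x : E3, k p (q + x) * k (p + x) q * (f p * h q) ≤ D * (f p * h q)
        rw [lintegral_mul_const _ hm]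
        exact mul_le_mul_left (hD p q) _
    _ = D * ((∫⁻ p, f p) * ∫⁻ q, h q) := by
        have e1 : ∀ p, ∫⁻ q : E3, D * (f p * h q) = D * (f p * ∫⁻ q, h q) := fun p => by
          rw [lintegral_const_mul _ (hh.const_mul (f p)), lintegral_const_mul _ hh]
        rw [lintegral_congr e1, lintegral_const_mul _ (hf.mul_const _), lintegral_mul_const _ hf]

private theorem sq_expand {k : E3 → E3 → ℝ≥0∞} (hk : Measurable (Function.uncurry k))
    {f h : E3 → ℝ≥0∞} (hf : Measurable f) (hh : Measurable h) (ξ : E3) :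
    BP k f h ξ ^ 2 = ∫⁻ ζ : E3, (fun p q : E3 => ∫⁻ x : E3, (k p q * (f p * h q)) *
      (k (p + x) (q - x) * (f (p + x) * h (q - x)))) (-ζ - ξ) (ζ - ξ) := by
  have hk2 : ∀ {α : Type} [MeasurableSpace α] {a b : α → E3}, Measurable a → Measurable b →
      Measurable fun t => k (a t) (b t) := fun ha hb => hk.comp (ha.prodMk hb)
  have hm : Measurable fun ζ : E3 => k (-ζ - ξ) (ζ - ξ) * (f (-ζ - ξ) * h (ζ - ξ)) := by
    have a1 : Measurable fun ζ : E3 => -ζ - ξ := measurable_neg.sub_const ξ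
    have a2 : Measurable fun ζ : E3 => ζ - ξ := measurable_id.sub_const ξ
    exact (hk2 a1 a2).mul ((hf.comp a1).mul (hh.comp a2))
  have e0 : BP k f h ξ ^ 2 = ∫⁻ ζ : E3, k (-ζ - ξ) (ζ - ξ) * (f (-ζ - ξ) * h (ζ - ξ)) *
      BP k f h ξ := by
    rw [lintegral_mul_const _ hm, sq]
    rfl
  rw [e0]
  refine lintegral_congr fun ζ => ?_
  have hm2 : Measurable fun x : E3 => k (-ζ - ξ + x) (ζ - ξ - x) *
      (f (-ζ - ξ + x) * h (ζ - ξ - x)) := by
    have a1 : Measurable fun x : E3 => -ζ - ξ + x := measurable_id.const_add _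
    have a2 : Measurable fun x : E3 => ζ - ξ - x := measurable_id.const_sub _
    exact (hk2 a1 a2).mul ((hf.comp a1).mul (hh.comp a2))
  change _ = ∫⁻ x : E3, (k (-ζ - ξ) (ζ - ξ) * (f (-ζ - ξ) * h (ζ - ξ))) *
      (k (-ζ - ξ + x) (ζ - ξ - x) * (f (-ζ - ξ + x) * h (ζ - ξ - x)))
  rw [lintegral_const_mul _ hm2]
  congr 1
  unfold BP
  rw [← lintegral_sub_left_eq_self (μ := (volume : Measure E3)) (fun ζ => k (-ζ - ξ) (ζ - ξ) *
    (f (-ζ - ξ) * h (ζ - ξ))) ζ]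
  refine lintegral_congr fun x => ?_
  have b1 : -(ζ - x) - ξ = -ζ - ξ + x := by abel
  have b2 : ζ - x - ξ = ζ - ξ - x := by abel
  rw [b1, b2]

private theorem ptw {k : E3 → E3 → ℝ≥0∞} (f h : E3 → ℝ≥0∞) (p q x : E3) :
    2 * ((k p q * (f p * h q)) * (k (p + x) (q - x) * (f (p + x) * h (q - x)))) ≤
      k p q * k (p + x) (q - x) * (f p ^ 2 * h (q - x) ^ 2) +
        k p q * k (p + x) (q - x) * (f (p + x) ^ 2 * h q ^ 2) := by
  have h1 := two_mul_le_sq (f p * h (q - x)) (f (p + x) * h q)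
  calc 2 * ((k p q * (f p * h q)) * (k (p + x) (q - x) * (f (p + x) * h (q - x))))
      = k p q * k (p + x) (q - x) * (2 * ((f p * h (q - x)) * (f (p + x) * h q))) := by ring
    _ ≤ k p q * k (p + x) (q - x) * ((f p * h (q - x)) ^ 2 + (f (p + x) * h q) ^ 2) :=
        mul_le_mul_right h1 _
    _ = _ := by ring

private theorem triple_le {a b c : (E3 × E3) × E3 → ℝ≥0∞} (ha : Measurable a) (hb : Measurable b)
    (hle : ∀ t, 2 * a t ≤ b t + c t) :
    2 * ∫⁻ p : E3, ∫⁻ q : E3, ∫⁻ x : E3, a ((p, q), x) ≤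
      (∫⁻ p : E3, ∫⁻ q : E3, ∫⁻ x : E3, b ((p, q), x)) +
        ∫⁻ p : E3, ∫⁻ q : E3, ∫⁻ x : E3, c ((p, q), x) := by
  have a1 : Measurable fun t : E3 × E3 => ∫⁻ x : E3, a (t, x) := ha.lintegral_prod_right'
  have b1 : Measurable fun t : E3 × E3 => ∫⁻ x : E3, b (t, x) := hb.lintegral_prod_right'
  have a2 : Measurable fun p : E3 => ∫⁻ q : E3, ∫⁻ x : E3, a ((p, q), x) :=
    a1.lintegral_prod_right'
  have b2 : Measurable fun p : E3 => ∫⁻ q : E3, ∫⁻ x : E3, b ((p, q), x) :=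
    b1.lintegral_prod_right'
  rw [← lintegral_add_left b2, ← lintegral_const_mul _ a2]
  refine lintegral_mono fun p => ?_
  have a3 : Measurable fun q : E3 => ∫⁻ x : E3, a ((p, q), x) := a1.comp measurable_prodMk_left
  have b3 : Measurable fun q : E3 => ∫⁻ x : E3, b ((p, q), x) := b1.comp measurable_prodMk_left
  beta_reduce
  rw [← lintegral_add_left b3, ← lintegral_const_mul _ a3]
  refine lintegral_mono fun q => ?_
  have a4 : Measurable fun x : E3 => a ((p, q), x) := ha.comp measurable_prodMk_left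
  have b4 : Measurable fun x : E3 => b ((p, q), x) := hb.comp measurable_prodMk_left
  beta_reduce
  rw [← lintegral_add_left b4, ← lintegral_const_mul _ a4]
  exact lintegral_mono fun x => hle _

private theorem caseB1_aux {k : E3 → E3 → ℝ≥0∞} (hk : Measurable (Function.uncurry k))
    {f h : E3 → ℝ≥0∞} (hf : Measurable f) (hh : Measurable h) {D : ℝ≥0∞}
    (hD : ∀ p q, ∫⁻ x : E3, k p (q + x) * k (p + x) q ≤ D) :
    ∫⁻ ξ, BP k f h ξ ^ 2 ≤ D * ((∫⁻ p, f p ^ 2) * ∫⁻ q, h q ^ 2) := by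
  have hk2 : ∀ {α : Type} [MeasurableSpace α] {a b : α → E3}, Measurable a → Measurable b →
      Measurable fun t => k (a t) (b t) := fun ha hb => hk.comp (ha.prodMk hb)
  have pf : Measurable fun t : (E3 × E3) × E3 => t.1.1 := measurable_fst.comp measurable_fst
  have qf : Measurable fun t : (E3 × E3) × E3 => t.1.2 := measurable_snd.comp measurable_fst
  have xf : Measurable fun t : (E3 × E3) × E3 => t.2 := measurable_snd
  have m0 : Measurable fun t : (E3 × E3) × E3 => (k t.1.1 t.1.2 * (f t.1.1 * h t.1.2)) *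
      (k (t.1.1 + t.2) (t.1.2 - t.2) * (f (t.1.1 + t.2) * h (t.1.2 - t.2))) :=
    ((hk2 pf qf).mul ((hf.comp pf).mul (hh.comp qf))).mul
      ((hk2 (pf.add xf) (qf.sub xf)).mul ((hf.comp (pf.add xf)).mul (hh.comp (qf.sub xf))))
  have mA : Measurable fun t : (E3 × E3) × E3 =>
      k t.1.1 t.1.2 * k (t.1.1 + t.2) (t.1.2 - t.2) * (f t.1.1 ^ 2 * h (t.1.2 - t.2) ^ 2) :=
    ((hk2 pf qf).mul (hk2 (pf.add xf) (qf.sub xf))).mul
      (((hf.comp pf).pow_const 2).mul ((hh.comp (qf.sub xf)).pow_const 2))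
  have mΦ : Measurable (Function.uncurry fun p q : E3 => ∫⁻ x : E3, (k p q * (f p * h q)) *
      (k (p + x) (q - x) * (f (p + x) * h (q - x)))) := m0.lintegral_prod_right'
  have e1 : 8 * ∫⁻ ξ, BP k f h ξ ^ 2 = ∫⁻ p : E3, ∫⁻ q : E3, ∫⁻ x : E3, (k p q * (f p * h q)) *
      (k (p + x) (q - x) * (f (p + x) * h (q - x))) := by
    rw [← J2E mΦ]
    congr 1
    exact lintegral_congr fun ξ => sq_expand hk hf hh ξ
  have e2 := triple_le m0 mA (c := fun t => k t.1.1 t.1.2 * k (t.1.1 + t.2) (t.1.2 - t.2) *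
    (f (t.1.1 + t.2) ^ 2 * h t.1.2 ^ 2)) (fun t => ptw f h t.1.1 t.1.2 t.2)
  beta_reduce at e2
  have s1 := sub1 hk (hf.pow_const 2) (hh.pow_const 2)
  have s2 := sub2 hk (hf.pow_const 2) (hh.pow_const 2)
  have e3 := tripleM hk (hf.pow_const 2) (hh.pow_const 2) hD
  rw [s1, s2, ← two_mul, ← e1] at e2
  have e4 := (ENNReal.mul_le_mul_iff_right (by norm_num) (by norm_num)).1 e2
  calc ∫⁻ ξ, BP k f h ξ ^ 2 = 1 * ∫⁻ ξ, BP k f h ξ ^ 2 := (one_mul _).symm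
    _ ≤ 8 * ∫⁻ ξ, BP k f h ξ ^ 2 := mul_le_mul_left (by norm_num) _
    _ ≤ _ := e4
    _ ≤ _ := e3

theorem caseB1 : ∃ C : ℝ, 0 ≤ C ∧ ∀ N P : ℝ, 1 ≤ N → 1 ≤ P → P ≤ 12 * N → ∀ e : E3,
    ∀ f h : E3 → ℝ≥0∞, Measurable f → Measurable h →
    ∫⁻ ξ, BP (kG N P e) f h ξ ^ 2 ≤
      ENNReal.ofReal (C * (1 + Real.log N) ^ 2 / N) * ((∫⁻ p, f p ^ 2) * ∫⁻ q, h q ^ 2) := by
  obtain ⟨C, hC, hM⟩ := Mest
  exact ⟨C, hC, fun N P hN hP hPN e f h hf hh =>
    caseB1_aux (kG_measurable N P e) hf hh fun p q => mM_bound hM hN hP hPN e p q⟩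

end FracScatC

end
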