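import Pool.Agent.Lib.MP_6e2ba5_an.Ex.MopD
import Pool.Agent.Lib.MP_6e2ba5_an.Cx.UeqA

/-! # Continuation of the equality of the data to the negative axis

`Gfun_diff`, `Gfun_cont`: as `Ffun_diff`, `Ffun_cont` in `Cx/UeqA.lean` (same proofs: `Ring.inverse` is
analytic/continuous at units, `ev_diff`, `Mop_diff`, `Mop_cont`, the pairing is bounded bilinear).
`contN`. Let `g = Ffun V₁ θ - Ffun V₂ θ` on `Reg K` (continuous, differentiable in the interior:
`Ffun_cont`, `Ffun_diff`), `g = 0` on `[K,∞)`, so `bdry_unique` (`../Bdry.lean`) gives `g = 0` on `Reg K`. Let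
`G = Gfun V₁ θ - Gfun V₂ θ` on `Ω = {Im k > 0, ‖k‖ > K}`: for `Re k > 0` also `k ∈ Quad`, and `Mop = Kop`
(`Mop_eq_Kop`), so `Gfun = Ffun` and `G = 0` there. `‖Tm‖ ≤ 1/2` on all of `Ω`: for `Re k ≥ 0` it is `Tk`
(`hT`), for `Re k ≤ 0` it is `hM`. `Ω` is open and preconnected (image of the convex set
`{Re w > log K, 0 < Im w < π}` under `exp`; compare `RO_preconnected` in `../Bdry.lean`), `G` is analytic
(`DifferentiableOn.analyticOnNhd`), so `G = 0` on `Ω` (`AnalyticOnNhd.eqOn_zero_of_preconnected_of_eventuallyEq_zero`).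
Finally `-k` is the limit of `-k + iε`, points of `Sec2 ∩ Ω`, and `G` is continuous on `Sec2 ∩ {K ≤ ‖·‖}`. -/

set_option autoImplicit false

open MeasureTheory Filter Topology Set
open scoped FourierTransform SchwartzMap InnerProductSpace ENNReal BoundedContinuousFunction

noncomputable section

namespace FracScatC

open FracScat

private lemma CN_unit {s r : ℝ} {V : E3 → ℂ} {k : ℂ} (hT : ‖Tm s r V k‖ ≤ 1 / 2) :
    IsUnit (1 - Tm s r V k) :=
  isUnit_one_sub_of_norm_lt_one (lt_of_le_of_lt hT (by norm_num))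

/-- The bilinear pairing. -/
private def CN_B : HS →L[ℂ] HS →L[ℂ] ℂ :=
  LinearMap.mkContinuous₂
    (LinearMap.mk₂ ℂ (fun f g : HS => ∫ x, (f : E3 → ℂ) x * (g : E3 → ℂ) x)
      (fun f f' g => by
        rw [← integral_add (integrable_mul f g) (integrable_mul f' g)]
        apply integral_congr_ae
        filter_upwards [Lp.coeFn_add f f'] with x hx
        rw [hx, Pi.add_apply]
        ring)
      (fun c f g => by
        rw [smul_eq_mul, ← integral_const_mul]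
        apply integral_congr_ae
        filter_upwards [Lp.coeFn_smul c f] with x hx
        rw [hx, Pi.smul_apply, smul_eq_mul]
        ring)
      (fun f g g' => by
        rw [← integral_add (integrable_mul f g) (integrable_mul f g')]
        apply integral_congr_ae
        filter_upwards [Lp.coeFn_add g g'] with x hx
        rw [hx, Pi.add_apply]
        ring)
      (fun c f g => by
        rw [smul_eq_mul, ← integral_const_mul]
        apply integral_congr_ae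
        filter_upwards [Lp.coeFn_smul c g] with x hx
        rw [hx, Pi.smul_apply, smul_eq_mul]
        ring))
    1 (fun f g => by
      rw [one_mul]
      exact norm_integral_mul_le f g)

private lemma CN_G (s r : ℝ) (V : E3 → ℂ) (θ : E3) (k : ℂ) : Gfun s r V θ k =
    CN_B (ev r θ k) (mulL V (Ring.inverse (1 - Mop s r k ∘L mulL V) (ev r θ k))) := rfl

theorem Gfun_diff {s : ℝ} (h0 : 1 / 2 < s) (h1 : s < 1) (r : ℝ) {V : E3 → ℂ} (θ : E3) {K : ℝ}
    (hT : ∀ k : ℂ, 0 < k.im → K < ‖k‖ → ‖Tm s r V k‖ ≤ 1 / 2) :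
    DifferentiableOn ℂ (Gfun s r V θ) {k | 0 < k.im ∧ K < ‖k‖} := by
  have hev : DifferentiableOn ℂ (ev r θ) {k | 0 < k.im ∧ K < ‖k‖} :=
    (ev_diff r θ).differentiableOn
  have hM : DifferentiableOn ℂ (Mop s r) {k | 0 < k.im ∧ K < ‖k‖} :=
    (Mop_diff (s := s) (by linarith) h1 r).mono fun k hk => hk.1
  have hinv : DifferentiableOn ℂ (fun k => Ring.inverse (1 - Mop s r k ∘L mulL V))
      {k | 0 < k.im ∧ K < ‖k‖} := by
    intro k hk
    have h1 : DifferentiableWithinAt ℂ (fun k => 1 - Mop s r k ∘L mulL V)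
        {k | 0 < k.im ∧ K < ‖k‖} k :=
      (differentiableWithinAt_const _).sub ((hM k hk).clm_comp (differentiableWithinAt_const _))
    exact h1.inverse (CN_unit (hT k hk.1 hk.2))
  have h4 : DifferentiableOn ℂ (fun k => CN_B (ev r θ k) (mulL V
      (Ring.inverse (1 - Mop s r k ∘L mulL V) (ev r θ k)))) {k | 0 < k.im ∧ K < ‖k‖} := by
    refine DifferentiableOn.clm_apply (CN_B.differentiable.comp_differentiableOn hev) ?_
    exact (mulL V).differentiable.comp_differentiableOn (hinv.clm_apply hev)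
  exact h4

theorem Gfun_cont {s : ℝ} (h0 : 1 / 2 < s) (h1 : s < 1) (r : ℝ) {V : E3 → ℂ} (θ : E3) {K : ℝ}
    (hT : ∀ k ∈ Sec2, K ≤ ‖k‖ → ‖Tm s r V k‖ ≤ 1 / 2) :
    ContinuousOn (Gfun s r V θ) {k | k ∈ Sec2 ∧ K ≤ ‖k‖} := by
  have hev : ContinuousOn (ev r θ) {k | k ∈ Sec2 ∧ K ≤ ‖k‖} := (ev_diff r θ).continuous.continuousOn
  have hM : ContinuousOn (Mop s r) {k | k ∈ Sec2 ∧ K ≤ ‖k‖} :=
    (Mop_cont (s := s) h0 h1 r).mono fun k hk => hk.1
  have hinv : ContinuousOn (fun k => Ring.inverse (1 - Mop s r k ∘L mulL V))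
      {k | k ∈ Sec2 ∧ K ≤ ‖k‖} := by
    intro k hk
    obtain ⟨u, hu⟩ := CN_unit (hT k hk.1 hk.2)
    have h1 : ContinuousWithinAt (fun k => 1 - Mop s r k ∘L mulL V) {k | k ∈ Sec2 ∧ K ≤ ‖k‖} k :=
      continuousWithinAt_const.sub ((hM k hk).clm_comp continuousWithinAt_const)
    have h3 := NormedRing.inverse_continuousAt u
    rw [hu] at h3
    exact ContinuousAt.comp_continuousWithinAt (g := Ring.inverse) h3 h1
  have h4 : ContinuousOn (fun k => CN_B (ev r θ k) (mulL V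
      (Ring.inverse (1 - Mop s r k ∘L mulL V) (ev r θ k)))) {k | k ∈ Sec2 ∧ K ≤ ‖k‖} := by
    refine ContinuousOn.clm_apply (CN_B.continuous.comp_continuousOn hev) ?_
    exact (mulL V).continuous.comp_continuousOn (hinv.clm_apply hev)
  exact h4

private def CN_Om (K : ℝ) : Set ℂ := {k | 0 < k.im ∧ K < ‖k‖}

private theorem CN_open (K : ℝ) : IsOpen (CN_Om K) := by
  have h2 : IsOpen {k : ℂ | 0 < k.im} := isOpen_lt continuous_const Complex.continuous_im
  have h3 : IsOpen {k : ℂ | K < ‖k‖} := isOpen_lt continuous_const continuous_norm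
  exact h2.inter h3

private theorem CN_preconnected {K : ℝ} (hK : 0 < K) : IsPreconnected (CN_Om K) := by
  have h1 : CN_Om K = Complex.exp '' ((Ioi (Real.log K)) ×ℂ (Ioo 0 Real.pi)) := by
    ext k
    constructor
    · rintro ⟨hi, hn⟩
      have hk : k ≠ 0 := by
        rintro rfl
        simp at hi
      refine ⟨Complex.log k, ?_, Complex.exp_log hk⟩
      rw [Complex.mem_reProdIm]
      constructor
      · rw [Complex.log_re]
        exact Real.log_lt_log hK hn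
      · rw [Complex.log_im]
        constructor
        · have h0 : 0 ≤ Complex.arg k := Complex.arg_nonneg_iff.2 hi.le
          refine lt_of_le_of_ne h0 fun h => ?_
          have := (Complex.arg_eq_zero_iff.1 h.symm).2
          linarith
        · refine lt_of_le_of_ne (Complex.arg_le_pi k) fun h => ?_
          have := (Complex.arg_eq_pi_iff.1 h).2
          linarith
    · rintro ⟨z, hz, rfl⟩
      rw [Complex.mem_reProdIm] at hz
      obtain ⟨hz1, hz2, hz3⟩ := hz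
      refine ⟨?_, ?_⟩
      · rw [Complex.exp_im]
        exact mul_pos (Real.exp_pos _) (Real.sin_pos_of_pos_of_lt_pi hz2 hz3)
      · rw [Complex.norm_exp]
        calc K = Real.exp (Real.log K) := (Real.exp_log hK).symm
          _ < Real.exp z.re := Real.exp_lt_exp.2 hz1
  rw [h1]
  refine IsPreconnected.image ?_ _ Complex.continuous_exp.continuousOn
  exact (((convex_Ioi (𝕜 := ℝ) (Real.log K)).linear_preimage Complex.reLm).inter
    ((convex_Ioo (𝕜 := ℝ) 0 Real.pi).linear_preimage Complex.imLm)).isPreconnected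

theorem contN {s : ℝ} (h0 : 3 / 4 < s) (h1 : s < 1) {r M : ℝ} (hr : 0 < r) {V₁ V₂ : E3 → ℂ}
    (hV₁ : IsPot r M V₁) (hV₂ : IsPot r M V₂) (θ : E3) {K : ℝ} (hK : 1 ≤ K)
    (hT₁ : ∀ k ∈ Reg K, ‖Tk s r V₁ k‖ ≤ 1 / 2) (hT₂ : ∀ k ∈ Reg K, ‖Tk s r V₂ k‖ ≤ 1 / 2)
    (hM₁ : ∀ k ∈ Sec2, K ≤ ‖k‖ → ‖Tm s r V₁ k‖ ≤ 1 / 2)
    (hM₂ : ∀ k ∈ Sec2, K ≤ ‖k‖ → ‖Tm s r V₂ k‖ ≤ 1 / 2)
    (hd : ∀ k : ℝ, K ≤ k → Ffun s r V₁ θ k = Ffun s r V₂ θ k) (k : ℝ) (hk : K < k) :
    Gfun s r V₁ θ ((-k : ℝ) : ℂ) = Gfun s r V₂ θ ((-k : ℝ) : ℂ) := by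
  have hK0 : 0 < K := by linarith
  have hs2 : s < 2 := by linarith
  have hh : (1 : ℝ) / 2 < s := by linarith
  have hs0 : 0 < s := by linarith
  -- zero on the first quadrant
  have z1 : ∀ k : ℂ, 0 ≤ k.re → 0 ≤ k.im → K ≤ ‖k‖ →
      Ffun s r V₁ θ k - Ffun s r V₂ θ k = 0 := by
    refine bdry_unique hK0 (g := fun k => Ffun s r V₁ θ k - Ffun s r V₂ θ k)
      ((Ffun_cont hh hs2 hr θ hK hT₁).sub (Ffun_cont hh hs2 hr θ hK hT₂))
      ((Ffun_diff hh hs2 hr θ hK hT₁).sub (Ffun_diff hh hs2 hr θ hK hT₂))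
      (a := K) (b := K + 1) le_rfl (by linarith) ?_
    intro x hx
    exact sub_eq_zero.2 (hd x hx.1.le)
  -- `Mop = Kop` in the first quadrant
  have hMK : ∀ k : ℂ, 0 ≤ k.re → 0 < k.im → Mop s r k = Kop s r k := by
    intro k ha hb
    refine Mop_eq_Kop hs0 hs2 hr.le ⟨ha, hb.le, ?_⟩ hb
    rintro rfl
    simp at hb
  have hTm : ∀ V : E3 → ℂ, (∀ k ∈ Reg K, ‖Tk s r V k‖ ≤ 1 / 2) →
      (∀ k ∈ Sec2, K ≤ ‖k‖ → ‖Tm s r V k‖ ≤ 1 / 2) →
      ∀ k : ℂ, 0 < k.im → K < ‖k‖ → ‖Tm s r V k‖ ≤ 1 / 2 := by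
    intro V a b k c d
    rcases le_total 0 k.re with h | h
    · have := a k ⟨h, c.le, d.le⟩
      rw [Tm, hMK k h c]
      exact this
    · refine b k ⟨h, c.le, ?_⟩ d.le
      rintro rfl
      simp at c
  have hGF : ∀ (V : E3 → ℂ) (k : ℂ), 0 ≤ k.re → 0 < k.im → Gfun s r V θ k = Ffun s r V θ k := by
    intro V k a b
    rw [Gfun, Ffun, uk, Tk, Tm, hMK k a b]
  have hG₁ := Gfun_diff hh h1 r θ (hTm V₁ hT₁ hM₁)
  have hG₂ := Gfun_diff hh h1 r θ (hTm V₂ hT₂ hM₂)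
  have hAn : AnalyticOnNhd ℂ (fun k => Gfun s r V₁ θ k - Gfun s r V₂ θ k) (CN_Om K) :=
    DifferentiableOn.analyticOnNhd (hG₁.sub hG₂) (CN_open K)
  -- a point in the first quadrant
  have hc : ∀ᶠ z in 𝓝 (((K + 1 : ℝ) : ℂ) * (1 + Complex.I)),
      (fun k => Gfun s r V₁ θ k - Gfun s r V₂ θ k) z = 0 := by
    have ho : IsOpen {z : ℂ | 0 < z.re ∧ 0 < z.im ∧ K < ‖z‖} :=
      (isOpen_lt continuous_const Complex.continuous_re).inter
        ((isOpen_lt continuous_const Complex.continuous_im).inter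
          (isOpen_lt continuous_const continuous_norm))
    have hre : (((K + 1 : ℝ) : ℂ) * (1 + Complex.I)).re = K + 1 := by simp
    have him : (((K + 1 : ℝ) : ℂ) * (1 + Complex.I)).im = K + 1 := by simp
    have hm : ((K + 1 : ℝ) : ℂ) * (1 + Complex.I) ∈ {z : ℂ | 0 < z.re ∧ 0 < z.im ∧ K < ‖z‖} := by
      refine ⟨by rw [hre]; linarith, by rw [him]; linarith, ?_⟩
      refine lt_of_lt_of_le ?_ (Complex.re_le_norm _)
      rw [hre]
      linarith
    filter_upwards [ho.mem_nhds hm] with z hz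
    obtain ⟨q1, q2, q3⟩ := hz
    show Gfun s r V₁ θ z - Gfun s r V₂ θ z = 0
    rw [hGF V₁ z q1.le q2, hGF V₂ z q1.le q2]
    exact z1 z q1.le q2.le q3.le
  have hcO : ((K + 1 : ℝ) : ℂ) * (1 + Complex.I) ∈ CN_Om K := by
    have hre : (((K + 1 : ℝ) : ℂ) * (1 + Complex.I)).re = K + 1 := by simp
    have him : (((K + 1 : ℝ) : ℂ) * (1 + Complex.I)).im = K + 1 := by simp
    refine ⟨by rw [him]; linarith, ?_⟩
    refine lt_of_lt_of_le ?_ (Complex.re_le_norm _)
    rw [hre]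
    linarith
  have hzero : EqOn (fun k => Gfun s r V₁ θ k - Gfun s r V₂ θ k) 0 (CN_Om K) :=
    hAn.eqOn_zero_of_preconnected_of_eventuallyEq_zero (CN_preconnected hK0) hcO hc
  -- closure
  have hcont : ContinuousOn (fun k => Gfun s r V₁ θ k - Gfun s r V₂ θ k)
      {k | k ∈ Sec2 ∧ K ≤ ‖k‖} :=
    (Gfun_cont hh h1 r θ hM₁).sub (Gfun_cont hh h1 r θ hM₂)
  have hre : ∀ t : ℝ, (((-k : ℝ) : ℂ) + (t : ℂ) * Complex.I).re = -k := by
    intro t; simp
  have him : ∀ t : ℝ, (((-k : ℝ) : ℂ) + (t : ℂ) * Complex.I).im = t := by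
    intro t; simp
  have hnorm : ∀ t : ℝ, K < ‖((-k : ℝ) : ℂ) + (t : ℂ) * Complex.I‖ := by
    intro t
    refine lt_of_lt_of_le ?_ (Complex.abs_re_le_norm _)
    rw [hre, abs_neg, abs_of_pos (by linarith)]
    exact hk
  have hmem : ∀ t : ℝ, 0 ≤ t → ((-k : ℝ) : ℂ) + (t : ℂ) * Complex.I ∈
      {k | k ∈ Sec2 ∧ K ≤ ‖k‖} := by
    intro t ht
    refine ⟨⟨by rw [hre]; linarith, by rw [him]; exact ht, ?_⟩, (hnorm t).le⟩
    intro h
    have := hnorm t
    rw [h, norm_zero] at this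
    linarith
  have hkC : ((-k : ℝ) : ℂ) ∈ {k | k ∈ Sec2 ∧ K ≤ ‖k‖} := by
    have := hmem 0 le_rfl
    rwa [Complex.ofReal_zero, zero_mul, add_zero] at this
  have ht1 : Tendsto (fun t : ℝ => ((-k : ℝ) : ℂ) + (t : ℂ) * Complex.I) (𝓝[>] 0)
      (𝓝[{k | k ∈ Sec2 ∧ K ≤ ‖k‖}] ((-k : ℝ) : ℂ)) := by
    refine tendsto_nhdsWithin_iff.2 ⟨?_, ?_⟩
    · have : Tendsto (fun t : ℝ => ((-k : ℝ) : ℂ) + (t : ℂ) * Complex.I) (𝓝 0)
          (𝓝 (((-k : ℝ) : ℂ) + ((0 : ℝ) : ℂ) * Complex.I)) :=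
        (continuous_const.add (Complex.continuous_ofReal.mul continuous_const)).tendsto 0
      rw [Complex.ofReal_zero, zero_mul, add_zero] at this
      exact this.mono_left nhdsWithin_le_nhds
    · filter_upwards [self_mem_nhdsWithin] with t ht
      exact hmem t (le_of_lt ht)
  have ht2 : Tendsto (fun t : ℝ => (fun k => Gfun s r V₁ θ k - Gfun s r V₂ θ k)
      (((-k : ℝ) : ℂ) + (t : ℂ) * Complex.I)) (𝓝[>] 0)
      (𝓝 (Gfun s r V₁ θ ((-k : ℝ) : ℂ) - Gfun s r V₂ θ ((-k : ℝ) : ℂ))) :=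
    (hcont _ hkC).tendsto.comp ht1
  have ht3 : Tendsto (fun t : ℝ => (fun k => Gfun s r V₁ θ k - Gfun s r V₂ θ k)
      (((-k : ℝ) : ℂ) + (t : ℂ) * Complex.I)) (𝓝[>] 0) (𝓝 0) := by
    refine tendsto_const_nhds.congr' ?_
    filter_upwards [self_mem_nhdsWithin] with t ht
    refine (hzero (x := ((-k : ℝ) : ℂ) + (t : ℂ) * Complex.I) ⟨?_, hnorm t⟩).symm
    rw [him]
    exact ht
  exact sub_eq_zero.1 (tendsto_nhds_unique ht2 ht3)

end FracScatC

end
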