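import Pool.Agent.Lib.MP_6e2ba5_an.Cx.A3Four

/-! # Square integrated decay of the Fourier transform of `V₁ - V₂`: definitions

`Sh N` is the dyadic shell `N < ‖ξ‖ ≤ 2N`. The bilinear operators below are written in the variables
`p = -ζ-ξ`, `q = ζ-ξ`, so that `p + q = -2ξ` and `⟪p,q⟫ = ‖ξ‖² - ‖ζ‖²`. -/

set_option autoImplicit false

open MeasureTheory Filter Topology Set
open scoped FourierTransform SchwartzMap InnerProductSpace ENNReal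

noncomputable section

namespace FracScatC

open FracScat

/-- The dyadic shell. -/
def Sh (N : ℝ) : Set E3 := {ξ | N < ‖ξ‖ ∧ ‖ξ‖ ≤ 2 * N}

theorem Sh_meas (N : ℝ) : MeasurableSet (Sh N) :=
  (measurableSet_lt measurable_const measurable_norm).inter
    (measurableSet_le measurable_norm measurable_const)

/-- On the shell `Sh N` the function `F` has a measurable majorant `G` with `∫ G² ≤ c`. -/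
def ShB (N c : ℝ) (F : E3 → ℂ) : Prop :=
  ∃ G : E3 → ℝ≥0∞, Measurable G ∧ (∀ ξ ∈ Sh N, ‖F ξ‖ₑ ≤ G ξ) ∧
    ∫⁻ ξ in Sh N, G ξ ^ 2 ≤ ENNReal.ofReal c

/-- `∫ k(p,q) f(p) h(q) dζ` with `p = -ζ-ξ`, `q = ζ-ξ`. -/
def BP (k : E3 → E3 → ℝ≥0∞) (f h : E3 → ℝ≥0∞) (ξ : E3) : ℝ≥0∞ :=
  ∫⁻ ζ : E3, k (-ζ - ξ) (ζ - ξ) * (f (-ζ - ξ) * h (ζ - ξ))

/-- The majorant of the symbol of the cut off resolvent. -/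
def kerS (s : ℝ) (ξ ζ : E3) : ℝ :=
  ‖ξ‖ ^ (2 - 2 * s) / (‖ξ‖ + ‖ζ‖) * (1 / (1 + |‖ζ‖ - ‖ξ‖|) + 1 / (1 + ‖ζ‖))

/-- The bilinear operator with this kernel. -/
def BQ (s : ℝ) (f h : E3 → ℝ≥0∞) (ξ : E3) : ℝ≥0∞ :=
  ∫⁻ ζ : E3, ENNReal.ofReal (kerS s ξ ζ) * (f (-ζ - ξ) * h (ζ - ξ))

/-- The kernel for `|⟪p,q⟫| ≥ ‖p‖ ‖q‖ / 2`. -/
def k1 (N : ℝ) (p _q : E3) : ℝ≥0∞ :=
  if ‖p‖ ≤ 6 * N then ENNReal.ofReal (2 / (N * (1 + ‖p‖))) else 0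

open Classical in
/-- The kernel for `|⟪p,q⟫| ≤ ‖p‖ ‖q‖ / 2`. -/
def k2 (N : ℝ) (p q : E3) : ℝ≥0∞ :=
  if (N ≤ ‖q‖ ∧ ‖q‖ ≤ 6 * N ∧ ‖p‖ ≤ 6 * N) ∧ |⟪p, q⟫_ℝ| ≤ 1 / 2 * (‖p‖ * ‖q‖) then
    ENNReal.ofReal (1 / (N + |⟪p, q⟫_ℝ|)) else 0

open Classical in
/-- The part of `k2` with `1 + ‖p‖ ~ P` and `q` in the sector around `e`. -/
def kG (N P : ℝ) (e p q : E3) : ℝ≥0∞ :=
  if ((P ≤ 1 + ‖p‖ ∧ 1 + ‖p‖ ≤ 2 * P) ∧ (N ≤ ‖q‖ ∧ ‖q‖ ≤ 6 * N)) ∧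
      |⟪p, q⟫_ℝ| ≤ 1 / 2 * (‖p‖ * ‖q‖) ∧ ‖‖q‖⁻¹ • q - e‖ ≤ 1 / 8 then
    ENNReal.ofReal (1 / (N + |⟪p, q⟫_ℝ|)) else 0

/-- The essential range of `D`. -/
def essR (D : E3 → ℂ) : Set ℂ := {z | ∀ ε : ℝ, 0 < ε → 0 < volume {x : E3 | ‖D x - z‖ < ε}}

end FracScatC

end
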