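import Pool.Agent.Lib.MP_6e2ba5_an.Ex.Defs
import Pool.Agent.Lib.MP_6e2ba5_an.Cx.GsD
import Pool.Agent.Lib.MP_6e2ba5_an.Cx.Modul

/-! # The quadratic term is bounded by `BQ`

Let `g = mulL V (eH r ξ)`, `mulL (indB r) g = g` (`mulL_indB_of_pot`). By `A3_eK` the quadratic term is
`lam ξ (PL s r ξ g) (ftX (dH r W))`, so its norm is `≤ ∫⁻ ζ, ‖PL s r ξ g ζ‖ₑ ‖ftX (dH r W) (-ζ-ξ)‖ₑ`
(`enorm_integral_le_lintegral_enorm`). A.e. in `ζ`: `PL s r ξ g ζ = gs s (2r) (2π‖ξ‖) ζ · FT g ζ`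
(`PL_apply`, `prodL_coe`, `gsH_coe` with `gs_memLp`, file `Cx/GsMem`), and
`FT g ζ = ftX (dH r V) (ζ-ξ)` (`mulL_eH`, `FT_efun`, `FT_eq_ftX`; `HB_integrable`, `dH_mem`; the a.e.
equality `FT_eq_ftX` has to be transported by the translation `ζ ↦ ζ-ξ`, which is quasi measure
preserving). `gs_decay` with `R = 2r`, `k = 2π‖ξ‖ ≥ 1`: with `a = 2π‖ζ‖`,
`k^(2-2s)/(k+a) (1/(1+|a-k|) + 1/(1+a)) ≤ C kerS s ξ ζ` (`2π ≥ 1`) and, since `min (2s) 2 = 2` for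
`s > 1`, `k^(-2s)(1+a/k)^(-2) = k^(2-2s)/(k+a)² ≤ k^(2-2s)/((k+a)(1+a))`. -/

set_option autoImplicit false

open MeasureTheory Filter Topology Set
open scoped FourierTransform SchwartzMap InnerProductSpace ENNReal BoundedContinuousFunction

noncomputable section

namespace FracScatC

open FracScat

private lemma lamE_ker {s : ℝ} (h1 : 1 < s) {x z : ℝ} (hx : 1 ≤ x) (hz : 0 ≤ z) :
    (2 * Real.pi * x) ^ (2 - 2 * s) / (2 * Real.pi * x + 2 * Real.pi * z) *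
        (1 / (1 + |2 * Real.pi * z - 2 * Real.pi * x|) + 1 / (1 + 2 * Real.pi * z)) +
        (2 * Real.pi * x) ^ (-(2 * s)) *
          (1 + 2 * Real.pi * z / (2 * Real.pi * x)) ^ (-(min (2 * s) 2)) ≤
      2 * (x ^ (2 - 2 * s) / (x + z) * (1 / (1 + |z - x|) + 1 / (1 + z))) := by
  have hpi : 1 ≤ 2 * Real.pi := by linarith [Real.pi_gt_three]
  have hpi0 : 0 < 2 * Real.pi := by linarith
  have hx0 : 0 < x := by linarith
  set k := 2 * Real.pi * x with hk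
  set a := 2 * Real.pi * z with ha
  have hkx : x ≤ k := by rw [hk]; nlinarith
  have haz : z ≤ a := by rw [ha]; nlinarith
  have hk1 : 1 ≤ k := hx.trans hkx
  have hk0 : 0 < k := by linarith
  have ha0 : 0 ≤ a := hz.trans haz
  have e1 : k ^ (2 - 2 * s) ≤ x ^ (2 - 2 * s) :=
    Real.rpow_le_rpow_of_nonpos hx0 hkx (by linarith)
  have e2 : |z - x| ≤ |a - k| := by
    have : a - k = 2 * Real.pi * (z - x) := by rw [ha, hk]; ring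
    rw [this, abs_mul, abs_of_pos hpi0]
    nlinarith [abs_nonneg (z - x)]
  have p0 : 0 ≤ k ^ (2 - 2 * s) := by positivity
  have p1 : 0 ≤ x ^ (2 - 2 * s) := by positivity
  have pa : 0 < 1 + |z - x| := by positivity
  have pb : 0 < 1 + |a - k| := by positivity
  have hA : k ^ (2 - 2 * s) / (k + a) ≤ x ^ (2 - 2 * s) / (x + z) := by
    apply div_le_div₀ p1 e1 (by linarith) (by linarith)
  have hB : 1 / (1 + |a - k|) ≤ 1 / (1 + |z - x|) := by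
    apply one_div_le_one_div_of_le pa (by linarith)
  have hC : 1 / (1 + a) ≤ 1 / (1 + z) := by
    apply one_div_le_one_div_of_le (by linarith) (by linarith)
  have q0 : 0 ≤ x ^ (2 - 2 * s) / (x + z) := by positivity
  have f1 : k ^ (2 - 2 * s) / (k + a) * (1 / (1 + |a - k|) + 1 / (1 + a)) ≤
      x ^ (2 - 2 * s) / (x + z) * (1 / (1 + |z - x|) + 1 / (1 + z)) := by
    apply mul_le_mul hA (by linarith) (by positivity) q0
  have f2 : k ^ (-(2 * s)) * (1 + a / k) ^ (-(min (2 * s) 2)) ≤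
      x ^ (2 - 2 * s) / (x + z) * (1 / (1 + |z - x|) + 1 / (1 + z)) := by
    have hmin : min (2 * s) 2 = 2 := min_eq_right (by linarith)
    rw [hmin]
    have g1 : (1 + a / k) ^ (-(2 : ℝ)) = k ^ 2 / (k + a) ^ 2 := by
      rw [Real.rpow_neg (by positivity), Real.rpow_two]
      field_simp
    have g2 : k ^ (-(2 * s)) * k ^ 2 = k ^ (2 - 2 * s) := by
      rw [← Real.rpow_two, ← Real.rpow_add hk0]
      congr 1
      ring
    have g3 : k ^ (-(2 * s)) * (1 + a / k) ^ (-(2 : ℝ)) =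
        k ^ (2 - 2 * s) / (k + a) * (1 / (k + a)) := by
      rw [g1, ← g2]
      field_simp
    rw [g3]
    have g4 : 1 / (k + a) ≤ 1 / (1 + z) := by
      apply one_div_le_one_div_of_le (by linarith) (by linarith)
    have g5 : 0 ≤ 1 / (1 + |z - x|) := by positivity
    apply mul_le_mul hA (by linarith) (by positivity) q0
  linarith

private lemma lamE_gs {s : ℝ} (h1 : 1 < s) (h2 : s < 2) {r : ℝ} (hr : 0 ≤ r) :
    ∃ C : ℝ, 0 ≤ C ∧ ∀ ξ : E3, 1 ≤ ‖ξ‖ → ∀ᵐ ζ ∂(volume : Measure E3),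
      ‖gs s (2 * r) ((2 * Real.pi * ‖ξ‖ : ℝ) : ℂ) ζ‖ ≤ C * kerS s ξ ζ := by
  obtain ⟨C, hC, H⟩ := gs_decay (s := s) (by linarith) h2 (R := 2 * r) (by positivity)
  refine ⟨C * 2, by positivity, fun ξ hξ => ?_⟩
  have hk : 1 ≤ 2 * Real.pi * ‖ξ‖ := by nlinarith [Real.pi_gt_three]
  filter_upwards [H (2 * Real.pi * ‖ξ‖) hk] with ζ hζ
  refine hζ.trans ?_
  refine (mul_le_mul_of_nonneg_left (lamE_ker h1 hξ (norm_nonneg ζ)) hC).trans (le_of_eq ?_)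
  unfold kerS
  ring

theorem lamE {s : ℝ} (h1 : 1 < s) (h2 : s < 2) {r : ℝ} (hr : 0 ≤ r) :
    ∃ C : ℝ, 0 ≤ C ∧ ∀ (M : ℝ) (V W : E3 → ℂ), IsPot r M V → IsPot r M W → ∀ ξ : E3, 1 ≤ ‖ξ‖ →
      ‖A3 (dH r W) (eH r ξ) (Kop s r (kx ξ) (mulL V (eH r ξ)))‖ₑ ≤
        ENNReal.ofReal C * BQ s (fun η => ‖ftX (dH r W) η‖ₑ) (fun η => ‖ftX (dH r V) η‖ₑ) ξ := by
  obtain ⟨C, hC, H⟩ := lamE_gs h1 h2 hr
  refine ⟨C, hC, fun M V W hV hW ξ hξ => ?_⟩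
  have hk : 1 ≤ 2 * Real.pi * ‖ξ‖ := by nlinarith [Real.pi_gt_three]
  have h0 : 3 / 4 < s := by linarith
  rw [A3_eK h0 h2 hr hk (dH_mem hW) (mulL_indB_of_pot hV _)]
  unfold lam
  refine (enorm_integral_le_lintegral_enorm _).trans ?_
  have hm := gs_memLp h0 h2 (R := 2 * r) (by positivity) hk
  have hg : mulL V (eH r ξ) = mulL (efun ξ) (dH r V) := mulL_eH hV ξ
  have hi : Integrable (dH r V : E3 → ℂ) := HB_integrable (dH_mem hV)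
  have mp : MeasurePreserving (fun ζ : E3 => ζ - ξ) volume volume :=
    measurePreserving_sub_right volume ξ
  have a3 : ∀ᵐ ζ ∂(volume : Measure E3),
      (FT (dH r V) : E3 → ℂ) (ζ - ξ) = ftX (dH r V) (ζ - ξ) :=
    mp.quasiMeasurePreserving.ae (FT_eq_ftX hi)
  have key : ∫⁻ ζ : E3, ‖(PL s r ξ (mulL V (eH r ξ)) : E3 → ℂ) ζ * ftX (dH r W) (-ζ - ξ)‖ₑ ≤
      ∫⁻ ζ : E3, ENNReal.ofReal C * (ENNReal.ofReal (kerS s ξ ζ) *
        (‖ftX (dH r W) (-ζ - ξ)‖ₑ * ‖ftX (dH r V) (ζ - ξ)‖ₑ)) := by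
    refine lintegral_mono_ae ?_
    rw [PL_apply, hg]
    filter_upwards [prodL_coe (gsH s r (2 * Real.pi * ‖ξ‖)) (FT (mulL (efun ξ) (dH r V))),
      gsH_coe hm, FT_efun ξ hi, a3, H ξ hξ] with ζ b1 b2 b3 b4 b5
    rw [b1, b2, b3, b4, enorm_mul, enorm_mul]
    have c1 : ‖gs s (2 * r) ((2 * Real.pi * ‖ξ‖ : ℝ) : ℂ) ζ‖ₑ ≤
        ENNReal.ofReal C * ENNReal.ofReal (kerS s ξ ζ) := by
      rw [← ENNReal.ofReal_mul hC, ← ofReal_norm]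
      exact ENNReal.ofReal_le_ofReal b5
    calc ‖gs s (2 * r) ((2 * Real.pi * ‖ξ‖ : ℝ) : ℂ) ζ‖ₑ * ‖ftX (dH r V) (ζ - ξ)‖ₑ *
          ‖ftX (dH r W) (-ζ - ξ)‖ₑ ≤
        ENNReal.ofReal C * ENNReal.ofReal (kerS s ξ ζ) * ‖ftX (dH r V) (ζ - ξ)‖ₑ *
          ‖ftX (dH r W) (-ζ - ξ)‖ₑ := by gcongr
      _ = ENNReal.ofReal C * (ENNReal.ofReal (kerS s ξ ζ) *
        (‖ftX (dH r W) (-ζ - ξ)‖ₑ * ‖ftX (dH r V) (ζ - ξ)‖ₑ)) := by ring
  refine key.trans (le_of_eq ?_)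
  rw [lintegral_const_mul' _ _ ENNReal.ofReal_ne_top]
  rfl

theorem ftX_sq {r M : ℝ} {V : E3 → ℂ} (hV : IsPot r M V) :
    ∫⁻ η, ‖ftX (dH r V) η‖ₑ ^ 2 = ‖dH r V‖ₑ ^ 2 := by
  have hi : Integrable (dH r V : E3 → ℂ) := HB_integrable (dH_mem hV)
  have e1 : ∫⁻ η, ‖ftX (dH r V) η‖ₑ ^ 2 = ∫⁻ η, ‖(FT (dH r V) : E3 → ℂ) η‖ₑ ^ 2 := by
    refine lintegral_congr_ae ?_
    filter_upwards [FT_eq_ftX hi] with ζ a
    rw [a]
  have e2 : ‖dH r V‖ₑ = ‖FT (dH r V)‖ₑ := by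
    rw [← ofReal_norm, ← ofReal_norm, LinearIsometryEquiv.norm_map]
  rw [e1, e2, Lp.enorm_def, eLpNorm_eq_lintegral_rpow_enorm_toReal (by norm_num) (by norm_num),
    ENNReal.toReal_ofNat]
  have h1 : ∀ ζ : E3, ‖(FT (dH r V) : E3 → ℂ) ζ‖ₑ ^ (2 : ℝ) =
    ‖(FT (dH r V) : E3 → ℂ) ζ‖ₑ ^ 2 := fun ζ => ENNReal.rpow_two _
  simp only [h1]
  rw [← ENNReal.rpow_two, ← ENNReal.rpow_mul]
  norm_num

end FracScatC

end
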