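import Pool.Agent.Lib.MP_6e2ba5_an.Ex.J2E
import Pool.Agent.Lib.MP_6e2ba5_an.Ex.LamE

/-! # From the decay of the Fourier transform to differences

Choose `α` with `1 < α < min β 2`. Let `F = ftX (dH r D)`, continuous, equal a.e. to `FT (dH r D)`.
`sin_le`: `‖exp(2πi t) - 1‖² ≤ 4 · (2π|t|)^α`: the left side is `≤ min 4 ((2π t)²)`; for `x = 2π|t| ≤ 1`,
`x² ≤ x^α`, for `x ≥ 1`, `4 ≤ 4 x^α`.
Plancherel: the function `x ↦ D(x+h) - D(x)` is in `L¹ ∩ L²` with Fourier transform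
`(exp(2πi ⟪h,η⟫) - 1) 𝓕 D η` (`Real.fourierIntegral` translation, or `FT` is an isometry on the `L²`
element `translate - id`; `FT_coe_of_integrable`, `../FTfacts.lean`; `ftX_dH`), so
`∫⁻ ‖D(x+h) - D(x)‖ₑ² = ∫⁻ η, ‖exp(2πi⟪h,η⟫) - 1‖ₑ² ‖F η‖ₑ² ≤ 4(2π‖h‖)^α ∫⁻ η, ‖η‖^α ‖F η‖ₑ²`.
The last integral is finite: on `‖η‖ ≤ 2N₀` it is `≤ (2N₀)^α ‖dH r D‖²` (`ftX_sq`), and on the shells
`2N < ‖η‖ ≤ 4N`, `N = 2^j N₀`, `j = 0,1,...` (they cover `‖η‖ > 2N₀`), by `J1E` (apply it to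
`1_{shell} ‖F‖ₑ²`) `∫⁻ ‖F‖ₑ² = 8 ∫⁻ ξ in Sh N, ‖F(-2ξ)‖ₑ² ≤ 8 C N^(-β)`, so the sum is at most
`∑_j (4·2^j N₀)^α 8 C (2^j N₀)^(-β) < ∞`, a geometric series as `α < β`. -/

set_option autoImplicit false

open MeasureTheory Filter Topology Set
open scoped FourierTransform SchwartzMap InnerProductSpace ENNReal BoundedContinuousFunction

noncomputable section

namespace FracScatC

open FracScat

private theorem dsin_le {α : ℝ} (h1 : 1 < α) (h2 : α ≤ 2) (t : ℝ) :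
    ‖Complex.exp (Complex.I * (t : ℂ)) - 1‖ ^ 2 ≤ 4 * |t| ^ α := by
  have a1 : ‖Complex.exp (Complex.I * (t : ℂ)) - 1‖ ≤ |t| := by
    have := Real.norm_exp_I_mul_ofReal_sub_one_le (x := t)
    rwa [Real.norm_eq_abs] at this
  have a2 : ‖Complex.exp (Complex.I * (t : ℂ)) - 1‖ ≤ 2 := by
    refine (norm_sub_le _ _).trans ?_
    rw [mul_comm, Complex.norm_exp_ofReal_mul_I, norm_one]
    norm_num
  have hn := norm_nonneg (Complex.exp (Complex.I * (t : ℂ)) - 1)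
  have ht := abs_nonneg t
  rcases le_total |t| 1 with h | h
  · rcases ht.eq_or_lt with h0 | h0
    · have : ‖Complex.exp (Complex.I * (t : ℂ)) - 1‖ = 0 := le_antisymm (by rw [h0]; exact a1) hn
      rw [this]
      have h5 : 0 ≤ |t| ^ α := Real.rpow_nonneg ht α
      linarith
    · have h3 : |t| ^ (2 : ℝ) ≤ |t| ^ α := Real.rpow_le_rpow_of_exponent_ge h0 h h2
      rw [Real.rpow_two] at h3
      have h4 : ‖Complex.exp (Complex.I * (t : ℂ)) - 1‖ ^ 2 ≤ |t| ^ 2 := by gcongr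
      have h5 : 0 ≤ |t| ^ α := by positivity
      linarith
  · have h3 : (1 : ℝ) ≤ |t| ^ α := Real.one_le_rpow h (by linarith)
    have h4 : ‖Complex.exp (Complex.I * (t : ℂ)) - 1‖ ^ 2 ≤ 2 ^ 2 := by gcongr
    linarith

private theorem dplanch {g : E3 → ℂ} (hg : Integrable g) (hg2 : MemLp g 2 (volume : Measure E3)) :
    ∫⁻ x, ‖g x‖ₑ ^ 2 = ∫⁻ η, ‖𝓕 g η‖ₑ ^ 2 := by
  have key : ∀ W : HS, ‖W‖ₑ ^ 2 = ∫⁻ x, ‖(W : E3 → ℂ) x‖ₑ ^ 2 := by
    intro W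
    rw [Lp.enorm_def]
    have h := eLpNorm_nnreal_pow_eq_lintegral (μ := (volume : Measure E3)) (f := (W : E3 → ℂ))
      (p := 2) (by norm_num)
    simpa using h
  set W : HS := hg2.toLp g with hW
  have hWc : (W : E3 → ℂ) =ᵐ[volume] g := hg2.coeFn_toLp
  have hWi : Integrable (W : E3 → ℂ) := hg.congr hWc.symm
  have e1 : ∫⁻ x, ‖g x‖ₑ ^ 2 = ‖W‖ₑ ^ 2 := by
    rw [key]
    apply lintegral_congr_ae
    filter_upwards [hWc] with x hx
    rw [hx]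
  have e2 : ‖FT W‖ₑ ^ 2 = ∫⁻ η, ‖𝓕 g η‖ₑ ^ 2 := by
    rw [key]
    apply lintegral_congr_ae
    filter_upwards [FT_coe_of_integrable W hWi] with η hη
    rw [hη]
    have : 𝓕 (W : E3 → ℂ) η = 𝓕 g η := by
      rw [Real.fourier_eq', Real.fourier_eq']
      apply integral_congr_ae
      filter_upwards [hWc] with x hx
      rw [hx]
    rw [this]
  have e3 : ‖FT W‖ₑ = ‖W‖ₑ := by
    rw [← ofReal_norm, ← ofReal_norm, LinearIsometryEquiv.norm_map]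
  rw [e1, ← e2, e3]

private theorem dfourier_shift (D : E3 → ℂ) (h η : E3) :
    𝓕 (fun x => D (x + h)) η =
      Complex.exp (Complex.I * ((2 * Real.pi * ⟪h, η⟫_ℝ : ℝ) : ℂ)) * 𝓕 D η := by
  have h1 := congrFun (VectorFourier.fourierIntegral_comp_add_right Real.fourierChar
    (volume : Measure E3) (innerₗ E3) D h) η
  have h2 : 𝓕 (fun x => D (x + h)) η = (Real.fourierChar ((innerₗ E3) h η)) • 𝓕 D η := h1
  rw [h2, innerₗ_apply_apply, Circle.smul_def, Real.fourierChar_apply, smul_eq_mul]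
  congr 2
  ring

private theorem dD_int {r M : ℝ} {D : E3 → ℂ} (hD : IsPot r M D) :
    Integrable D ∧ MemLp D 2 (volume : Measure E3) := by
  have hc := dH_coe hD
  exact ⟨(HB_integrable (dH_mem hD)).congr hc, (Lp.memLp (dH r D)).ae_eq hc⟩

private theorem dplanch_diff {r M : ℝ} {D : E3 → ℂ} (hD : IsPot r M D) (h : E3) :
    ∫⁻ x, ‖D (x + h) - D x‖ₑ ^ 2 =
      ∫⁻ η, ‖Complex.exp (Complex.I * ((2 * Real.pi * ⟪h, η⟫_ℝ : ℝ) : ℂ)) - 1‖ₑ ^ 2 *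
        ‖ftX (dH r D) η‖ₑ ^ 2 := by
  obtain ⟨i1, i2⟩ := dD_int hD
  have hmp : MeasurePreserving (fun x : E3 => x + h) volume volume :=
    measurePreserving_add_right volume h
  have j1 : Integrable (fun x => D (x + h)) :=
    (hmp.integrable_comp i1.aestronglyMeasurable).2 i1
  have j2 : MemLp (fun x => D (x + h)) 2 (volume : Measure E3) := i2.comp_measurePreserving hmp
  have e := dplanch (j1.sub i1) (j2.sub i2)
  have e' : ∫⁻ x, ‖D (x + h) - D x‖ₑ ^ 2 = ∫⁻ η, ‖𝓕 ((fun x => D (x + h)) - D) η‖ₑ ^ 2 := e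
  rw [e']
  apply lintegral_congr
  intro η
  have hs : 𝓕 ((fun x => D (x + h)) - D) η = 𝓕 (fun x => D (x + h)) η - 𝓕 D η := by
    rw [Real.fourier_eq', Real.fourier_eq', Real.fourier_eq', ← integral_sub]
    · congr 1
      funext v
      rw [Pi.sub_apply, smul_sub]
    · have hq := (Real.fourierIntegral_convergent_iff (f := fun x => D (x + h)) (μ := volume) η).2 j1
      simpa [Circle.smul_def, Real.fourierChar_apply] using hq
    · have hq := (Real.fourierIntegral_convergent_iff (f := D) (μ := volume) η).2 i1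
      simpa [Circle.smul_def, Real.fourierChar_apply] using hq
  rw [hs, dfourier_shift, ftX_dH hD, ← sub_one_mul, enorm_mul, mul_pow]

private theorem dtail {r M : ℝ} {D : E3 → ℂ} (hD : IsPot r M D) {α β C N₀ : ℝ}
    (hα : 1 < α) (hαβ : α < β) (hC : 0 ≤ C) (hN₀ : 1 ≤ N₀)
    (h : ∀ N : ℝ, N₀ ≤ N →
      ∫⁻ ξ in Sh N, ‖ftX (dH r D) (-(2 : ℝ) • ξ)‖ₑ ^ 2 ≤ ENNReal.ofReal (C * N ^ (-β))) :
    ∫⁻ η, ENNReal.ofReal (‖η‖ ^ α) * ‖ftX (dH r D) η‖ₑ ^ 2 < ∞ := by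
  set F : E3 → ℝ≥0∞ := fun η => ‖ftX (dH r D) η‖ₑ ^ 2 with hF
  have hFm : Measurable F := ((ftX (dH r D)).continuous.enorm.measurable).pow_const 2
  set B : Set E3 := {η | ‖η‖ ≤ 2 * N₀} with hB
  set S : ℕ → Set E3 := fun j => {η | 2 * (2 ^ j * N₀) < ‖η‖ ∧ ‖η‖ ≤ 4 * (2 ^ j * N₀)} with hS
  have hSm : ∀ j, MeasurableSet (S j) := fun j =>
    (measurableSet_lt measurable_const measurable_norm).inter
      (measurableSet_le measurable_norm measurable_const)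
  have hcov : (Set.univ : Set E3) ⊆ B ∪ ⋃ j, S j := by
    intro η _
    by_cases hη : ‖η‖ ≤ 2 * N₀
    · exact Or.inl hη
    · right
      push Not at hη
      -- the least j with ‖η‖ ≤ 4 * 2^j * N₀
      have hex : ∃ j : ℕ, ‖η‖ ≤ 4 * (2 ^ j * N₀) := by
        obtain ⟨j, hj⟩ := pow_unbounded_of_one_lt ‖η‖ (one_lt_two)
        refine ⟨j, ?_⟩
        have : (2 : ℝ) ^ j * 1 ≤ 2 ^ j * N₀ := by gcongr
        have h0 : (0 : ℝ) < 2 ^ j := by positivity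
        nlinarith
      classical
      refine mem_iUnion.2 ⟨Nat.find hex, ?_, Nat.find_spec hex⟩
      rcases Nat.eq_zero_or_pos (Nat.find hex) with h0 | h0
      · rw [h0, pow_zero, one_mul]
        exact hη
      · have hm := Nat.find_min hex (Nat.sub_lt h0 one_pos)
        push Not at hm
        have hp : (2 : ℝ) ^ (Nat.find hex) = 2 * 2 ^ (Nat.find hex - 1) := by
          rw [← pow_succ', Nat.sub_add_cancel h0]
        rw [hp]
        calc 2 * (2 * 2 ^ (Nat.find hex - 1) * N₀) = 4 * (2 ^ (Nat.find hex - 1) * N₀) := by ring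
          _ < ‖η‖ := hm
  have hshell : ∀ j, ∫⁻ η in S j, F η ≤ ENNReal.ofReal (8 * (C * (2 ^ j * N₀) ^ (-β))) := by
    intro j
    have hNj : N₀ ≤ 2 ^ j * N₀ := by
      have : (1 : ℝ) ≤ 2 ^ j := one_le_pow₀ (by norm_num)
      nlinarith
    rw [← lintegral_indicator (hSm j), J1E (hFm.indicator (hSm j))]
    have hpre : ∀ ξ : E3, (S j).indicator F (-(2 : ℝ) • ξ) =
        (Sh (2 ^ j * N₀)).indicator (fun ξ => F (-(2 : ℝ) • ξ)) ξ := by
      intro ξ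
      have hn : ‖-(2 : ℝ) • ξ‖ = 2 * ‖ξ‖ := by
        rw [norm_smul]
        norm_num
      by_cases hx : ξ ∈ Sh (2 ^ j * N₀)
      · rw [indicator_of_mem hx, indicator_of_mem]
        obtain ⟨a, b⟩ := hx
        refine ⟨?_, ?_⟩
        · rw [hn]; linarith
        · rw [hn]; linarith
      · rw [indicator_of_notMem hx, indicator_of_notMem]
        rintro ⟨a, b⟩
        rw [hn] at a b
        exact hx ⟨by linarith, by linarith⟩
    simp_rw [hpre]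
    rw [lintegral_indicator (Sh_meas _), ENNReal.ofReal_mul (by norm_num)]
    have h8 : ENNReal.ofReal 8 = 8 := by norm_num
    rw [h8]
    gcongr
    exact h _ hNj
  have hw : ∀ j, ∫⁻ η in S j, ENNReal.ofReal (‖η‖ ^ α) * F η ≤
      ENNReal.ofReal (8 * C * 4 ^ α * N₀ ^ (α - β) * (2 ^ (α - β)) ^ j) := by
    intro j
    have hNpos : 0 < 2 ^ j * N₀ := by positivity
    calc ∫⁻ η in S j, ENNReal.ofReal (‖η‖ ^ α) * F η
        ≤ ∫⁻ η in S j, ENNReal.ofReal ((4 * (2 ^ j * N₀)) ^ α) * F η := by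
          apply setLIntegral_mono' (hSm j)
          intro η hη
          gcongr
          exact hη.2
      _ = ENNReal.ofReal ((4 * (2 ^ j * N₀)) ^ α) * ∫⁻ η in S j, F η := by
          rw [lintegral_const_mul _ hFm]
      _ ≤ ENNReal.ofReal ((4 * (2 ^ j * N₀)) ^ α) *
          ENNReal.ofReal (8 * (C * (2 ^ j * N₀) ^ (-β))) := by
          gcongr
          exact hshell j
      _ = ENNReal.ofReal (8 * C * 4 ^ α * N₀ ^ (α - β) * (2 ^ (α - β)) ^ j) := by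
          rw [← ENNReal.ofReal_mul (by positivity)]
          congr 1
          rw [Real.mul_rpow (by norm_num) hNpos.le]
          have e1 : (2 ^ j * N₀) ^ α * (2 ^ j * N₀) ^ (-β) = (2 ^ j * N₀) ^ (α - β) := by
            rw [← Real.rpow_add hNpos]
            congr 1
          have e2 : (2 ^ j * N₀) ^ (α - β) = (2 ^ (α - β)) ^ j * N₀ ^ (α - β) := by
            rw [Real.mul_rpow (by positivity) (by linarith)]
            congr 1
            rw [← Real.rpow_natCast, ← Real.rpow_natCast, ← Real.rpow_mul (by norm_num),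
              ← Real.rpow_mul (by norm_num), mul_comm]
          calc 4 ^ α * (2 ^ j * N₀) ^ α * (8 * (C * (2 ^ j * N₀) ^ (-β)))
              = 8 * C * 4 ^ α * ((2 ^ j * N₀) ^ α * (2 ^ j * N₀) ^ (-β)) := by ring
            _ = _ := by rw [e1, e2]; ring
  have hq : (2 : ℝ) ^ (α - β) < 1 := Real.rpow_lt_one_of_one_lt_of_neg (by norm_num) (by linarith)
  have hball : ∫⁻ η in B, ENNReal.ofReal (‖η‖ ^ α) * F η < ∞ := by
    calc ∫⁻ η in B, ENNReal.ofReal (‖η‖ ^ α) * F η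
        ≤ ∫⁻ η in B, ENNReal.ofReal ((2 * N₀) ^ α) * F η := by
          apply setLIntegral_mono' (measurableSet_le measurable_norm measurable_const)
          intro η hη
          have hη' : ‖η‖ ≤ 2 * N₀ := hη
          gcongr
      _ ≤ ∫⁻ η, ENNReal.ofReal ((2 * N₀) ^ α) * F η := setLIntegral_le_lintegral _ _
      _ = ENNReal.ofReal ((2 * N₀) ^ α) * ‖dH r D‖ₑ ^ 2 := by
          rw [lintegral_const_mul _ hFm, hF, ftX_sq hD]
      _ < ∞ := ENNReal.mul_lt_top ENNReal.ofReal_lt_top (ENNReal.pow_lt_top enorm_lt_top)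
  have hsum : ∑' j, ∫⁻ η in S j, ENNReal.ofReal (‖η‖ ^ α) * F η < ∞ := by
    have hsm : Summable fun j : ℕ => 8 * C * 4 ^ α * N₀ ^ (α - β) * (2 ^ (α - β)) ^ j :=
      (summable_geometric_of_lt_one (by positivity) hq).mul_left _
    calc ∑' j, ∫⁻ η in S j, ENNReal.ofReal (‖η‖ ^ α) * F η
        ≤ ∑' j : ℕ, ENNReal.ofReal (8 * C * 4 ^ α * N₀ ^ (α - β) * (2 ^ (α - β)) ^ j) :=
          ENNReal.tsum_le_tsum hw
      _ = ENNReal.ofReal (∑' j : ℕ, 8 * C * 4 ^ α * N₀ ^ (α - β) * (2 ^ (α - β)) ^ j) :=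
          (ENNReal.ofReal_tsum_of_nonneg (fun j => by positivity) hsm).symm
      _ < ∞ := ENNReal.ofReal_lt_top
  calc ∫⁻ η, ENNReal.ofReal (‖η‖ ^ α) * F η
      = ∫⁻ η in (Set.univ : Set E3), ENNReal.ofReal (‖η‖ ^ α) * F η := by rw [setLIntegral_univ]
    _ ≤ ∫⁻ η in B ∪ ⋃ j, S j, ENNReal.ofReal (‖η‖ ^ α) * F η := lintegral_mono_set hcov
    _ ≤ (∫⁻ η in B, ENNReal.ofReal (‖η‖ ^ α) * F η) +
        ∫⁻ η in ⋃ j, S j, ENNReal.ofReal (‖η‖ ^ α) * F η := lintegral_union_le _ _ _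
    _ ≤ (∫⁻ η in B, ENNReal.ofReal (‖η‖ ^ α) * F η) +
        ∑' j, ∫⁻ η in S j, ENNReal.ofReal (‖η‖ ^ α) * F η := by
        gcongr
        exact lintegral_iUnion_le _ _
    _ < ∞ := ENNReal.add_lt_top.2 ⟨hball, hsum⟩

theorem diffE {r M : ℝ} (hr : 0 < r) {D : E3 → ℂ} (hD : IsPot r M D) {β C N₀ : ℝ} (hβ : 1 < β)
    (hC : 0 ≤ C) (hN₀ : 1 ≤ N₀)
    (h : ∀ N : ℝ, N₀ ≤ N →
      ∫⁻ ξ in Sh N, ‖ftX (dH r D) (-(2 : ℝ) • ξ)‖ₑ ^ 2 ≤ ENNReal.ofReal (C * N ^ (-β))) :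
    ∃ α C' : ℝ, 1 < α ∧ 0 ≤ C' ∧ ∀ h : E3,
      ∫⁻ x, ‖D (x + h) - D x‖ₑ ^ 2 ≤ ENNReal.ofReal (C' * ‖h‖ ^ α) := by
  have hα1 : 1 < min ((1 + β) / 2) 2 := lt_min (by linarith) (by norm_num)
  have hαβ : min ((1 + β) / 2) 2 < β := lt_of_le_of_lt (min_le_left _ _) (by linarith)
  have hα2 : min ((1 + β) / 2) 2 ≤ 2 := min_le_right _ _
  set α := min ((1 + β) / 2) 2 with hα
  have hfin := dtail hD hα1 hαβ hC hN₀ h
  set I : ℝ≥0∞ := ∫⁻ η, ENNReal.ofReal (‖η‖ ^ α) * ‖ftX (dH r D) η‖ₑ ^ 2 with hI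
  refine ⟨α, 4 * (2 * Real.pi) ^ α * I.toReal, hα1, by positivity, fun v => ?_⟩
  rw [dplanch_diff hD v]
  have hpt : ∀ η : E3, ‖Complex.exp (Complex.I * ((2 * Real.pi * ⟪v, η⟫_ℝ : ℝ) : ℂ)) - 1‖ₑ ^ 2 ≤
      ENNReal.ofReal (4 * (2 * Real.pi) ^ α * ‖v‖ ^ α) * ENNReal.ofReal (‖η‖ ^ α) := by
    intro η
    rw [← ofReal_norm, ← ENNReal.ofReal_pow (norm_nonneg _), ← ENNReal.ofReal_mul (by positivity)]
    apply ENNReal.ofReal_le_ofReal
    refine (dsin_le hα1 hα2 _).trans ?_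
    have h1 : |2 * Real.pi * ⟪v, η⟫_ℝ| ≤ 2 * Real.pi * (‖v‖ * ‖η‖) := by
      rw [abs_mul, abs_of_pos Real.two_pi_pos]
      gcongr
      exact abs_real_inner_le_norm v η
    have h2 : |2 * Real.pi * ⟪v, η⟫_ℝ| ^ α ≤ (2 * Real.pi * (‖v‖ * ‖η‖)) ^ α := by gcongr
    have h3 : (2 * Real.pi * (‖v‖ * ‖η‖)) ^ α = (2 * Real.pi) ^ α * (‖v‖ ^ α * ‖η‖ ^ α) := by
      rw [Real.mul_rpow (x := 2 * Real.pi) (y := ‖v‖ * ‖η‖) (by positivity) (by positivity),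
        Real.mul_rpow (norm_nonneg v) (norm_nonneg η)]
    calc 4 * |2 * Real.pi * ⟪v, η⟫_ℝ| ^ α ≤ 4 * ((2 * Real.pi) ^ α * (‖v‖ ^ α * ‖η‖ ^ α)) := by
          rw [← h3]; gcongr
      _ = 4 * (2 * Real.pi) ^ α * ‖v‖ ^ α * ‖η‖ ^ α := by ring
  calc ∫⁻ η, ‖Complex.exp (Complex.I * ((2 * Real.pi * ⟪v, η⟫_ℝ : ℝ) : ℂ)) - 1‖ₑ ^ 2 *
        ‖ftX (dH r D) η‖ₑ ^ 2
      ≤ ∫⁻ η, ENNReal.ofReal (4 * (2 * Real.pi) ^ α * ‖v‖ ^ α) *
          (ENNReal.ofReal (‖η‖ ^ α) * ‖ftX (dH r D) η‖ₑ ^ 2) := by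
        apply lintegral_mono
        intro η
        calc _ ≤ ENNReal.ofReal (4 * (2 * Real.pi) ^ α * ‖v‖ ^ α) * ENNReal.ofReal (‖η‖ ^ α) *
              ‖ftX (dH r D) η‖ₑ ^ 2 := mul_le_mul_left (hpt η) _
          _ = _ := by rw [mul_assoc]
    _ = ENNReal.ofReal (4 * (2 * Real.pi) ^ α * ‖v‖ ^ α) * I := by
        rw [lintegral_const_mul' _ _ ENNReal.ofReal_ne_top]
    _ = ENNReal.ofReal (4 * (2 * Real.pi) ^ α * ‖v‖ ^ α) * ENNReal.ofReal I.toReal := by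
        rw [ENNReal.ofReal_toReal hfin.ne]
    _ = ENNReal.ofReal (4 * (2 * Real.pi) ^ α * I.toReal * ‖v‖ ^ α) := by
        rw [← ENNReal.ofReal_mul (by positivity)]
        congr 1
        ring

end FracScatC

end
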