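import Pool.Agent.Lib.MP_6e2ba5_an.Ex.Defs

/-! # The essential range

`essR D` is closed (its complement is open), contained in the closed ball of radius `M` (so compact),
`D x ∈ essR D` for a.e. `x` (cover the complement by countably many balls with null preimages:
Lindelof / second countability of `ℂ`, as for `Measure.support`; maybe `Measure.support` of
`Measure.map D volume` and `MeasureTheory.Measure.support` API can be used), and `0 ∈ essR D` since
`D = 0` outside the ball, a set of positive (infinite) measure.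
`essR_preconnected`: otherwise (`IsPreconnected`, or `isPreconnected_closed_iff`) there are disjoint
nonempty closed sets `A ∪ B = essR D`, which are compact, so they have positive distance; by symmetry
`0 ∈ A`. By `hsep`, `D x ∉ B` for a.e. `x`. But for `b ∈ B` and `ε` smaller than the distance of `A` and `B`,
the set `{‖D x - b‖ < ε}` has positive measure and is, up to a null set, contained in `{D x ∈ B}`.
`essR_td`: `essR D ⊆ F` as `F` is closed; a preconnected subset of a totally disconnected set is a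
subsingleton, so `essR D = {0}` and `D = 0` a.e. -/

set_option autoImplicit false

open MeasureTheory Filter Topology Set
open scoped FourierTransform SchwartzMap InnerProductSpace ENNReal BoundedContinuousFunction

noncomputable section

namespace FracScatC

open FracScat

theorem essR_ae {D : E3 → ℂ} (hD : Measurable D) :
    ∀ᵐ x ∂(volume : Measure E3), D x ∈ essR D := by
  have h : (Measure.map D (volume : Measure E3)) (essR D)ᶜ = 0 := by
    apply measure_null_of_locally_null
    intro z hz
    simp only [essR, mem_compl_iff, mem_ofPred_eq, not_forall, not_lt] at hz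
    obtain ⟨ε, hε, h0⟩ := hz
    refine ⟨Metric.ball z ε, mem_nhdsWithin_of_mem_nhds (Metric.ball_mem_nhds z hε), ?_⟩
    rw [Measure.map_apply hD measurableSet_ball]
    refine le_antisymm (le_trans (measure_mono ?_) h0) bot_le
    intro x hx
    rw [mem_preimage, Metric.mem_ball, dist_eq_norm] at hx
    exact hx
  have h2 := (Measure.le_map_apply hD.aemeasurable (essR D)ᶜ).trans h.le
  rw [ae_iff]
  exact le_antisymm h2 bot_le

theorem essR_zero {r M : ℝ} {D : E3 → ℂ} (hD : IsPot r M D) : (0 : ℂ) ∈ essR D := by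
  intro ε hε
  have h1 : IsOpen {x : E3 | r < ‖x‖} := isOpen_lt continuous_const continuous_norm
  obtain ⟨x0, hx0⟩ := NormedSpace.exists_lt_norm ℝ E3 r
  refine lt_of_lt_of_le (h1.measure_pos volume ⟨x0, hx0⟩) (measure_mono ?_)
  intro x hx
  simp only [mem_ofPred_eq] at hx ⊢
  rw [hD.vanish x hx.le, sub_zero, norm_zero]
  exact hε

private theorem essR_closed (D : E3 → ℂ) : IsClosed (essR D) := by
  rw [← isOpen_compl_iff, Metric.isOpen_iff]
  intro z hz
  simp only [essR, mem_compl_iff, mem_ofPred_eq, not_forall, not_lt] at hz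
  obtain ⟨ε, hε, h0⟩ := hz
  refine ⟨ε / 2, by positivity, fun w hw hw' => ?_⟩
  rw [Metric.mem_ball, dist_eq_norm] at hw
  have h1 := hw' (ε / 2) (by positivity)
  refine absurd h1 (not_lt.2 (le_trans (measure_mono ?_) h0))
  intro x hx
  simp only [mem_ofPred_eq] at hx ⊢
  calc ‖D x - z‖ = ‖(D x - w) + (w - z)‖ := by congr 1; ring
    _ ≤ ‖D x - w‖ + ‖w - z‖ := norm_add_le _ _
    _ < ε := by linarith

private theorem essR_bounded {r M : ℝ} {D : E3 → ℂ} (hD : IsPot r M D) :
    Bornology.IsBounded (essR D) := by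
  refine (Metric.isBounded_closedBall (x := (0 : ℂ)) (r := M)).subset ?_
  intro z hz
  rw [Metric.mem_closedBall, dist_zero_right]
  by_contra hlt
  rw [not_le] at hlt
  have h1 := hz (‖z‖ - M) (by linarith)
  have h2 : {x : E3 | ‖D x - z‖ < ‖z‖ - M} = ∅ := by
    rw [eq_empty_iff_forall_notMem]
    intro x hx
    simp only [mem_ofPred_eq] at hx
    have h3 : ‖z‖ ≤ ‖D x‖ + ‖D x - z‖ := by
      calc ‖z‖ = ‖D x - (D x - z)‖ := by congr 1; ring
        _ ≤ _ := norm_sub_le _ _
    have h4 := hD.bounded x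
    linarith
  rw [h2, measure_empty] at h1
  exact absurd h1 (lt_irrefl _)

private theorem essR_sep {r M : ℝ} {D : E3 → ℂ} (hD : IsPot r M D)
    (hsep : ∀ (A B : Set ℂ) (δ : ℝ), MeasurableSet A → MeasurableSet B → (0 : ℂ) ∈ A → 0 < δ →
      (∀ a ∈ A, ∀ b ∈ B, δ ≤ ‖a - b‖) → (∀ᵐ x ∂(volume : Measure E3), D x ∈ A ∪ B) →
      ∀ᵐ x ∂(volume : Measure E3), D x ∉ B) {t t' : Set ℂ} (ht : IsClosed t)
    (ht' : IsClosed t') (hsub : essR D ⊆ t ∪ t') (h0 : (0 : ℂ) ∈ t)
    (hn : (essR D ∩ t').Nonempty) (he : essR D ∩ (t ∩ t') = ∅) : False := by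
  have hcA : IsClosed (essR D ∩ t) := (essR_closed D).inter ht
  have hcB : IsClosed (essR D ∩ t') := (essR_closed D).inter ht'
  have hkA : IsCompact (essR D ∩ t) :=
    Metric.isCompact_of_isClosed_isBounded hcA ((essR_bounded hD).subset inter_subset_left)
  have hdis : Disjoint (essR D ∩ t) (essR D ∩ t') := by
    rw [Set.disjoint_iff]
    rintro z ⟨⟨h1, h2⟩, _, h3⟩
    rw [← he]
    exact ⟨h1, h2, h3⟩
  obtain ⟨δ, hδ, hth⟩ := hdis.exists_thickenings hkA hcB
  have hd : ∀ a ∈ essR D ∩ t, ∀ b ∈ essR D ∩ t', δ ≤ ‖a - b‖ := by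
    intro a ha b hb
    by_contra hlt
    rw [not_le] at hlt
    have h1 : b ∈ Metric.thickening δ (essR D ∩ t) := by
      rw [Metric.mem_thickening_iff]
      exact ⟨a, ha, by rw [dist_comm, dist_eq_norm]; exact hlt⟩
    have h2 : b ∈ Metric.thickening δ (essR D ∩ t') := Metric.self_subset_thickening hδ _ hb
    exact (Set.disjoint_left.1 hth) h1 h2
  have hu : ∀ᵐ x ∂(volume : Measure E3), D x ∈ (essR D ∩ t) ∪ (essR D ∩ t') := by
    filter_upwards [essR_ae hD.measurable] with x hx
    rcases hsub hx with h | h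
    · exact Or.inl ⟨hx, h⟩
    · exact Or.inr ⟨hx, h⟩
  have hB := hsep _ _ δ hcA.measurableSet hcB.measurableSet ⟨essR_zero hD, h0⟩ hδ hd hu
  obtain ⟨b, hb⟩ := hn
  have h1 : volume {x : E3 | ‖D x - b‖ < δ} = 0 := by
    have h2 : ∀ᵐ x ∂(volume : Measure E3), ¬ ‖D x - b‖ < δ := by
      filter_upwards [hu, hB] with x hx hx'
      rcases hx with h | h
      · exact not_lt.2 (hd _ h _ hb)
      · exact absurd h hx'
    rw [ae_iff] at h2
    simpa using h2
  exact absurd h1 (hb.1 δ hδ).ne'

theorem essR_preconnected {r M : ℝ} {D : E3 → ℂ} (hD : IsPot r M D)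
    (hsep : ∀ (A B : Set ℂ) (δ : ℝ), MeasurableSet A → MeasurableSet B → (0 : ℂ) ∈ A → 0 < δ →
      (∀ a ∈ A, ∀ b ∈ B, δ ≤ ‖a - b‖) → (∀ᵐ x ∂(volume : Measure E3), D x ∈ A ∪ B) →
      ∀ᵐ x ∂(volume : Measure E3), D x ∉ B) : IsPreconnected (essR D) := by
  rw [isPreconnected_closed_iff]
  intro t t' ht ht' hsub hn hn'
  by_contra hne
  rw [not_nonempty_iff_eq_empty] at hne
  rcases hsub (essR_zero hD) with h0 | h0
  · exact essR_sep hD hsep ht ht' hsub h0 hn' hne
  · refine essR_sep hD hsep ht' ht (by rwa [union_comm]) h0 hn ?_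
    rwa [inter_comm t' t]

theorem essR_td {r M : ℝ} {D : E3 → ℂ} (hD : IsPot r M D) (hc : IsPreconnected (essR D))
    {F : Set ℂ} (hF : IsClosed F) (hF' : IsTotallyDisconnected F)
    (hDF : ∀ᵐ x ∂(volume : Measure E3), D x ∈ F) : ∀ᵐ x ∂(volume : Measure E3), D x = 0 := by
  have hsub : essR D ⊆ F := by
    intro z hz
    by_contra hzF
    obtain ⟨ε, hε, hb⟩ := Metric.isOpen_iff.1 hF.isOpen_compl z hzF
    have h1 : volume {x : E3 | ‖D x - z‖ < ε} = 0 := by
      rw [ae_iff] at hDF
      refine measure_mono_null ?_ hDF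
      intro x hx
      have : D x ∈ Metric.ball z ε := by
        rw [Metric.mem_ball, dist_eq_norm]
        exact hx
      exact hb this
    exact absurd h1 (hz ε hε).ne'
  have hs := hF' (essR D) hsub hc
  filter_upwards [essR_ae hD.measurable] with x hx
  exact hs hx (essR_zero hD)

end FracScatC

end
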