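import Pool.Agent.Lib.MP_6e2ba5_an.Ex.Defs

/-! # Abstract expansion of the data

Let `u_j = Ring.inverse (1 - K V_j) e`, `e = eH r ξ`, `T_j = K ∘ mulL V_j`, `‖T_j‖ ≤ κM ≤ 1/2`
(`IsPot.norm_mulL`), so `u_j = e + v_j`, `v_j = K (V_j u_j)` (as in `UX_fix`, `Cx/XDefs`), `‖u_j‖ ≤ 2‖oneB r‖`
(`norm_eH_le`), `‖v_j‖ ≤ 2κM‖oneB r‖`, and `v_j = K (V_j e) + K (V_j v_j)`,
`‖K (V_j v_j)‖ ≤ 2κ²M²‖oneB r‖`. `W = dH r (V₁-V₂)` is bounded by `2M` a.e. (`dH_coe`), in `L²` with norm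
`≤ 2M‖oneB r‖` (`norm_dH_le`). Since `W` is bounded all integrals `∫ W f g`, `f, g ∈ L²`, converge and are
bilinear (`integrable_mul`, `Integrable.bdd_mul`). Hence
`0 = A3 W u₁ u₂ = A3 W e e + A3 W e v₂ + A3 W e v₁ + A3 W v₁ v₂`, `A3 W e e = ftX W (-2ξ)` (`A3_ee`, `dH_mem`,
`IsPot.sub`), `|A3 W v₁ v₂| ≤ 2M‖v₁‖‖v₂‖ ≤ 8κ²M³‖oneB r‖²`, and
`|A3 W e (K (V_j v_j))| ≤ ‖W‖‖K (V_j v_j)‖ ≤ 4κ²M³‖oneB r‖²` (`A3_norm`, file `Cx/A3Api`, with `Bd 1 e`,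
`eH_Bd`). -/

set_option autoImplicit false

open MeasureTheory Filter Topology Set
open scoped FourierTransform SchwartzMap InnerProductSpace ENNReal BoundedContinuousFunction

noncomputable section

namespace FracScatC

open FracScat

private theorem ExpE_BM {C : ℝ} {f : HS} (hf : Bd C f) : BM (f : E3 → ℂ) :=
  ⟨(Lp.memLp f).1, C, hf⟩

private theorem ExpE_int {C : ℝ} {W f g : HS} (hW : Bd C W) :
    Integrable (fun x => (W : E3 → ℂ) x * ((f : E3 → ℂ) x * (g : E3 → ℂ) x)) := by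
  have h := (Lp.memLp f).integrable_mul ((ExpE_BM hW).memLp_mul g)
  refine h.congr (Eventually.of_forall fun x => ?_)
  simp only [Pi.mul_apply]
  ring

private theorem ExpE_add_right {C : ℝ} {W f g g' : HS} (hW : Bd C W) :
    A3 W f (g + g') = A3 W f g + A3 W f g' := by
  unfold A3
  rw [← integral_add (ExpE_int hW) (ExpE_int hW)]
  refine integral_congr_ae ?_
  filter_upwards [Lp.coeFn_add g g'] with x hx
  rw [hx, Pi.add_apply]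
  ring

private theorem ExpE_comm (W f g : HS) : A3 W f g = A3 W g f := by
  unfold A3
  refine integral_congr_ae (Eventually.of_forall fun x => ?_)
  simp only
  rw [mul_comm ((f : E3 → ℂ) x)]

private theorem ExpE_norm {C : ℝ} (hC : 0 ≤ C) {W f g : HS} (hW : Bd C W) :
    ‖A3 W f g‖ ≤ C * ‖f‖ * ‖g‖ := by
  have h1 : A3 W f g = ∫ x, (f : E3 → ℂ) x * (mulL (W : E3 → ℂ) g : E3 → ℂ) x := by
    unfold A3
    refine integral_congr_ae ?_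
    filter_upwards [mulL_coe (ExpE_BM hW) g] with x hx
    rw [hx]
    ring
  rw [h1]
  refine (norm_integral_mul_le f (mulL (W : E3 → ℂ) g)).trans ?_
  have h2 : ‖mulL (W : E3 → ℂ) g‖ ≤ C * ‖g‖ :=
    ((mulL (W : E3 → ℂ)).le_opNorm g).trans
      (mul_le_mul_of_nonneg_right (norm_mulL_le (ExpE_BM hW) hC hW) (norm_nonneg _))
  calc ‖f‖ * ‖mulL (W : E3 → ℂ) g‖ ≤ ‖f‖ * (C * ‖g‖) :=
        mul_le_mul_of_nonneg_left h2 (norm_nonneg _)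
    _ = C * ‖f‖ * ‖g‖ := by ring

private theorem ExpE_fix {K L : HS →L[ℂ] HS} {e : HS} (hT : ‖K ∘L L‖ ≤ 1 / 2) :
    (Ring.inverse (1 - K ∘L L)) e = e + K (L ((Ring.inverse (1 - K ∘L L)) e)) := by
  have hu : IsUnit (1 - K ∘L L) :=
    isUnit_one_sub_of_norm_lt_one (lt_of_le_of_lt hT (by norm_num))
  have h1 := Ring.mul_inverse_cancel _ hu
  have h2 : (1 - K ∘L L) ((Ring.inverse (1 - K ∘L L)) e) = e :=
    congrArg (fun A : HS →L[ℂ] HS => A e) h1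
  have h4 : (Ring.inverse (1 - K ∘L L)) e - K (L ((Ring.inverse (1 - K ∘L L)) e)) = e := h2
  have h5 := sub_eq_iff_eq_add.1 h4
  exact h5

/-- The bounds of the scattered field of the abstract equation. -/
private theorem ExpE_one {r M κ : ℝ} {V : E3 → ℂ} (hV : IsPot r M V)
    {K : HS →L[ℂ] HS} (hκ : 0 ≤ κ) (hK : ‖K‖ ≤ κ) (hκM : κ * M ≤ 1 / 2) {ξ : E3} :
    ∃ v : HS, (Ring.inverse (1 - K ∘L mulL V)) (eH r ξ) = eH r ξ + v ∧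
      ‖v‖ ≤ 2 * (κ * M) * ‖oneB r‖ ∧
      ∃ w : HS, v = K (mulL V (eH r ξ)) + w ∧ ‖w‖ ≤ κ * M * (2 * (κ * M) * ‖oneB r‖) := by
  have hM : 0 ≤ M := hV.nonneg
  have hL : ‖mulL V‖ ≤ M := hV.norm_mulL hM
  have hKL : ‖K ∘L mulL V‖ ≤ κ * M :=
    (ContinuousLinearMap.opNorm_comp_le _ _).trans (mul_le_mul hK hL (norm_nonneg _) hκ)
  have hT : ‖K ∘L mulL V‖ ≤ 1 / 2 := hKL.trans hκM
  set u : HS := (Ring.inverse (1 - K ∘L mulL V)) (eH r ξ) with hu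
  have hf : u = eH r ξ + K (mulL V u) := ExpE_fix hT
  have hb : ∀ g : HS, ‖K (mulL V g)‖ ≤ κ * M * ‖g‖ := fun g =>
    ((K ∘L mulL V).le_opNorm g).trans (mul_le_mul_of_nonneg_right hKL (norm_nonneg _))
  have he := norm_eH_le r ξ
  have hun : ‖u‖ ≤ 2 * ‖oneB r‖ := by
    have h3 : ‖u‖ ≤ ‖eH r ξ‖ + ‖K (mulL V u)‖ := by
      have := norm_add_le (eH r ξ) (K (mulL V u))
      rwa [← hf] at this
    have h4 := hb u
    have h5 : κ * M * ‖u‖ ≤ 1 / 2 * ‖u‖ := mul_le_mul_of_nonneg_right hκM (norm_nonneg _)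
    linarith
  have hκM0 : 0 ≤ κ * M := mul_nonneg hκ hM
  have hv : ‖K (mulL V u)‖ ≤ 2 * (κ * M) * ‖oneB r‖ := by
    refine (hb u).trans ?_
    have := mul_le_mul_of_nonneg_left hun hκM0
    linarith
  refine ⟨K (mulL V u), hf, hv, K (mulL V (K (mulL V u))), ?_, ?_⟩
  · have h1 : mulL V u = mulL V (eH r ξ) + mulL V (K (mulL V u)) := by
      have h2 := congrArg (fun f => mulL V f) hf
      have h3 : mulL V (eH r ξ + K (mulL V u)) = mulL V (eH r ξ) + mulL V (K (mulL V u)) :=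
        map_add _ _ _
      exact h2.trans h3
    have h4 := congrArg (fun f => K f) h1
    have h5 : K (mulL V (eH r ξ) + mulL V (K (mulL V u))) =
        K (mulL V (eH r ξ)) + K (mulL V (K (mulL V u))) := map_add _ _ _
    exact h4.trans h5
  · exact (hb _).trans (mul_le_mul_of_nonneg_left hv hκM0)

theorem expE {r M κ : ℝ} (hr : 0 ≤ r) {V₁ V₂ : E3 → ℂ} (hV₁ : IsPot r M V₁) (hV₂ : IsPot r M V₂)
    {K : HS →L[ℂ] HS} (hκ : 0 ≤ κ) (hK : ‖K‖ ≤ κ) (hκM : κ * M ≤ 1 / 2) {ξ : E3}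
    (h0 : A3 (dH r (fun x => V₁ x - V₂ x))
      ((Ring.inverse (1 - K ∘L mulL V₁)) (eH r ξ))
      ((Ring.inverse (1 - K ∘L mulL V₂)) (eH r ξ)) = 0) :
    ‖ftX (dH r (fun x => V₁ x - V₂ x)) (-(2 : ℝ) • ξ)‖ ≤
      ‖A3 (dH r (fun x => V₁ x - V₂ x)) (eH r ξ) (K (mulL V₁ (eH r ξ)))‖ +
      ‖A3 (dH r (fun x => V₁ x - V₂ x)) (eH r ξ) (K (mulL V₂ (eH r ξ)))‖ +
      16 * M ^ 3 * ‖oneB r‖ ^ 2 * κ ^ 2 := by
  have hM : 0 ≤ M := hV₁.nonneg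
  have hD : IsPot r (M + M) (fun x => V₁ x - V₂ x) := hV₁.sub hV₂
  set W : HS := dH r (fun x => V₁ x - V₂ x) with hWd
  have hWb : Bd (M + M) W := by
    have h := dH_coe hD
    rw [← hWd] at h
    unfold Bd
    filter_upwards [h] with x hx
    rw [hx]
    exact hD.bounded x
  have hMM : 0 ≤ M + M := by linarith
  have hWn : ‖W‖ ≤ (M + M) * ‖oneB r‖ := norm_dH_le hD
  have hee : A3 W (eH r ξ) (eH r ξ) = ftX W (-(2 : ℝ) • ξ) := A3_ee (dH_mem hD) ξ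
  obtain ⟨v₁, hu₁, hv₁, w₁, hvw₁, hw₁⟩ := ExpE_one (ξ := ξ) hV₁ hκ hK hκM
  obtain ⟨v₂, hu₂, hv₂, w₂, hvw₂, hw₂⟩ := ExpE_one (ξ := ξ) hV₂ hκ hK hκM
  rw [hu₁, hu₂, ExpE_add_right hWb, ExpE_comm W (eH r ξ + v₁) (eH r ξ),
    ExpE_comm W (eH r ξ + v₁) v₂, ExpE_add_right hWb, ExpE_add_right hWb, hee] at h0
  have e1 : A3 W (eH r ξ) v₁ = A3 W (eH r ξ) (K (mulL V₁ (eH r ξ))) + A3 W (eH r ξ) w₁ := by
    rw [hvw₁, ExpE_add_right hWb]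
  have e2 : A3 W v₂ (eH r ξ) = A3 W (eH r ξ) (K (mulL V₂ (eH r ξ))) + A3 W (eH r ξ) w₂ := by
    rw [ExpE_comm, hvw₂, ExpE_add_right hWb]
  rw [e1, e2] at h0
  have n0 : 0 ≤ ‖oneB r‖ := norm_nonneg _
  have hκM0 : 0 ≤ κ * M := mul_nonneg hκ hM
  have hE := eH_Bd r ξ
  have b : ∀ w : HS, ‖w‖ ≤ κ * M * (2 * (κ * M) * ‖oneB r‖) →
      ‖A3 W (eH r ξ) w‖ ≤ 4 * M ^ 3 * ‖oneB r‖ ^ 2 * κ ^ 2 := by
    intro w hw
    refine (A3_norm zero_le_one hE).trans ?_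
    calc 1 * ‖W‖ * ‖w‖ ≤ 1 * ((M + M) * ‖oneB r‖) * (κ * M * (2 * (κ * M) * ‖oneB r‖)) := by
          refine mul_le_mul ?_ hw (norm_nonneg _) (by positivity)
          linarith
      _ = 4 * M ^ 3 * ‖oneB r‖ ^ 2 * κ ^ 2 := by ring
  have b1 := b w₁ hw₁
  have b2 := b w₂ hw₂
  have b3 : ‖A3 W v₂ v₁‖ ≤ 8 * M ^ 3 * ‖oneB r‖ ^ 2 * κ ^ 2 := by
    refine (ExpE_norm hMM hWb).trans ?_
    calc (M + M) * ‖v₂‖ * ‖v₁‖ ≤
        (M + M) * (2 * (κ * M) * ‖oneB r‖) * (2 * (κ * M) * ‖oneB r‖) := by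
          refine mul_le_mul ?_ hv₁ (norm_nonneg _) (by positivity)
          exact mul_le_mul_of_nonneg_left hv₂ hMM
      _ = 8 * M ^ 3 * ‖oneB r‖ ^ 2 * κ ^ 2 := by ring
  have h5 : ftX W (-(2 : ℝ) • ξ) = -(A3 W (eH r ξ) (K (mulL V₁ (eH r ξ))) +
      A3 W (eH r ξ) (K (mulL V₂ (eH r ξ))) + (A3 W (eH r ξ) w₁ + A3 W (eH r ξ) w₂ +
      A3 W v₂ v₁)) := by
    linear_combination h0
  rw [h5, norm_neg]
  have t1 := norm_add_le (A3 W (eH r ξ) (K (mulL V₁ (eH r ξ))) +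
    A3 W (eH r ξ) (K (mulL V₂ (eH r ξ)))) (A3 W (eH r ξ) w₁ + A3 W (eH r ξ) w₂ + A3 W v₂ v₁)
  have t2 := norm_add_le (A3 W (eH r ξ) (K (mulL V₁ (eH r ξ))))
    (A3 W (eH r ξ) (K (mulL V₂ (eH r ξ))))
  have t3 := norm_add₃_le (a := A3 W (eH r ξ) w₁) (b := A3 W (eH r ξ) w₂) (c := A3 W v₂ v₁)
  linarith

end FracScatC

end
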