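import Pool.Agent.Lib.MP_6e2ba5_an.Ex.ContN
import Pool.Agent.Lib.MP_6e2ba5_an.Cx.Ident

/-! # Equal data: the pairing on the negative axis vanishes

`eH_eq_ev_neg`: `planeWave (km ξ) (-(‖ξ‖⁻¹ • ξ)) x = efun ξ x` for `ξ ≠ 0` (compare `planeWave_eq`,
`Cx/XDefs.lean`). `UN_fix`: as `UX_fix`. `identN`: with `u_j = UN s r V_j ξ = e + K (V_j u_j)`,
`K = Mop s r (km ξ)` symmetric (`Mop_symm`, `rsE_BM2`, `km_mem_Sec2`), `G_j = ∫ e V_j u_j`: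
`∫ V₁u₁u₂ = ∫ V₁u₁ (e + K V₂u₂)`, `∫ V₂u₂u₁ = ∫ V₂u₂ (e + K V₁u₁)`, the difference is
`G₁ - G₂ = ∫ (V₁-V₂) u₁ u₂` (copy the proof of `ident`, `Cx/Ident.lean`).
`vanishN`: choose `k = 2π‖ξ‖ > K`, `θ = -ξ/‖ξ‖`; `data_real` (`Cx/Main.lean`) and `contN`. -/

set_option autoImplicit false

open MeasureTheory Filter Topology Set
open scoped FourierTransform SchwartzMap InnerProductSpace ENNReal BoundedContinuousFunction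

noncomputable section

namespace FracScatC

open FracScat

private theorem IN_planeWave {ξ : E3} (hξ : ξ ≠ 0) (x : E3) :
    planeWave (km ξ) (-(‖ξ‖⁻¹ • ξ)) x = efun ξ x := by
  have hn : ‖ξ‖ ≠ 0 := norm_ne_zero_iff.mpr hξ
  unfold planeWave efun km
  congr 1
  rw [inner_neg_left, real_inner_smul_left]
  have : Complex.I * ((-(2 * Real.pi * ‖ξ‖) : ℝ) : ℂ) * ((-(‖ξ‖⁻¹ * ⟪ξ, x⟫_ℝ) : ℝ) : ℂ) =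
      ((2 * Real.pi * ‖ξ‖ * (‖ξ‖⁻¹ * ⟪ξ, x⟫_ℝ) : ℝ) : ℂ) * Complex.I := by
    push_cast
    ring
  rw [this]
  congr 2
  field_simp

theorem eH_eq_ev_neg (r : ℝ) {ξ : E3} (hξ : ξ ≠ 0) :
    eH r ξ = ev r (-(‖ξ‖⁻¹ • ξ)) (km ξ) := by
  apply Lp.ext
  filter_upwards [eH_coe r ξ, ev_coe r (-(‖ξ‖⁻¹ • ξ)) (km ξ)] with x a b
  rw [a, b, IN_planeWave hξ, mul_comm]

theorem UN_fix {s r : ℝ} {V : E3 → ℂ} {ξ : E3} (hT : ‖Tm s r V (km ξ)‖ ≤ 1 / 2) :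
    UN s r V ξ = eH r ξ + Mop s r (km ξ) (mulL V (UN s r V ξ)) := by
  have hu : IsUnit (1 - Tm s r V (km ξ)) :=
    isUnit_one_sub_of_norm_lt_one (lt_of_le_of_lt hT (by norm_num))
  have h1 := Ring.mul_inverse_cancel _ hu
  have h2 : (1 - Tm s r V (km ξ)) (UN s r V ξ) = eH r ξ := by
    have h3 := congrArg (fun A : HS →L[ℂ] HS => A (eH r ξ)) h1
    exact h3
  have h4 : UN s r V ξ - Mop s r (km ξ) (mulL V (UN s r V ξ)) = eH r ξ := h2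
  rw [← h4]
  abel

theorem norm_UN_le {s r : ℝ} {V : E3 → ℂ} {ξ : E3} (hT : ‖Tm s r V (km ξ)‖ ≤ 1 / 2) :
    ‖UN s r V ξ‖ ≤ 2 * ‖oneB r‖ := by
  have h1 := UN_fix hT
  have h2 : ‖Mop s r (km ξ) (mulL V (UN s r V ξ))‖ ≤ 1 / 2 * ‖UN s r V ξ‖ :=
    ((Tm s r V (km ξ)).le_opNorm _).trans (mul_le_mul_of_nonneg_right hT (norm_nonneg _))
  have h3 : ‖UN s r V ξ‖ ≤ ‖eH r ξ‖ + ‖Mop s r (km ξ) (mulL V (UN s r V ξ))‖ := by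
    have := norm_add_le (eH r ξ) (Mop s r (km ξ) (mulL V (UN s r V ξ)))
    rwa [← h1] at this
  have h4 := norm_eH_le r ξ
  linarith

private theorem IN_add (f f' g : HS) :
    ∫ x, ((f + f' : HS) : E3 → ℂ) x * (g : E3 → ℂ) x =
      (∫ x, (f : E3 → ℂ) x * (g : E3 → ℂ) x) + ∫ x, (f' : E3 → ℂ) x * (g : E3 → ℂ) x := by
  rw [← integral_add (integrable_mul f g) (integrable_mul f' g)]
  refine integral_congr_ae ?_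
  filter_upwards [Lp.coeFn_add f f'] with x hx
  rw [hx, Pi.add_apply]
  ring

private theorem IN_comm (f g : HS) :
    ∫ x, (f : E3 → ℂ) x * (g : E3 → ℂ) x = ∫ x, (g : E3 → ℂ) x * (f : E3 → ℂ) x := by
  refine integral_congr_ae (Eventually.of_forall fun x => ?_)
  exact mul_comm _ _

theorem identN {s : ℝ} (h0 : 1 / 2 < s) (h1 : s < 1) {r M₁ M₂ : ℝ} {ξ : E3} (hξ : ξ ≠ 0)
    {V₁ V₂ : E3 → ℂ} (hV₁ : IsPot r M₁ V₁) (hV₂ : IsPot r M₂ V₂)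
    (hT₁ : ‖Tm s r V₁ (km ξ)‖ ≤ 1 / 2) (hT₂ : ‖Tm s r V₂ (km ξ)‖ ≤ 1 / 2) :
    A3 (dH r (fun x => V₁ x - V₂ x)) (UN s r V₁ ξ) (UN s r V₂ ξ) =
      Gfun s r V₁ (-(‖ξ‖⁻¹ • ξ)) (km ξ) - Gfun s r V₂ (-(‖ξ‖⁻¹ • ξ)) (km ξ) := by
  have f1 : Gfun s r V₁ (-(‖ξ‖⁻¹ • ξ)) (km ξ) =
      ∫ x, (eH r ξ : E3 → ℂ) x * (mulL V₁ (UN s r V₁ ξ) : E3 → ℂ) x := by
    rw [Gfun, UN, eH_eq_ev_neg r hξ]
  have f2 : Gfun s r V₂ (-(‖ξ‖⁻¹ • ξ)) (km ξ) =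
      ∫ x, (eH r ξ : E3 → ℂ) x * (mulL V₂ (UN s r V₂ ξ) : E3 → ℂ) x := by
    rw [Gfun, UN, eH_eq_ev_neg r hξ]
  have g1 := IN_add (eH r ξ) (Mop s r (km ξ) (mulL V₂ (UN s r V₂ ξ)))
    (mulL V₁ (UN s r V₁ ξ))
  rw [← UN_fix hT₂] at g1
  have g2 := IN_add (eH r ξ) (Mop s r (km ξ) (mulL V₁ (UN s r V₁ ξ)))
    (mulL V₂ (UN s r V₂ ξ))
  rw [← UN_fix hT₁] at g2
  have g3 : (∫ x, (Mop s r (km ξ) (mulL V₂ (UN s r V₂ ξ)) : E3 → ℂ) x *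
      (mulL V₁ (UN s r V₁ ξ) : E3 → ℂ) x) =
      ∫ x, (Mop s r (km ξ) (mulL V₁ (UN s r V₁ ξ)) : E3 → ℂ) x *
      (mulL V₂ (UN s r V₂ ξ) : E3 → ℂ) x := by
    rw [Mop_symm r (rsE_BM2 h0 h1 (km_mem_Sec2 hξ)), IN_comm]
  have g4 : A3 (dH r (fun x => V₁ x - V₂ x)) (UN s r V₁ ξ) (UN s r V₂ ξ) =
      (∫ x, (UN s r V₂ ξ : E3 → ℂ) x * (mulL V₁ (UN s r V₁ ξ) : E3 → ℂ) x) -
      ∫ x, (UN s r V₁ ξ : E3 → ℂ) x * (mulL V₂ (UN s r V₂ ξ) : E3 → ℂ) x := by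
    rw [← integral_sub (integrable_mul _ _) (integrable_mul _ _)]
    unfold A3
    refine integral_congr_ae ?_
    filter_upwards [dH_coe (hV₁.sub hV₂), mulL_coe hV₁.BM (UN s r V₁ ξ),
      mulL_coe hV₂.BM (UN s r V₂ ξ)] with x a b c
    rw [a, b, c]
    ring
  rw [g4, f1, f2, g1, g2, g3]
  ring

theorem vanishN {s : ℝ} (h0 : 3 / 4 < s) (h1 : s < 1) {r M : ℝ} (hr : 0 < r) {V₁ V₂ : E3 → ℂ}
    (hV₁ : IsPot r M V₁) (hV₂ : IsPot r M V₂) {K : ℝ} (hK : 1 ≤ K)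
    (hT₁ : ∀ k ∈ Reg K, ‖Tk s r V₁ k‖ ≤ 1 / 2) (hT₂ : ∀ k ∈ Reg K, ‖Tk s r V₂ k‖ ≤ 1 / 2)
    (hM₁ : ∀ k ∈ Sec2, K ≤ ‖k‖ → ‖Tm s r V₁ k‖ ≤ 1 / 2)
    (hM₂ : ∀ k ∈ Sec2, K ≤ ‖k‖ → ‖Tm s r V₂ k‖ ≤ 1 / 2) {a b : ℝ} (ha : K ≤ a) (hab : a < b)
    (hd : ∀ k ∈ Ioo a b, ∀ θ : E3, ‖θ‖ = 1 → SameBackScattering s k V₁ V₂ θ) {ξ : E3}
    (hξ : K ≤ ‖ξ‖) :
    A3 (dH r (fun x => V₁ x - V₂ x)) (UN s r V₁ ξ) (UN s r V₂ ξ) = 0 := by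
  have hn : 0 < ‖ξ‖ := by linarith
  have hξ0 : ξ ≠ 0 := norm_pos_iff.1 hn
  have hpi := Real.pi_gt_three
  have hk : K < 2 * Real.pi * ‖ξ‖ := by nlinarith
  have hθ : ‖-(‖ξ‖⁻¹ • ξ)‖ = 1 := by
    rw [norm_neg, norm_smul, norm_inv, norm_norm, inv_mul_cancel₀ hn.ne']
  have hh : (1 : ℝ) / 2 < s := by linarith
  have hs := km_mem_Sec2 hξ0
  have hKn : K ≤ ‖km ξ‖ := by
    rw [norm_km]
    exact hk.le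
  rw [identN hh h1 hξ0 hV₁ hV₂ (hM₁ _ hs hKn) (hM₂ _ hs hKn), sub_eq_zero]
  exact contN h0 h1 hr hV₁ hV₂ (-(‖ξ‖⁻¹ • ξ)) hK hT₁ hT₂ hM₁ hM₂
    (fun k hk => data_real hh (by linarith) hr hV₁ hV₂ hθ hK hT₁ hT₂ ha hab
      (fun k hk => hd k hk _ hθ) k hk) (2 * Real.pi * ‖ξ‖) hk

end FracScatC

end
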