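import Pool.Agent.Lib.MP_6e2ba5_an.Ex.RepN
import Pool.Agent.Lib.MP_6e2ba5_an.Ex.IdentN
import Pool.Agent.Lib.MP_6e2ba5_an.Cx.Expand

/-! # Expansion on the negative axis

As `A3_expand` (`Cx/Expand.lean`), with `UN_fix`, `A3_ee`, `A3_eM`, `A3_MM`, `Mop_Bd`. -/

set_option autoImplicit false

open MeasureTheory Filter Topology Set
open scoped FourierTransform SchwartzMap InnerProductSpace ENNReal BoundedContinuousFunction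

noncomputable section

namespace FracScatC

open FracScat

theorem A3_expandN {s : ℝ} (h0 : 3 / 4 < s) (h1 : s < 1) {r : ℝ} {ξ : E3} (hξ : ξ ≠ 0) {W : HS}
    (hW : W ∈ HB r) {M₁ M₂ : ℝ} {V₁ V₂ : E3 → ℂ} (hV₁ : IsPot r M₁ V₁) (hV₂ : IsPot r M₂ V₂)
    (hT₁ : ‖Tm s r V₁ (km ξ)‖ ≤ 1 / 2) (hT₂ : ‖Tm s r V₂ (km ξ)‖ ≤ 1 / 2) :
    A3 W (UN s r V₁ ξ) (UN s r V₂ ξ) = ftX W (-(2 : ℝ) • ξ) + lam ξ (HfN s r V₁ ξ) (ftX W) +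
      lam ξ (HfN s r V₂ ξ) (ftX W) + bet (HfN s r V₁ ξ) (HfN s r V₂ ξ) (ftX W) := by
  have g1 : mulL (indB r) (mulL V₁ (UN s r V₁ ξ)) = mulL V₁ (UN s r V₁ ξ) := mulL_indB_of_pot hV₁ _
  have g2 : mulL (indB r) (mulL V₂ (UN s r V₂ ξ)) = mulL V₂ (UN s r V₂ ξ) := mulL_indB_of_pot hV₂ _
  have f1 := UN_fix hT₁
  have f2 := UN_fix hT₂
  have bE := eH_Bd r ξ
  have b1 := Mop_Bd h0 h1 r hξ g1
  have e1 : A3 W (UN s r V₁ ξ) (UN s r V₂ ξ) =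
      A3 W (eH r ξ + Mop s r (km ξ) (mulL V₁ (UN s r V₁ ξ)))
        (eH r ξ + Mop s r (km ξ) (mulL V₂ (UN s r V₂ ξ))) := by
    rw [← f1, ← f2]
  rw [e1, A3_add_left bE b1, A3_add_right bE, A3_add_right b1, A3_ee hW,
    A3_eM h0 h1 hξ hW g2, A3_comm W (Mop s r (km ξ) (mulL V₁ (UN s r V₁ ξ))) (eH r ξ),
    A3_eM h0 h1 hξ hW g1, A3_MM h0 h1 hξ hW g1 g2]
  unfold HfN
  ring

end FracScatC

end
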