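import Pool.Agent.Lib.MP_6e2ba5_an.Ex.Defs

/-! # A set with small symmetric differences is a null set

Let `E = {x | D x ∈ B}`, measurable. As `0 ∈ A`, every `b ∈ B` has `‖b‖ ≥ δ`, so `D x = 0` for `‖x‖ ≥ r`
gives `E ⊆ ball 0 r`, finite measure. For `h : E3` let `m h = volume (E \ {x | x + h ∈ E})`. For a.e. `x` in
this set `D x ∈ B` and `D (x+h) ∈ A` (`hAB` at `x` and at `x+h`, translation), so `‖D (x+h) - D x‖ ≥ δ`:
`δ² m h ≤ ∫⁻ ‖D (x+h) - D x‖ₑ² ≤ ofReal (C ‖h‖^α)` (Markov, `meas_ge_le_lintegral_div` or directly).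
Subadditivity: `E \ (E-(h+h')) ⊆ (E \ (E-h)) ∪ ((E-h) \ ((E-h)-h'))` and translation invariance give
`m (h+h') ≤ m h + m h'`, so `m (n • h) ≤ n · m h` and `m h ≤ n · m (h/n) ≤ δ^(-2) C ‖h‖^α n^(1-α) → 0`, as `α > 1`:
`m h = 0` for all `h`. For `‖h‖ ≥ 2r`, `E` and `E - h` are disjoint, so `volume E = m h = 0`. -/

set_option autoImplicit false

open MeasureTheory Filter Topology Set
open scoped FourierTransform SchwartzMap InnerProductSpace ENNReal BoundedContinuousFunction

noncomputable section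

namespace FracScatC

open FracScat

private def mE (E : Set E3) (h : E3) : ℝ≥0∞ := volume (E \ (fun x : E3 => x + h) ⁻¹' E)

private theorem mE_zero (E : Set E3) : mE E 0 = 0 := by
  unfold mE
  have : E \ (fun x : E3 => x + 0) ⁻¹' E = ∅ := by
    ext x; simp
  rw [this]; simp

private theorem mE_add (E : Set E3) (h h' : E3) : mE E (h + h') ≤ mE E h + mE E h' := by
  unfold mE
  have hsub : E \ (fun x : E3 => x + (h + h')) ⁻¹' E ⊆
      (E \ (fun x : E3 => x + h) ⁻¹' E) ∪
        (fun x : E3 => x + h) ⁻¹' (E \ (fun x : E3 => x + h') ⁻¹' E) := by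
    intro x hx
    obtain ⟨h1, h2⟩ := hx
    by_cases h3 : x + h ∈ E
    · right
      refine ⟨h3, fun h4 => h2 ?_⟩
      have : x + h + h' = x + (h + h') := by abel
      simpa [this] using h4
    · left
      exact ⟨h1, h3⟩
  refine (measure_mono hsub).trans ((measure_union_le _ _).trans ?_)
  rw [measure_preimage_add_right]

private theorem mE_nsmul (E : Set E3) (h : E3) (n : ℕ) : mE E (n • h) ≤ n * mE E h := by
  induction n with
  | zero => simp [mE_zero]
  | succ n ih =>
    rw [succ_nsmul]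
    refine (mE_add E _ _).trans ?_
    push_cast
    rw [add_mul, one_mul]
    gcongr

theorem measE {r M : ℝ} {D : E3 → ℂ} (hD : IsPot r M D) {α C : ℝ} (hα : 1 < α) (hC : 0 ≤ C)
    (h : ∀ h : E3, ∫⁻ x, ‖D (x + h) - D x‖ₑ ^ 2 ≤ ENNReal.ofReal (C * ‖h‖ ^ α))
    {A B : Set ℂ} (hA : MeasurableSet A) (hB : MeasurableSet B) (hA0 : (0 : ℂ) ∈ A) {δ : ℝ}
    (hδ : 0 < δ) (hAB : ∀ a ∈ A, ∀ b ∈ B, δ ≤ ‖a - b‖) (hcov : ∀ᵐ x ∂(volume : Measure E3),
      D x ∈ A ∪ B) : ∀ᵐ x ∂(volume : Measure E3), D x ∉ B := by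
  set E : Set E3 := D ⁻¹' B with hE
  have hEm : MeasurableSet E := hD.measurable hB
  -- norm bound on E
  have hEr : ∀ x ∈ E, ‖x‖ < r := by
    intro x hx
    by_contra hlt
    have h0 := hD.vanish x (not_lt.mp hlt)
    have h1 := hAB 0 hA0 (D x) hx
    rw [h0] at h1
    simp at h1
    linarith
  -- Markov
  have hmar : ∀ v : E3, ENNReal.ofReal (δ ^ 2) * mE E v ≤ ENNReal.ofReal (C * ‖v‖ ^ α) := by
    intro v
    refine le_trans ?_ (h v)
    have hSm : MeasurableSet (E \ (fun x : E3 => x + v) ⁻¹' E) :=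
      hEm.diff ((measurable_add_const v) hEm)
    unfold mE
    rw [← lintegral_indicator_const hSm]
    refine lintegral_mono_ae ?_
    have hcov2 : ∀ᵐ x ∂(volume : Measure E3), D (x + v) ∈ A ∪ B := by
      have hq : Measure.QuasiMeasurePreserving (fun x : E3 => x + v) volume volume :=
        (measurePreserving_add_right volume v).quasiMeasurePreserving
      exact hq.ae hcov
    filter_upwards [hcov2] with x hx
    by_cases hxS : x ∈ E \ (fun x : E3 => x + v) ⁻¹' E
    · rw [indicator_of_mem hxS]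
      have hb : D x ∈ B := hxS.1
      have hnb : D (x + v) ∉ B := hxS.2
      have ha : D (x + v) ∈ A := hx.resolve_right hnb
      have h1 := hAB _ ha _ hb
      have h2 : ENNReal.ofReal (δ ^ 2) ≤ ENNReal.ofReal (‖D (x + v) - D x‖ ^ 2) :=
        ENNReal.ofReal_le_ofReal (by gcongr)
      rwa [ENNReal.ofReal_pow (norm_nonneg _), ofReal_norm] at h2
    · rw [indicator_of_notMem hxS]; exact zero_le
  have hδ2 : ENNReal.ofReal (δ ^ 2) ≠ 0 := by
    simp only [ne_eq, ENNReal.ofReal_eq_zero, not_le]; positivity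
  have hδ3 : ENNReal.ofReal (δ ^ 2) ≠ ⊤ := ENNReal.ofReal_ne_top
  -- m = 0
  have hm0 : ∀ v : E3, mE E v = 0 := by
    intro v
    have hb : ∀ n : ℕ, ENNReal.ofReal (δ ^ 2) * mE E v ≤
        ENNReal.ofReal (C * ‖v‖ ^ α * ((n : ℝ) + 1) ^ (1 - α)) := by
      intro n
      have hn : (0 : ℝ) < (n : ℝ) + 1 := by positivity
      have hv : v = (n + 1) • (((n : ℝ) + 1)⁻¹ • v) := by
        rw [← Nat.cast_smul_eq_nsmul ℝ, smul_smul]
        push_cast
        rw [mul_inv_cancel₀ hn.ne', one_smul]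
      have h1 : mE E v ≤ ((n + 1 : ℕ) : ℝ≥0∞) * mE E (((n : ℝ) + 1)⁻¹ • v) := by
        conv_lhs => rw [hv]
        exact mE_nsmul E _ (n + 1)
      calc ENNReal.ofReal (δ ^ 2) * mE E v
          ≤ ENNReal.ofReal (δ ^ 2) * (((n + 1 : ℕ) : ℝ≥0∞) * mE E (((n : ℝ) + 1)⁻¹ • v)) := by
            gcongr
        _ = ((n + 1 : ℕ) : ℝ≥0∞) * (ENNReal.ofReal (δ ^ 2) * mE E (((n : ℝ) + 1)⁻¹ • v)) := by
            ring
        _ ≤ ((n + 1 : ℕ) : ℝ≥0∞) * ENNReal.ofReal (C * ‖((n : ℝ) + 1)⁻¹ • v‖ ^ α) := by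
            gcongr
            exact hmar _
        _ = ENNReal.ofReal (C * ‖v‖ ^ α * ((n : ℝ) + 1) ^ (1 - α)) := by
            rw [← ENNReal.ofReal_natCast, ← ENNReal.ofReal_mul (by positivity)]
            congr 1
            rw [norm_smul, Real.norm_of_nonneg (by positivity : (0 : ℝ) ≤ ((n : ℝ) + 1)⁻¹),
              Real.mul_rpow (by positivity) (norm_nonneg _), Real.inv_rpow hn.le,
              Real.rpow_sub hn, Real.rpow_one]
            push_cast
            field_simp
    have ht : Tendsto (fun n : ℕ => ENNReal.ofReal (C * ‖v‖ ^ α * ((n : ℝ) + 1) ^ (1 - α)))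
        atTop (𝓝 (ENNReal.ofReal (C * ‖v‖ ^ α * 0))) := by
      refine ENNReal.tendsto_ofReal (Tendsto.const_mul _ ?_)
      have h1 : Tendsto (fun x : ℝ => x ^ (-(α - 1))) atTop (𝓝 0) :=
        tendsto_rpow_neg_atTop (by linarith)
      have h2 : Tendsto (fun n : ℕ => (n : ℝ) + 1) atTop atTop :=
        tendsto_atTop_add_const_right _ _ tendsto_natCast_atTop_atTop
      have h3 := h1.comp h2
      refine h3.congr fun n => ?_
      simp only [Function.comp]
      congr 1; ring
    rw [mul_zero, ENNReal.ofReal_zero] at ht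
    have h4 : ENNReal.ofReal (δ ^ 2) * mE E v ≤ 0 := ge_of_tendsto' ht hb
    have h5 : ENNReal.ofReal (δ ^ 2) * mE E v = 0 := le_antisymm h4 zero_le
    exact (mul_eq_zero.mp h5).resolve_left hδ2
  -- E is null
  have hE0 : volume E = 0 := by
    set v : E3 := EuclideanSpace.single 0 (2 * |r| + 1) with hv
    have hvn : ‖v‖ = 2 * |r| + 1 := by
      rw [hv, EuclideanSpace.norm_single, Real.norm_of_nonneg (by positivity)]
    have hdis : E \ (fun x : E3 => x + v) ⁻¹' E = E := by
      ext x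
      constructor
      · exact fun hx => hx.1
      · intro hx
        refine ⟨hx, fun hx2 => ?_⟩
        have h1 := hEr x hx
        have h2 : ‖x + v‖ < r := hEr _ hx2
        have h3 : ‖v‖ ≤ ‖x + v‖ + ‖x‖ := by
          have := norm_sub_le (x + v) x
          simpa using this
        have h4 := le_abs_self r
        rw [hvn] at h3
        have h5 : 0 ≤ |r| := abs_nonneg r
        linarith
    have := hm0 v
    unfold mE at this
    rwa [hdis] at this
  exact measure_eq_zero_iff_ae_notMem.mp hE0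

end FracScatC

end
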