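import Pool.Agent.Lib.MP_6e2ba5_an.Ex.ModulN
import Pool.Agent.Lib.MP_6e2ba5_an.Ex.Defs

/-! # The quadratic term with a symbol which does not depend on `ξ`

Let `g = mulL V (eH r ξ)`, a.e. `g(y) = V(y) efun ξ y` (`mulL_eH`, `dH_coe`; it vanishes for `‖y‖ ≥ r`). By
`multL_conv` the quadratic term is
`A(ξ) = ∫ W(x) efun ξ x ∫ k(z) V(x-z) efun ξ (x-z) dz dx` (the ball cut offs are harmless as
`W = V = 0` outside the ball). Substitute `w = 2x - z` for fixed `x` (so `x - z = w - x`):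
`A(ξ) = ∫ efun ξ w Φ(w) dw`, `Φ(w) = ∫ W(x) V(w-x) k(2x-w) dx`. Fubini: `W(x) V(x-z) k(z)` is integrable on
`E3 × E3`, as `k ∈ L²` is integrable on the ball `‖z‖ < 2r`, to which `z` is restricted (`‖x‖, ‖x-z‖ < r`).
So `A(ξ) = 𝓕 Φ (-ξ)` is continuous (`Φ ∈ L¹`), and `Φ ∈ L²`: Cauchy-Schwarz
`|Φ(w)|² ≤ (∫ |W(x)|² ‖2x-w‖² |k(2x-w)|² 1_{‖2x-w‖<2r} dx) (∫ |V(w-x)|² ‖2x-w‖⁻² 1_{‖2x-w‖<2r} dx)`; the second
factor is `≤ M² (1/8) ∫_{‖z‖<2r} ‖z‖⁻² dz = M² π r` (finite: `‖z‖^(-2)` is locally integrable on `E3`; any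
constant depending on `M, r` will do), and the integral over `w` of the first is
`(∫|W|²) ∫_{‖z‖<2r} ‖z‖² |k(z)|² dz`. Plancherel: `∫ |𝓕 Φ|² = ∫ |Φ|²` (`FT_coe_of_integrable` and the isometry
`FT` for the `L²` class of `Φ`, `ftX_sq`-like). If the integral on the right is infinite there is nothing
to prove for the last part. -/

set_option autoImplicit false

open MeasureTheory Filter Topology Set
open scoped FourierTransform SchwartzMap InnerProductSpace ENNReal BoundedContinuousFunction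

noncomputable section

namespace FracScatC

open FracScat

private theorem FN_cs {f g : E3 → ℝ≥0∞} (hf : Measurable f) (hg : Measurable g) :
    (∫⁻ x, f x * g x) ^ 2 ≤ (∫⁻ x, f x ^ 2) * ∫⁻ x, g x ^ 2 := by
  have h := ENNReal.lintegral_mul_le_Lp_mul_Lq (volume : Measure E3)
    Real.HolderConjugate.two_two hf.aemeasurable hg.aemeasurable
  simp only [Pi.mul_apply, ENNReal.rpow_two] at h
  calc (∫⁻ x, f x * g x) ^ 2
      ≤ ((∫⁻ a, f a ^ 2) ^ (1 / 2 : ℝ) * (∫⁻ a, g a ^ 2) ^ (1 / 2 : ℝ)) ^ 2 := by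
        gcongr
    _ = _ := by
        rw [mul_pow, ← ENNReal.rpow_natCast, ← ENNReal.rpow_natCast, ← ENNReal.rpow_mul,
          ← ENNReal.rpow_mul]
        norm_num

private theorem FN_norm (f : HS) : ∫⁻ x, ‖(f : E3 → ℂ) x‖ₑ ^ 2 = ‖f‖ₑ ^ 2 := by
  rw [Lp.enorm_def, eLpNorm_eq_lintegral_rpow_enorm_toReal (by norm_num) (by norm_num)]
  simp only [ENNReal.toReal_ofNat, ENNReal.rpow_two]
  rw [← ENNReal.rpow_natCast, ← ENNReal.rpow_mul]
  norm_num

private theorem FN_ball (R : ℝ) :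
    ∫⁻ z in Metric.ball (0 : E3) R, ENNReal.ofReal ((‖z‖ ^ 2)⁻¹) ≠ ⊤ := by
  have h : IntegrableOn (fun x : E3 => (fun y : ℝ => (y ^ 2)⁻¹) ‖x‖) (Metric.ball (0 : E3) R)
      volume := by
    refine (integrableOn_fun_norm_addHaar (volume : Measure E3)
      (f := fun y : ℝ => (y ^ 2)⁻¹) (r := R)).2 ?_
    have hd : Module.finrank ℝ E3 - 1 = 2 := by simp [E3]
    rw [hd]
    have h1 : IntegrableOn (fun _ : ℝ => (1 : ℝ)) (Ioo 0 R) volume :=
      integrableOn_const (by simp) (by simp)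
    refine h1.congr_fun ?_ measurableSet_Ioo
    intro y hy
    have hy0 : y ≠ 0 := ne_of_gt hy.1
    simp only [smul_eq_mul]
    rw [mul_inv_cancel₀ (pow_ne_zero 2 hy0)]
  have h2 := h.lintegral_lt_top
  exact h2.ne

private theorem FN_scale {f : E3 → ℝ≥0∞} (hf : Measurable f) (w : E3) :
    ∫⁻ x, f ((2 : ℝ) • x - w) =
      ENNReal.ofReal (abs ((2 : ℝ) ^ (Module.finrank ℝ E3))⁻¹) * ∫⁻ x, f x := by
  have h1 : ∫⁻ x, f ((2 : ℝ) • x - w) =
      ∫⁻ y, f (y - w) ∂(Measure.map ((2 : ℝ) • ·) (volume : Measure E3)) := by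
    have hm : Measurable fun y : E3 => f (y - w) := hf.comp (measurable_id.sub_const w)
    rw [lintegral_map hm (measurable_const_smul (2 : ℝ))]
  rw [h1, Measure.map_addHaar_smul (volume : Measure E3) (two_ne_zero), lintegral_smul_measure,
    lintegral_sub_right_eq_self f w]
  rfl

private theorem FN_pot_le {r M : ℝ} {V : E3 → ℂ} (hV : IsPot r M V) (x : E3) :
    ‖V x‖ₑ ≤ ENNReal.ofReal M := by
  rw [← ofReal_norm]
  exact ENNReal.ofReal_le_ofReal (hV.bounded x)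

private theorem FN_pot_pow {r M : ℝ} {V : E3 → ℂ} (hV : IsPot r M V) {n : ℕ} (hn : n ≠ 0) :
    ∫⁻ x, ‖V x‖ₑ ^ n ≤ ENNReal.ofReal M ^ n * volume (Metric.ball (0 : E3) r) := by
  calc ∫⁻ x, ‖V x‖ₑ ^ n
      ≤ ∫⁻ x, (Metric.ball (0 : E3) r).indicator (fun _ => ENNReal.ofReal M ^ n) x := by
        refine lintegral_mono fun x => ?_
        by_cases hx : x ∈ Metric.ball (0 : E3) r
        · rw [indicator_of_mem hx]
          exact pow_le_pow_left' (FN_pot_le hV x) n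
        · rw [indicator_of_notMem hx, hV.vanish x (by simpa using hx)]
          simp [hn]
    _ = _ := by
        rw [lintegral_indicator measurableSet_ball, setLIntegral_const]

private theorem FN_pot_top {r M : ℝ} (n : ℕ) :
    ENNReal.ofReal M ^ n * volume (Metric.ball (0 : E3) r) ≠ ⊤ :=
  ENNReal.mul_ne_top (ENNReal.pow_ne_top ENNReal.ofReal_ne_top) measure_ball_lt_top.ne

/-- The kernel. -/
private def FN_F (W V : E3 → ℂ) (k : E3 → ℂ) (x w : E3) : ℂ :=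
  W x * (V (w - x) * k ((2 : ℝ) • x - w))

private theorem FN_F_meas {W V k : E3 → ℂ} (hW : Measurable W) (hV : Measurable V)
    (hk : Measurable k) : Measurable (fun p : E3 × E3 => FN_F W V k p.1 p.2) := by
  unfold FN_F
  have h1 : Measurable fun p : E3 × E3 => p.2 - p.1 := measurable_snd.sub measurable_fst
  have h2 : Measurable fun p : E3 × E3 => (2 : ℝ) • p.1 - p.2 :=
    (measurable_fst.const_smul (2 : ℝ)).sub measurable_snd
  exact (hW.comp measurable_fst).mul ((hV.comp h1).mul (hk.comp h2))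

private theorem FN_mul_le (a b : ℝ≥0∞) : a * b ≤ a ^ 2 + b ^ 2 := by
  rcases le_total a b with h | h
  · calc a * b ≤ b * b := by gcongr
      _ = b ^ 2 := (sq b).symm
      _ ≤ _ := le_add_self
  · calc a * b ≤ a * a := by gcongr
      _ = a ^ 2 := (sq a).symm
      _ ≤ _ := le_self_add

private theorem FN_F_int {r M : ℝ} {W V k : E3 → ℂ} (hW : IsPot r M W) (hV : IsPot r M V)
    (hk : Measurable k) (hk2 : ∫⁻ x, ‖k x‖ₑ ^ 2 ≠ ⊤) :
    Integrable (fun p : E3 × E3 => FN_F W V k p.1 p.2)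
      ((volume : Measure E3).prod (volume : Measure E3)) := by
  have hm := FN_F_meas hW.measurable hV.measurable hk
  refine ⟨hm.aestronglyMeasurable, ?_⟩
  rw [HasFiniteIntegral, lintegral_prod _ hm.enorm.aemeasurable]
  have hb : ∀ x : E3, ∫⁻ w, ‖FN_F W V k x w‖ₑ ≤
      ‖W x‖ₑ * ((∫⁻ z, ‖V z‖ₑ ^ 2) + ∫⁻ z, ‖k z‖ₑ ^ 2) := by
    intro x
    have e1 : ∀ w : E3, ‖FN_F W V k x w‖ₑ ≤
        ‖W x‖ₑ * (‖V (w - x)‖ₑ ^ 2 + ‖k ((2 : ℝ) • x - w)‖ₑ ^ 2) := by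
      intro w
      rw [FN_F, enorm_mul, enorm_mul]
      gcongr
      exact FN_mul_le _ _
    refine (lintegral_mono e1).trans ?_
    have m1 : Measurable fun w : E3 => ‖V (w - x)‖ₑ ^ 2 :=
      (hV.measurable.comp (measurable_id.sub_const x)).enorm.pow_const 2
    have m2 : Measurable fun w : E3 => ‖k ((2 : ℝ) • x - w)‖ₑ ^ 2 :=
      (hk.comp (measurable_const.sub measurable_id)).enorm.pow_const 2
    have m3 : Measurable fun w : E3 => ‖V (w - x)‖ₑ ^ 2 + ‖k ((2 : ℝ) • x - w)‖ₑ ^ 2 := m1.add m2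
    rw [lintegral_const_mul _ m3, lintegral_add_left m1,
      lintegral_sub_right_eq_self (fun z => ‖V z‖ₑ ^ 2) x,
      lintegral_sub_left_eq_self (fun z => ‖k z‖ₑ ^ 2) ((2 : ℝ) • x)]
  refine (lintegral_mono hb).trans_lt ?_
  rw [lintegral_mul_const _ hW.measurable.enorm]
  have h1 : ∫⁻ x, ‖W x‖ₑ ≠ ⊤ := by
    have := FN_pot_pow hW (n := 1) one_ne_zero
    simp only [pow_one] at this
    refine ne_top_of_le_ne_top ?_ this
    simpa using FN_pot_top (r := r) (M := M) 1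
  have h2 : ∫⁻ z, ‖V z‖ₑ ^ 2 ≠ ⊤ :=
    ne_top_of_le_ne_top (FN_pot_top (r := r) (M := M) 2) (FN_pot_pow hV two_ne_zero)
  exact ENNReal.mul_lt_top h1.lt_top (ENNReal.add_lt_top.2 ⟨h2.lt_top, hk2.lt_top⟩)

/-- The function `Φ`. -/
private def FN_Phi (W V k : E3 → ℂ) (w : E3) : ℂ := ∫ x, FN_F W V k x w

private theorem FN_Phi_le {r M : ℝ} {W V k : E3 → ℂ} (hW : IsPot r M W) (hV : IsPot r M V)
    (hk : Measurable k) (w : E3) :
    ‖FN_Phi W V k w‖ₑ ^ 2 ≤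
      (∫⁻ x, ‖W x‖ₑ ^ 2 * (Metric.ball (0 : E3) (2 * r)).indicator
        (fun z => ENNReal.ofReal (‖z‖ ^ 2) * ‖k z‖ₑ ^ 2) ((2 : ℝ) • x - w)) *
      (ENNReal.ofReal M ^ 2 * (ENNReal.ofReal (abs ((2 : ℝ) ^ (Module.finrank ℝ E3))⁻¹) *
        ∫⁻ z in Metric.ball (0 : E3) (2 * r), ENNReal.ofReal ((‖z‖ ^ 2)⁻¹))) := by
  set B : Set E3 := Metric.ball (0 : E3) (2 * r) with hB
  have hBm : MeasurableSet B := measurableSet_ball
  set a1 : E3 → ℝ≥0∞ := B.indicator (fun z => ENNReal.ofReal ‖z‖ * ‖k z‖ₑ) with ha1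
  set b1 : E3 → ℝ≥0∞ := B.indicator (fun z => ENNReal.ofReal (‖z‖⁻¹)) with hb1
  have ma : Measurable a1 := (measurable_norm.ennreal_ofReal.mul hk.enorm).indicator hBm
  have mb : Measurable b1 := measurable_norm.inv.ennreal_ofReal.indicator hBm
  have mT : Measurable fun x : E3 => (2 : ℝ) • x - w :=
    (measurable_id.const_smul (2 : ℝ)).sub_const w
  have h1 : ‖FN_Phi W V k w‖ₑ ≤ ∫⁻ x, ‖FN_F W V k x w‖ₑ := enorm_integral_le_lintegral_enorm _
  have hne : ∀ᵐ x ∂(volume : Measure E3), (2 : ℝ) • x - w ≠ 0 := by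
    have h0 : volume ({(2 : ℝ)⁻¹ • w} : Set E3) = 0 := measure_singleton _
    filter_upwards [measure_eq_zero_iff_ae_notMem.1 h0] with x hx hx2
    apply hx
    rw [mem_singleton_iff, ← sub_eq_zero.1 hx2, smul_smul]
    norm_num
  have h2 : ∫⁻ x, ‖FN_F W V k x w‖ₑ =
      ∫⁻ x, (‖W x‖ₑ * a1 ((2 : ℝ) • x - w)) * (‖V (w - x)‖ₑ * b1 ((2 : ℝ) • x - w)) := by
    refine lintegral_congr_ae ?_
    filter_upwards [hne] with x hx
    rw [FN_F, enorm_mul, enorm_mul]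
    by_cases hb : (2 : ℝ) • x - w ∈ B
    · rw [ha1, hb1, indicator_of_mem hb, indicator_of_mem hb]
      have hn : 0 < ‖(2 : ℝ) • x - w‖ := norm_pos_iff.2 hx
      have e : ENNReal.ofReal ‖(2 : ℝ) • x - w‖ * ENNReal.ofReal (‖(2 : ℝ) • x - w‖⁻¹) = 1 := by
        rw [← ENNReal.ofReal_mul hn.le, mul_inv_cancel₀ hn.ne', ENNReal.ofReal_one]
      calc ‖W x‖ₑ * (‖V (w - x)‖ₑ * ‖k ((2 : ℝ) • x - w)‖ₑ)
          = ‖W x‖ₑ * (‖V (w - x)‖ₑ * ‖k ((2 : ℝ) • x - w)‖ₑ) *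
            (ENNReal.ofReal ‖(2 : ℝ) • x - w‖ * ENNReal.ofReal (‖(2 : ℝ) • x - w‖⁻¹)) := by
              rw [e, mul_one]
        _ = _ := by ring
    · rw [ha1, hb1, indicator_of_notMem hb, indicator_of_notMem hb, mul_zero, mul_zero, mul_zero]
      have hor : W x = 0 ∨ V (w - x) = 0 := by
        by_contra hcon
        rw [not_or] at hcon
        have n1 : ‖x‖ < r := not_le.1 fun h => hcon.1 (hW.vanish x h)
        have n2 : ‖w - x‖ < r := not_le.1 fun h => hcon.2 (hV.vanish _ h)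
        apply hb
        rw [hB, mem_ball_zero_iff]
        have e : (2 : ℝ) • x - w = x - (w - x) := by
          rw [two_smul]; abel
        rw [e]
        have := norm_sub_le x (w - x)
        linarith
      rcases hor with h | h
      · rw [h]; simp
      · rw [h]; simp
  have mW : Measurable fun x : E3 => ‖W x‖ₑ * a1 ((2 : ℝ) • x - w) :=
    hW.measurable.enorm.mul (ma.comp mT)
  have mV : Measurable fun x : E3 => ‖V (w - x)‖ₑ * b1 ((2 : ℝ) • x - w) :=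
    (hV.measurable.comp (measurable_const.sub measurable_id)).enorm.mul (mb.comp mT)
  have h3 := FN_cs mW mV
  have h4 : ∫⁻ x, (‖W x‖ₑ * a1 ((2 : ℝ) • x - w)) ^ 2 =
      ∫⁻ x, ‖W x‖ₑ ^ 2 * B.indicator
        (fun z => ENNReal.ofReal (‖z‖ ^ 2) * ‖k z‖ₑ ^ 2) ((2 : ℝ) • x - w) := by
    refine lintegral_congr fun x => ?_
    rw [mul_pow]
    congr 1
    by_cases hb : (2 : ℝ) • x - w ∈ B
    · rw [ha1, indicator_of_mem hb, indicator_of_mem hb, mul_pow,
        ENNReal.ofReal_pow (norm_nonneg _)]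
    · rw [ha1, indicator_of_notMem hb, indicator_of_notMem hb]
      simp
  have h5 : ∫⁻ x, (‖V (w - x)‖ₑ * b1 ((2 : ℝ) • x - w)) ^ 2 ≤
      ENNReal.ofReal M ^ 2 * (ENNReal.ofReal (abs ((2 : ℝ) ^ (Module.finrank ℝ E3))⁻¹) *
        ∫⁻ z in B, ENNReal.ofReal ((‖z‖ ^ 2)⁻¹)) := by
    calc ∫⁻ x, (‖V (w - x)‖ₑ * b1 ((2 : ℝ) • x - w)) ^ 2
        ≤ ∫⁻ x, ENNReal.ofReal M ^ 2 * (fun z => b1 z ^ 2) ((2 : ℝ) • x - w) := by
          refine lintegral_mono fun x => ?_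
          rw [mul_pow]
          gcongr
          exact FN_pot_le hV _
      _ = ENNReal.ofReal M ^ 2 * ∫⁻ x, (fun z => b1 z ^ 2) ((2 : ℝ) • x - w) := by
          rw [lintegral_const_mul]
          exact (mb.pow_const 2).comp mT
      _ = ENNReal.ofReal M ^ 2 * (ENNReal.ofReal (abs ((2 : ℝ) ^ (Module.finrank ℝ E3))⁻¹) *
            ∫⁻ z, b1 z ^ 2) := by
          rw [FN_scale (mb.pow_const 2) w]
      _ = _ := by
          congr 2
          rw [← lintegral_indicator hBm]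
          refine lintegral_congr fun z => ?_
          by_cases hb : z ∈ B
          · rw [hb1, indicator_of_mem hb, indicator_of_mem hb,
              ← ENNReal.ofReal_pow (inv_nonneg.2 (norm_nonneg _)), inv_pow]
          · rw [hb1, indicator_of_notMem hb, indicator_of_notMem hb]
            simp
  calc ‖FN_Phi W V k w‖ₑ ^ 2 ≤ (∫⁻ x, ‖FN_F W V k x w‖ₑ) ^ 2 := by gcongr
    _ ≤ _ := by
        rw [h2]
        refine h3.trans ?_
        rw [h4]
        gcongr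

private theorem FN_Phi_sq {r M : ℝ} {W V k : E3 → ℂ} (hW : IsPot r M W) (hV : IsPot r M V)
    (hk : Measurable k) :
    ∫⁻ w, ‖FN_Phi W V k w‖ₑ ^ 2 ≤
      (ENNReal.ofReal M ^ 2 * volume (Metric.ball (0 : E3) r)) *
      (ENNReal.ofReal M ^ 2 * (ENNReal.ofReal (abs ((2 : ℝ) ^ (Module.finrank ℝ E3))⁻¹) *
        ∫⁻ z in Metric.ball (0 : E3) (2 * r), ENNReal.ofReal ((‖z‖ ^ 2)⁻¹))) *
      ∫⁻ z in Metric.ball (0 : E3) (2 * r), ENNReal.ofReal (‖z‖ ^ 2) * ‖k z‖ₑ ^ 2 := by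
  set B : Set E3 := Metric.ball (0 : E3) (2 * r) with hB
  have hBm : MeasurableSet B := measurableSet_ball
  set K2 : ℝ≥0∞ := (ENNReal.ofReal M ^ 2 *
    (ENNReal.ofReal (abs ((2 : ℝ) ^ (Module.finrank ℝ E3))⁻¹) *
        ∫⁻ z in B, ENNReal.ofReal ((‖z‖ ^ 2)⁻¹))) with hK2
  set a : E3 → ℝ≥0∞ := B.indicator (fun z => ENNReal.ofReal (‖z‖ ^ 2) * ‖k z‖ₑ ^ 2) with ha
  have ma : Measurable a :=
    ((measurable_norm.pow_const 2).ennreal_ofReal.mul (hk.enorm.pow_const 2)).indicator hBm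
  have hT : Measurable fun p : E3 × E3 => (2 : ℝ) • p.2 - p.1 :=
    (measurable_snd.const_smul (2 : ℝ)).sub measurable_fst
  have mJ : Measurable fun p : E3 × E3 => ‖W p.2‖ₑ ^ 2 * a ((2 : ℝ) • p.2 - p.1) :=
    ((hW.measurable.comp measurable_snd).enorm.pow_const 2).mul (ma.comp hT)
  calc ∫⁻ w, ‖FN_Phi W V k w‖ₑ ^ 2
      ≤ ∫⁻ w, (∫⁻ x, ‖W x‖ₑ ^ 2 * a ((2 : ℝ) • x - w)) * K2 :=
        lintegral_mono fun w => FN_Phi_le hW hV hk w
    _ = (∫⁻ w, ∫⁻ x, ‖W x‖ₑ ^ 2 * a ((2 : ℝ) • x - w)) * K2 :=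
        lintegral_mul_const _ mJ.lintegral_prod_right'
    _ = (∫⁻ x, ∫⁻ w, ‖W x‖ₑ ^ 2 * a ((2 : ℝ) • x - w)) * K2 := by
        rw [lintegral_lintegral_swap mJ.aemeasurable]
    _ = (∫⁻ x, ‖W x‖ₑ ^ 2 * ∫⁻ z, a z) * K2 := by
        congr 1
        refine lintegral_congr fun x => ?_
        have mx : Measurable fun w : E3 => a ((2 : ℝ) • x - w) :=
          ma.comp (measurable_const.sub measurable_id)
        rw [lintegral_const_mul _ mx, lintegral_sub_left_eq_self a ((2 : ℝ) • x)]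
    _ = (∫⁻ x, ‖W x‖ₑ ^ 2) * (∫⁻ z, a z) * K2 := by
        rw [lintegral_mul_const _ (hW.measurable.enorm.pow_const 2)]
    _ ≤ (ENNReal.ofReal M ^ 2 * volume (Metric.ball (0 : E3) r)) * (∫⁻ z, a z) * K2 := by
        gcongr
        exact FN_pot_pow hW two_ne_zero
    _ = _ := by
        rw [ha, lintegral_indicator hBm]
        ring

private theorem FN_ft (Φ : E3 → ℂ) (η : E3) : 𝓕 Φ η = ∫ x, efun (-η) x * Φ x := by
  rw [Real.fourier_eq']
  refine integral_congr_ae (Eventually.of_forall fun x => ?_)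
  beta_reduce
  unfold efun
  rw [smul_eq_mul, inner_neg_left, real_inner_comm]
  congr 3
  push_cast
  ring

private theorem FN_plancherel {Φ : E3 → ℂ} (h1 : Integrable Φ) (h2 : MemLp Φ 2 volume) :
    ∫⁻ ξ, ‖𝓕 Φ (-ξ)‖ₑ ^ 2 = ∫⁻ w, ‖Φ w‖ₑ ^ 2 := by
  rw [lintegral_neg_eq_self (fun ξ => ‖𝓕 Φ ξ‖ₑ ^ 2)]
  set φ : HS := h2.toLp Φ with hφ
  have hc : (φ : E3 → ℂ) =ᵐ[volume] Φ := h2.coeFn_toLp
  have hi : Integrable (φ : E3 → ℂ) := h1.congr hc.symm
  have hF : 𝓕 (φ : E3 → ℂ) = 𝓕 Φ := by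
    funext η
    rw [FN_ft, FN_ft]
    refine integral_congr_ae ?_
    filter_upwards [hc] with x hx
    rw [hx]
  have e1 : ∫⁻ ξ, ‖𝓕 Φ ξ‖ₑ ^ 2 = ∫⁻ ξ, ‖(FT φ : E3 → ℂ) ξ‖ₑ ^ 2 := by
    refine lintegral_congr_ae ?_
    filter_upwards [FT_coe_of_integrable φ hi] with ξ hξ
    rw [hξ, hF]
  have e2 : ∫⁻ w, ‖Φ w‖ₑ ^ 2 = ∫⁻ w, ‖(φ : E3 → ℂ) w‖ₑ ^ 2 := by
    refine lintegral_congr_ae ?_
    filter_upwards [hc] with w hw
    rw [hw]
  rw [e1, e2, FN_norm, FN_norm]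
  congr 1
  rw [← ofReal_norm, ← ofReal_norm, LinearIsometryEquiv.norm_map]

private theorem FN_efun_add (ξ x y : E3) : efun ξ x * efun ξ y = efun ξ (x + y) := by
  unfold efun
  rw [← Complex.exp_add, inner_add_right]
  congr 1
  push_cast
  ring

private theorem FN_A {r M : ℝ} {m : E3 → ℂ} (hm : BM m) {k : HS}
    (hk : (FT k : E3 → ℂ) =ᵐ[volume] m) {V W : E3 → ℂ} (hV : IsPot r M V) (hW : IsPot r M W)
    (hF : Integrable (fun p : E3 × E3 => FN_F W V k p.1 p.2)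
      ((volume : Measure E3).prod (volume : Measure E3))) (ξ : E3) :
    A3 (dH r W) (eH r ξ) (mulL (indB r) (multL m (mulL (indB r) (mulL V (eH r ξ))))) =
      𝓕 (FN_Phi W V k) (-ξ) := by
  set g : HS := mulL (indB r) (mulL V (eH r ξ)) with hg
  have hgc : (g : E3 → ℂ) =ᵐ[volume] fun y => V y * efun ξ y := by
    rw [hg, mulL_indB_of_pot hV]
    filter_upwards [mulL_coe hV.BM (eH r ξ), eH_coe r ξ] with y h1 h2
    rw [h1, h2, indB]
    split_ifs with h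
    · rw [mul_one]
    · rw [hV.vanish y (not_lt.1 h)]
      ring
  have hVi : Integrable V := by
    refine ⟨hV.measurable.aestronglyMeasurable, ?_⟩
    have := FN_pot_pow hV (n := 1) one_ne_zero
    simp only [pow_one] at this
    refine lt_of_le_of_lt this ?_
    simpa using (FN_pot_top (r := r) (M := M) 1).lt_top
  have hgi : Integrable (g : E3 → ℂ) := by
    refine Integrable.congr ?_ hgc.symm
    have := hVi.bdd_mul (c := 1) (efun_cont ξ).aestronglyMeasurable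
      (Eventually.of_forall fun x => (norm_efun ξ x).le)
    refine this.congr (Eventually.of_forall fun x => ?_)
    exact mul_comm _ _
  have hx1 : ∀ x : E3, ∫ z, (k : E3 → ℂ) z * (g : E3 → ℂ) (x - z) =
      ∫ w, (k : E3 → ℂ) ((2 : ℝ) • x - w) * (V (w - x) * efun ξ (w - x)) := by
    intro x
    have e1 : ∫ z, (k : E3 → ℂ) z * (g : E3 → ℂ) (x - z) =
        ∫ z, (k : E3 → ℂ) z * (V (x - z) * efun ξ (x - z)) := by
      refine integral_congr_ae ?_
      have hq := (Measure.measurePreserving_sub_left (volume : Measure E3) x).quasiMeasurePreserving.ae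
        hgc
      filter_upwards [hq] with z hz
      rw [hz]
    rw [e1, ← integral_sub_left_eq_self
      (fun z => (k : E3 → ℂ) z * (V (x - z) * efun ξ (x - z))) volume ((2 : ℝ) • x)]
    refine integral_congr_ae (Eventually.of_forall fun w => ?_)
    beta_reduce
    have e : x - ((2 : ℝ) • x - w) = w - x := by
      rw [two_smul]; abel
    rw [e]
  have hA : A3 (dH r W) (eH r ξ) (mulL (indB r) (multL m g)) =
      ∫ x, ∫ w, efun ξ w * FN_F W V k x w := by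
    unfold A3
    refine integral_congr_ae ?_
    filter_upwards [dH_coe hW, eH_coe r ξ, mulL_coe (indB_BM r) (multL m g),
      multL_conv hm hk hgi] with x h1 h2 h3 h4
    rw [h1, h2, h3, h4, hx1]
    have e1 : ∫ w, efun ξ w * FN_F W V k x w =
        W x * (efun ξ x * ∫ w, (k : E3 → ℂ) ((2 : ℝ) • x - w) * (V (w - x) * efun ξ (w - x))) := by
      rw [← integral_const_mul, ← integral_const_mul]
      refine integral_congr_ae (Eventually.of_forall fun w => ?_)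
      beta_reduce
      have e2 : efun ξ w = efun ξ x * efun ξ (w - x) := by
        rw [FN_efun_add, add_sub_cancel]
      rw [e2, FN_F]
      ring
    rw [e1, indB]
    split_ifs with h
    · ring
    · rw [hW.vanish x (not_lt.1 h)]
      ring
  rw [hA, FN_ft]
  have hsw : Integrable (fun p : E3 × E3 => efun ξ p.2 * FN_F W V k p.1 p.2)
      ((volume : Measure E3).prod (volume : Measure E3)) :=
    hF.bdd_mul (c := 1) ((efun_cont ξ).comp continuous_snd).aestronglyMeasurable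
      (Eventually.of_forall fun p => (norm_efun ξ p.2).le)
  rw [integral_integral_swap (f := fun x w => efun ξ w * FN_F W V k x w) hsw]
  refine integral_congr_ae (Eventually.of_forall fun w => ?_)
  beta_reduce
  rw [integral_const_mul, neg_neg]
  rfl

theorem frozenN {r : ℝ} (hr : 0 < r) (M : ℝ) : ∃ C : ℝ, 0 ≤ C ∧ ∀ m : E3 → ℂ, BM m →
    ∀ k : HS, (FT k : E3 → ℂ) =ᵐ[volume] m → ∀ V W : E3 → ℂ, IsPot r M V → IsPot r M W →
    ∃ G : E3 → ℂ, Continuous G ∧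
      (∀ ξ : E3, A3 (dH r W) (eH r ξ) (mulL (indB r) (multL m (mulL (indB r)
        (mulL V (eH r ξ))))) = G ξ) ∧
      ∫⁻ ξ, ‖G ξ‖ₑ ^ 2 ≤ ENNReal.ofReal C * ∫⁻ z in Metric.ball (0 : E3) (2 * r),
        ENNReal.ofReal (‖z‖ ^ 2) * ‖(k : E3 → ℂ) z‖ₑ ^ 2 := by
  have _ := hr
  set K : ℝ≥0∞ := (ENNReal.ofReal M ^ 2 * volume (Metric.ball (0 : E3) r)) *
      (ENNReal.ofReal M ^ 2 * (ENNReal.ofReal (abs ((2 : ℝ) ^ (Module.finrank ℝ E3))⁻¹) *
        ∫⁻ z in Metric.ball (0 : E3) (2 * r), ENNReal.ofReal ((‖z‖ ^ 2)⁻¹))) with hK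
  have hKt : K ≠ ⊤ := by
    refine ENNReal.mul_ne_top (FN_pot_top 2) ?_
    exact ENNReal.mul_ne_top (ENNReal.pow_ne_top ENNReal.ofReal_ne_top)
      (ENNReal.mul_ne_top ENNReal.ofReal_ne_top (FN_ball _))
  refine ⟨K.toReal, ENNReal.toReal_nonneg, fun m hm k hk V W hV hW => ?_⟩
  rw [ENNReal.ofReal_toReal hKt]
  have hkm : Measurable (k : E3 → ℂ) := (Lp.stronglyMeasurable k).measurable
  have hk2 : ∫⁻ x, ‖(k : E3 → ℂ) x‖ₑ ^ 2 ≠ ⊤ := by
    rw [FN_norm]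
    exact ENNReal.pow_ne_top enorm_ne_top
  have hF := FN_F_int hW hV hkm hk2
  have hΦ1 : Integrable (FN_Phi W V k) := hF.integral_prod_right
  have hsq := FN_Phi_sq hW hV hkm
  have hfin : ∫⁻ z in Metric.ball (0 : E3) (2 * r),
      ENNReal.ofReal (‖z‖ ^ 2) * ‖(k : E3 → ℂ) z‖ₑ ^ 2 ≠ ⊤ := by
    have h1 : ∫⁻ z in Metric.ball (0 : E3) (2 * r),
        ENNReal.ofReal (‖z‖ ^ 2) * ‖(k : E3 → ℂ) z‖ₑ ^ 2 ≤
        ∫⁻ z, ENNReal.ofReal ((2 * r) ^ 2) * ‖(k : E3 → ℂ) z‖ₑ ^ 2 := by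
      refine le_trans ?_ (setLIntegral_le_lintegral (Metric.ball (0 : E3) (2 * r)) _)
      refine setLIntegral_mono' measurableSet_ball fun z hz => ?_
      gcongr
      exact (mem_ball_zero_iff.1 hz).le
    refine ne_top_of_le_ne_top ?_ h1
    rw [lintegral_const_mul _ (hkm.enorm.pow_const 2)]
    exact ENNReal.mul_ne_top ENNReal.ofReal_ne_top hk2
  have hΦ2 : MemLp (FN_Phi W V k) 2 volume := by
    refine ⟨hΦ1.1, ?_⟩
    rw [eLpNorm_lt_top_iff_lintegral_rpow_enorm_lt_top (by norm_num) (by norm_num)]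
    simp only [ENNReal.toReal_ofNat, ENNReal.rpow_two]
    exact lt_of_le_of_lt hsq (ENNReal.mul_lt_top hKt.lt_top hfin.lt_top)
  refine ⟨fun ξ => 𝓕 (FN_Phi W V k) (-ξ), ?_, fun ξ => FN_A hm hk hV hW hF ξ, ?_⟩
  · have hc : Continuous (𝓕 (FN_Phi W V k)) :=
      VectorFourier.fourierIntegral_continuous Real.continuous_fourierChar continuous_inner hΦ1
    exact hc.comp continuous_neg
  · rw [FN_plancherel hΦ1 hΦ2]
    exact hsq

end FracScatC

end
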