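import Pool.Agent.Lib.MP_6e2ba5_an.Ex.NDefs
import Pool.Agent.Lib.MP_6e2ba5_an.Cx.Modul

/-! # Modulation and translation for all of `L²`

`FT_efun` (`Cx/Modul.lean`) is the statement for integrable `g`. Both sides are continuous in `g ∈ L²`:
the left one by `FT`, `mulL`, the right one is the translation, an isometry of `L²`
(`MeasureTheory.Lp.compMeasurePreserving` with the measure preserving map `ζ ↦ ζ - ξ`). The elements
`mulL (indB R) g` are integrable (`integrable_of_indB`, `indB_idem`) and converge to `g` in `L²` as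
`R → ∞` (dominated convergence, or density of integrable functions: `MeasureTheory.Lp` simple functions
are dense). `multL_conv`: for a.e. `x`, `(multL m g)(x)` is the inverse Fourier integral of
`m · FT g` if this is integrable: `FT k · FT g ∈ L¹` since both are in `L²`; `FTsymm_coe_of_integrable`
(`../FTfacts.lean`) for the `L²` element `mulL m (FT g)`; and `parseval` applied to `f = k` and the `L²`
element `y ↦ g(x-y)`, whose Fourier transform at `-ζ` is `exp(2πi⟪ζ,x⟫) FT g(ζ)` (`g` integrable: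
`FT_coe_of_integrable`), gives `∫ k(z) g(x-z) dz = ∫ m(ζ) exp(2πi⟪ζ,x⟫) (FT g)(ζ) dζ`. -/

set_option autoImplicit false

open MeasureTheory Filter Topology Set
open scoped FourierTransform SchwartzMap InnerProductSpace ENNReal BoundedContinuousFunction

noncomputable section

namespace FracScatC

open FracScat

theorem FT_efun_all (ξ : E3) (g : HS) :
    (FT (mulL (efun ξ) g) : E3 → ℂ) =ᵐ[volume] fun ζ => (FT g : E3 → ℂ) (ζ - ξ) := by
  have hmp : MeasurePreserving (fun ζ : E3 => ζ - ξ) volume volume :=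
    measurePreserving_sub_right volume ξ
  let T : HS →ₗᵢ[ℂ] HS := Lp.compMeasurePreservingₗᵢ ℂ (fun ζ : E3 => ζ - ξ) hmp
  have hT : ∀ f : HS, (T f : E3 → ℂ) =ᵐ[volume] fun ζ => (f : E3 → ℂ) (ζ - ξ) := fun f =>
    Lp.coeFn_compMeasurePreserving f hmp
  have key : FT (mulL (efun ξ) g) = T (FT g) := by
    refine DenseRange.induction_on (p := fun g : HS => FT (mulL (efun ξ) g) = T (FT g))
      (SchwartzMap.denseRange_toLpCLM (p := 2) (μ := (volume : Measure E3)) (F := ℂ)
        ENNReal.ofNat_ne_top) g ?_ ?_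
    · exact isClosed_eq (FT.continuous.comp (mulL (efun ξ)).continuous)
        (T.continuous.comp FT.continuous)
    · intro φ
      have hi : Integrable (φ.toLp 2 (volume : Measure E3) : E3 → ℂ) :=
        (φ.integrable (μ := (volume : Measure E3))).congr (φ.coeFn_toLp 2 volume).symm
      change FT (mulL (efun ξ) (φ.toLp 2 (volume : Measure E3))) =
        T (FT (φ.toLp 2 (volume : Measure E3)))
      apply Lp.ext
      filter_upwards [FT_efun ξ hi, hT (FT (φ.toLp 2 (volume : Measure E3)))] with ζ a b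
      rw [a, b]
  rw [key]
  exact hT (FT g)

theorem multL_conv {m : E3 → ℂ} (hm : BM m) {k : HS} (hk : (FT k : E3 → ℂ) =ᵐ[volume] m) {g : HS}
    (hg : Integrable (g : E3 → ℂ)) :
    (multL m g : E3 → ℂ) =ᵐ[volume] fun x => ∫ z, (k : E3 → ℂ) z * (g : E3 → ℂ) (x - z) := by
  have hGc : (mulL m (FT g) : E3 → ℂ) =ᵐ[volume] fun ζ => (FT k : E3 → ℂ) ζ * (FT g : E3 → ℂ) ζ := by
    filter_upwards [mulL_coe hm (FT g), hk] with ζ a b
    rw [a, b]
  have hG : Integrable (mulL m (FT g) : E3 → ℂ) := (integrable_mul (FT k) (FT g)).congr hGc.symm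
  rw [multL_apply]
  filter_upwards [FTsymm_coe_of_integrable _ hG] with x hx
  rw [hx]
  have hmp : MeasurePreserving (fun y : E3 => x - y) volume volume :=
    Measure.measurePreserving_sub_left volume x
  let gx : HS := Lp.compMeasurePreserving (fun y : E3 => x - y) hmp g
  have c1 : (gx : E3 → ℂ) =ᵐ[volume] fun y => (g : E3 → ℂ) (x - y) :=
    Lp.coeFn_compMeasurePreserving g hmp
  have i1 : Integrable (gx : E3 → ℂ) := (hg.comp_sub_left x).congr c1.symm
  have c3 : ∀ ζ : E3, 𝓕 (gx : E3 → ℂ) (-ζ) = efun ζ x * 𝓕 (g : E3 → ℂ) ζ := by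
    intro ζ
    rw [Real.fourier_eq', Real.fourier_eq', ← integral_const_mul]
    have h2 : ∫ v, Complex.exp (((-2 * Real.pi * ⟪v, -ζ⟫_ℝ : ℝ) : ℂ) * Complex.I) • (gx : E3 → ℂ) v =
        ∫ v, (fun u => efun ζ x * (Complex.exp (((-2 * Real.pi * ⟪u, ζ⟫_ℝ : ℝ) : ℂ) * Complex.I) •
          (g : E3 → ℂ) u)) (x - v) := by
      refine integral_congr_ae ?_
      filter_upwards [c1] with v a
      rw [a, smul_eq_mul]
      beta_reduce
      rw [smul_eq_mul, ← mul_assoc, efun, ← Complex.exp_add]
      congr 2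
      rw [inner_neg_right, inner_sub_left, real_inner_comm x ζ]
      push_cast
      ring
    rw [h2]
    exact integral_sub_left_eq_self (fun u => efun ζ x * (Complex.exp
      (((-2 * Real.pi * ⟪u, ζ⟫_ℝ : ℝ) : ℂ) * Complex.I) • (g : E3 → ℂ) u)) volume x
  have c4 : ∀ᵐ ζ ∂(volume : Measure E3), (FT gx : E3 → ℂ) (-ζ) =
      efun ζ x * (FT g : E3 → ℂ) ζ := by
    have hneg : MeasurePreserving (fun ζ : E3 => -ζ) volume volume :=
      Measure.measurePreserving_neg volume
    have h5 : ∀ᵐ ζ ∂(volume : Measure E3), (FT gx : E3 → ℂ) (-ζ) = 𝓕 (gx : E3 → ℂ) (-ζ) :=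
      hneg.quasiMeasurePreserving.ae (FT_coe_of_integrable _ i1)
    filter_upwards [h5, FT_coe_of_integrable _ hg] with ζ a b
    rw [a, b, c3]
  have h6 : ∫ z, (k : E3 → ℂ) z * (g : E3 → ℂ) (x - z) = ∫ z, (k : E3 → ℂ) z * (gx : E3 → ℂ) z := by
    refine integral_congr_ae ?_
    filter_upwards [c1] with z a
    rw [a]
  rw [h6, parseval, Real.fourierInv_eq']
  refine integral_congr_ae ?_
  filter_upwards [hGc, c4] with ζ a b
  rw [a, b, smul_eq_mul, efun]
  ring

end FracScatC

end
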