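import Pool.Agent.Lib.MP_6e2ba5_an.Ex.SymNB
import Pool.Agent.Lib.MP_6e2ba5_an.Ex.ModulN

/-! # The weighted `L²` norm of the kernel

Let `k = FT.symm (mNH s t)`. For `h : E3`, by `FT_efun_all`, `FT (mulL (efun h) k - k)` is a.e. equal to
`mN s t (ζ-h) - mN s t ζ` (`mNH_coe`, `mN_memLp`; translate the a.e. equality), so by the isometry
`∫ |efun h z - 1|² |k z|² dz = ∫ |mN s t (ζ-h) - mN s t ζ|² dζ ≤ C t^(1-4s)` (`mN_shift`).
Take `h = h_i = (8r)⁻¹ • e_i`, `i = 0,1,2` (`EuclideanSpace.single i 1`). For `‖z‖ < 2r`: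
`|z_i|/(8r) ≤ 1/4`, and `|exp(2πiτ) - 1| = 2|sin(πτ)| ≥ 4|τ|` for `|τ| ≤ 1/2` (Jordan,
`Real.mul_abs_le_abs_sin`), so `|efun h_i z - 1|² ≥ 16 z_i²/(64 r²) = z_i²/(4r²)`. Sum over `i`:
`‖z‖² ≤ 4r² ∑_i |efun h_i z - 1|²` (`EuclideanSpace.norm_sq_eq`). -/

set_option autoImplicit false

open MeasureTheory Filter Topology Set
open scoped FourierTransform SchwartzMap InnerProductSpace ENNReal BoundedContinuousFunction

noncomputable section

namespace FracScatC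

open FracScat

private theorem lint_sq (u : HS) : ∫⁻ z, ‖(u : E3 → ℂ) z‖ₑ ^ 2 = ‖u‖ₑ ^ 2 := by
  have h2 : ∫⁻ η, ‖(u : E3 → ℂ) η‖ₑ ^ (2 : ℝ) = (eLpNorm (u : E3 → ℂ) 2 volume) ^ (2 : ℝ) := by
    rw [eLpNorm_eq_lintegral_rpow_enorm_toReal two_ne_zero ENNReal.ofNat_ne_top,
      ← ENNReal.rpow_mul]
    simp
  rw [Lp.enorm_def, ← ENNReal.rpow_two, ← h2]
  apply lintegral_congr
  intro z
  rw [ENNReal.rpow_two]

private theorem shift_le {s : ℝ} (h0 : 3 / 4 < s) (h1 : s < 1) {t : ℝ} (ht : 1 ≤ t) (h : E3) :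
    ∫⁻ z, ‖efun h z - 1‖ₑ ^ 2 * ‖(FT.symm (mNH s t) : E3 → ℂ) z‖ₑ ^ 2 =
      ∫⁻ ζ, ‖mN s t (ζ - h) - mN s t ζ‖ₑ ^ 2 := by
  set k : HS := FT.symm (mNH s t) with hk
  have hm := mN_memLp h0 h1 (t := t) (by linarith)
  have hc := mNH_coe hm
  have e1 : ∫⁻ z, ‖efun h z - 1‖ₑ ^ 2 * ‖(k : E3 → ℂ) z‖ₑ ^ 2 =
      ∫⁻ z, ‖((mulL (efun h) k - k : HS) : E3 → ℂ) z‖ₑ ^ 2 := by
    apply lintegral_congr_ae
    filter_upwards [Lp.coeFn_sub (mulL (efun h) k) k, mulL_coe (efun_BM h) k] with z hz1 hz2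
    rw [hz1, Pi.sub_apply, hz2, ← mul_pow, ← enorm_mul]
    congr 2
    ring
  have e2 : ‖(mulL (efun h) k - k : HS)‖ₑ = ‖FT (mulL (efun h) k - k)‖ₑ := by
    rw [← ofReal_norm_eq_enorm, ← ofReal_norm_eq_enorm, LinearIsometryEquiv.norm_map]
  rw [e1, lint_sq, e2, ← lint_sq]
  apply lintegral_congr_ae
  have hq : Measure.QuasiMeasurePreserving (fun ζ : E3 => ζ - h) volume volume :=
    (measurePreserving_sub_right volume h).quasiMeasurePreserving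
  have e3 : (FT k : E3 → ℂ) =ᵐ[volume] mN s t := by
    rw [hk, LinearIsometryEquiv.apply_symm_apply]; exact hc
  have e4 : ∀ᵐ ζ ∂(volume : Measure E3), (FT k : E3 → ℂ) (ζ - h) = mN s t (ζ - h) :=
    hq.ae e3
  rw [map_sub]
  filter_upwards [Lp.coeFn_sub (FT (mulL (efun h) k)) (FT k), FT_efun_all h k, e3, e4]
    with ζ a b c d
  rw [a, Pi.sub_apply, b, c, d]

private theorem pt_le {r : ℝ} (hr : 0 < r) {z : E3} (hz : ‖z‖ < 2 * r) (i : Fin 3) :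
    z i ^ 2 ≤ 4 * r ^ 2 * ‖efun ((8 * r)⁻¹ • EuclideanSpace.single i (1 : ℝ)) z - 1‖ ^ 2 := by
  have hin : ⟪((8 * r)⁻¹ • EuclideanSpace.single i (1 : ℝ) : E3), z⟫_ℝ = z i / (8 * r) := by
    rw [inner_smul_left, EuclideanSpace.inner_single_left]
    simp
    field_simp
  set τ : ℝ := z i / (8 * r) with hτ
  have hzi : |z i| ≤ ‖z‖ := by
    have := EuclideanSpace.norm_sq_eq z
    have h2 : ‖z i‖ ^ 2 ≤ ‖z‖ ^ 2 := by
      rw [this]
      exact Finset.single_le_sum (f := fun j => ‖z j‖ ^ 2) (fun j _ => sq_nonneg _)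
        (Finset.mem_univ i)
    have := abs_le_of_sq_le_sq h2 (norm_nonneg z)
    rw [Real.norm_eq_abs] at this
    rw [abs_abs] at this
    exact this
  have hτ4 : |τ| ≤ 1 / 4 := by
    rw [hτ, abs_div, abs_of_pos (by positivity : (0 : ℝ) < 8 * r), div_le_iff₀ (by positivity)]
    linarith
  have hπ := Real.pi_pos
  have e1 : ‖efun ((8 * r)⁻¹ • EuclideanSpace.single i (1 : ℝ)) z - 1‖ =
      2 * |Real.sin (Real.pi * τ)| := by
    unfold efun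
    rw [hin, mul_comm, Complex.norm_exp_I_mul_ofReal_sub_one]
    rw [norm_mul, Real.norm_eq_abs, Real.norm_eq_abs, abs_of_pos (by norm_num : (0 : ℝ) < 2)]
    congr 3
    ring
  have e2 : 2 / Real.pi * |Real.pi * τ| ≤ |Real.sin (Real.pi * τ)| := by
    apply Real.mul_abs_le_abs_sin
    rw [abs_mul, abs_of_pos hπ]
    nlinarith
  have e3 : 2 / Real.pi * |Real.pi * τ| = 2 * |τ| := by
    rw [abs_mul, abs_of_pos hπ]
    field_simp
  rw [e3] at e2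
  rw [e1]
  have e4 : z i = 8 * r * τ := by
    rw [hτ]; field_simp
  have e5 : (4 * |τ|) ^ 2 ≤ (2 * |Real.sin (Real.pi * τ)|) ^ 2 := by
    apply pow_le_pow_left₀ (by positivity)
    linarith
  have e6 : z i ^ 2 = 4 * r ^ 2 * (4 * |τ|) ^ 2 := by
    rw [e4, mul_pow 4 |τ|, sq_abs]; ring
  rw [e6]
  exact mul_le_mul_of_nonneg_left e5 (by positivity)

theorem kerN {s : ℝ} (h0 : 3 / 4 < s) (h1 : s < 1) {r : ℝ} (hr : 0 < r) :
    ∃ C : ℝ, 0 ≤ C ∧ ∀ t : ℝ, 1 ≤ t →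
      ∫⁻ z in Metric.ball (0 : E3) (2 * r), ENNReal.ofReal (‖z‖ ^ 2) *
        ‖(FT.symm (mNH s t) : E3 → ℂ) z‖ₑ ^ 2 ≤ ENNReal.ofReal (C * t ^ (1 - 4 * s)) := by
  obtain ⟨C, hC0, hC⟩ := mN_shift h0 h1 (H := (8 * r)⁻¹) (by positivity)
  refine ⟨3 * (4 * r ^ 2 * C), by positivity, ?_⟩
  intro t ht
  set K : E3 → ℝ≥0∞ := fun z => ‖(FT.symm (mNH s t) : E3 → ℂ) z‖ₑ ^ 2 with hK
  have hKm : AEMeasurable K volume :=
    ((Lp.aestronglyMeasurable (FT.symm (mNH s t))).enorm).pow_const 2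
  let hv : Fin 3 → E3 := fun i => (8 * r)⁻¹ • EuclideanSpace.single i (1 : ℝ)
  have hvn : ∀ i, ‖hv i‖ ≤ (8 * r)⁻¹ := by
    intro i
    show ‖(8 * r)⁻¹ • EuclideanSpace.single i (1 : ℝ)‖ ≤ _
    rw [norm_smul, EuclideanSpace.norm_single, norm_one, mul_one, Real.norm_eq_abs,
      abs_of_pos (by positivity)]
  have hpt : ∀ z ∈ Metric.ball (0 : E3) (2 * r), ENNReal.ofReal (‖z‖ ^ 2) * K z ≤
      ∑ i : Fin 3, ENNReal.ofReal (4 * r ^ 2) * (‖efun (hv i) z - 1‖ₑ ^ 2 * K z) := by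
    intro z hz
    have hz' : ‖z‖ < 2 * r := by simpa using hz
    have e1 : ‖z‖ ^ 2 ≤ ∑ i : Fin 3, 4 * r ^ 2 * ‖efun (hv i) z - 1‖ ^ 2 := by
      rw [EuclideanSpace.norm_sq_eq]
      apply Finset.sum_le_sum
      intro i _
      rw [Real.norm_eq_abs, sq_abs]
      exact pt_le hr hz' i
    have e2 : ENNReal.ofReal (‖z‖ ^ 2) ≤
        ∑ i : Fin 3, ENNReal.ofReal (4 * r ^ 2) * ‖efun (hv i) z - 1‖ₑ ^ 2 := by
      refine (ENNReal.ofReal_le_ofReal e1).trans ?_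
      rw [ENNReal.ofReal_sum_of_nonneg (fun i _ => by positivity)]
      apply le_of_eq
      apply Finset.sum_congr rfl
      intro i _
      rw [ENNReal.ofReal_mul (by positivity), ENNReal.ofReal_pow (norm_nonneg _),
        ofReal_norm_eq_enorm]
    calc ENNReal.ofReal (‖z‖ ^ 2) * K z
        ≤ (∑ i : Fin 3, ENNReal.ofReal (4 * r ^ 2) * ‖efun (hv i) z - 1‖ₑ ^ 2) * K z := by gcongr
      _ = _ := by
        rw [Finset.sum_mul]
        apply Finset.sum_congr rfl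
        intro i _
        rw [mul_assoc]
  calc ∫⁻ z in Metric.ball (0 : E3) (2 * r), ENNReal.ofReal (‖z‖ ^ 2) * K z
      ≤ ∫⁻ z in Metric.ball (0 : E3) (2 * r),
          ∑ i : Fin 3, ENNReal.ofReal (4 * r ^ 2) * (‖efun (hv i) z - 1‖ₑ ^ 2 * K z) :=
        setLIntegral_mono' Metric.isOpen_ball.measurableSet hpt
    _ ≤ ∫⁻ z, ∑ i : Fin 3, ENNReal.ofReal (4 * r ^ 2) * (‖efun (hv i) z - 1‖ₑ ^ 2 * K z) :=
        setLIntegral_le_lintegral _ _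
    _ = ∑ i : Fin 3, ∫⁻ z, ENNReal.ofReal (4 * r ^ 2) * (‖efun (hv i) z - 1‖ₑ ^ 2 * K z) := by
        rw [lintegral_finsetSum']
        intro i _
        exact ((((efun_cont (hv i)).sub continuous_const).aemeasurable.enorm.pow_const 2).mul
          hKm).const_mul _
    _ = ∑ i : Fin 3, ENNReal.ofReal (4 * r ^ 2) *
          ∫⁻ ζ, ‖mN s t (ζ - hv i) - mN s t ζ‖ₑ ^ 2 := by
        apply Finset.sum_congr rfl
        intro i _
        rw [lintegral_const_mul' _ _ ENNReal.ofReal_ne_top, shift_le h0 h1 ht]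
    _ ≤ ∑ i : Fin 3, ENNReal.ofReal (4 * r ^ 2) * ENNReal.ofReal (C * t ^ (1 - 4 * s)) := by
        apply Finset.sum_le_sum
        intro i _
        gcongr
        exact hC t ht (hv i) (hvn i)
    _ = ENNReal.ofReal (3 * (4 * r ^ 2 * C) * t ^ (1 - 4 * s)) := by
        rw [Finset.sum_const, Finset.card_univ, Fintype.card_fin, ← ENNReal.ofReal_mul
          (by positivity), nsmul_eq_mul]
        rw [show ((3 : ℕ) : ℝ≥0∞) = ENNReal.ofReal 3 by norm_num, ← ENNReal.ofReal_mul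
          (by norm_num)]
        congr 1
        ring

end FracScatC

end
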