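import Pool.Agent.Lib.MP_6e2ba5_an.Ex.ModulN
import Pool.Agent.Lib.MP_6e2ba5_an.Ex.Defs

/-! # The quadratic term, Cauchy-Schwarz

`A3 (dH r W) (eH r ξ) (1_B multL m 1_B g) = ∫ f (multL m g)` with `f = mulL (efun ξ) (dH r W)` and
`g = mulL V (eH r ξ) = mulL (efun ξ) (dH r V)` (`mulL_eH`; `dH r W`, `g` vanish outside the ball:
`mulL_indB_of_pot`, `mem_HB`). By `parseval` (`../FTfacts.lean`), `FT_multL_coe`, `FT_efun`, `FT_eq_ftX` it is
`∫ ζ, m ζ * ftX (dH r V) (ζ-ξ) * ftX (dH r W) (-ζ-ξ)` (`parseval (multL m g) f`). The norm is at most the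
lintegral of the norms, then Cauchy-Schwarz (`ENNReal.lintegral_mul_le_Lp_mul_Lq`; `m` is a.e. strongly
measurable). -/

set_option autoImplicit false

open MeasureTheory Filter Topology Set
open scoped FourierTransform SchwartzMap InnerProductSpace ENNReal BoundedContinuousFunction

noncomputable section

namespace FracScatC

open FracScat

private theorem UnfrN_FT (ξ : E3) {h : HS} (hh : Integrable (h : E3 → ℂ)) :
    (FT (mulL (efun ξ) h) : E3 → ℂ) =ᵐ[volume] fun ζ => ftX h (ζ - ξ) := by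
  have hmp : MeasurePreserving (fun ζ : E3 => ζ - ξ) volume volume :=
    measurePreserving_sub_right volume ξ
  have h4 : ∀ᵐ ζ ∂(volume : Measure E3), (FT h : E3 → ℂ) (ζ - ξ) = ftX h (ζ - ξ) :=
    hmp.quasiMeasurePreserving.ae (FT_eq_ftX hh)
  filter_upwards [FT_efun ξ hh, h4] with ζ a b
  rw [a, b]

private theorem UnfrN_FT' (ξ : E3) {h : HS} (hh : Integrable (h : E3 → ℂ)) :
    ∀ᵐ ζ ∂(volume : Measure E3), (FT (mulL (efun ξ) h) : E3 → ℂ) (-ζ) = ftX h (-ζ - ξ) := by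
  have hmp : MeasurePreserving (fun ζ : E3 => -ζ) volume volume :=
    Measure.measurePreserving_neg volume
  exact hmp.quasiMeasurePreserving.ae (UnfrN_FT ξ hh)

theorem A3_mult {r M : ℝ} {m : E3 → ℂ} (hm : BM m) {V W : E3 → ℂ} (hV : IsPot r M V)
    (hW : IsPot r M W) (ξ : E3) :
    A3 (dH r W) (eH r ξ) (mulL (indB r) (multL m (mulL (indB r) (mulL V (eH r ξ))))) =
      ∫ ζ, m ζ * ftX (dH r V) (ζ - ξ) * ftX (dH r W) (-ζ - ξ) := by
  rw [mulL_indB_of_pot hV, mulL_eH hV]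
  have hVi : Integrable (dH r V : E3 → ℂ) := HB_integrable (dH_mem hV)
  have hWi : Integrable (dH r W : E3 → ℂ) := HB_integrable (dH_mem hW)
  have e1 : A3 (dH r W) (eH r ξ) (mulL (indB r) (multL m (mulL (efun ξ) (dH r V)))) =
      ∫ x, (multL m (mulL (efun ξ) (dH r V)) : E3 → ℂ) x *
        (mulL (efun ξ) (dH r W) : E3 → ℂ) x := by
    unfold A3
    have h0 := mulL_coe (indB_BM r) (dH r W)
    rw [mem_HB.1 (dH_mem hW)] at h0
    refine integral_congr_ae ?_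
    filter_upwards [h0, eH_coe r ξ,
      mulL_coe (indB_BM r) (multL m (mulL (efun ξ) (dH r V))),
      mulL_coe (efun_BM ξ) (dH r W)] with x a1 a2 a3 a4
    rw [a2, a3, a4]
    have a5 : (dH r W : E3 → ℂ) x * (efun ξ x * indB r x *
        (indB r x * (multL m (mulL (efun ξ) (dH r V)) : E3 → ℂ) x)) =
        (multL m (mulL (efun ξ) (dH r V)) : E3 → ℂ) x *
          (efun ξ x * (indB r x * (indB r x * (dH r W : E3 → ℂ) x))) := by ring
    rw [a5, ← a1, ← a1]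
  rw [e1, parseval]
  refine integral_congr_ae ?_
  filter_upwards [FT_multL_coe hm (mulL (efun ξ) (dH r V)), UnfrN_FT ξ hVi,
    UnfrN_FT' ξ hWi] with ζ a b c
  rw [a, b, c]

theorem unfrN {r M : ℝ} {m : E3 → ℂ} (hm : BM m) {V W : E3 → ℂ} (hV : IsPot r M V)
    (hW : IsPot r M W) (ξ : E3) :
    ‖A3 (dH r W) (eH r ξ) (mulL (indB r) (multL m (mulL (indB r) (mulL V (eH r ξ)))))‖ₑ ^ 2 ≤
      (∫⁻ ζ, ‖m ζ‖ₑ ^ 2) *
        ∫⁻ ζ, (‖ftX (dH r W) (-ζ - ξ)‖ₑ * ‖ftX (dH r V) (ζ - ξ)‖ₑ) ^ 2 := by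
  rw [A3_mult hm hV hW ξ]
  have h1 : ‖∫ ζ, m ζ * ftX (dH r V) (ζ - ξ) * ftX (dH r W) (-ζ - ξ)‖ₑ ≤
      ∫⁻ ζ, ‖m ζ‖ₑ * (‖ftX (dH r W) (-ζ - ξ)‖ₑ * ‖ftX (dH r V) (ζ - ξ)‖ₑ) := by
    refine (enorm_integral_le_lintegral_enorm _).trans (le_of_eq ?_)
    refine lintegral_congr fun ζ => ?_
    rw [enorm_mul, enorm_mul]
    ring
  have hf : AEMeasurable (fun ζ : E3 => ‖m ζ‖ₑ) volume := hm.1.enorm
  have hg : AEMeasurable (fun ζ : E3 => ‖ftX (dH r W) (-ζ - ξ)‖ₑ *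
      ‖ftX (dH r V) (ζ - ξ)‖ₑ) volume := by
    have c1 : Continuous fun ζ : E3 => ftX (dH r W) (-ζ - ξ) :=
      (ftX (dH r W)).continuous.comp (continuous_neg.sub continuous_const)
    have c2 : Continuous fun ζ : E3 => ftX (dH r V) (ζ - ξ) :=
      (ftX (dH r V)).continuous.comp (continuous_id.sub continuous_const)
    exact (c1.enorm.measurable.mul c2.enorm.measurable).aemeasurable
  have h2 := ENNReal.lintegral_mul_le_Lp_mul_Lq volume Real.HolderConjugate.two_two hf hg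
  have h3 := h1.trans h2
  have h4 := pow_le_pow_left' h3 2
  refine h4.trans (le_of_eq ?_)
  rw [mul_pow, ← ENNReal.rpow_natCast, ← ENNReal.rpow_natCast, ← ENNReal.rpow_mul,
    ← ENNReal.rpow_mul]
  norm_num

end FracScatC

end
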