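import Pool.Agent.Lib.MP_6e2ba5_an.Ex.MopB
import Pool.Agent.Lib.MP_6e2ba5_an.Ex.KerN
import Pool.Agent.Lib.MP_6e2ba5_an.Ex.FrozenN
import Pool.Agent.Lib.MP_6e2ba5_an.Ex.UnfrN
import Pool.Agent.Lib.MP_6e2ba5_an.Ex.CaseA
import Pool.Agent.Lib.MP_6e2ba5_an.Ex.LamE

/-! # The quadratic term on the negative axis

Let `Q m ξ = A3 (dH r W) (eH r ξ) (1_B multL m 1_B (V e_ξ))`, so the function is `Q (mN s (2π‖ξ‖)) ξ`
(`mN_eq`, `Mop`). For `n : ℕ`, `n ≥ 1`, let `m_n = mN s (2πn)` and `G_n` the function of `frozenN` for `m_n`,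
`k_n = FT.symm (mNH s (2πn))` (`mNH_coe`): `∫⁻ ‖G_n‖ₑ² ≤ C (2πn)^(1-4s)` by `kerN`. For `ξ ∈ Sh N` let
`n = ⌊‖ξ‖⌋₊`: `N - 1 < n ≤ 2N`, `n ≥ 1`, `|2π‖ξ‖ - 2πn| ≤ 2π ≤ 7`. The symbol `d = mN s (2π‖ξ‖) - m_n` is `BM`,
`Q` is additive in the symbol (`multL_sub`, `A3` linear in the last argument: `A3_add_right`, or
`A3_mult`), so by `unfrN` and `mN_diff`:
`‖Q(mN s (2π‖ξ‖)) ξ‖ₑ ≤ ‖G_n ξ‖ₑ + (ofReal (C (2πn)^(1-4s)) H ξ)^(1/2)`,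
`H ξ = ∫⁻ ζ, (‖ftX (dH r W) (-ζ-ξ)‖ₑ ‖ftX (dH r V) (ζ-ξ)‖ₑ)²`, measurable. Majorant:
`G ξ = (∑_{n ∈ Icc ⌊N⌋₊ ⌊2N⌋₊} ‖G_n ξ‖ₑ²)^(1/2) + (ofReal (C' N^(1-4s)) H ξ)^(1/2)` (`n ≥ N/2`, and
`1-4s < 0`), `G² ≤ 2(...)`, `∫⁻ H = (1/8) ‖dH r W‖² ‖dH r V‖²` (`fh_lintegral`, `ftX_sq`), the number of `n` is
`≤ 2N+1 ≤ 3N`: total `≤ C N · N^(1-4s)`. -/

set_option autoImplicit false

open MeasureTheory Filter Topology Set
open scoped FourierTransform SchwartzMap InnerProductSpace ENNReal BoundedContinuousFunction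

noncomputable section

namespace FracScatC

open FracScat

/-- The quadratic term as a function of the symbol. -/
private def tN_Q (r : ℝ) (V W : E3 → ℂ) (m : E3 → ℂ) (ξ : E3) : ℂ :=
  A3 (dH r W) (eH r ξ) (mulL (indB r) (multL m (mulL (indB r) (mulL V (eH r ξ)))))

private def tN_H (r : ℝ) (V W : E3 → ℂ) (ξ : E3) : ℝ≥0∞ :=
  ∫⁻ ζ, (‖ftX (dH r W) (-ζ - ξ)‖ₑ * ‖ftX (dH r V) (ζ - ξ)‖ₑ) ^ 2

private theorem tN_BM {s : ℝ} (h0 : 1 / 2 < s) (h1 : s < 1) {t : ℝ} (ht : 0 < t) : BM (mN s t) := by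
  refine rsE_BM2 h0 h1 (k := ((-t : ℝ) : ℂ)) ⟨?_, ?_, ?_⟩
  · rw [Complex.ofReal_re]; linarith
  · rw [Complex.ofReal_im]
  · exact Complex.ofReal_ne_zero.mpr (by linarith)

private theorem tN_Q_sub {r : ℝ} {V W : E3 → ℂ} {m m' : E3 → ℂ} (hm : BM m) (hm' : BM m') (ξ : E3) :
    tN_Q r V W m ξ = tN_Q r V W m' ξ + tN_Q r V W (fun ζ => m ζ - m' ζ) ξ := by
  unfold tN_Q
  rw [← A3_add_right (eH_Bd r ξ), ← map_add, multL_sub hm hm']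
  congr 2
  rw [_root_.sub_apply]
  abel

private theorem tN_sq_add (a b : ℝ≥0∞) : (a + b) ^ 2 ≤ 2 * (a ^ 2 + b ^ 2) := by
  have h1 : (a + b) ^ (2 : ℝ) ≤ (2 : ℝ≥0∞) ^ ((2 : ℝ) - 1) * (a ^ (2 : ℝ) + b ^ (2 : ℝ)) :=
    ENNReal.rpow_add_le_mul_rpow_add_rpow a b (by norm_num)
  have e : (2 : ℝ) - 1 = 1 := by norm_num
  rw [e, ENNReal.rpow_one, ENNReal.rpow_two, ENNReal.rpow_two, ENNReal.rpow_two] at h1
  exact h1

private theorem tN_H_meas (r : ℝ) (V W : E3 → ℂ) : Measurable (tN_H r V W) := by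
  unfold tN_H
  have h : Measurable (fun p : E3 × E3 =>
      (‖ftX (dH r W) (-p.2 - p.1)‖ₑ * ‖ftX (dH r V) (p.2 - p.1)‖ₑ) ^ 2) := by
    have h1 : Continuous (fun p : E3 × E3 => ftX (dH r W) (-p.2 - p.1)) :=
      (ftX (dH r W)).continuous.comp (by fun_prop)
    have h2 : Continuous (fun p : E3 × E3 => ftX (dH r V) (p.2 - p.1)) :=
      (ftX (dH r V)).continuous.comp (by fun_prop)
    exact ((h1.measurable.enorm).mul (h2.measurable.enorm)).pow_const 2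
  exact h.lintegral_prod_right'

private theorem tN_H_int {r M : ℝ} {V W : E3 → ℂ} (hV : IsPot r M V) (hW : IsPot r M W) :
    ∫⁻ ξ, tN_H r V W ξ ≤ ENNReal.ofReal (‖dH r W‖ ^ 2 * ‖dH r V‖ ^ 2) := by
  have h1 := fh_lintegral (f := fun η => ‖ftX (dH r W) η‖ₑ) (h := fun η => ‖ftX (dH r V) η‖ₑ)
    (ftX (dH r W)).continuous.measurable.enorm (ftX (dH r V)).continuous.measurable.enorm
  rw [ftX_sq hV, ftX_sq hW] at h1
  have h2 : ∫⁻ ξ, tN_H r V W ξ ≤ 8 * ∫⁻ ξ, tN_H r V W ξ := by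
    conv_lhs => rw [← one_mul (∫⁻ ξ, tN_H r V W ξ)]
    gcongr
    norm_num
  refine h2.trans ?_
  have h3 : 8 * ∫⁻ ξ, tN_H r V W ξ = ‖dH r W‖ₑ ^ 2 * ‖dH r V‖ₑ ^ 2 := h1
  rw [h3, ENNReal.ofReal_mul (by positivity), ENNReal.ofReal_pow (norm_nonneg _),
    ENNReal.ofReal_pow (norm_nonneg _), ofReal_norm, ofReal_norm]

theorem tailN {s : ℝ} (h0 : 3 / 4 < s) (h1 : s < 1) {r M : ℝ} (hr : 0 < r) {V W : E3 → ℂ}
    (hV : IsPot r M V) (hW : IsPot r M W) :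
    ∃ C : ℝ, 0 ≤ C ∧ ∀ N : ℝ, 1 ≤ N → ShB N (C * N ^ (2 - 4 * s))
      (fun ξ => A3 (dH r W) (eH r ξ) (Mop s r (km ξ) (mulL V (eH r ξ)))) := by
  obtain ⟨Cd, hCd, hd⟩ := mN_diff h0 h1
  obtain ⟨Ck, hCk, hk⟩ := kerN h0 h1 hr
  obtain ⟨Cf, hCf, hf⟩ := frozenN hr M
  have hpi := Real.pi_gt_three
  have hpi4 := Real.pi_lt_d2
  have h12 : (1 : ℝ) / 2 < s := by linarith
  -- the frozen functions
  have hG : ∀ n : ℕ, ∃ G : E3 → ℂ, 1 ≤ n → Continuous G ∧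
      (∀ ξ : E3, tN_Q r V W (mN s (2 * Real.pi * n)) ξ = G ξ) ∧
      ∫⁻ ξ, ‖G ξ‖ₑ ^ 2 ≤ ENNReal.ofReal (Cf * (Ck * (2 * Real.pi * n) ^ (1 - 4 * s))) := by
    intro n
    rcases Nat.eq_zero_or_pos n with h | h
    · exact ⟨0, fun h' => by omega⟩
    · have hn : (1 : ℝ) ≤ (n : ℝ) := by exact_mod_cast h
      have ht : 1 ≤ 2 * Real.pi * n := by nlinarith
      have ht0 : 0 < 2 * Real.pi * n := by linarith
      have hm : BM (mN s (2 * Real.pi * n)) := tN_BM h12 h1 ht0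
      have hFT : (FT (FT.symm (mNH s (2 * Real.pi * n))) : E3 → ℂ) =ᵐ[volume]
          mN s (2 * Real.pi * n) := by
        rw [LinearIsometryEquiv.apply_symm_apply]
        exact mNH_coe (mN_memLp h0 h1 ht0)
      obtain ⟨G, hG1, hG2, hG3⟩ := hf _ hm _ hFT V W hV hW
      refine ⟨G, fun _ => ⟨hG1, hG2, hG3.trans ?_⟩⟩
      rw [ENNReal.ofReal_mul hCf]
      gcongr
      exact hk _ ht
  choose G hG using hG
  refine ⟨6 * Cf * Ck + 2 * Cd * (‖dH r W‖ ^ 2 * ‖dH r V‖ ^ 2), by positivity, fun N hN => ?_⟩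
  have hN0 : 0 < N := by linarith
  have hexp : 1 - 4 * s ≤ 0 := by linarith
  set T : ℝ := N ^ (1 - 4 * s) with hT
  have hT0 : 0 ≤ T := Real.rpow_nonneg hN0.le _
  set S : Finset ℕ := Finset.Icc ⌊N⌋₊ ⌊2 * N⌋₊ with hS
  have hSmem : ∀ n ∈ S, 1 ≤ n ∧ N ≤ 2 * Real.pi * n := by
    intro n hn
    rw [hS, Finset.mem_Icc] at hn
    have h2 : 1 ≤ ⌊N⌋₊ := (Nat.one_le_floor_iff N).2 hN
    have h3 : N < ⌊N⌋₊ + 1 := Nat.lt_floor_add_one N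
    have h4 : ((⌊N⌋₊ : ℕ) : ℝ) ≤ n := by exact_mod_cast hn.1
    have h5 : (1 : ℝ) ≤ ⌊N⌋₊ := by exact_mod_cast h2
    refine ⟨h2.trans hn.1, ?_⟩
    nlinarith
  have hScard : (S.card : ℝ) ≤ 3 * N := by
    rw [hS, Nat.card_Icc]
    have h2 : 1 ≤ ⌊N⌋₊ := (Nat.one_le_floor_iff N).2 hN
    have h6 : ⌊2 * N⌋₊ + 1 - ⌊N⌋₊ ≤ ⌊2 * N⌋₊ := by omega
    have h7 : ((⌊2 * N⌋₊ : ℕ) : ℝ) ≤ 2 * N := Nat.floor_le (by linarith)
    have h8 : (((⌊2 * N⌋₊ + 1 - ⌊N⌋₊ : ℕ)) : ℝ) ≤ (⌊2 * N⌋₊ : ℕ) := by exact_mod_cast h6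
    linarith
  refine ⟨fun ξ => (2 * (∑ n ∈ S, ‖G n ξ‖ₑ ^ 2 + ENNReal.ofReal (Cd * T) * tN_H r V W ξ)) ^
    (1 / 2 : ℝ), ?_, ?_, ?_⟩
  · refine Measurable.pow_const (Measurable.const_mul (Measurable.add ?_
      ((tN_H_meas r V W).const_mul _)) _) _
    refine Finset.measurable_sum _ fun n hn => ?_
    exact ((hG n (hSmem n hn).1).1.measurable.enorm).pow_const 2
  · intro ξ hξ
    have hξ1 : N < ‖ξ‖ := hξ.1
    have hξ2 : ‖ξ‖ ≤ 2 * N := hξ.2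
    set n := ⌊‖ξ‖⌋₊ with hn
    have hn1 : (n : ℝ) ≤ ‖ξ‖ := Nat.floor_le (norm_nonneg _)
    have hn2 : ‖ξ‖ < n + 1 := Nat.lt_floor_add_one _
    have hnS : n ∈ S := by
      rw [hS, Finset.mem_Icc]
      exact ⟨Nat.floor_mono hξ1.le, Nat.floor_mono hξ2⟩
    obtain ⟨hn3, hn4⟩ := hSmem n hnS
    have hn5 : (1 : ℝ) ≤ n := by exact_mod_cast hn3
    have ht1 : 1 ≤ 2 * Real.pi * ‖ξ‖ := by nlinarith
    have ht2 : 1 ≤ 2 * Real.pi * n := by nlinarith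
    have hm1 : BM (mN s (2 * Real.pi * ‖ξ‖)) := tN_BM h12 h1 (by linarith)
    have hm2 : BM (mN s (2 * Real.pi * n)) := tN_BM h12 h1 (by linarith)
    have hdiff : |2 * Real.pi * ‖ξ‖ - 2 * Real.pi * n| ≤ 7 := by
      have : 2 * Real.pi * ‖ξ‖ - 2 * Real.pi * n = 2 * Real.pi * (‖ξ‖ - n) := by ring
      rw [this, abs_of_nonneg (by
        have : 0 ≤ ‖ξ‖ - n := by linarith
        positivity)]
      nlinarith
    have hd' := hd _ _ ht1 ht2 hdiff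
    have hQ : A3 (dH r W) (eH r ξ) (Mop s r (km ξ) (mulL V (eH r ξ))) =
        tN_Q r V W (mN s (2 * Real.pi * ‖ξ‖)) ξ := rfl
    have hU := unfrN (hm1.sub hm2) hV hW ξ
    have hU' : ‖tN_Q r V W (fun ζ => mN s (2 * Real.pi * ‖ξ‖) ζ - mN s (2 * Real.pi * n) ζ) ξ‖ₑ ^ 2 ≤
        ENNReal.ofReal (Cd * T) * tN_H r V W ξ := by
      refine hU.trans ?_
      unfold tN_H
      gcongr
      refine hd'.trans (ENNReal.ofReal_le_ofReal ?_)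
      gcongr
      rw [hT]
      refine Real.rpow_le_rpow_of_nonpos hN0 ?_ hexp
      nlinarith
    have hsum : ‖G n ξ‖ₑ ^ 2 ≤ ∑ n ∈ S, ‖G n ξ‖ₑ ^ 2 :=
      Finset.single_le_sum (f := fun n => ‖G n ξ‖ₑ ^ 2) (fun _ _ => zero_le) hnS
    have hfin : ‖A3 (dH r W) (eH r ξ) (Mop s r (km ξ) (mulL V (eH r ξ)))‖ₑ ^ 2 ≤
        2 * (∑ n ∈ S, ‖G n ξ‖ₑ ^ 2 + ENNReal.ofReal (Cd * T) * tN_H r V W ξ) := by
      rw [hQ, tN_Q_sub hm1 hm2]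
      refine (pow_le_pow_left' (enorm_add_le _ _) 2).trans ((tN_sq_add _ _).trans ?_)
      rw [(hG n hn3).2.1 ξ]
      gcongr
    calc ‖A3 (dH r W) (eH r ξ) (Mop s r (km ξ) (mulL V (eH r ξ)))‖ₑ =
        (‖A3 (dH r W) (eH r ξ) (Mop s r (km ξ) (mulL V (eH r ξ)))‖ₑ ^ 2) ^ (1 / 2 : ℝ) := by
          rw [← ENNReal.rpow_two, ← ENNReal.rpow_mul]
          norm_num
      _ ≤ _ := ENNReal.rpow_le_rpow hfin (by norm_num)
  · have e1 : ∀ ξ : E3, ((2 * (∑ n ∈ S, ‖G n ξ‖ₑ ^ 2 +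
        ENNReal.ofReal (Cd * T) * tN_H r V W ξ)) ^ (1 / 2 : ℝ)) ^ 2 =
        2 * (∑ n ∈ S, ‖G n ξ‖ₑ ^ 2 + ENNReal.ofReal (Cd * T) * tN_H r V W ξ) := by
      intro ξ
      rw [← ENNReal.rpow_two, ← ENNReal.rpow_mul]
      norm_num
    have hGm : ∀ n ∈ S, Measurable fun ξ => ‖G n ξ‖ₑ ^ 2 := fun n hn =>
      ((hG n (hSmem n hn).1).1.measurable.enorm).pow_const 2
    calc ∫⁻ ξ in Sh N, ((2 * (∑ n ∈ S, ‖G n ξ‖ₑ ^ 2 +
        ENNReal.ofReal (Cd * T) * tN_H r V W ξ)) ^ (1 / 2 : ℝ)) ^ 2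
        ≤ ∫⁻ ξ, ((2 * (∑ n ∈ S, ‖G n ξ‖ₑ ^ 2 +
        ENNReal.ofReal (Cd * T) * tN_H r V W ξ)) ^ (1 / 2 : ℝ)) ^ 2 := setLIntegral_le_lintegral _ _
      _ = 2 * ((∑ n ∈ S, (∫⁻ ξ, ‖G n ξ‖ₑ ^ 2)) + ENNReal.ofReal (Cd * T) * (∫⁻ ξ, tN_H r V W ξ)) := by
        simp_rw [e1]
        have m1 : Measurable fun ξ => ∑ n ∈ S, ‖G n ξ‖ₑ ^ 2 := Finset.measurable_fun_sum _ hGm
        have m2 : Measurable fun ξ => ENNReal.ofReal (Cd * T) * tN_H r V W ξ :=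
          (tN_H_meas r V W).const_mul _
        have m3 : Measurable fun ξ => ∑ n ∈ S, ‖G n ξ‖ₑ ^ 2 +
            ENNReal.ofReal (Cd * T) * tN_H r V W ξ := m1.add m2
        rw [lintegral_const_mul _ m3, lintegral_add_left m1,
          lintegral_finsetSum _ hGm, lintegral_const_mul _ (tN_H_meas r V W)]
      _ ≤ 2 * (∑ _n ∈ S, ENNReal.ofReal (Cf * (Ck * T)) +
          ENNReal.ofReal (Cd * T) * ENNReal.ofReal (‖dH r W‖ ^ 2 * ‖dH r V‖ ^ 2)) := by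
        gcongr with n hn
        · refine (hG n (hSmem n hn).1).2.2.trans (ENNReal.ofReal_le_ofReal ?_)
          gcongr
          rw [hT]
          exact Real.rpow_le_rpow_of_nonpos hN0 (hSmem n hn).2 hexp
        · exact tN_H_int hV hW
      _ = ENNReal.ofReal (2 * (S.card * (Cf * (Ck * T)) +
          Cd * T * (‖dH r W‖ ^ 2 * ‖dH r V‖ ^ 2))) := by
        rw [Finset.sum_const, nsmul_eq_mul, ← ENNReal.ofReal_natCast,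
          ← ENNReal.ofReal_mul (by positivity), ← ENNReal.ofReal_mul (by positivity),
          ← ENNReal.ofReal_add (by positivity) (by positivity)]
        rw [ENNReal.ofReal_mul (by norm_num : (0 : ℝ) ≤ 2)]
        norm_num
      _ ≤ _ := by
        refine ENNReal.ofReal_le_ofReal ?_
        have hTN : N ^ (2 - 4 * s) = N * T := by
          rw [hT]
          have : (2 : ℝ) - 4 * s = 1 + (1 - 4 * s) := by ring
          rw [this, Real.rpow_add hN0, Real.rpow_one]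
        rw [hTN]
        have a1 : (S.card : ℝ) * (Cf * (Ck * T)) ≤ 3 * N * (Cf * (Ck * T)) :=
          mul_le_mul_of_nonneg_right hScard (by positivity)
        have a2 : Cd * T * (‖dH r W‖ ^ 2 * ‖dH r V‖ ^ 2) ≤
            N * (Cd * T * (‖dH r W‖ ^ 2 * ‖dH r V‖ ^ 2)) := by
          have : 0 ≤ Cd * T * (‖dH r W‖ ^ 2 * ‖dH r V‖ ^ 2) := by positivity
          nlinarith
        nlinarith

end FracScatC

end
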