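import Pool.Agent.Lib.MP_6e2ba5_an.Ex.TailP
import Pool.Agent.Lib.MP_6e2ba5_an.Ex.TailN
import Pool.Agent.Lib.MP_6e2ba5_an.Ex.ExpE
import Pool.Agent.Lib.MP_6e2ba5_an.Ex.ShApi
import Pool.Agent.Lib.MP_6e2ba5_an.Ex.DiffE
import Pool.Agent.Lib.MP_6e2ba5_an.Ex.MeasE
import Pool.Agent.Lib.MP_6e2ba5_an.Ex.EssE
import Pool.Agent.Lib.MP_6e2ba5_an.Ex.IdentN
import Pool.Agent.Lib.MP_6e2ba5_an.Cx.FinalB

/-! # Theorem E: the values of `V₁ - V₂` form a connected set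

If `V₁` and `V₂` have the same back-scattering data, then the essential range of `V₁ - V₂` is
connected; in particular `V₁ = V₂` if `V₁ - V₂` takes finitely many values. -/

set_option autoImplicit false

open MeasureTheory Filter Topology Set
open scoped FourierTransform SchwartzMap InnerProductSpace ENNReal BoundedContinuousFunction

noncomputable section

namespace FracScatC

open FracScat

theorem ShB.mono {N c c' : ℝ} {F : E3 → ℂ} (h : ShB N c F) (hc : c ≤ c') : ShB N c' F := by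
  obtain ⟨G, hG, hFG, hGc⟩ := h
  exact ⟨G, hG, hFG, hGc.trans (ENNReal.ofReal_le_ofReal hc)⟩

private lemma FE_sub {r M : ℝ} {V₁ V₂ : E3 → ℂ} (h₁ : IsPot r M V₁) (h₂ : IsPot r M V₂) :
    IsPot r (2 * M) (fun x => V₁ x - V₂ x) := by
  have := h₁.sub h₂
  rwa [← two_mul] at this

/-- The shell bounds for `s > 1`. -/
private lemma FE_pos {s : ℝ} (h1 : 1 < s) (h2 : s < 2) {r M : ℝ} (hr : 0 < r) :
    ∃ K : ℝ, 1 ≤ K ∧ ∀ V₁ V₂ : E3 → ℂ, IsPot r M V₁ → IsPot r M V₂ → ∀ a b : ℝ, K ≤ a → a < b →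
      (∀ k ∈ Ioo a b, ∀ θ : E3, ‖θ‖ = 1 → SameBackScattering s k V₁ V₂ θ) →
      ∃ β C N₀ : ℝ, 1 < β ∧ 0 ≤ C ∧ 1 ≤ N₀ ∧ ∀ N : ℝ, N₀ ≤ N →
        ∫⁻ ξ in Sh N, ‖ftX (dH r (fun x => V₁ x - V₂ x)) (-(2 : ℝ) • ξ)‖ₑ ^ 2 ≤
          ENNReal.ofReal (C * N ^ (-β)) := by
  have h0 : 3 / 4 < s := by linarith
  obtain ⟨K, hK, hT⟩ := exists_N h0 h2 hr M
  refine ⟨K, hK, fun V₁ V₂ hV₁ hV₂ a b ha hab hd => ?_⟩
  obtain ⟨C, hC, hKx⟩ := Kx_norm h0 h2 hr.le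
  have hM := hV₁.nonneg
  obtain ⟨N₁, hN₁, hsm⟩ := FB_small (C := C * M) (b := 2 * s - 1) (by linarith)
    (by norm_num : (0 : ℝ) < 1 / 2) (by positivity)
  obtain ⟨C₁, hC₁, hB₁⟩ := tailP h1 h2 hr (hV₁.mono (by linarith : M ≤ 2 * M)) (FE_sub hV₁ hV₂)
  obtain ⟨C₂, hC₂, hB₂⟩ := tailP h1 h2 hr (hV₂.mono (by linarith : M ≤ 2 * M)) (FE_sub hV₁ hV₂)
  have hN0 : 1 ≤ max K N₁ := hK.trans (le_max_left _ _)
  have hexp : ∀ N : ℝ, N ^ (1 - 2 * s) = N ^ (-(2 * s - 1)) := fun N => by congr 1; ring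
  have hcomb := shComb (β := 2 * s - 1) (b := 4 * s - 2) (C₁ := C₁ + C₂)
    (C₃ := 16 * M ^ 3 * ‖oneB r‖ ^ 2 * C ^ 2) (N₀ := max K N₁)
    (F₀ := fun ξ => ftX (dH r (fun x => V₁ x - V₂ x)) (-(2 : ℝ) • ξ))
    (F₁ := fun ξ => A3 (dH r (fun x => V₁ x - V₂ x)) (eH r ξ)
      (Kop s r (kx ξ) (mulL V₁ (eH r ξ))))
    (F₂ := fun ξ => A3 (dH r (fun x => V₁ x - V₂ x)) (eH r ξ)
      (Kop s r (kx ξ) (mulL V₂ (eH r ξ))))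
    (by linarith) (by linarith) (by positivity) (by positivity) hN0
  have hA := hcomb ?_ ?_ ?_
  · obtain ⟨C', hC', hfin⟩ := hA
    exact ⟨2 * s - 1, C', max K N₁, by linarith, hC', hN0, hfin⟩
  · intro N hN
    have hN' : (0 : ℝ) ≤ N ^ (-(2 * s - 1)) := Real.rpow_nonneg (by linarith) _
    refine (hB₁ N (hN0.trans hN)).mono ?_
    rw [hexp]
    nlinarith
  · intro N hN
    have hN' : (0 : ℝ) ≤ N ^ (-(2 * s - 1)) := Real.rpow_nonneg (by linarith) _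
    refine (hB₂ N (hN0.trans hN)).mono ?_
    rw [hexp]
    nlinarith
  · intro ξ hξ
    have hξK : K ≤ ‖ξ‖ := (le_max_left _ _).trans hξ
    have hξ1 : 1 ≤ ‖ξ‖ := hK.trans hξK
    have hne : ξ ≠ 0 := FB_ne hK hξK
    have hTξ : ∀ V : E3 → ℂ, IsPot r M V → ‖Tk s r V (kx ξ)‖ ≤ 1 / 2 :=
      fun V hV => hT V hV _ (kx_mem_Reg hξK)
    have hθ : ‖(‖ξ‖⁻¹ • ξ : E3)‖ = 1 := norm_smul_inv_norm (𝕜 := ℝ) hne
    have hz : A3 (dH r (fun x => V₁ x - V₂ x)) (UX s r V₁ ξ) (UX s r V₂ ξ) = 0 := by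
      rw [ident h0 h2 hr.le hne hV₁ hV₂ (hTξ V₁ hV₁) (hTξ V₂ hV₂)]
      have := data_real (by linarith) h2 hr hV₁ hV₂ hθ hK (hT V₁ hV₁) (hT V₂ hV₂) ha hab
        (fun k hk => hd k hk _ hθ) (2 * Real.pi * ‖ξ‖) (FB_kx hK hξK)
      rw [kx, this, sub_self]
    have hpow : C * M * ‖ξ‖ ^ (-(2 * s - 1)) ≤ 1 / 2 := hsm _ ((le_max_right _ _).trans hξ)
    have hk := hKx ξ hξ1
    have hexp' : ‖ξ‖ ^ (1 - 2 * s) = ‖ξ‖ ^ (-(2 * s - 1)) := by congr 1; ring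
    have := expE hr.le hV₁ hV₂ (K := Kop s r (kx ξ)) (κ := C * ‖ξ‖ ^ (1 - 2 * s))
      (by positivity) hk (by rw [hexp']; linarith [hpow]) (ξ := ξ) hz
    refine this.trans (le_of_eq ?_)
    have hsq : (C * ‖ξ‖ ^ (1 - 2 * s)) ^ 2 = C ^ 2 * ‖ξ‖ ^ (-(4 * s - 2)) := by
      rw [mul_pow, ← Real.rpow_natCast (‖ξ‖ ^ (1 - 2 * s)) 2, ← Real.rpow_mul (norm_nonneg _)]
      congr 2
      push_cast
      ring
    rw [hsq]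
    ring

/-- The shell bounds for `s < 1`. -/
private lemma FE_neg {s : ℝ} (h0 : 3 / 4 < s) (h1 : s < 1) {r M : ℝ} (hr : 0 < r) :
    ∃ K : ℝ, 1 ≤ K ∧ ∀ V₁ V₂ : E3 → ℂ, IsPot r M V₁ → IsPot r M V₂ → ∀ a b : ℝ, K ≤ a → a < b →
      (∀ k ∈ Ioo a b, ∀ θ : E3, ‖θ‖ = 1 → SameBackScattering s k V₁ V₂ θ) →
      ∃ β C N₀ : ℝ, 1 < β ∧ 0 ≤ C ∧ 1 ≤ N₀ ∧ ∀ N : ℝ, N₀ ≤ N →
        ∫⁻ ξ in Sh N, ‖ftX (dH r (fun x => V₁ x - V₂ x)) (-(2 : ℝ) • ξ)‖ₑ ^ 2 ≤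
          ENNReal.ofReal (C * N ^ (-β)) := by
  obtain ⟨K, hK, hT⟩ := exists_NN h0 h1 hr M
  refine ⟨K, hK, fun V₁ V₂ hV₁ hV₂ a b ha hab hd => ?_⟩
  obtain ⟨C, hC, hKx⟩ := Mop_norm (by linarith : 1 / 2 < s) h1 r
  have hM := hV₁.nonneg
  obtain ⟨N₁, hN₁, hsm⟩ := FB_small (C := C * M) (b := 2 * s) (by linarith)
    (by norm_num : (0 : ℝ) < 1 / 2) (by positivity)
  obtain ⟨C₁, hC₁, hB₁⟩ := tailN h0 h1 hr (hV₁.mono (by linarith : M ≤ 2 * M)) (FE_sub hV₁ hV₂)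
  obtain ⟨C₂, hC₂, hB₂⟩ := tailN h0 h1 hr (hV₂.mono (by linarith : M ≤ 2 * M)) (FE_sub hV₁ hV₂)
  have hN0 : 1 ≤ max K N₁ := hK.trans (le_max_left _ _)
  have hexp : ∀ N : ℝ, N ^ (2 - 4 * s) = N ^ (-(4 * s - 2)) := fun N => by congr 1; ring
  have hcomb := shComb (β := 4 * s - 2) (b := 4 * s) (C₁ := C₁ + C₂)
    (C₃ := 16 * M ^ 3 * ‖oneB r‖ ^ 2 * C ^ 2) (N₀ := max K N₁)
    (F₀ := fun ξ => ftX (dH r (fun x => V₁ x - V₂ x)) (-(2 : ℝ) • ξ))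
    (F₁ := fun ξ => A3 (dH r (fun x => V₁ x - V₂ x)) (eH r ξ)
      (Mop s r (km ξ) (mulL V₁ (eH r ξ))))
    (F₂ := fun ξ => A3 (dH r (fun x => V₁ x - V₂ x)) (eH r ξ)
      (Mop s r (km ξ) (mulL V₂ (eH r ξ))))
    (by linarith) (by linarith) (by positivity) (by positivity) hN0
  have hA := hcomb ?_ ?_ ?_
  · obtain ⟨C', hC', hfin⟩ := hA
    exact ⟨4 * s - 2, C', max K N₁, by linarith, hC', hN0, hfin⟩
  · intro N hN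
    have hN' : (0 : ℝ) ≤ N ^ (-(4 * s - 2)) := Real.rpow_nonneg (by linarith) _
    refine (hB₁ N (hN0.trans hN)).mono ?_
    rw [hexp]
    nlinarith
  · intro N hN
    have hN' : (0 : ℝ) ≤ N ^ (-(4 * s - 2)) := Real.rpow_nonneg (by linarith) _
    refine (hB₂ N (hN0.trans hN)).mono ?_
    rw [hexp]
    nlinarith
  · intro ξ hξ
    have hξK : K ≤ ‖ξ‖ := (le_max_left _ _).trans hξ
    have hξ1 : 1 ≤ ‖ξ‖ := hK.trans hξK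
    have hne : ξ ≠ 0 := FB_ne hK hξK
    have hz : A3 (dH r (fun x => V₁ x - V₂ x)) (UN s r V₁ ξ) (UN s r V₂ ξ) = 0 :=
      vanishN h0 h1 hr hV₁ hV₂ hK (hT V₁ hV₁).1 (hT V₂ hV₂).1 (hT V₁ hV₁).2 (hT V₂ hV₂).2
        ha hab hd hξK
    have hkm : ‖Mop s r (km ξ)‖ ≤ C * ‖ξ‖ ^ (-(2 * s)) := by
      refine (hKx _ (km_mem_Sec2 hne)).trans (mul_le_mul_of_nonneg_left ?_ hC)
      rw [norm_km]
      refine Real.rpow_le_rpow_of_nonpos (by linarith) ?_ (by linarith)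
      nlinarith [Real.pi_gt_three]
    have hpow : C * M * ‖ξ‖ ^ (-(2 * s)) ≤ 1 / 2 := hsm _ ((le_max_right _ _).trans hξ)
    have := expE hr.le hV₁ hV₂ (K := Mop s r (km ξ)) (κ := C * ‖ξ‖ ^ (-(2 * s)))
      (by positivity) hkm (by linarith [hpow]) (ξ := ξ) hz
    refine this.trans (le_of_eq ?_)
    have hsq : (C * ‖ξ‖ ^ (-(2 * s))) ^ 2 = C ^ 2 * ‖ξ‖ ^ (-(4 * s)) := by
      rw [mul_pow, ← Real.rpow_natCast (‖ξ‖ ^ (-(2 * s))) 2, ← Real.rpow_mul (norm_nonneg _)]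
      congr 2
      push_cast
      ring
    rw [hsq]
    ring

theorem final_E {s r M : ℝ} (h0 : 3 / 4 < s) (h2 : s < 2) (h1 : s ≠ 1) (hr : 0 < r) :
    ∃ K : ℝ, 1 ≤ K ∧ ∀ V₁ V₂ : E3 → ℂ, IsPot r M V₁ → IsPot r M V₂ → ∀ a b : ℝ, K ≤ a → a < b →
      (∀ k ∈ Ioo a b, ∀ θ : E3, ‖θ‖ = 1 → SameBackScattering s k V₁ V₂ θ) →
      IsPreconnected (essR (fun x => V₁ x - V₂ x)) ∧
      ∀ F : Set ℂ, IsClosed F → IsTotallyDisconnected F →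
        (∀ᵐ x ∂(volume : Measure E3), V₁ x - V₂ x ∈ F) → V₁ =ᵐ[volume] V₂ := by
  have key : ∃ K : ℝ, 1 ≤ K ∧ ∀ V₁ V₂ : E3 → ℂ, IsPot r M V₁ → IsPot r M V₂ → ∀ a b : ℝ,
      K ≤ a → a < b →
      (∀ k ∈ Ioo a b, ∀ θ : E3, ‖θ‖ = 1 → SameBackScattering s k V₁ V₂ θ) →
      ∃ β C N₀ : ℝ, 1 < β ∧ 0 ≤ C ∧ 1 ≤ N₀ ∧ ∀ N : ℝ, N₀ ≤ N →
        ∫⁻ ξ in Sh N, ‖ftX (dH r (fun x => V₁ x - V₂ x)) (-(2 : ℝ) • ξ)‖ₑ ^ 2 ≤
          ENNReal.ofReal (C * N ^ (-β)) := by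
    rcases lt_or_gt_of_ne h1 with h | h
    · exact FE_neg h0 h hr
    · exact FE_pos h h2 hr
  obtain ⟨K, hK, hkey⟩ := key
  refine ⟨K, hK, fun V₁ V₂ hV₁ hV₂ a b ha hab hd => ?_⟩
  obtain ⟨β, C, N₀, hβ, hC, hN₀, hsh⟩ := hkey V₁ V₂ hV₁ hV₂ a b ha hab hd
  have hD := FE_sub hV₁ hV₂
  obtain ⟨α, C', hα, hC', hdiff⟩ := diffE hr hD hβ hC hN₀ hsh
  have hpc : IsPreconnected (essR (fun x => V₁ x - V₂ x)) :=
    essR_preconnected hD fun A B δ hA hB hA0 hδ hAB hcov =>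
      measE hD hα hC' hdiff hA hB hA0 hδ hAB hcov
  refine ⟨hpc, fun F hF hF' hDF => ?_⟩
  filter_upwards [essR_td hD hpc hF hF' hDF] with x hx
  exact sub_eq_zero.1 hx

end FracScatC

end
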