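import Pool.Agent.Lib.MP_6e2ba5_an.Ex.SymN

/-! # The resolvent off the spectrum: bounds

`BM (rsE s k)`: for `k ∈ Sec2` the denominator is bounded below by `c ‖k‖^(2s)` (`symN`). For `Im k > 0`,
`0 < s < 1`: `k^(2s) = ‖k‖^(2s) exp(2s i arg k)`, `2s arg k ∈ (0, 2π)`, so `k^(2s)` is not in the closed set
`[0,∞)` and has a positive distance to it. Measurability of `ξ ↦ rsE s k ξ` (compare `../KopInt.lean`).
`Mop_norm`: `norm_multL_le`, `norm_mulL_indB`. `Mop_symm`: the symbol is even; as `Kop_symm` in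
`Cx/KopRep.lean` (its proof can be copied: `parseval`, `FT_multL_coe`). `exists_NN`: `exists_N` (file
`Cx/UBnd`) and `Mop_norm`, `‖Tm‖ ≤ ‖Mop‖ M ≤ C M K^(-2s) ≤ 1/2`. -/

set_option autoImplicit false

open MeasureTheory Filter Topology Set
open scoped FourierTransform SchwartzMap InnerProductSpace ENNReal BoundedContinuousFunction

noncomputable section

namespace FracScatC

open FracScat

private theorem MopB_meas (s : ℝ) (k : ℂ) : AEStronglyMeasurable (rsE s k) volume := by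
  have h0 : Measurable (fun a => rs s k a) := by
    unfold rs
    fun_prop
  have h1 : Measurable (fun ξ : E3 => 2 * Real.pi * ‖ξ‖) := measurable_norm.const_mul _
  exact (h0.comp h1).aestronglyMeasurable

private theorem MopB_bound {s : ℝ} (h0 : 1 / 2 < s) (h1 : s < 1) :
    ∃ C : ℝ, 0 ≤ C ∧ ∀ k ∈ Sec2, ∀ ξ : E3, ‖rsE s k ξ‖ ≤ C * ‖k‖ ^ (-(2 * s)) := by
  obtain ⟨c, hc, h⟩ := symN h0 h1
  refine ⟨c⁻¹, by positivity, fun k hk ξ => ?_⟩
  have hk0 : 0 < ‖k‖ := norm_pos_iff.2 hk.2.2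
  have ha : 0 ≤ 2 * Real.pi * ‖ξ‖ := by positivity
  have h2 := h k hk _ ha
  have h3 : 0 ≤ (2 * Real.pi * ‖ξ‖) ^ (2 * s) := Real.rpow_nonneg ha _
  have h4 : 0 < ‖k‖ ^ (2 * s) := Real.rpow_pos_of_pos hk0 _
  have h5 : c * ‖k‖ ^ (2 * s) ≤ c * ((2 * Real.pi * ‖ξ‖) ^ (2 * s) + ‖k‖ ^ (2 * s)) :=
    mul_le_mul_of_nonneg_left (by linarith) hc.le
  unfold rsE rs
  rw [norm_div, norm_one, Real.rpow_neg hk0.le, ← mul_inv, ← one_div]
  exact one_div_le_one_div_of_le (by positivity) (h5.trans h2)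

theorem rsE_BM2 {s : ℝ} (h0 : 1 / 2 < s) (h1 : s < 1) {k : ℂ} (hk : k ∈ Sec2) : BM (rsE s k) := by
  obtain ⟨C, _, h⟩ := MopB_bound h0 h1
  exact ⟨MopB_meas s k, C * ‖k‖ ^ (-(2 * s)), Eventually.of_forall fun ξ => h k hk ξ⟩

private theorem MopB_notMem {s : ℝ} (h0 : 0 < s) (h1 : s < 1) {k : ℂ} (hk : 0 < k.im) :
    k ^ ((2 * s : ℝ) : ℂ) ∉ {z : ℂ | 0 ≤ z.re ∧ z.im = 0} := by
  have hk0 : k ≠ 0 := by
    intro h
    rw [h, Complex.zero_im] at hk
    exact lt_irrefl _ hk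
  have ha0 : 0 < k.arg := by
    rcases (Complex.arg_nonneg_iff.2 hk.le).lt_or_eq with h | h
    · exact h
    · have := Complex.arg_eq_zero_iff.1 h.symm
      rw [this.2] at hk
      exact absurd hk (lt_irrefl _)
  have ha1 : k.arg ≤ Real.pi := Complex.arg_le_pi k
  have hθ0 : 0 < k.arg * (2 * s) := by positivity
  have hθ1 : k.arg * (2 * s) < 2 * Real.pi := by
    have := Real.pi_pos
    nlinarith
  rintro ⟨hre, him⟩
  rw [Complex.cpow_def_of_ne_zero hk0] at hre him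
  rw [Complex.exp_re, Complex.re_mul_ofReal, Complex.im_mul_ofReal, Complex.log_im] at hre
  rw [Complex.exp_im, Complex.re_mul_ofReal, Complex.im_mul_ofReal, Complex.log_im] at him
  have hs : Real.sin (k.arg * (2 * s)) = 0 := by
    rcases mul_eq_zero.1 him with h | h
    · exact absurd h (Real.exp_pos _).ne'
    · exact h
  have hc : 0 ≤ Real.cos (k.arg * (2 * s)) := by
    by_contra h
    push Not at h
    have := mul_neg_of_pos_of_neg (Real.exp_pos ((Complex.log k).re * (2 * s))) h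
    linarith
  have hπ : k.arg * (2 * s) = Real.pi := by
    rcases lt_trichotomy (k.arg * (2 * s)) Real.pi with h | h | h
    · exact absurd hs (Real.sin_pos_of_pos_of_lt_pi hθ0 h).ne'
    · exact h
    · have h3 : 0 < Real.sin (k.arg * (2 * s) - Real.pi) :=
        Real.sin_pos_of_pos_of_lt_pi (by linarith) (by linarith)
      rw [Real.sin_sub_pi, hs, neg_zero] at h3
      exact absurd h3 (lt_irrefl _)
  rw [hπ, Real.cos_pi] at hc
  linarith

theorem rsE_BMU {s : ℝ} (h0 : 0 < s) (h1 : s < 1) {k : ℂ} (hk : 0 < k.im) : BM (rsE s k) := by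
  set F : Set ℂ := {z : ℂ | 0 ≤ z.re ∧ z.im = 0} with hF
  have hcl : IsClosed F :=
    (isClosed_le continuous_const Complex.continuous_re).inter
      (isClosed_eq Complex.continuous_im continuous_const)
  have hne : F.Nonempty := ⟨0, by simp [hF]⟩
  have hd : 0 < Metric.infDist (k ^ ((2 * s : ℝ) : ℂ)) F :=
    (hcl.notMem_iff_infDist_pos hne).1 (MopB_notMem h0 h1 hk)
  refine ⟨MopB_meas s k, 1 / Metric.infDist (k ^ ((2 * s : ℝ) : ℂ)) F,
    Eventually.of_forall fun ξ => ?_⟩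
  unfold rsE rs
  rw [norm_div, norm_one]
  refine one_div_le_one_div_of_le hd ?_
  have hmem : (((2 * Real.pi * ‖ξ‖) ^ (2 * s) : ℝ) : ℂ) ∈ F := by
    refine ⟨?_, Complex.ofReal_im _⟩
    rw [Complex.ofReal_re]
    positivity
  have := Metric.infDist_le_dist_of_mem (x := k ^ ((2 * s : ℝ) : ℂ)) hmem
  rwa [dist_comm, dist_eq_norm] at this

private theorem MopB_cut (r : ℝ) (T : HS →L[ℂ] HS) :
    ‖mulL (indB r) ∘L T ∘L mulL (indB r)‖ ≤ ‖T‖ := by
  have h1 := norm_mulL_indB r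
  calc ‖mulL (indB r) ∘L T ∘L mulL (indB r)‖
      ≤ ‖mulL (indB r)‖ * ‖T ∘L mulL (indB r)‖ := ContinuousLinearMap.opNorm_comp_le _ _
    _ ≤ 1 * (‖T‖ * 1) := by
        refine mul_le_mul h1 ?_ (norm_nonneg _) zero_le_one
        exact (ContinuousLinearMap.opNorm_comp_le _ _).trans
          (mul_le_mul_of_nonneg_left h1 (norm_nonneg _))
    _ = ‖T‖ := by ring

theorem Mop_norm {s : ℝ} (h0 : 1 / 2 < s) (h1 : s < 1) (r : ℝ) :
    ∃ C : ℝ, 0 ≤ C ∧ ∀ k ∈ Sec2, ‖Mop s r k‖ ≤ C * ‖k‖ ^ (-(2 * s)) := by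
  obtain ⟨C, hC, h⟩ := MopB_bound h0 h1
  refine ⟨C, hC, fun k hk => ?_⟩
  unfold Mop
  refine (MopB_cut r _).trans ?_
  exact norm_multL_le (rsE_BM2 h0 h1 hk) (by positivity) (Eventually.of_forall fun ξ => h k hk ξ)

theorem Mop_eq_Kop {s : ℝ} (h0 : 0 < s) (h2 : s < 2) {r : ℝ} (hr : 0 ≤ r) {k : ℂ}
    (hk : k ∈ Quad) (hk' : 0 < k.im) : Mop s r k = Kop s r k :=
  (Kop_interior h0 h2 hr hk hk').symm

private theorem MopB_move {r : ℝ} (u v : HS) :
    ∫ x, (mulL (indB r) u : E3 → ℂ) x * (v : E3 → ℂ) x =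
      ∫ x, (u : E3 → ℂ) x * (mulL (indB r) v : E3 → ℂ) x := by
  apply integral_congr_ae
  filter_upwards [mulL_coe (indB_BM r) u, mulL_coe (indB_BM r) v] with x a b
  rw [a, b]
  ring

private theorem MopB_mult {m : E3 → ℂ} (hm : BM m) (he : ∀ ξ, m (-ξ) = m ξ) (u v : HS) :
    ∫ x, (multL m u : E3 → ℂ) x * (v : E3 → ℂ) x =
      ∫ x, (u : E3 → ℂ) x * (multL m v : E3 → ℂ) x := by
  rw [parseval (multL m u) v, parseval u (multL m v)]
  apply integral_congr_ae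
  have hmp : MeasurePreserving (fun x : E3 => -x) volume volume :=
    Measure.measurePreserving_neg volume
  have h2 := hmp.quasiMeasurePreserving.ae (FT_multL_coe hm v)
  filter_upwards [FT_multL_coe hm u, h2] with x a b
  rw [a, b, he]
  ring

theorem Mop_symm {s : ℝ} (r : ℝ) {k : ℂ} (hm : BM (rsE s k)) (f g : HS) :
    ∫ x, (Mop s r k f : E3 → ℂ) x * (g : E3 → ℂ) x =
      ∫ x, (f : E3 → ℂ) x * (Mop s r k g : E3 → ℂ) x := by
  have he : ∀ ξ : E3, rsE s k (-ξ) = rsE s k ξ := by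
    intro ξ
    unfold rsE
    rw [norm_neg]
  show ∫ x, (mulL (indB r) (multL (rsE s k) (mulL (indB r) f)) : E3 → ℂ) x *
      (g : E3 → ℂ) x = ∫ x, (f : E3 → ℂ) x *
        (mulL (indB r) (multL (rsE s k) (mulL (indB r) g)) : E3 → ℂ) x
  rw [MopB_move, MopB_mult hm he, MopB_move]

theorem exists_NN {s : ℝ} (h0 : 3 / 4 < s) (h1 : s < 1) {r : ℝ} (hr : 0 < r) (M : ℝ) :
    ∃ K : ℝ, 1 ≤ K ∧ ∀ V : E3 → ℂ, IsPot r M V → (∀ k ∈ Reg K, ‖Tk s r V k‖ ≤ 1 / 2) ∧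
      ∀ k ∈ Sec2, K ≤ ‖k‖ → ‖Tm s r V k‖ ≤ 1 / 2 := by
  obtain ⟨K₁, hK₁, H₁⟩ := exists_K (s := s) (by linarith) (by linarith) hr M
  obtain ⟨C, hC, hM⟩ := Mop_norm (s := s) (by linarith) h1 r
  set M' : ℝ := max M 0 with hM'
  have hM0 : 0 ≤ M' := le_max_right _ _
  have ht : Tendsto (fun K : ℝ => C * K ^ (-(2 * s)) * M') atTop (𝓝 (C * 0 * M')) :=
    ((tendsto_rpow_neg_atTop (by linarith)).const_mul C).mul_const M'
  rw [mul_zero, zero_mul] at ht
  obtain ⟨K, hKa, hKb⟩ := ((ht.eventually_le_const (by norm_num : (0 : ℝ) < 1 / 2)).and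
    (eventually_ge_atTop K₁)).exists
  have hK1 : 1 ≤ K := hK₁.trans hKb
  refine ⟨K, hK1, fun V hV => ⟨fun k hk => ?_, fun k hk hkK => ?_⟩⟩
  · exact H₁ V hV k ⟨hk.1, hk.2.1, hKb.trans hk.2.2⟩
  · have hVM : ‖mulL V‖ ≤ M' := norm_mulL_le hV.BM hM0
      (Filter.Eventually.of_forall fun x => (hV.bounded x).trans (le_max_left _ _))
    have e1 : ‖Tm s r V k‖ ≤ ‖Mop s r k‖ * M' := (ContinuousLinearMap.opNorm_comp_le _ _).trans
      (mul_le_mul_of_nonneg_left hVM (norm_nonneg _))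
    have e2 : ‖k‖ ^ (-(2 * s)) ≤ K ^ (-(2 * s)) :=
      Real.rpow_le_rpow_of_nonpos (by linarith) hkK (by linarith)
    calc ‖Tm s r V k‖ ≤ ‖Mop s r k‖ * M' := e1
      _ ≤ (C * ‖k‖ ^ (-(2 * s))) * M' := mul_le_mul_of_nonneg_right (hM k hk) hM0
      _ ≤ (C * K ^ (-(2 * s))) * M' :=
          mul_le_mul_of_nonneg_right (mul_le_mul_of_nonneg_left e2 hC) hM0
      _ ≤ 1 / 2 := hKa

theorem km_mem_Sec2 {ξ : E3} (hξ : ξ ≠ 0) : km ξ ∈ Sec2 := by
  have hp := Real.pi_pos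
  have hn : 0 < ‖ξ‖ := norm_pos_iff.2 hξ
  have h1 : 0 < 2 * Real.pi * ‖ξ‖ := by positivity
  refine ⟨?_, ?_, ?_⟩
  · unfold km
    rw [Complex.ofReal_re]
    linarith
  · unfold km
    rw [Complex.ofReal_im]
  · unfold km
    rw [Ne, Complex.ofReal_eq_zero]
    linarith

theorem norm_km (ξ : E3) : ‖km ξ‖ = 2 * Real.pi * ‖ξ‖ := by
  unfold km
  rw [Complex.norm_real, norm_neg, Real.norm_of_nonneg]
  have := Real.pi_pos
  positivity

end FracScatC

end
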