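import Pool.Agent.Lib.MP_6e2ba5_an.Ex.MopB

/-! # The resolvent off the spectrum: analyticity and continuity

`multL_rsE_diffU`: as in `../KopDiff.lean` (whose private lemmas `kd_hasDeriv`, `kd_quot`, `kd_lower`, ... can
be copied): with `z = k^(2s)` the symbol is `1/(b - z)`, `b = (2π‖ξ‖)^(2s) ≥ 0`; if `|b - z₀| ≥ d > 0` for all
`b ≥ 0`, then `z ↦ multL (1/(b-z))` has derivative `multL (1/(b-z₀)²)` at `z₀`; `k ↦ k^(2s)` is
differentiable on `Im k > 0` (slit plane) and `k^(2s) ∉ [0,∞)` there (`2s arg k ∈ (0,2π)`), a closed set.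
`Mop_diff`: composition with constant continuous linear maps.
`Mop_cont`: for `k, k₀ ∈ Sec2`, `|1/(b-z) - 1/(b-z₀)| ≤ |z-z₀|/(c² ‖k‖^(2s) ‖k₀‖^(2s))` by `symN`, so
`norm_multL_le` applies to the difference (`multL_sub`); `k ↦ k^(2s)` is continuous on `Sec2`:
`k^(2s) = exp(2s log k)` and `log` is continuous within `{0 ≤ Im}` at every nonzero point
(`Complex.continuousWithinAt_log_of_re_neg_of_im_zero` on the negative axis, `continuousAt_clog`
elsewhere). -/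

set_option autoImplicit false

open MeasureTheory Filter Topology Set
open scoped FourierTransform SchwartzMap InnerProductSpace ENNReal BoundedContinuousFunction

noncomputable section

namespace FracScatC

open FracScat

/-- The resolvent symbol as a function of the spectral parameter. -/
private def kdS (s : ℝ) (z : ℂ) (ξ : E3) : ℂ :=
  1 / ((((2 * Real.pi * ‖ξ‖) ^ (2 * s) : ℝ) : ℂ) - z)

private theorem kd_meas (s : ℝ) (z : ℂ) : Measurable (kdS s z) := by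
  unfold kdS
  have h : Measurable fun ξ : E3 => (2 * Real.pi * ‖ξ‖) ^ (2 * s) :=
    (measurable_norm.const_mul _).pow_const _
  exact ((Complex.measurable_ofReal.comp h).sub_const z).const_div 1

private theorem kd_lower {z₀ : ℂ} {d : ℝ} (hd : ∀ b : ℝ, 0 ≤ b → d ≤ ‖(b : ℂ) - z₀‖) {z : ℂ}
    (hz : ‖z - z₀‖ ≤ d / 2) (b : ℝ) (hb : 0 ≤ b) : d / 2 ≤ ‖(b : ℂ) - z‖ := by
  have h1 : (b : ℂ) - z₀ = ((b : ℂ) - z) + (z - z₀) := by ring
  have h2 := norm_add_le ((b : ℂ) - z) (z - z₀)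
  rw [← h1] at h2
  have := hd b hb
  linarith

private theorem kd_BM (s : ℝ) {z : ℂ} {c : ℝ} (hc : 0 < c) (h : ∀ b : ℝ, 0 ≤ b → c ≤ ‖(b : ℂ) - z‖) :
    BM (kdS s z) := by
  refine ⟨(kd_meas s z).aestronglyMeasurable, 1 / c, Eventually.of_forall fun ξ => ?_⟩
  unfold kdS
  rw [norm_div, norm_one]
  exact one_div_le_one_div_of_le hc (h _ (Real.rpow_nonneg (by positivity) _))

private theorem kd_quot {b z z₀ : ℂ} (h1 : b - z ≠ 0) (h2 : b - z₀ ≠ 0) :
    1 / (b - z) - 1 / (b - z₀) - (z - z₀) * (1 / (b - z₀) * (1 / (b - z₀))) =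
      (z - z₀) ^ 2 / ((b - z) * (b - z₀) ^ 2) := by
  field_simp
  ring

private theorem kd_hasDeriv (s : ℝ) {z₀ : ℂ} {d : ℝ} (hd0 : 0 < d)
    (hd : ∀ b : ℝ, 0 ≤ b → d ≤ ‖(b : ℂ) - z₀‖) :
    HasDerivAt (fun z => multL (kdS s z)) (multL (fun ξ => kdS s z₀ ξ * kdS s z₀ ξ)) z₀ := by
  rw [hasDerivAt_iff_isLittleO]
  refine Asymptotics.IsBigO.trans_isLittleO ?_ (Asymptotics.isLittleO_pow_sub_sub z₀ one_lt_two)
  refine Asymptotics.IsBigO.of_bound (2 / d ^ 3) ?_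
  have hball : ∀ᶠ z in 𝓝 z₀, ‖z - z₀‖ < d / 2 := by
    have := Metric.ball_mem_nhds z₀ (half_pos hd0)
    filter_upwards [this] with z hz
    rwa [Metric.mem_ball, dist_eq_norm] at hz
  filter_upwards [hball] with z hz
  have hlow := kd_lower hd hz.le
  have hB : BM (kdS s z) := kd_BM s (half_pos hd0) hlow
  have hB0 : BM (kdS s z₀) := kd_BM s hd0 hd
  have hBB : BM (fun ξ => kdS s z₀ ξ * kdS s z₀ ξ) := hB0.mul hB0
  rw [← multL_sub hB hB0, ← multL_const_mul (z - z₀) hBB, ← multL_sub (hB.sub hB0) (hBB.const_mul _)]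
  rw [Real.norm_eq_abs, abs_of_nonneg (by positivity)]
  refine norm_multL_le ((hB.sub hB0).sub (hBB.const_mul _)) (by positivity)
    (Eventually.of_forall fun ξ => ?_)
  have hb0 : 0 ≤ (2 * Real.pi * ‖ξ‖) ^ (2 * s) := Real.rpow_nonneg (by positivity) _
  have n1 := hlow _ hb0
  have n2 := hd _ hb0
  unfold kdS
  generalize (2 * Real.pi * ‖ξ‖) ^ (2 * s) = b at *
  have p1 : 0 < ‖(b : ℂ) - z‖ := lt_of_lt_of_le (half_pos hd0) n1
  have p2 : 0 < ‖(b : ℂ) - z₀‖ := lt_of_lt_of_le hd0 n2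
  rw [kd_quot (norm_pos_iff.1 p1) (norm_pos_iff.1 p2), norm_div, norm_pow, norm_mul, norm_pow]
  rw [div_mul_eq_mul_div, div_le_div_iff₀ (by positivity) (by positivity)]
  have n3 : d ^ 2 ≤ ‖(b : ℂ) - z₀‖ ^ 2 := pow_le_pow_left₀ hd0.le n2 2
  have n4 : d / 2 * d ^ 2 ≤ ‖(b : ℂ) - z‖ * ‖(b : ℂ) - z₀‖ ^ 2 :=
    mul_le_mul n1 n3 (by positivity) p1.le
  have n5 : 0 ≤ ‖z - z₀‖ ^ 2 := by positivity
  nlinarith

/-- for `Im k > 0`, `0 < s < 1` the point `k^(2s)` is off the closed half line -/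
private theorem kd_distU {s : ℝ} (h0 : 0 < s) (h1 : s < 1) {k : ℂ} (hk' : 0 < k.im) :
    ∃ d : ℝ, 0 < d ∧ ∀ b : ℝ, 0 ≤ b → d ≤ ‖(b : ℂ) - k ^ ((2 * s : ℝ) : ℂ)‖ := by
  set z₀ : ℂ := k ^ ((2 * s : ℝ) : ℂ) with hz₀
  set S : Set ℂ := (fun x : ℝ => (x : ℂ)) '' Ici 0 with hS
  have hcl : IsClosed S := Complex.isometry_ofReal.isClosedEmbedding.isClosedMap (Ici 0) isClosed_Ici
  have hne : S.Nonempty := ⟨0, 0, by simp, by simp⟩
  have hk0 : k ≠ 0 := by
    rintro rfl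
    simp at hk'
  have hnot : z₀ ∉ S := by
    rintro ⟨b, hb, he⟩
    have hb0 : 0 ≤ b := hb
    have hz : z₀ ≠ 0 := by
      rw [hz₀, Complex.cpow_def_of_ne_zero hk0]
      exact Complex.exp_ne_zero _
    have he' : (b : ℂ) = z₀ := he
    have hb1 : 0 < b := by
      refine lt_of_le_of_ne hb0 fun h => hz ?_
      rw [← he', ← h, Complex.ofReal_zero]
    have h2 : Complex.exp (Complex.log k * ((2 * s : ℝ) : ℂ)) = Complex.exp (Real.log b : ℂ) := by
      rw [← Complex.cpow_def_of_ne_zero hk0, ← hz₀, ← he', ← Complex.ofReal_exp,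
        Real.exp_log hb1]
    obtain ⟨n, hn⟩ := Complex.exp_eq_exp_iff_exists_int.1 h2
    have h3 : (Complex.log k * ((2 * s : ℝ) : ℂ)).im = 2 * s * Complex.arg k := by
      rw [Complex.im_mul_ofReal, Complex.log_im]
      ring
    have h4 : ((Real.log b : ℂ) + (n : ℂ) * (2 * Real.pi * Complex.I)).im = n * (2 * Real.pi) := by
      simp [Complex.mul_im, Complex.mul_re]
    have h5 : 2 * s * Complex.arg k = n * (2 * Real.pi) := by rw [← h3, hn, h4]
    have harg0 : 0 < Complex.arg k := by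
      rcases eq_or_lt_of_le (Complex.arg_nonneg_iff.2 hk'.le) with h | h
      · exact absurd (Complex.arg_eq_zero_iff.1 h.symm).2 hk'.ne'
      · exact h
    have harg1 : Complex.arg k ≤ Real.pi := Complex.arg_le_pi k
    have hpi := Real.pi_pos
    have h6 : 0 < (n : ℝ) * (2 * Real.pi) := by
      rw [← h5]
      positivity
    have h7 : (n : ℝ) * (2 * Real.pi) < 1 * (2 * Real.pi) := by
      rw [← h5]
      nlinarith
    have h8 : 0 < (n : ℝ) := pos_of_mul_pos_left h6 (by positivity)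
    have h9 : (n : ℝ) < 1 := lt_of_mul_lt_mul_right h7 (by positivity)
    have h10 : 0 < n := by exact_mod_cast h8
    have h11 : n < 1 := by exact_mod_cast h9
    omega
  have hpos : 0 < Metric.infDist z₀ S := (hcl.notMem_iff_infDist_pos hne).1 hnot
  refine ⟨_, hpos, fun b hb => ?_⟩
  have h1 := Metric.infDist_le_dist_of_mem (x := z₀) (show (b : ℂ) ∈ S from ⟨b, hb, rfl⟩)
  rwa [dist_comm, dist_eq_norm] at h1

theorem multL_rsE_diffU {s : ℝ} (h0 : 0 < s) (h1 : s < 1) :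
    DifferentiableOn ℂ (fun k => multL (rsE s k)) {k | 0 < k.im} := by
  intro k hk
  have hk' : 0 < k.im := hk
  obtain ⟨d, hd0, hd⟩ := kd_distU h0 h1 hk'
  have h3 := (kd_hasDeriv s hd0 hd).differentiableAt
  have h4 : DifferentiableAt ℂ (fun k : ℂ => k ^ ((2 * s : ℝ) : ℂ)) k :=
    differentiableAt_id.cpow_const (Or.inr hk'.ne')
  have h5 : (fun k => multL (rsE s k)) = (fun z => multL (kdS s z)) ∘
      fun k : ℂ => k ^ ((2 * s : ℝ) : ℂ) := rfl
  rw [h5]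
  exact (DifferentiableAt.comp k h3 h4).differentiableWithinAt

theorem Mop_diff {s : ℝ} (h0 : 0 < s) (h1 : s < 1) (r : ℝ) :
    DifferentiableOn ℂ (Mop s r) {k | 0 < k.im} := by
  have h3 : DifferentiableOn ℂ
      (fun k => mulL (indB r) ∘L multL (rsE s k) ∘L mulL (indB r)) {k | 0 < k.im} :=
    (differentiableOn_const _).clm_comp
      ((multL_rsE_diffU h0 h1).clm_comp (differentiableOn_const _))
  exact h3

private theorem md_cpow (w : ℂ) : ContinuousOn (fun k : ℂ => k ^ w) Sec2 := by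
  intro k₀ hk₀
  by_cases hs : k₀ ∈ Complex.slitPlane
  · exact (continuousAt_cpow_const hs).continuousWithinAt
  · have hre : k₀.re ≤ 0 := hk₀.1
    have him : k₀.im = 0 := by
      by_contra h
      exact hs (Or.inr h)
    have hre' : k₀.re < 0 := by
      refine lt_of_le_of_ne hre fun h => hk₀.2.2 ?_
      exact Complex.ext h him
    have h1 := Complex.continuousWithinAt_log_of_re_neg_of_im_zero hre' him
    have h2 : ContinuousWithinAt Complex.log Sec2 k₀ := h1.mono fun z hz => hz.2.1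
    have h3 : ContinuousWithinAt (fun k : ℂ => Complex.exp (Complex.log k * w)) Sec2 k₀ :=
      (h2.mul continuousWithinAt_const).cexp
    refine h3.congr (fun k hk => ?_) ?_
    · exact Complex.cpow_def_of_ne_zero hk.2.2 w
    · exact Complex.cpow_def_of_ne_zero hk₀.2.2 w

private theorem md_diffq {b z z₀ : ℂ} (h1 : b - z ≠ 0) (h2 : b - z₀ ≠ 0) :
    1 / (b - z) - 1 / (b - z₀) = (z - z₀) / ((b - z) * (b - z₀)) := by
  field_simp
  ring

private theorem md_multL {s : ℝ} (h0 : 1 / 2 < s) (h1 : s < 1) :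
    ContinuousOn (fun k => multL (rsE s k)) Sec2 := by
  obtain ⟨c, hc0, hc⟩ := symN h0 h1
  have hlow : ∀ k ∈ Sec2, ∀ b : ℝ, 0 ≤ b →
      c * ‖k‖ ^ (2 * s) ≤ ‖(((2 * Real.pi * b) ^ (2 * s) : ℝ) : ℂ) - k ^ ((2 * s : ℝ) : ℂ)‖ := by
    intro k hk b hb
    have h2 := hc k hk (2 * Real.pi * b) (by positivity)
    have h3 : 0 ≤ (2 * Real.pi * b) ^ (2 * s) := Real.rpow_nonneg (by positivity) _
    refine le_trans ?_ h2
    exact mul_le_mul_of_nonneg_left (by linarith) hc0.le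
  intro k₀ hk₀
  have hn0 : 0 < ‖k₀‖ ^ (2 * s) := Real.rpow_pos_of_pos (norm_pos_iff.2 hk₀.2.2) _
  show Tendsto (fun k => multL (rsE s k)) (𝓝[Sec2] k₀) (𝓝 (multL (rsE s k₀)))
  rw [tendsto_iff_norm_sub_tendsto_zero]
  have hb : ∀ k ∈ Sec2, ‖multL (rsE s k) - multL (rsE s k₀)‖ ≤
      ‖k ^ ((2 * s : ℝ) : ℂ) - k₀ ^ ((2 * s : ℝ) : ℂ)‖ /
        (c * ‖k‖ ^ (2 * s) * (c * ‖k₀‖ ^ (2 * s))) := by
    intro k hk
    have hn : 0 < ‖k‖ ^ (2 * s) := Real.rpow_pos_of_pos (norm_pos_iff.2 hk.2.2) _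
    have hB := rsE_BM2 h0 h1 hk
    have hB0 := rsE_BM2 h0 h1 hk₀
    rw [← multL_sub hB hB0]
    refine norm_multL_le (hB.sub hB0) (by positivity) (Eventually.of_forall fun ξ => ?_)
    have n1 := hlow k hk ‖ξ‖ (norm_nonneg _)
    have n2 := hlow k₀ hk₀ ‖ξ‖ (norm_nonneg _)
    unfold rsE rs
    generalize (((2 * Real.pi * ‖ξ‖) ^ (2 * s) : ℝ) : ℂ) = b at *
    have p1 : 0 < ‖b - k ^ ((2 * s : ℝ) : ℂ)‖ := lt_of_lt_of_le (by positivity) n1
    have p2 : 0 < ‖b - k₀ ^ ((2 * s : ℝ) : ℂ)‖ := lt_of_lt_of_le (by positivity) n2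
    rw [md_diffq (norm_pos_iff.1 p1) (norm_pos_iff.1 p2), norm_div, norm_mul]
    exact div_le_div_of_nonneg_left (norm_nonneg _) (by positivity)
      (mul_le_mul n1 n2 (by positivity) p1.le)
  have hlim : Tendsto (fun k : ℂ => ‖k ^ ((2 * s : ℝ) : ℂ) - k₀ ^ ((2 * s : ℝ) : ℂ)‖ /
        (c * ‖k‖ ^ (2 * s) * (c * ‖k₀‖ ^ (2 * s)))) (𝓝[Sec2] k₀) (𝓝 0) := by
    have h2 : Tendsto (fun k : ℂ => k ^ ((2 * s : ℝ) : ℂ)) (𝓝[Sec2] k₀)
        (𝓝 (k₀ ^ ((2 * s : ℝ) : ℂ))) := md_cpow _ k₀ hk₀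
    have h3 : Tendsto (fun k : ℂ => ‖k‖ ^ (2 * s)) (𝓝[Sec2] k₀) (𝓝 (‖k₀‖ ^ (2 * s))) := by
      have h4 : ContinuousAt (fun k : ℂ => ‖k‖ ^ (2 * s)) k₀ :=
        continuous_norm.continuousAt.rpow_const (Or.inl (norm_pos_iff.2 hk₀.2.2).ne')
      exact h4.tendsto.mono_left nhdsWithin_le_nhds
    have h5 := ((h2.sub_const (k₀ ^ ((2 * s : ℝ) : ℂ))).norm).div
      ((h3.const_mul c).mul_const (c * ‖k₀‖ ^ (2 * s))) (by positivity)
    rw [sub_self, norm_zero, zero_div] at h5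
    exact h5
  refine squeeze_zero' (Eventually.of_forall fun k => norm_nonneg _) ?_ hlim
  filter_upwards [self_mem_nhdsWithin] with k hk
  exact hb k hk

theorem Mop_cont {s : ℝ} (h0 : 1 / 2 < s) (h1 : s < 1) (r : ℝ) : ContinuousOn (Mop s r) Sec2 := by
  have h3 : ContinuousOn
      (fun k => mulL (indB r) ∘L multL (rsE s k) ∘L mulL (indB r)) Sec2 :=
    continuousOn_const.clm_comp ((md_multL h0 h1).clm_comp continuousOn_const)
  exact h3

end FracScatC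

end
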