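import Pool.Agent.Lib.MP_6e2ba5_an.Cx.A3Four

/-! # The negative axis: definitions

For `0 < s < 1` and `Im k > 0` the point `k^(2s)` is not in `[0,∞)`; the same is true on the negative
real axis, the boundary value from above, where `k^(2s) = |k|^(2s) exp(2πis)`. -/

set_option autoImplicit false

open MeasureTheory Filter Topology Set
open scoped FourierTransform SchwartzMap InnerProductSpace ENNReal

noncomputable section

namespace FracScatC

open FracScat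

/-- The closed second quadrant without the origin. -/
def Sec2 : Set ℂ := {k | k.re ≤ 0 ∧ 0 ≤ k.im ∧ k ≠ 0}

/-- The cut off resolvent off the spectrum. -/
def Mop (s r : ℝ) (k : ℂ) : HS →L[ℂ] HS := mulL (indB r) ∘L multL (rsE s k) ∘L mulL (indB r)

/-- `1_B R(k) 1_B V`. -/
def Tm (s r : ℝ) (V : E3 → ℂ) (k : ℂ) : HS →L[ℂ] HS := Mop s r k ∘L mulL V

/-- `∫ e V u`. -/
def Gfun (s r : ℝ) (V : E3 → ℂ) (θ : E3) (k : ℂ) : ℂ :=
  ∫ x, (ev r θ k : E3 → ℂ) x *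
    (mulL V ((Ring.inverse (1 - Tm s r V k)) (ev r θ k)) : E3 → ℂ) x

/-- The negative wave number `-2π‖ξ‖`. -/
def km (ξ : E3) : ℂ := ((-(2 * Real.pi * ‖ξ‖) : ℝ) : ℂ)

/-- The total field on the ball for the wave number `-2π‖ξ‖` and the direction `-ξ/‖ξ‖`. -/
def UN (s r : ℝ) (V : E3 → ℂ) (ξ : E3) : HS :=
  (Ring.inverse (1 - Tm s r V (km ξ))) (eH r ξ)

/-- The symbol on the negative axis, `1/((2π‖ζ‖)^(2s) - t^(2s) exp(2πis))`. -/
def mN (s t : ℝ) (ζ : E3) : ℂ := rsE s ((-t : ℝ) : ℂ) ζ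

open Classical in
/-- The symbol as an element of `L²`. -/
def mNH (s t : ℝ) : HS :=
  if h : MemLp (mN s t) 2 (volume : Measure E3) then h.toLp _ else 0

theorem mNH_coe {s t : ℝ} (h : MemLp (mN s t) 2 (volume : Measure E3)) :
    (mNH s t : E3 → ℂ) =ᵐ[volume] mN s t := by
  rw [mNH, dif_pos h]
  exact h.coeFn_toLp

/-- The density `m · FT f ∈ L¹` on the negative axis. -/
def PLN (s : ℝ) (ξ : E3) : HS →L[ℂ] L1 :=
  (prodL (mNH s (2 * Real.pi * ‖ξ‖))) ∘L (FT.toContinuousLinearEquiv : HS →L[ℂ] HS)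

/-- The Fourier density of the scattered field on the ball. -/
def HfN (s r : ℝ) (V : E3 → ℂ) (ξ : E3) : L1 := PLN s ξ (mulL V (UN s r V ξ))

theorem mN_eq (s : ℝ) (ξ ζ : E3) : mN s (2 * Real.pi * ‖ξ‖) ζ = rsE s (km ξ) ζ := rfl

theorem mN_even (s t : ℝ) (ζ : E3) : mN s t (-ζ) = mN s t ζ := by
  unfold mN rsE
  rw [norm_neg]

theorem PLN_apply (s : ℝ) (ξ : E3) (f : HS) :
    PLN s ξ f = prodL (mNH s (2 * Real.pi * ‖ξ‖)) (FT f) := rfl

theorem norm_PLN_le (s : ℝ) (ξ : E3) (f : HS) :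
    ‖PLN s ξ f‖ ≤ ‖mNH s (2 * Real.pi * ‖ξ‖)‖ * ‖f‖ := by
  rw [PLN_apply]
  refine (norm_prodL_le _ _).trans ?_
  rw [LinearIsometryEquiv.norm_map]

end FracScatC

end
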