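import Pool.Agent.Lib.MP_6e2ba5_an.Ex.CaseA
import Pool.Agent.Lib.MP_6e2ba5_an.Ex.CaseB

/-! # The bilinear estimate on a shell

Let `ξ ∈ Sh N`, `p = -ζ-ξ`, `q = ζ-ξ`; `⟪p,q⟫ = ‖ξ‖²-‖ζ‖²` and
`(‖ξ‖+‖ζ‖)(1+|‖ζ‖-‖ξ‖|) = ‖ξ‖+‖ζ‖+|⟪p,q⟫|`.
`kerS_le`. If `‖ζ‖ > 2‖ξ‖`: `1+|‖ζ‖-‖ξ‖| ≥ (1+‖ζ‖)/2`, so the first part of `kerS` is at most twice the second
one, which is `≤ N^(2-2s)/((N+‖ζ‖)(1+‖ζ‖))` (`2-2s < 0`, `‖ξ‖ > N`). If `‖ζ‖ ≤ 2‖ξ‖`: `‖p‖,‖q‖ ≤ 3‖ξ‖ ≤ 6N`, and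
`‖p‖+‖q‖ ≥ 2‖ξ‖ > 2N`, so `‖p‖ > N` or `‖q‖ > N`; the first part is `≤ N^(2-2s)/(N+|⟪p,q⟫|)`. If
`|⟪p,q⟫| ≥ ‖p‖‖q‖/2` and `‖q‖ ≥ N` it is `≤ N^(2-2s)/(N(1+‖p‖/2)) ≤ N^(2-2s) k1 N p q`; similarly if
`‖p‖ ≥ N`, with `k1 N q p`. If `|⟪p,q⟫| < ‖p‖‖q‖/2`: `k2 N p q` or `k2 N q p`.
`QEst`. By `kerS_le`, `BQ ≤ N^(2-2s) (∑ of four BP + ∫⁻ ζ, 3/((N+‖ζ‖)(1+‖ζ‖)) f h)` on the shell. The last
term by Cauchy-Schwarz (`cs_lintegral`, `fh_lintegral`) and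
`∫ dζ/((N+‖ζ‖)²(1+‖ζ‖)²) = 4π∫_0^∞ r² dr/((N+r)²(1+r)²) ≤ 4π∫_0^∞ dr/(N+r)² = 4π/N` (or dyadic shells).
The four others by `caseA`, `caseB` with `ε = 2s-2` and `BP_swap`. `(a+b+c+d+e)² ≤ 5(a²+...+e²)`.
Powers: `N^(4-4s) · N^(2s-3) = N^(1-2s)`, and `N^(4-4s) N^(-1) ≤ N^(1-2s)` as `s > 1`, `N ≥ 1`. -/

set_option autoImplicit false

open MeasureTheory Filter Topology Set
open scoped FourierTransform SchwartzMap InnerProductSpace ENNReal BoundedContinuousFunction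

noncomputable section

namespace FracScatC

open FracScat

private theorem QE_inner (ξ ζ : E3) : ⟪-ζ - ξ, ζ - ξ⟫_ℝ = ‖ξ‖ ^ 2 - ‖ζ‖ ^ 2 := by
  rw [inner_sub_left, inner_sub_right, inner_sub_right, inner_neg_left, inner_neg_left,
    real_inner_self_eq_norm_sq, real_inner_self_eq_norm_sq, real_inner_comm ξ ζ]
  ring

/-- the scalar part: `x = ‖ξ‖`, `z = ‖ζ‖` -/
private theorem QE_ker {s : ℝ} (h1 : 1 < s) {N : ℝ} (hN : 1 ≤ N) {ξ : E3} (hξ : ξ ∈ Sh N)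
    (ζ : E3) : kerS s ξ ζ ≤ N ^ (2 - 2 * s) *
      (1 / ((‖ξ‖ + ‖ζ‖) * (1 + |‖ζ‖ - ‖ξ‖|)) + 1 / ((N + ‖ζ‖) * (1 + ‖ζ‖))) := by
  obtain ⟨hx1, hx2⟩ := hξ
  have hz : 0 ≤ ‖ζ‖ := norm_nonneg _
  have hN0 : 0 < N := by linarith
  have hx0 : 0 < ‖ξ‖ := by linarith
  have hpow : ‖ξ‖ ^ (2 - 2 * s) ≤ N ^ (2 - 2 * s) :=
    Real.rpow_le_rpow_of_nonpos hN0 hx1.le (by linarith)
  have hp0 : 0 ≤ N ^ (2 - 2 * s) := Real.rpow_nonneg hN0.le _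
  have ha : 0 ≤ |‖ζ‖ - ‖ξ‖| := abs_nonneg _
  have e : kerS s ξ ζ = ‖ξ‖ ^ (2 - 2 * s) *
      (1 / ((‖ξ‖ + ‖ζ‖) * (1 + |‖ζ‖ - ‖ξ‖|)) + 1 / ((‖ξ‖ + ‖ζ‖) * (1 + ‖ζ‖))) := by
    unfold kerS
    have h1 : ‖ξ‖ + ‖ζ‖ ≠ 0 := by positivity
    have h2 : 1 + |‖ζ‖ - ‖ξ‖| ≠ 0 := by positivity
    have h3 : 1 + ‖ζ‖ ≠ 0 := by positivity
    field_simp
  rw [e]
  refine mul_le_mul hpow ?_ (by positivity) hp0
  refine add_le_add le_rfl ?_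
  refine one_div_le_one_div_of_le (by positivity) ?_
  exact mul_le_mul_of_nonneg_right (by linarith) (by positivity)

theorem kerS_le {s : ℝ} (h1 : 1 < s) {N : ℝ} (hN : 1 ≤ N) {ξ : E3} (hξ : ξ ∈ Sh N) (ζ : E3) :
    ENNReal.ofReal (kerS s ξ ζ) ≤ ENNReal.ofReal (N ^ (2 - 2 * s)) *
      (k1 N (-ζ - ξ) (ζ - ξ) + k1 N (ζ - ξ) (-ζ - ξ) + k2 N (-ζ - ξ) (ζ - ξ) +
        k2 N (ζ - ξ) (-ζ - ξ) + ENNReal.ofReal (3 / ((N + ‖ζ‖) * (1 + ‖ζ‖)))) := by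
  have hker := QE_ker h1 hN hξ ζ
  obtain ⟨hx1, hx2⟩ := hξ
  have hz : 0 ≤ ‖ζ‖ := norm_nonneg _
  have hN0 : 0 < N := by linarith
  have hx0 : 0 < ‖ξ‖ := by linarith
  have hp0 : 0 ≤ N ^ (2 - 2 * s) := Real.rpow_nonneg hN0.le _
  refine (ENNReal.ofReal_le_ofReal hker).trans ?_
  rw [ENNReal.ofReal_mul hp0]
  gcongr
  have ha : 0 ≤ |‖ζ‖ - ‖ξ‖| := abs_nonneg _
  rcases lt_or_ge (2 * ‖ξ‖) ‖ζ‖ with hc | hc
  · -- far region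
    refine le_trans ?_ le_add_self
    refine ENNReal.ofReal_le_ofReal ?_
    have h2 : (1 + ‖ζ‖) / 2 ≤ 1 + |‖ζ‖ - ‖ξ‖| := by
      have := le_abs_self (‖ζ‖ - ‖ξ‖)
      linarith
    have h3 : 1 / ((‖ξ‖ + ‖ζ‖) * (1 + |‖ζ‖ - ‖ξ‖|)) ≤ 1 / ((N + ‖ζ‖) * ((1 + ‖ζ‖) / 2)) := by
      refine one_div_le_one_div_of_le (by positivity) ?_
      exact mul_le_mul (by linarith) h2 (by positivity) (by positivity)
    have h4 : 1 / ((N + ‖ζ‖) * ((1 + ‖ζ‖) / 2)) + 1 / ((N + ‖ζ‖) * (1 + ‖ζ‖)) =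
        3 / ((N + ‖ζ‖) * (1 + ‖ζ‖)) := by
      field_simp
      norm_num
    linarith
  · -- near region
    refine ENNReal.ofReal_add_le.trans ?_
    refine add_le_add ?_ (ENNReal.ofReal_le_ofReal ?_)
    swap
    · exact div_le_div_of_nonneg_right (by norm_num) (by positivity)
    have hin := QE_inner ξ ζ
    have hin' : ⟪ζ - ξ, -ζ - ξ⟫_ℝ = ⟪-ζ - ξ, ζ - ξ⟫_ℝ := real_inner_comm _ _
    have hp6 : ‖-ζ - ξ‖ ≤ 6 * N := by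
      have := norm_sub_le (-ζ) ξ
      rw [norm_neg] at this
      linarith
    have hq6 : ‖ζ - ξ‖ ≤ 6 * N := by
      have := norm_sub_le ζ ξ
      linarith
    have hpq : N < ‖-ζ - ξ‖ ∨ N < ‖ζ - ξ‖ := by
      by_contra hcon
      push Not at hcon
      have h3 : ‖(-ζ - ξ) + (ζ - ξ)‖ ≤ ‖-ζ - ξ‖ + ‖ζ - ξ‖ := norm_add_le _ _
      have h4 : (-ζ - ξ) + (ζ - ξ) = -((2 : ℝ) • ξ) := by
        rw [two_smul]
        abel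
      rw [h4, norm_neg, norm_smul, Real.norm_eq_abs, abs_of_pos (by norm_num : (0 : ℝ) < 2)] at h3
      linarith [hcon.1, hcon.2]
    set p := -ζ - ξ with hp
    set q := ζ - ξ with hq
    have hden : (‖ξ‖ + ‖ζ‖) * (1 + |‖ζ‖ - ‖ξ‖|) = ‖ξ‖ + ‖ζ‖ + |⟪p, q⟫_ℝ| := by
      rw [hin, show ‖ξ‖ ^ 2 - ‖ζ‖ ^ 2 = (‖ξ‖ - ‖ζ‖) * (‖ξ‖ + ‖ζ‖) by ring, abs_mul,
        abs_of_nonneg (by positivity : 0 ≤ ‖ξ‖ + ‖ζ‖), abs_sub_comm ‖ζ‖ ‖ξ‖]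
      ring
    have hA : 1 / ((‖ξ‖ + ‖ζ‖) * (1 + |‖ζ‖ - ‖ξ‖|)) ≤ 1 / (N + |⟪p, q⟫_ℝ|) := by
      rw [hden]
      exact one_div_le_one_div_of_le (by positivity) (by linarith)
    refine (ENNReal.ofReal_le_ofReal hA).trans ?_
    have hk1 : ∀ a b : E3, ‖a‖ ≤ 6 * N → N < ‖b‖ → 1 / 2 * (‖a‖ * ‖b‖) ≤ |⟪p, q⟫_ℝ| →
        ENNReal.ofReal (1 / (N + |⟪p, q⟫_ℝ|)) ≤ k1 N a b := by
      intro a b ha hb hab
      unfold k1
      rw [if_pos ha]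
      refine ENNReal.ofReal_le_ofReal ?_
      rw [div_le_div_iff₀ (by positivity) (by positivity)]
      have h5 : ‖a‖ * N ≤ ‖a‖ * ‖b‖ := mul_le_mul_of_nonneg_left hb.le (norm_nonneg _)
      nlinarith
    have hk2 : ∀ a b : E3, ⟪a, b⟫_ℝ = ⟪p, q⟫_ℝ → ‖a‖ ≤ 6 * N → N < ‖b‖ → ‖b‖ ≤ 6 * N →
        |⟪p, q⟫_ℝ| ≤ 1 / 2 * (‖a‖ * ‖b‖) →
        ENNReal.ofReal (1 / (N + |⟪p, q⟫_ℝ|)) ≤ k2 N a b := by
      intro a b he ha hb hb6 hab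
      unfold k2
      rw [he, if_pos ⟨⟨hb.le, hb6, ha⟩, hab⟩]
    rcases le_total (1 / 2 * (‖p‖ * ‖q‖)) |⟪p, q⟫_ℝ| with hcs | hcs
    · rcases hpq with hP | hQ
      · have := hk1 q p hq6 hP (by rw [mul_comm ‖q‖]; exact hcs)
        calc _ ≤ _ := this
          _ ≤ k1 N p q + k1 N q p := le_add_self
          _ ≤ k1 N p q + k1 N q p + k2 N p q := le_self_add
          _ ≤ _ := le_self_add
      · have := hk1 p q hp6 hQ hcs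
        calc _ ≤ _ := this
          _ ≤ k1 N p q + k1 N q p := le_self_add
          _ ≤ k1 N p q + k1 N q p + k2 N p q := le_self_add
          _ ≤ _ := le_self_add
    · rcases hpq with hP | hQ
      · have := hk2 q p hin' hq6 hP hp6 (by rw [mul_comm ‖q‖]; exact hcs)
        calc _ ≤ _ := this
          _ ≤ _ := le_add_self
      · have := hk2 p q rfl hp6 hQ hq6 hcs
        calc _ ≤ _ := this
          _ ≤ k1 N p q + k1 N q p + k2 N p q := le_add_self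
          _ ≤ _ := le_self_add

theorem BQ_measurable (s : ℝ) {f h : E3 → ℝ≥0∞} (hf : Measurable f) (hh : Measurable h) :
    Measurable (BQ s f h) := by
  have hm : Measurable (fun p : E3 × E3 => ENNReal.ofReal (kerS s p.1 p.2) *
      (f (-p.2 - p.1) * h (p.2 - p.1))) := by
    unfold kerS
    fun_prop
  exact hm.lintegral_prod_right'

private theorem QE_sq2 (a b : ℝ≥0∞) : (a + b) ^ 2 ≤ 4 * (a ^ 2 + b ^ 2) := by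
  rcases le_total a b with h | h
  · calc (a + b) ^ 2 ≤ (b + b) ^ 2 := by gcongr
      _ = 4 * b ^ 2 := by ring
      _ ≤ 4 * (a ^ 2 + b ^ 2) := by gcongr; exact le_add_self
  · calc (a + b) ^ 2 ≤ (a + a) ^ 2 := by gcongr
      _ = 4 * a ^ 2 := by ring
      _ ≤ 4 * (a ^ 2 + b ^ 2) := by gcongr; exact le_self_add

private theorem QE_sq5 (a b c d e : ℝ≥0∞) :
    (a + b + c + d + e) ^ 2 ≤ 256 * (a ^ 2 + b ^ 2 + c ^ 2 + d ^ 2 + e ^ 2) := by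
  have h1 := QE_sq2 a b
  have h2 := QE_sq2 (a + b) c
  have h3 := QE_sq2 (a + b + c) d
  have h4 := QE_sq2 (a + b + c + d) e
  calc (a + b + c + d + e) ^ 2 ≤ 4 * ((a + b + c + d) ^ 2 + e ^ 2) := h4
    _ ≤ 4 * (4 * ((a + b + c) ^ 2 + d ^ 2) + e ^ 2) := by gcongr
    _ ≤ 4 * (4 * (4 * ((a + b) ^ 2 + c ^ 2) + d ^ 2) + e ^ 2) := by gcongr
    _ ≤ 4 * (4 * (4 * (4 * (a ^ 2 + b ^ 2) + c ^ 2) + d ^ 2) + e ^ 2) := by gcongr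
    _ = 256 * (a ^ 2 + b ^ 2) + 64 * c ^ 2 + 16 * d ^ 2 + 4 * e ^ 2 := by ring
    _ ≤ 256 * (a ^ 2 + b ^ 2) + 256 * c ^ 2 + 256 * d ^ 2 + 256 * e ^ 2 := by
      gcongr <;> norm_num
    _ = 256 * (a ^ 2 + b ^ 2 + c ^ 2 + d ^ 2 + e ^ 2) := by ring

/-- `∫ (3/((N+‖ζ‖)(1+‖ζ‖)))² dζ ≤ C N^(-a)`, `0 ≤ a < 1` -/
private theorem QE_int {a : ℝ} (ha0 : 0 ≤ a) (ha1 : a < 1) : ∃ C : ℝ, 0 ≤ C ∧ ∀ N : ℝ, 1 ≤ N →
    ∫⁻ ζ : E3, ENNReal.ofReal (3 / ((N + ‖ζ‖) * (1 + ‖ζ‖))) ^ 2 ≤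
      ENNReal.ofReal (C * N ^ (-a)) := by
  have hfin : (∫⁻ ζ : E3, ENNReal.ofReal ((1 + ‖ζ‖) ^ (-(4 - a)))) < ∞ := by
    refine finite_integral_one_add_norm ?_
    rw [finrank_euclideanSpace_fin]
    push_cast
    linarith
  refine ⟨9 * (∫⁻ ζ : E3, ENNReal.ofReal ((1 + ‖ζ‖) ^ (-(4 - a)))).toReal, by positivity,
    fun N hN => ?_⟩
  have hN0 : 0 < N := by linarith
  have hpa : 0 ≤ N ^ (-a) := Real.rpow_nonneg hN0.le _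
  calc ∫⁻ ζ : E3, ENNReal.ofReal (3 / ((N + ‖ζ‖) * (1 + ‖ζ‖))) ^ 2
      ≤ ∫⁻ ζ : E3, ENNReal.ofReal (9 * N ^ (-a)) * ENNReal.ofReal ((1 + ‖ζ‖) ^ (-(4 - a))) := by
        refine lintegral_mono fun ζ => ?_
        have hz : 0 ≤ ‖ζ‖ := norm_nonneg _
        have hu : 0 < 1 + ‖ζ‖ := by linarith
        have hM : 0 < N + ‖ζ‖ := by linarith
        rw [← ENNReal.ofReal_pow (by positivity), ← ENNReal.ofReal_mul (by positivity)]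
        refine ENNReal.ofReal_le_ofReal ?_
        have e1 : N ^ a * (1 + ‖ζ‖) ^ (2 - a) ≤ (N + ‖ζ‖) ^ 2 := by
          have e2 : (N + ‖ζ‖) ^ 2 = (N + ‖ζ‖) ^ a * (N + ‖ζ‖) ^ (2 - a) := by
            rw [← Real.rpow_add hM, ← Real.rpow_natCast]
            congr 1
            push_cast
            ring
          rw [e2]
          exact mul_le_mul (Real.rpow_le_rpow hN0.le (by linarith) ha0)
            (Real.rpow_le_rpow hu.le (by linarith) (by linarith)) (by positivity) (by positivity)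
        have e3 : 9 * N ^ (-a) * (1 + ‖ζ‖) ^ (-(4 - a)) =
            9 / ((N ^ a * (1 + ‖ζ‖) ^ (2 - a)) * (1 + ‖ζ‖) ^ 2) := by
          have e4 : (1 + ‖ζ‖) ^ (4 - a) = (1 + ‖ζ‖) ^ (2 - a) * (1 + ‖ζ‖) ^ 2 := by
            rw [← Real.rpow_natCast (1 + ‖ζ‖) 2, ← Real.rpow_add hu]
            congr 1
            push_cast
            ring
          rw [Real.rpow_neg hN0.le, Real.rpow_neg hu.le, e4]
          have : N ^ a ≠ 0 := (Real.rpow_pos_of_pos hN0 _).ne'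
          have : (1 + ‖ζ‖) ^ (2 - a) ≠ 0 := (Real.rpow_pos_of_pos hu _).ne'
          field_simp
        rw [e3, div_pow, mul_pow]
        norm_num
        have : 0 < N ^ a := Real.rpow_pos_of_pos hN0 _
        have : 0 < (1 + ‖ζ‖) ^ (2 - a) := Real.rpow_pos_of_pos hu _
        exact div_le_div_of_nonneg_left (by norm_num) (by positivity)
          (mul_le_mul_of_nonneg_right e1 (by positivity))
    _ = ENNReal.ofReal (9 * N ^ (-a)) * ∫⁻ ζ : E3, ENNReal.ofReal ((1 + ‖ζ‖) ^ (-(4 - a))) :=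
        lintegral_const_mul' _ _ ENNReal.ofReal_ne_top
    _ = ENNReal.ofReal (9 * (∫⁻ ζ : E3, ENNReal.ofReal ((1 + ‖ζ‖) ^ (-(4 - a)))).toReal *
          N ^ (-a)) := by
        conv_lhs => rw [← ENNReal.ofReal_toReal hfin.ne]
        rw [← ENNReal.ofReal_mul (by positivity)]
        congr 1
        ring

/-- the remainder term -/
private theorem QE_W {a : ℝ} (ha0 : 0 ≤ a) (ha1 : a < 1) : ∃ C : ℝ, 0 ≤ C ∧ ∀ N : ℝ, 1 ≤ N →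
    ∀ f h : E3 → ℝ≥0∞, Measurable f → Measurable h →
    ∫⁻ ξ : E3, (∫⁻ ζ : E3, ENNReal.ofReal (3 / ((N + ‖ζ‖) * (1 + ‖ζ‖))) *
      (f (-ζ - ξ) * h (ζ - ξ))) ^ 2 ≤
      ENNReal.ofReal (C * N ^ (-a)) * ((∫⁻ p, f p ^ 2) * ∫⁻ q, h q ^ 2) := by
  obtain ⟨C, hC, H⟩ := QE_int ha0 ha1
  refine ⟨C, hC, fun N hN f h hf hh => ?_⟩
  have hm : ∀ ξ : E3, Measurable (fun ζ : E3 => f (-ζ - ξ) * h (ζ - ξ)) := by
    intro ξ
    fun_prop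
  have hm2 : Measurable (fun ζ : E3 => ENNReal.ofReal (3 / ((N + ‖ζ‖) * (1 + ‖ζ‖)))) := by
    fun_prop
  calc _ ≤ ∫⁻ ξ : E3, ENNReal.ofReal (C * N ^ (-a)) *
        ∫⁻ ζ : E3, (f (-ζ - ξ) * h (ζ - ξ)) ^ 2 := by
        refine lintegral_mono fun ξ => ?_
        refine (cs_lintegral hm2 (hm ξ)).trans ?_
        gcongr
        exact H N hN
    _ = ENNReal.ofReal (C * N ^ (-a)) *
        ∫⁻ ξ : E3, ∫⁻ ζ : E3, (f (-ζ - ξ) * h (ζ - ξ)) ^ 2 :=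
        lintegral_const_mul' _ _ ENNReal.ofReal_ne_top
    _ ≤ _ := by
        rw [← fh_lintegral hf hh]
        gcongr
        exact le_mul_of_one_le_left zero_le (by norm_num)

private theorem QE_pow {N x y : ℝ} (hN : 1 ≤ N) (h : x ≤ y) : N ^ x ≤ N ^ y :=
  Real.rpow_le_rpow_of_exponent_le hN h

private theorem QE_add5 {a b c d e : E3 → ℝ≥0∞} (ha : Measurable a) (hb : Measurable b)
    (hc : Measurable c) (hd : Measurable d) :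
    ∫⁻ ζ, (a ζ + b ζ + c ζ + d ζ + e ζ) =
      (∫⁻ ζ, a ζ) + (∫⁻ ζ, b ζ) + (∫⁻ ζ, c ζ) + (∫⁻ ζ, d ζ) + ∫⁻ ζ, e ζ := by
  have h1 : Measurable fun ζ => a ζ + b ζ := ha.add hb
  have h2 : Measurable fun ζ => a ζ + b ζ + c ζ := h1.add hc
  have h3 : Measurable fun ζ => a ζ + b ζ + c ζ + d ζ := h2.add hd
  rw [lintegral_add_left h3, lintegral_add_left h2, lintegral_add_left h1, lintegral_add_left ha]

private theorem QE_comp {k : E3 → E3 → ℝ≥0∞} (hk : Measurable (Function.uncurry k)) (ξ : E3) :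
    Measurable (fun ζ : E3 => k (-ζ - ξ) (ζ - ξ)) := by
  have hpq : Measurable (fun ζ : E3 => ((-ζ - ξ, ζ - ξ) : E3 × E3)) := by fun_prop
  exact hk.comp hpq

private theorem QE_comp' {k : E3 → E3 → ℝ≥0∞} (hk : Measurable (Function.uncurry k)) (ξ : E3) :
    Measurable (fun ζ : E3 => k (ζ - ξ) (-ζ - ξ)) := by
  have hpq : Measurable (fun ζ : E3 => ((ζ - ξ, -ζ - ξ) : E3 × E3)) := by fun_prop
  exact hk.comp hpq

private theorem QE_abs {k l : E3 → E3 → ℝ≥0∞} (hk : Measurable (Function.uncurry k))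
    (hl : Measurable (Function.uncurry l)) {c : ℝ≥0∞} (hc : c ≠ ⊤) (w : E3 → ℝ≥0∞)
    {f h : E3 → ℝ≥0∞} (hf : Measurable f) (hh : Measurable h) (ξ : E3) :
    ∫⁻ ζ : E3, c * (k (-ζ - ξ) (ζ - ξ) + k (ζ - ξ) (-ζ - ξ) + l (-ζ - ξ) (ζ - ξ) +
      l (ζ - ξ) (-ζ - ξ) + w ζ) * (f (-ζ - ξ) * h (ζ - ξ)) =
    c * (BP k f h ξ + BP k h f ξ + BP l f h ξ + BP l h f ξ +
      ∫⁻ ζ : E3, w ζ * (f (-ζ - ξ) * h (ζ - ξ))) := by
  have hF : Measurable (fun ζ : E3 => f (-ζ - ξ) * h (ζ - ξ)) := by fun_prop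
  have a1 : Measurable (fun ζ : E3 => k (-ζ - ξ) (ζ - ξ) * (f (-ζ - ξ) * h (ζ - ξ))) :=
    (QE_comp hk ξ).mul hF
  have a2 : Measurable (fun ζ : E3 => k (ζ - ξ) (-ζ - ξ) * (f (-ζ - ξ) * h (ζ - ξ))) :=
    (QE_comp' hk ξ).mul hF
  have a3 : Measurable (fun ζ : E3 => l (-ζ - ξ) (ζ - ξ) * (f (-ζ - ξ) * h (ζ - ξ))) :=
    (QE_comp hl ξ).mul hF
  have a4 : Measurable (fun ζ : E3 => l (ζ - ξ) (-ζ - ξ) * (f (-ζ - ξ) * h (ζ - ξ))) :=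
    (QE_comp' hl ξ).mul hF
  have e := QE_add5 (e := fun ζ : E3 => w ζ * (f (-ζ - ξ) * h (ζ - ξ))) a1 a2 a3 a4
  have b2 : BP k h f ξ = ∫⁻ ζ : E3, k (ζ - ξ) (-ζ - ξ) * (f (-ζ - ξ) * h (ζ - ξ)) :=
    (BP_swap k f h ξ).symm
  have b4 : BP l h f ξ = ∫⁻ ζ : E3, l (ζ - ξ) (-ζ - ξ) * (f (-ζ - ξ) * h (ζ - ξ)) :=
    (BP_swap l f h ξ).symm
  have b1 : BP k f h ξ = ∫⁻ ζ : E3, k (-ζ - ξ) (ζ - ξ) * (f (-ζ - ξ) * h (ζ - ξ)) := rfl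
  have b3 : BP l f h ξ = ∫⁻ ζ : E3, l (-ζ - ξ) (ζ - ξ) * (f (-ζ - ξ) * h (ζ - ξ)) := rfl
  rw [b1, b2, b3, b4, ← e, ← lintegral_const_mul' _ _ hc]
  refine lintegral_congr fun ζ => ?_
  ring

/-- pointwise bound on the shell -/
private theorem QE_pt {s : ℝ} (h1 : 1 < s) {N : ℝ} (hN : 1 ≤ N) {f h : E3 → ℝ≥0∞}
    (hf : Measurable f) (hh : Measurable h) {ξ : E3} (hξ : ξ ∈ Sh N) :
    BQ s f h ξ ≤ ENNReal.ofReal (N ^ (2 - 2 * s)) * (BP (k1 N) f h ξ + BP (k1 N) h f ξ +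
      BP (k2 N) f h ξ + BP (k2 N) h f ξ +
      ∫⁻ ζ : E3, ENNReal.ofReal (3 / ((N + ‖ζ‖) * (1 + ‖ζ‖))) * (f (-ζ - ξ) * h (ζ - ξ))) := by
  rw [← QE_abs (k1_measurable N) (k2_measurable N) ENNReal.ofReal_ne_top
    (fun ζ : E3 => ENNReal.ofReal (3 / ((N + ‖ζ‖) * (1 + ‖ζ‖)))) hf hh ξ]
  exact lintegral_mono fun ζ => mul_le_mul_left (kerS_le h1 hN hξ ζ) _

private theorem QE_real {s A B D N a : ℝ} (h1 : 1 < s) (hA : 0 ≤ A) (hD : 0 ≤ D)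
    (hN : 1 ≤ N) (ha : 3 - 2 * s ≤ a) :
    (N ^ (2 - 2 * s)) ^ 2 * 256 * (A / N + A / N + B * N ^ (2 * s - 2 - 1) +
      B * N ^ (2 * s - 2 - 1) + D * N ^ (-a)) ≤ 256 * (2 * A + 2 * B + D) * N ^ (1 - 2 * s) := by
  have hN0 : 0 < N := by linarith
  have hP : (N ^ (2 - 2 * s)) ^ 2 = N ^ (4 - 4 * s) := by
    rw [← Real.rpow_natCast, ← Real.rpow_mul hN0.le]
    congr 1
    push_cast
    ring
  have q1 : N ^ (4 - 4 * s) * (1 / N) ≤ N ^ (1 - 2 * s) := by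
    rw [one_div, ← Real.rpow_neg_one N, ← Real.rpow_add hN0]
    exact QE_pow hN (by linarith)
  have q2 : N ^ (4 - 4 * s) * N ^ (2 * s - 2 - 1) = N ^ (1 - 2 * s) := by
    rw [← Real.rpow_add hN0]
    congr 1
    ring
  have q3 : N ^ (4 - 4 * s) * N ^ (-a) ≤ N ^ (1 - 2 * s) := by
    rw [← Real.rpow_add hN0]
    exact QE_pow hN (by linarith)
  rw [hP]
  have r1 := mul_le_mul_of_nonneg_left q1 hA
  have r3 := mul_le_mul_of_nonneg_left q3 hD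
  calc N ^ (4 - 4 * s) * 256 * (A / N + A / N + B * N ^ (2 * s - 2 - 1) +
      B * N ^ (2 * s - 2 - 1) + D * N ^ (-a))
      = 256 * (2 * (A * (N ^ (4 - 4 * s) * (1 / N))) +
        2 * B * (N ^ (4 - 4 * s) * N ^ (2 * s - 2 - 1)) +
        D * (N ^ (4 - 4 * s) * N ^ (-a))) := by ring
    _ ≤ 256 * (2 * (A * N ^ (1 - 2 * s)) + 2 * B * N ^ (1 - 2 * s) + D * N ^ (1 - 2 * s)) := by
        rw [q2]
        linarith
    _ = _ := by ring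

private theorem QE_comb {P a b d : ℝ} (hP : 0 ≤ P) (ha : 0 ≤ a) (hb : 0 ≤ b) (hd : 0 ≤ d)
    (F : ℝ≥0∞) : ENNReal.ofReal P ^ 2 * 256 * (ENNReal.ofReal a * F + ENNReal.ofReal a * F +
      ENNReal.ofReal b * F + ENNReal.ofReal b * F + ENNReal.ofReal d * F) =
      ENNReal.ofReal (P ^ 2 * 256 * (a + a + b + b + d)) * F := by
  rw [ENNReal.ofReal_mul (by positivity), ENNReal.ofReal_mul (by positivity),
    ENNReal.ofReal_pow hP, ENNReal.ofReal_add (by positivity) hd,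
    ENNReal.ofReal_add (by positivity) hb, ENNReal.ofReal_add (by positivity) hb,
    ENNReal.ofReal_add ha ha, show ENNReal.ofReal 256 = 256 by norm_num]
  ring

theorem QEst {s : ℝ} (h1 : 1 < s) (h2 : s < 2) : ∃ C : ℝ, 0 ≤ C ∧ ∀ N : ℝ, 1 ≤ N →
    ∀ f h : E3 → ℝ≥0∞, Measurable f → Measurable h →
    ∫⁻ ξ in Sh N, BQ s f h ξ ^ 2 ≤
      ENNReal.ofReal (C * N ^ (1 - 2 * s)) * ((∫⁻ p, f p ^ 2) * ∫⁻ q, h q ^ 2) := by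
  obtain ⟨A, hA, HA⟩ := caseA
  obtain ⟨B, hB, HB⟩ := caseB (ε := 2 * s - 2) (by linarith)
  obtain ⟨D, hD, HD⟩ := QE_W (a := max 0 (3 - 2 * s)) (le_max_left _ _)
    (max_lt (by norm_num) (by linarith))
  refine ⟨256 * (2 * A + 2 * B + D), by positivity, fun N hN f h hf hh => ?_⟩
  have hN0 : 0 < N := by linarith
  have e1 := HA N hN f h hf hh
  have e2 := HA N hN h f hh hf
  have e3 := HB N hN f h hf hh
  have e4 := HB N hN h f hh hf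
  have e5 := HD N hN f h hf hh
  rw [mul_comm (∫⁻ p, h p ^ 2)] at e2 e4
  set F : ℝ≥0∞ := (∫⁻ p, f p ^ 2) * ∫⁻ q, h q ^ 2 with hF
  have n1 := (BP_measurable (k1_measurable N) hf hh).pow_const 2
  have n2 := (BP_measurable (k1_measurable N) hh hf).pow_const 2
  have n3 := (BP_measurable (k2_measurable N) hf hh).pow_const 2
  have n4 := (BP_measurable (k2_measurable N) hh hf).pow_const 2
  have hreal := QE_real (A := A) (B := B) (D := D) h1 hA hD hN (le_max_right 0 (3 - 2 * s))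
  calc ∫⁻ ξ in Sh N, BQ s f h ξ ^ 2
      ≤ ∫⁻ ξ in Sh N, ENNReal.ofReal (N ^ (2 - 2 * s)) ^ 2 * 256 * (BP (k1 N) f h ξ ^ 2 +
          BP (k1 N) h f ξ ^ 2 + BP (k2 N) f h ξ ^ 2 + BP (k2 N) h f ξ ^ 2 +
          (∫⁻ ζ : E3, ENNReal.ofReal (3 / ((N + ‖ζ‖) * (1 + ‖ζ‖))) *
            (f (-ζ - ξ) * h (ζ - ξ))) ^ 2) := by
        refine setLIntegral_mono' (Sh_meas N) fun ξ hξ => ?_
        calc BQ s f h ξ ^ 2 ≤ _ := pow_le_pow_left' (QE_pt h1 hN hf hh hξ) 2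
          _ ≤ _ := by
            rw [mul_pow, mul_assoc]
            exact mul_le_mul_right (QE_sq5 _ _ _ _ _) _
    _ ≤ ∫⁻ ξ, ENNReal.ofReal (N ^ (2 - 2 * s)) ^ 2 * 256 * (BP (k1 N) f h ξ ^ 2 +
          BP (k1 N) h f ξ ^ 2 + BP (k2 N) f h ξ ^ 2 + BP (k2 N) h f ξ ^ 2 +
          (∫⁻ ζ : E3, ENNReal.ofReal (3 / ((N + ‖ζ‖) * (1 + ‖ζ‖))) *
            (f (-ζ - ξ) * h (ζ - ξ))) ^ 2) := setLIntegral_le_lintegral _ _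
    _ = ENNReal.ofReal (N ^ (2 - 2 * s)) ^ 2 * 256 * ((∫⁻ ξ, BP (k1 N) f h ξ ^ 2) +
          (∫⁻ ξ, BP (k1 N) h f ξ ^ 2) + (∫⁻ ξ, BP (k2 N) f h ξ ^ 2) +
          (∫⁻ ξ, BP (k2 N) h f ξ ^ 2) +
          ∫⁻ ξ, (∫⁻ ζ : E3, ENNReal.ofReal (3 / ((N + ‖ζ‖) * (1 + ‖ζ‖))) *
            (f (-ζ - ξ) * h (ζ - ξ))) ^ 2) := by
        rw [lintegral_const_mul' _ _ (by finiteness), QE_add5 n1 n2 n3 n4]
    _ ≤ ENNReal.ofReal (N ^ (2 - 2 * s)) ^ 2 * 256 * (ENNReal.ofReal (A / N) * F +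
          ENNReal.ofReal (A / N) * F + ENNReal.ofReal (B * N ^ (2 * s - 2 - 1)) * F +
          ENNReal.ofReal (B * N ^ (2 * s - 2 - 1)) * F +
          ENNReal.ofReal (D * N ^ (-(max 0 (3 - 2 * s)))) * F) := by
        gcongr
    _ = ENNReal.ofReal ((N ^ (2 - 2 * s)) ^ 2 * 256 * (A / N + A / N +
          B * N ^ (2 * s - 2 - 1) + B * N ^ (2 * s - 2 - 1) +
          D * N ^ (-(max 0 (3 - 2 * s))))) * F := by
        exact QE_comb (by positivity) (by positivity) (by positivity) (by positivity) F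
    _ ≤ ENNReal.ofReal (256 * (2 * A + 2 * B + D) * N ^ (1 - 2 * s)) * F := by
        gcongr

end FracScatC

end
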