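import Pool.Agent.Lib.MP_6e2ba5_an.Ex.MopB
import Pool.Agent.Lib.MP_6e2ba5_an.Ex.SymNB
import Pool.Agent.Lib.MP_6e2ba5_an.Cx.A3Four

/-! # The cut off resolvent on the negative axis as an inverse Fourier integral

The same statements and proofs as in `Cx/KopRep.lean` (`Kop_rep`, `Kop_Bd`) and `Cx/A3Four.lean`
(`A3_eK`, `A3_KK`), with `gs s (2r) k` replaced by the symbol `mN s (2π‖ξ‖)` (`BM` by `rsE_BM2`,
`km_mem_Sec2`; in `L²` by `mN_memLp`; `mNH_coe`), `Kop` by `Mop` and `PL` by `PLN`. -/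

set_option autoImplicit false

open MeasureTheory Filter Topology Set
open scoped FourierTransform SchwartzMap InnerProductSpace ENNReal BoundedContinuousFunction

noncomputable section

namespace FracScatC

open FracScat

private theorem RepN_norm_indB (r : ℝ) (x : E3) : ‖indB r x‖ ≤ 1 := by
  unfold indB
  split_ifs <;> simp

private theorem RepN_add (ξ ζ x : E3) : efun ξ x * efun ζ x = efun (ξ + ζ) x := by
  unfold efun
  rw [← Complex.exp_add, inner_add_left]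
  congr 1
  push_cast
  ring

private theorem RepN_ft (W : E3 → ℂ) (η : E3) : 𝓕 W η = ∫ x, efun (-η) x * W x := by
  rw [Real.fourier_eq']
  refine integral_congr_ae (Eventually.of_forall fun x => ?_)
  beta_reduce
  unfold efun
  rw [smul_eq_mul, inner_neg_left, real_inner_comm]
  congr 3
  push_cast
  ring

private theorem RepN_cont : Continuous fun p : E3 × E3 => efun p.2 p.1 := by
  unfold efun
  fun_prop

private theorem RepN_int {W P : E3 → ℂ} (hW : Integrable W) (hP : Integrable P) :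
    Integrable (fun p : E3 × E3 => efun p.2 p.1 * (W p.1 * P p.2))
      ((volume : Measure E3).prod (volume : Measure E3)) :=
  (hW.mul_prod hP).bdd_mul (c := 1) RepN_cont.aestronglyMeasurable
    (Eventually.of_forall fun p => (norm_efun p.2 p.1).le)

private theorem RepN_swap {W P : E3 → ℂ} (hW : Integrable W) (hP : Integrable P) :
    ∫ x, W x * ∫ ζ, efun ζ x * P ζ = ∫ ζ, P ζ * ∫ x, efun ζ x * W x := by
  have h := integral_integral_swap (f := fun x ζ => efun ζ x * (W x * P ζ)) (RepN_int hW hP)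
  have h1 : ∀ x : E3, W x * ∫ ζ, efun ζ x * P ζ = ∫ ζ, efun ζ x * (W x * P ζ) := by
    intro x
    rw [← integral_const_mul]
    refine integral_congr_ae (Eventually.of_forall fun ζ => ?_)
    beta_reduce
    ring
  have h2 : ∀ ζ : E3, P ζ * ∫ x, efun ζ x * W x = ∫ x, efun ζ x * (W x * P ζ) := by
    intro ζ
    rw [← integral_const_mul]
    refine integral_congr_ae (Eventually.of_forall fun x => ?_)
    beta_reduce
    ring
  simp only [h1, h2]
  exact h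

private theorem RepN_mod {W : E3 → ℂ} (hW : Integrable W) (ξ : E3) :
    Integrable fun x => efun ξ x * W x :=
  hW.bdd_mul (c := 1) (efun_cont ξ).aestronglyMeasurable
    (Eventually.of_forall fun x => (norm_efun ξ x).le)

private theorem RepN_mod_ft (W : E3 → ℂ) (ξ ζ : E3) :
    ∫ x, efun ζ x * (efun ξ x * W x) = 𝓕 W (-ζ - ξ) := by
  rw [RepN_ft]
  refine integral_congr_ae (Eventually.of_forall fun x => ?_)
  beta_reduce
  rw [← mul_assoc, RepN_add]
  congr 2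
  abel

private theorem RepN_prod {W P : E3 → ℂ} (hW : Integrable W) (hP : Integrable P) :
    Integrable fun x => W x * ∫ ζ, efun ζ x * P ζ := by
  refine (RepN_int hW hP).integral_prod_left.congr (Eventually.of_forall fun x => ?_)
  beta_reduce
  rw [← integral_const_mul]
  refine integral_congr_ae (Eventually.of_forall fun ζ => ?_)
  beta_reduce
  ring

private theorem RepN_W {r : ℝ} {W : HS} (hW : W ∈ HB r) :
    ∀ᵐ x ∂(volume : Measure E3), indB r x * (W : E3 → ℂ) x = (W : E3 → ℂ) x := by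
  have h := mulL_coe (indB_BM r) W
  rw [mem_HB.1 hW] at h
  filter_upwards [h] with x hx
  exact hx.symm

theorem Mop_rep {s : ℝ} (h0 : 3 / 4 < s) (h1 : s < 1) (r : ℝ) {ξ : E3} (hξ : ξ ≠ 0) {g : HS}
    (hg : mulL (indB r) g = g) :
    (Mop s r (km ξ) g : E3 → ℂ) =ᵐ[volume] fun x =>
      indB r x * ∫ ζ, efun ζ x * (PLN s ξ g : E3 → ℂ) ζ := by
  have ht : 0 < 2 * Real.pi * ‖ξ‖ := by
    have := norm_pos_iff.mpr hξ
    positivity
  have hk1 : MemLp (mN s (2 * Real.pi * ‖ξ‖)) 2 (volume : Measure E3) := mN_memLp h0 h1 ht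
  have hBM : BM (rsE s (km ξ)) := rsE_BM2 (by linarith) h1 (km_mem_Sec2 hξ)
  have hmul : (mulL (rsE s (km ξ)) (FT g) : E3 → ℂ) =ᵐ[volume]
      (PLN s ξ g : E3 → ℂ) := by
    filter_upwards [mulL_coe hBM (FT g), prodL_coe (mNH s (2 * Real.pi * ‖ξ‖)) (FT g),
      mNH_coe hk1] with x a b c
    rw [a, PLN_apply, b, c]
    rfl
  have hint : Integrable (mulL (rsE s (km ξ)) (FT g) : E3 → ℂ) :=
    (L1.integrable_coeFn (PLN s ξ g)).congr hmul.symm
  have h2 := FTsymm_coe_of_integrable _ hint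
  have h3 : Mop s r (km ξ) g =
      mulL (indB r) (FT.symm (mulL (rsE s (km ξ)) (FT g))) := by
    show mulL (indB r) (multL (rsE s (km ξ)) (mulL (indB r) g)) = _
    rw [hg, multL_apply]
  rw [h3]
  filter_upwards [mulL_coe (indB_BM r) (FT.symm (mulL (rsE s (km ξ)) (FT g))), h2]
    with x a b
  rw [a, b, Real.fourierInv_eq']
  congr 1
  apply integral_congr_ae
  filter_upwards [hmul] with ζ c
  rw [smul_eq_mul, c, efun]

theorem Mop_Bd {s : ℝ} (h0 : 3 / 4 < s) (h1 : s < 1) (r : ℝ) {ξ : E3} (hξ : ξ ≠ 0) {g : HS}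
    (hg : mulL (indB r) g = g) : Bd ‖PLN s ξ g‖ (Mop s r (km ξ) g) := by
  filter_upwards [Mop_rep h0 h1 r hξ hg] with x a
  rw [a, norm_mul, L1.norm_eq_integral_norm]
  have e : ∫ ζ, ‖efun ζ x * (PLN s ξ g : E3 → ℂ) ζ‖ = ∫ ζ, ‖(PLN s ξ g : E3 → ℂ) ζ‖ := by
    congr 1
    funext ζ
    rw [norm_mul, norm_efun, one_mul]
  calc ‖indB r x‖ * ‖∫ ζ, efun ζ x * (PLN s ξ g : E3 → ℂ) ζ‖
      ≤ 1 * ∫ ζ, ‖efun ζ x * (PLN s ξ g : E3 → ℂ) ζ‖ :=
        mul_le_mul (RepN_norm_indB r x) (norm_integral_le_integral_norm _) (norm_nonneg _)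
          zero_le_one
    _ = ∫ ζ, ‖(PLN s ξ g : E3 → ℂ) ζ‖ := by rw [one_mul, e]

theorem A3_eM {s : ℝ} (h0 : 3 / 4 < s) (h1 : s < 1) {r : ℝ} {ξ : E3} (hξ : ξ ≠ 0) {W : HS}
    (hW : W ∈ HB r) {g : HS} (hg : mulL (indB r) g = g) :
    A3 W (eH r ξ) (Mop s r (km ξ) g) = lam ξ (PLN s ξ g) (ftX W) := by
  have hWi := HB_integrable hW
  have hP : Integrable (PLN s ξ g : E3 → ℂ) := L1.integrable_coeFn _
  have e1 : A3 W (eH r ξ) (Mop s r (km ξ) g) =
      ∫ x, (efun ξ x * (W : E3 → ℂ) x) * ∫ ζ, efun ζ x * (PLN s ξ g : E3 → ℂ) ζ := by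
    unfold A3
    refine integral_congr_ae ?_
    filter_upwards [RepN_W hW, eH_coe r ξ, Mop_rep h0 h1 r hξ hg] with x a1 a2 a3
    rw [a2, a3]
    have a4 : (W : E3 → ℂ) x * (efun ξ x * indB r x *
        (indB r x * ∫ ζ, efun ζ x * (PLN s ξ g : E3 → ℂ) ζ)) =
        efun ξ x * (indB r x * (indB r x * (W : E3 → ℂ) x)) *
          ∫ ζ, efun ζ x * (PLN s ξ g : E3 → ℂ) ζ := by ring
    rw [a4, a1, a1]
  rw [e1, RepN_swap (RepN_mod hWi ξ) hP]
  unfold lam
  refine integral_congr_ae (Eventually.of_forall fun ζ => ?_)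
  beta_reduce
  rw [RepN_mod_ft, ftX_apply hWi]

theorem A3_MM {s : ℝ} (h0 : 3 / 4 < s) (h1 : s < 1) {r : ℝ} {ξ : E3} (hξ : ξ ≠ 0) {W : HS}
    (hW : W ∈ HB r) {g₁ g₂ : HS} (hg₁ : mulL (indB r) g₁ = g₁) (hg₂ : mulL (indB r) g₂ = g₂) :
    A3 W (Mop s r (km ξ) g₁) (Mop s r (km ξ) g₂) = bet (PLN s ξ g₁) (PLN s ξ g₂) (ftX W) := by
  have hWi := HB_integrable hW
  have hP1 : Integrable (PLN s ξ g₁ : E3 → ℂ) := L1.integrable_coeFn _
  have hP2 : Integrable (PLN s ξ g₂ : E3 → ℂ) := L1.integrable_coeFn _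
  have e1 : A3 W (Mop s r (km ξ) g₁) (Mop s r (km ξ) g₂) =
      ∫ x, ((W : E3 → ℂ) x * ∫ ζ, efun ζ x * (PLN s ξ g₂ : E3 → ℂ) ζ) *
        ∫ ζ, efun ζ x * (PLN s ξ g₁ : E3 → ℂ) ζ := by
    unfold A3
    refine integral_congr_ae ?_
    filter_upwards [RepN_W hW, Mop_rep h0 h1 r hξ hg₁, Mop_rep h0 h1 r hξ hg₂] with x a1 a2 a3
    rw [a2, a3]
    have a4 : (W : E3 → ℂ) x * (indB r x * (∫ ζ, efun ζ x * (PLN s ξ g₁ : E3 → ℂ) ζ) *
        (indB r x * ∫ ζ, efun ζ x * (PLN s ξ g₂ : E3 → ℂ) ζ)) =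
        ((indB r x * (indB r x * (W : E3 → ℂ) x)) *
          ∫ ζ, efun ζ x * (PLN s ξ g₂ : E3 → ℂ) ζ) *
          ∫ ζ, efun ζ x * (PLN s ξ g₁ : E3 → ℂ) ζ := by ring
    rw [a4, a1, a1]
  rw [e1, RepN_swap (RepN_prod hWi hP2) hP1]
  unfold bet
  refine integral_congr_ae (Eventually.of_forall fun ζ₁ => ?_)
  beta_reduce
  congr 1
  have e2 : (∫ x, efun ζ₁ x * ((W : E3 → ℂ) x * ∫ ζ, efun ζ x * (PLN s ξ g₂ : E3 → ℂ) ζ)) =
      ∫ x, (efun ζ₁ x * (W : E3 → ℂ) x) * ∫ ζ, efun ζ x * (PLN s ξ g₂ : E3 → ℂ) ζ :=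
    integral_congr_ae (Eventually.of_forall fun x => (mul_assoc _ _ _).symm)
  rw [e2, RepN_swap (RepN_mod hWi ζ₁) hP2]
  refine integral_congr_ae (Eventually.of_forall fun ζ₂ => ?_)
  beta_reduce
  have e3 : -ζ₁ - ζ₂ = -ζ₂ - ζ₁ := by abel
  rw [RepN_mod_ft, ftX_apply hWi, e3]

end FracScatC

end
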