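import Pool.Agent.Lib.MP_6e2ba5_an.Ex.NDefs

/-! # The symbol on the closed second quadrant

For `k ∈ Sec2`: `arg k ∈ [π/2, π]` and `k^(2s) = ‖k‖^(2s) exp(iφ)`, `φ = 2s arg k`
(`Complex.cpow_def_of_ne_zero`, `Complex.log`). With `x = a^(2s)`, `ρ = ‖k‖^(2s)`:
`|x - ρ e^(iφ)|² = (x+ρ)² - 4xρ cos²(φ/2) ≥ (x+ρ)² sin²(φ/2)`, as `4xρ ≤ (x+ρ)²`. `φ/2 = s arg k` is in
`[πs/2, πs]`, where `sin ≥ min (sin (πs/2)) (sin (πs)) > 0` (`sin` is concave on `[0,π]`, or increasing up to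
`π/2` and decreasing after). `mN_bound`: `k = -t ∈ Sec2`, `mN s t ζ = 1/((2π‖ζ‖)^(2s) - k^(2s))`, and
`(2π‖ζ‖)^(2s) + t^(2s) ≥ ‖ζ‖^(2s) + t^(2s) ≥ (‖ζ‖+t)^(2s)/4` (`2s ≤ 2`; one of the two is at least half of the
sum). -/

set_option autoImplicit false

open MeasureTheory Filter Topology Set
open scoped FourierTransform SchwartzMap InnerProductSpace ENNReal BoundedContinuousFunction

noncomputable section

namespace FracScatC

open FracScat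

private theorem symN_arg {k : ℂ} (hk : k ∈ Sec2) : Real.pi / 2 ≤ k.arg ∧ k.arg ≤ Real.pi := by
  obtain ⟨h1, h2, h3⟩ := hk
  refine ⟨?_, Complex.arg_le_pi k⟩
  by_contra hlt
  push Not at hlt
  have h0 : 0 ≤ k.arg := Complex.arg_nonneg_iff.mpr h2
  have hcos : 0 < Real.cos k.arg :=
    Real.cos_pos_of_mem_Ioo ⟨by have := Real.pi_pos; linarith, hlt⟩
  rw [Complex.cos_arg h3] at hcos
  have : 0 < k.re := by
    have hn : 0 < ‖k‖ := norm_pos_iff.mpr h3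
    rwa [div_pos_iff_of_pos_right hn] at hcos
  linarith

theorem symN {s : ℝ} (h0 : 1 / 2 < s) (h1 : s < 1) : ∃ c : ℝ, 0 < c ∧ ∀ k ∈ Sec2, ∀ a : ℝ, 0 ≤ a →
    c * (a ^ (2 * s) + ‖k‖ ^ (2 * s)) ≤ ‖((a ^ (2 * s) : ℝ) : ℂ) - k ^ ((2 * s : ℝ) : ℂ)‖ := by
  have hpi := Real.pi_pos
  have hs1 : 0 < Real.sin (Real.pi * s / 2) :=
    Real.sin_pos_of_pos_of_lt_pi (by positivity) (by nlinarith)
  have hs2 : 0 < Real.sin (Real.pi * s) :=
    Real.sin_pos_of_pos_of_lt_pi (by positivity) (by nlinarith)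
  refine ⟨min (Real.sin (Real.pi * s / 2)) (Real.sin (Real.pi * s)), lt_min hs1 hs2, ?_⟩
  intro k hk a ha
  obtain ⟨hA1, hA2⟩ := symN_arg hk
  set c := min (Real.sin (Real.pi * s / 2)) (Real.sin (Real.pi * s)) with hc
  have hc0 : 0 < c := lt_min hs1 hs2
  have hsin : c ≤ Real.sin (s * k.arg) := by
    have hconc : ConcaveOn ℝ (Set.Icc 0 Real.pi) Real.sin := strictConcaveOn_sin_Icc.concaveOn
    have hseg : s * k.arg ∈ segment ℝ (Real.pi * s / 2) (Real.pi * s) := by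
      rw [segment_eq_Icc (by nlinarith)]
      constructor
      · nlinarith
      · nlinarith
    exact hconc.ge_on_segment ⟨by positivity, by nlinarith⟩ ⟨by positivity, by nlinarith⟩ hseg
  set x := a ^ (2 * s) with hx
  set ρ := ‖k‖ ^ (2 * s) with hρ
  have hx0 : 0 ≤ x := Real.rpow_nonneg ha _
  have hρ0 : 0 ≤ ρ := Real.rpow_nonneg (norm_nonneg _) _
  have hsq : ‖((x : ℝ) : ℂ) - k ^ ((2 * s : ℝ) : ℂ)‖ ^ 2 =
      (x + ρ) ^ 2 - 4 * x * ρ * Real.cos (s * k.arg) ^ 2 := by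
    rw [← Complex.normSq_eq_norm_sq, Complex.normSq_apply, Complex.sub_re, Complex.sub_im,
      Complex.cpow_ofReal_re, Complex.cpow_ofReal_im, Complex.ofReal_re, Complex.ofReal_im, ← hρ]
    have e : k.arg * (2 * s) = 2 * (s * k.arg) := by ring
    rw [e, Real.cos_two_mul, Real.sin_two_mul]
    have h5 := Real.sin_sq_add_cos_sq (s * k.arg)
    have h6 : Real.sin (s * k.arg) ^ 2 = 1 - Real.cos (s * k.arg) ^ 2 := by linarith
    linear_combination (4 * ρ ^ 2 * Real.cos (s * k.arg) ^ 2) * h6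
  have hle : (c * (x + ρ)) ^ 2 ≤ ‖((x : ℝ) : ℂ) - k ^ ((2 * s : ℝ) : ℂ)‖ ^ 2 := by
    rw [hsq]
    have h5 := Real.sin_sq_add_cos_sq (s * k.arg)
    have h6 : c ^ 2 ≤ Real.sin (s * k.arg) ^ 2 := pow_le_pow_left₀ hc0.le hsin 2
    have h7 : 4 * x * ρ ≤ (x + ρ) ^ 2 := by nlinarith [sq_nonneg (x - ρ)]
    have h8 : 4 * x * ρ * Real.cos (s * k.arg) ^ 2 ≤ (x + ρ) ^ 2 * Real.cos (s * k.arg) ^ 2 :=
      mul_le_mul_of_nonneg_right h7 (sq_nonneg _)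
    have h9 : (x + ρ) ^ 2 * c ^ 2 ≤ (x + ρ) ^ 2 * Real.sin (s * k.arg) ^ 2 :=
      mul_le_mul_of_nonneg_left h6 (sq_nonneg _)
    have h10 : (x + ρ) ^ 2 * Real.sin (s * k.arg) ^ 2 +
        (x + ρ) ^ 2 * Real.cos (s * k.arg) ^ 2 = (x + ρ) ^ 2 := by
      rw [← mul_add, h5, mul_one]
    nlinarith
  exact (abs_le_of_sq_le_sq' hle (norm_nonneg _)).2

theorem mN_bound {s : ℝ} (h0 : 1 / 2 < s) (h1 : s < 1) : ∃ C : ℝ, 0 ≤ C ∧ ∀ t : ℝ, 0 < t →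
    ∀ ζ : E3, ‖mN s t ζ‖ ≤ C * (‖ζ‖ + t) ^ (-(2 * s)) := by
  obtain ⟨c, hc, H⟩ := symN h0 h1
  refine ⟨4 / c, by positivity, ?_⟩
  intro t ht ζ
  have hk : ((-t : ℝ) : ℂ) ∈ Sec2 := by
    refine ⟨?_, ?_, ?_⟩
    · rw [Complex.ofReal_re]; linarith
    · rw [Complex.ofReal_im]
    · rw [Ne, Complex.ofReal_eq_zero]; linarith
  have hpi := Real.pi_pos
  have hpi3 := Real.pi_gt_three
  have h2 := H _ hk (2 * Real.pi * ‖ζ‖) (by positivity)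
  have hnt : ‖((-t : ℝ) : ℂ)‖ = t := by
    rw [Complex.norm_real, norm_neg, Real.norm_of_nonneg ht.le]
  rw [hnt] at h2
  have hz : 0 ≤ ‖ζ‖ := norm_nonneg ζ
  have h3 : ‖ζ‖ ^ (2 * s) ≤ (2 * Real.pi * ‖ζ‖) ^ (2 * s) :=
    Real.rpow_le_rpow hz (by nlinarith) (by linarith)
  have hpos : 0 < ‖ζ‖ + t := by positivity
  have h4 : (‖ζ‖ + t) ^ (2 * s) / 4 ≤ ‖ζ‖ ^ (2 * s) + t ^ (2 * s) := by
    have e1 : ((‖ζ‖ + t) / 2) ^ (2 * s) = (‖ζ‖ + t) ^ (2 * s) / 2 ^ (2 * s) :=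
      Real.div_rpow hpos.le (by norm_num) _
    have e2 : (2 : ℝ) ^ (2 * s) ≤ 4 := by
      calc (2 : ℝ) ^ (2 * s) ≤ (2 : ℝ) ^ (2 : ℝ) :=
            Real.rpow_le_rpow_of_exponent_le (by norm_num) (by linarith)
        _ = 4 := by norm_num
    have e3 : (‖ζ‖ + t) ^ (2 * s) / 4 ≤ ((‖ζ‖ + t) / 2) ^ (2 * s) := by
      rw [e1]
      exact div_le_div_of_nonneg_left (Real.rpow_nonneg hpos.le _) (by positivity) e2
    have n1 : 0 ≤ ‖ζ‖ ^ (2 * s) := Real.rpow_nonneg hz _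
    have n2 : 0 ≤ t ^ (2 * s) := Real.rpow_nonneg ht.le _
    refine e3.trans ?_
    rcases le_total ‖ζ‖ t with h | h
    · have := Real.rpow_le_rpow (by positivity) (show (‖ζ‖ + t) / 2 ≤ t by linarith)
        (show 0 ≤ 2 * s by linarith)
      linarith
    · have := Real.rpow_le_rpow (by positivity) (show (‖ζ‖ + t) / 2 ≤ ‖ζ‖ by linarith)
        (show 0 ≤ 2 * s by linarith)
      linarith
  have h5 : c * ((‖ζ‖ + t) ^ (2 * s) / 4) ≤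
      ‖(((2 * Real.pi * ‖ζ‖) ^ (2 * s) : ℝ) : ℂ) - ((-t : ℝ) : ℂ) ^ ((2 * s : ℝ) : ℂ)‖ := by
    refine le_trans (mul_le_mul_of_nonneg_left ?_ hc.le) h2
    linarith
  have hp : 0 < (‖ζ‖ + t) ^ (2 * s) := Real.rpow_pos_of_pos hpos _
  have h6 : 0 < c * ((‖ζ‖ + t) ^ (2 * s) / 4) := by positivity
  unfold mN rsE rs
  rw [norm_div, norm_one]
  refine (one_div_le_one_div_of_le h6 h5).trans (le_of_eq ?_)
  rw [Real.rpow_neg hpos.le]
  field_simp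

theorem mN_measurable (s t : ℝ) : Measurable (mN s t) := by
  have h1 : Measurable (fun a : ℝ => rs s ((-t : ℝ) : ℂ) a) := by
    unfold rs
    fun_prop
  have h2 : Measurable (fun ξ : E3 => 2 * Real.pi * ‖ξ‖) := measurable_norm.const_mul _
  exact h1.comp h2

end FracScatC

end
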