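import Pool.Agent.Lib.MP_6e2ba5_an.Ex.QEst
import Pool.Agent.Lib.MP_6e2ba5_an.Ex.LamE

/-! # The quadratic term for `s > 1`

`G ξ = ofReal C · BQ s ‖ftX (dH r W)‖ₑ ‖ftX (dH r V)‖ₑ ξ` with `C` from `lamE` (`N ≥ 1`, so `‖ξ‖ ≥ 1` on the
shell). Measurable by `BQ_measurable` (`ftX _` is continuous). `QEst` and `ftX_sq` bound the integral of
the square; the norms of `dH r V`, `dH r W` are constants here. -/

set_option autoImplicit false

open MeasureTheory Filter Topology Set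
open scoped FourierTransform SchwartzMap InnerProductSpace ENNReal BoundedContinuousFunction

noncomputable section

namespace FracScatC

open FracScat

theorem tailP {s : ℝ} (h1 : 1 < s) (h2 : s < 2) {r M : ℝ} (hr : 0 < r) {V W : E3 → ℂ}
    (hV : IsPot r M V) (hW : IsPot r M W) :
    ∃ C : ℝ, 0 ≤ C ∧ ∀ N : ℝ, 1 ≤ N → ShB N (C * N ^ (1 - 2 * s))
      (fun ξ => A3 (dH r W) (eH r ξ) (Kop s r (kx ξ) (mulL V (eH r ξ)))) := by
  obtain ⟨C1, hC1, hlam⟩ := lamE h1 h2 hr.le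
  obtain ⟨C2, hC2, hQ⟩ := QEst h1 h2
  have hf : Measurable (fun η : E3 => ‖ftX (dH r W) η‖ₑ) :=
    (ftX (dH r W)).continuous.measurable.enorm
  have hh : Measurable (fun η : E3 => ‖ftX (dH r V) η‖ₑ) :=
    (ftX (dH r V)).continuous.measurable.enorm
  refine ⟨C1 ^ 2 * (C2 * (‖dH r W‖ ^ 2 * ‖dH r V‖ ^ 2)), by positivity, fun N hN => ?_⟩
  have hBQ := BQ_measurable s hf hh
  refine ⟨fun ξ => ENNReal.ofReal C1 *
    BQ s (fun η => ‖ftX (dH r W) η‖ₑ) (fun η => ‖ftX (dH r V) η‖ₑ) ξ, hBQ.const_mul _,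
    fun ξ hξ => hlam M V W hV hW ξ (hN.trans hξ.1.le), ?_⟩
  have hNp : (0 : ℝ) ≤ N ^ (1 - 2 * s) := Real.rpow_nonneg (by linarith) _
  calc ∫⁻ ξ in Sh N, (ENNReal.ofReal C1 *
        BQ s (fun η => ‖ftX (dH r W) η‖ₑ) (fun η => ‖ftX (dH r V) η‖ₑ) ξ) ^ 2
      = ENNReal.ofReal C1 ^ 2 * ∫⁻ ξ in Sh N,
        BQ s (fun η => ‖ftX (dH r W) η‖ₑ) (fun η => ‖ftX (dH r V) η‖ₑ) ξ ^ 2 := by
        rw [← lintegral_const_mul _ (hBQ.pow_const 2)]
        refine lintegral_congr fun ξ => ?_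
        rw [mul_pow]
    _ ≤ ENNReal.ofReal C1 ^ 2 * (ENNReal.ofReal (C2 * N ^ (1 - 2 * s)) *
        ((∫⁻ p, ‖ftX (dH r W) p‖ₑ ^ 2) * ∫⁻ q, ‖ftX (dH r V) q‖ₑ ^ 2)) := by
        gcongr
        exact hQ N hN _ _ hf hh
    _ = ENNReal.ofReal (C1 ^ 2 * (C2 * (‖dH r W‖ ^ 2 * ‖dH r V‖ ^ 2)) * N ^ (1 - 2 * s)) := by
        rw [ftX_sq hW, ftX_sq hV, ← ofReal_norm_eq_enorm, ← ofReal_norm_eq_enorm,
          ← ENNReal.ofReal_pow hC1, ← ENNReal.ofReal_pow (norm_nonneg _),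
          ← ENNReal.ofReal_pow (norm_nonneg _), ← ENNReal.ofReal_mul (by positivity),
          ← ENNReal.ofReal_mul (by positivity), ← ENNReal.ofReal_mul (by positivity)]
        congr 1
        ring

end FracScatC

end
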